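import Pool.Agent.H738R3.CZ.Defs

/-! AVD: avoiding the zeros by a broken line (proof: helper439) -/

open Complex Set Filter Topology

namespace H738CZ

theorem AVD_countable (ρ : ℂ → ℂ) (c : ℂ) (R : ℝ) (a : ℂ)
    (hρ : DifferentiableOn ℂ ρ (Metric.ball c R)) (ha : a ∈ Metric.ball c R) (h0 : ρ a ≠ 0) :
    {z | z ∈ Metric.ball c R ∧ ρ z = 0}.Countable := by
  have han : AnalyticOnNhd ℂ ρ (Metric.ball c R) := hρ.analyticOnNhd Metric.isOpen_ball
  have hpre : IsPreconnected (Metric.ball c R) := (convex_ball c R).isPreconnected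
  rcases han.eqOn_zero_or_eventually_ne_zero_of_preconnected hpre with h | h
  · exact absurd (h ha) h0
  · have h1 : ({z | ρ z = 0} : Set ℂ)ᶜ ∈ codiscreteWithin (Metric.ball c R) := h
    have h2 := isDiscrete_of_codiscreteWithin h1
    have h3 : IsLindelof ({z | ρ z = 0} ∩ Metric.ball c R) :=
      HereditarilyLindelofSpace.isLindelof _
    have h4 := h3.countable_of_isDiscrete h2
    exact h4.mono (fun z (hz : z ∈ Metric.ball c R ∧ ρ z = 0) => And.intro hz.2 hz.1)

theorem tAVD : StAVD := by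
  intro ρ c R a b hρ ha hb ha0 hb0
  by_cases hab : a = b
  · subst hab
    refine ⟨a, ?_, ?_⟩ <;>
    · rw [segment_same]
      rintro _ rfl
      exact ⟨ha, ha0⟩
  have hZ := AVD_countable ρ c R a hρ ha ha0
  set Z := {z | z ∈ Metric.ball c R ∧ ρ z = 0} with hZdef
  set φ₁ : ℂ → ℝ := fun z => ((z - a) / (b - a)).im / (2 * ((z - a) / (b - a)).re) with hφ₁
  set φ₂ : ℂ → ℝ := fun z => -((z - b) / (b - a)).im / (2 * ((z - b) / (b - a)).re) with hφ₂
  have hbad : (φ₁ '' Z ∪ φ₂ '' Z).Countable := (hZ.image φ₁).union (hZ.image φ₂)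
  have hba : b - a ≠ 0 := sub_ne_zero.2 (Ne.symm hab)
  -- the points p_s
  set p : ℝ → ℂ := fun s => (a + b) / 2 + (s : ℂ) * I * (b - a) with hp
  have hp0 : p 0 ∈ Metric.ball c R := by
    have h1 := (convex_ball c R) ha hb (show (0 : ℝ) ≤ 1 / 2 by norm_num)
      (show (0 : ℝ) ≤ 1 / 2 by norm_num) (by norm_num)
    have h2 : p 0 = (1 / 2 : ℝ) • a + (1 / 2 : ℝ) • b := by
      rw [hp]
      simp only [Complex.real_smul]
      push_cast
      ring
    rw [h2]
    exact h1
  have hpc : Continuous p := by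
    rw [hp]
    fun_prop
  have hpe : ∀ᶠ s in 𝓝 (0 : ℝ), p s ∈ Metric.ball c R :=
    hpc.continuousAt.eventually (Metric.isOpen_ball.mem_nhds hp0)
  obtain ⟨ε, hε, hεp⟩ := Metric.eventually_nhds_iff.1 hpe
  have hex : ∃ s ∈ Ioo (0 : ℝ) ε, s ∉ φ₁ '' Z ∪ φ₂ '' Z := by
    by_contra hcon
    push Not at hcon
    have h1 := (hbad.mono hcon).measure_zero MeasureTheory.volume
    rw [Real.volume_Ioo, sub_zero, ENNReal.ofReal_eq_zero] at h1
    linarith
  obtain ⟨s, hs, hsb⟩ := hex
  have hps : p s ∈ Metric.ball c R := by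
    apply hεp
    rw [Real.dist_eq, sub_zero, abs_of_pos hs.1]
    exact hs.2
  refine ⟨p s, ?_, ?_⟩
  · intro z hz
    refine ⟨(convex_ball c R).segment_subset ha hps hz, fun hz0 => ?_⟩
    have hzZ : z ∈ Z := ⟨(convex_ball c R).segment_subset ha hps hz, hz0⟩
    rw [segment_eq_image_lineMap] at hz
    obtain ⟨t, ht, rfl⟩ := hz
    have ht0 : t ≠ 0 := by
      rintro rfl
      rw [AffineMap.lineMap_apply_zero] at hz0
      exact ha0 hz0
    apply hsb
    left
    refine ⟨_, hzZ, ?_⟩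
    have e1 : (AffineMap.lineMap a (p s) t - a) / (b - a) = (t : ℂ) * (1 / 2 + s * I) := by
      rw [AffineMap.lineMap_apply, vsub_eq_sub, vadd_eq_add, add_sub_cancel_right,
        Complex.real_smul, hp]
      field_simp
      ring
    have e2 : ((t : ℂ) * (1 / 2 + s * I)) = ((t / 2 : ℝ) : ℂ) + ((t * s : ℝ) : ℂ) * I := by
      push_cast; ring
    simp only [hφ₁]
    rw [e1, e2]
    simp only [add_im, ofReal_im, mul_im, ofReal_re, I_im, mul_one, I_re, mul_zero, add_zero,
      zero_add, add_re, mul_re, sub_self, zero_mul]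
    field_simp
  · intro z hz
    refine ⟨(convex_ball c R).segment_subset hps hb hz, fun hz0 => ?_⟩
    have hzZ : z ∈ Z := ⟨(convex_ball c R).segment_subset hps hb hz, hz0⟩
    rw [segment_symm, segment_eq_image_lineMap] at hz
    obtain ⟨t, ht, rfl⟩ := hz
    have ht0 : t ≠ 0 := by
      rintro rfl
      rw [AffineMap.lineMap_apply_zero] at hz0
      exact hb0 hz0
    apply hsb
    right
    refine ⟨_, hzZ, ?_⟩
    have e1 : (AffineMap.lineMap b (p s) t - b) / (b - a) = (t : ℂ) * (-1 / 2 + s * I) := by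
      rw [AffineMap.lineMap_apply, vsub_eq_sub, vadd_eq_add, add_sub_cancel_right,
        Complex.real_smul, hp]
      field_simp
      ring
    have e2 : ((t : ℂ) * (-1 / 2 + s * I)) = ((-t / 2 : ℝ) : ℂ) + ((t * s : ℝ) : ℂ) * I := by
      push_cast; ring
    simp only [hφ₂]
    rw [e1, e2]
    simp only [add_im, ofReal_im, mul_im, ofReal_re, I_im, mul_one, I_re, mul_zero, add_zero,
      zero_add, add_re, mul_re, sub_self, zero_mul]
    field_simp

end H738CZ
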