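import Pool.Agent.H738R3.CZ.Defs

/-! # Task EX1: square roots of power series -/

open Complex Set Filter Topology

namespace H738CZ

/-- the coefficients of the square root -/
noncomputable def EX1_a {A : Type} [CommRing A] (r h : A) (g : ℕ → A) : ℕ → A
  | 0 => r
  | n + 1 => h * (g (n + 1) - ∑ i : Fin n, EX1_a r h g (i.1 + 1) * EX1_a r h g (n - i.1))
  termination_by n => n
  decreasing_by
    · omega
    · omega

theorem EX1_zero {A : Type} [CommRing A] (r h : A) (g : ℕ → A) : EX1_a r h g 0 = r := by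
  rw [EX1_a]

theorem EX1_succ {A : Type} [CommRing A] (r h : A) (g : ℕ → A) (n : ℕ) :
    EX1_a r h g (n + 1) = h * (g (n + 1) -
      ∑ i ∈ Finset.range n, EX1_a r h g (i + 1) * EX1_a r h g (n - i)) := by
  rw [EX1_a, Finset.sum_range]

theorem EX1_exists {A : Type} [CommRing A] (r h : A) (hh : 2 * r * h = 1) (γ : PowerSeries A)
    (hγ : PowerSeries.constantCoeff γ = r ^ 2) :
    ∃ η : PowerSeries A, η ^ 2 = γ ∧ PowerSeries.constantCoeff η = r := by
  set a := EX1_a r h (fun n => PowerSeries.coeff n γ) with ha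
  refine ⟨PowerSeries.mk a, ?_, ?_⟩
  · ext n
    rw [pow_two, PowerSeries.coeff_mul]
    simp only [PowerSeries.coeff_mk]
    rw [Finset.Nat.sum_antidiagonal_eq_sum_range_succ (fun i j => a i * a j) n]
    rcases n with _ | n
    · rw [Finset.sum_range_one, Nat.sub_zero, ha, EX1_zero, PowerSeries.coeff_zero_eq_constantCoeff_apply,
        hγ, pow_two]
    · rw [Finset.sum_range_succ', Finset.sum_range_succ, Nat.sub_zero, Nat.sub_self]
      have h1 : a 0 = r := EX1_zero _ _ _
      have h2 : a (n + 1) = h * (PowerSeries.coeff (n + 1) γ -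
          ∑ i ∈ Finset.range n, a (i + 1) * a (n - i)) := EX1_succ _ _ _ _
      have h3 : ∑ x ∈ Finset.range n, a (x + 1) * a (n + 1 - (x + 1)) =
          ∑ i ∈ Finset.range n, a (i + 1) * a (n - i) := by
        apply Finset.sum_congr rfl
        intro i _
        rw [Nat.add_sub_add_right]
      rw [h3, h1]
      generalize ∑ i ∈ Finset.range n, a (i + 1) * a (n - i) = S at h2 ⊢
      rw [h2]
      linear_combination (PowerSeries.coeff (n + 1) γ - S) * hh
  · rw [← PowerSeries.coeff_zero_eq_constantCoeff_apply, PowerSeries.coeff_mk]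
    exact EX1_zero _ _ _

theorem tEX1 : StEX1 := by
  intro A _ _ r ri hr γ hγ
  have h2 : (2 : A) * algebraMap ℂ A (1 / 2) = 1 := by
    have h : (2 : A) = algebraMap ℂ A 2 := by rw [map_ofNat]
    rw [h, ← map_mul]
    norm_num
  have hh : 2 * r * (ri * algebraMap ℂ A (1 / 2)) = 1 := by
    linear_combination (2 * algebraMap ℂ A (1 / 2)) * hr + h2
  refine ⟨EX1_exists r _ hh γ hγ, ?_⟩
  intro η η' h1 h1' h3 h3'
  have hu : IsUnit (η + η') := by
    rw [PowerSeries.isUnit_iff_constantCoeff, map_add, h3, h3']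
    exact IsUnit.of_mul_eq_one (ri * algebraMap ℂ A (1 / 2)) (by linear_combination hh)
  have h4 : (η - η') * (η + η') = 0 := by
    linear_combination h1 - h1'
  have h5 := hu.mul_left_eq_zero.1 h4
  exact sub_eq_zero.1 h5

end H738CZ
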