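import Pool.Agent.H738R3.CZ.Defs

open Complex Set Filter Topology

namespace H738CZ

theorem EX2_mul {A : Type} [CommRing A] (N : ℕ) (hN : Odd N) (f g : PowerSeries A)
    (hf : ∀ n < N, Odd n → PowerSeries.coeff n f = 0)
    (hg : ∀ n < N, Odd n → PowerSeries.coeff n g = 0) :
    (∀ n < N, Odd n → PowerSeries.coeff n (f * g) = 0) ∧
      PowerSeries.coeff N (f * g) = PowerSeries.coeff 0 f * PowerSeries.coeff N g +
        PowerSeries.coeff N f * PowerSeries.coeff 0 g := by
  constructor
  · intro n hn ho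
    rw [PowerSeries.coeff_mul]
    refine Finset.sum_eq_zero fun p hp => ?_
    rw [Finset.HasAntidiagonal.mem_antidiagonal] at hp
    rcases Nat.even_or_odd p.1 with h1 | h1
    · have h2 : Odd p.2 := by
        rw [← hp] at ho
        exact (Nat.odd_add.1 (by rwa [add_comm] at ho)).2 h1
      rw [hg p.2 (by omega) h2, mul_zero]
    · rw [hf p.1 (by omega) h1, zero_mul]
  · rw [PowerSeries.coeff_mul]
    have hN0 : N ≠ 0 := by
      rintro rfl
      exact (by decide : ¬ Odd 0) hN
    rw [Finset.sum_eq_add (0, N) (N, 0)]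
    · intro h
      rw [Prod.mk.injEq] at h
      exact hN0 h.2
    · intro p hp hne
      rw [Finset.HasAntidiagonal.mem_antidiagonal] at hp
      rcases Nat.even_or_odd p.1 with h1 | h1
      · have h2 : Odd p.2 := by
          rw [← hp] at hN
          exact (Nat.odd_add.1 (by rwa [add_comm] at hN)).2 h1
        have h3 : p.2 ≠ N := fun h => hne.1 (Prod.ext (by simp; omega) h)
        rw [hg p.2 (by omega) h2, mul_zero]
      · have h3 : p.1 ≠ N := fun h => hne.2 (Prod.ext h (by simp; omega))
        rw [hf p.1 (by omega) h1, zero_mul]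
    · intro h
      exact absurd (Finset.HasAntidiagonal.mem_antidiagonal.2 (by simp)) h
    · intro h
      exact absurd (Finset.HasAntidiagonal.mem_antidiagonal.2 (by simp)) h

theorem EX2_pow {A : Type} [CommRing A] (N : ℕ) (hN : Odd N) (f : PowerSeries A)
    (hf : ∀ n < N, Odd n → PowerSeries.coeff n f = 0) (n : ℕ) :
    (∀ m < N, Odd m → PowerSeries.coeff m (f ^ (n + 1)) = 0) ∧
      PowerSeries.coeff N (f ^ (n + 1)) =
        (n + 1) * (PowerSeries.coeff 0 f) ^ n * PowerSeries.coeff N f := by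
  induction n with
  | zero => simpa using hf
  | succ n ih =>
    have h1 := EX2_mul N hN (f ^ (n + 1)) f ih.1 hf
    rw [pow_succ f (n + 1)]
    refine ⟨h1.1, ?_⟩
    rw [h1.2, ih.2]
    have h2 : PowerSeries.coeff 0 (f ^ (n + 1)) = (PowerSeries.coeff 0 f) ^ (n + 1) := by
      rw [PowerSeries.coeff_zero_eq_constantCoeff, map_pow]
    rw [h2]
    push_cast
    ring

theorem tEX2 : StEX2 := by
  intro A _ _ r ri hr η ηi k J hJ hη hi he hk hk1
  have hη0 : PowerSeries.coeff 0 η = r := by
    rw [PowerSeries.coeff_zero_eq_constantCoeff]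
    exact hη
  have h2 : (algebraMap ℂ A (1 / 2)) * 2 = 1 := by
    have : (2 : A) = algebraMap ℂ A 2 := (map_ofNat (algebraMap ℂ A) 2).symm
    rw [this, ← map_mul]
    norm_num
  have hηi0 : PowerSeries.coeff 0 ηi = ri := by
    have h3 : r * PowerSeries.coeff 0 ηi = 1 := by
      rw [← hη0, PowerSeries.coeff_zero_eq_constantCoeff, ← map_mul, hi, map_one]
    calc PowerSeries.coeff 0 ηi = (r * ri) * PowerSeries.coeff 0 ηi := by rw [hr, one_mul]
      _ = ri * (r * PowerSeries.coeff 0 ηi) := by ring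
      _ = ri := by rw [h3, mul_one]
  -- odd coefficients of `η`
  have hodd : ∀ n, Odd n → n < 2 * J - 1 → PowerSeries.coeff n η = 0 := by
    intro n
    induction n using Nat.strong_induction_on with
    | _ n ih =>
      intro ho hn
      have h3 := (EX2_mul n ho η η (fun m hm hm1 => ih m hm hm1 (by omega))
        (fun m hm hm1 => ih m hm hm1 (by omega))).2
      obtain ⟨i, rfl⟩ := ho
      have h4 := he (i + 1) (by omega) (by omega)
      rw [show 2 * (i + 1) - 1 = 2 * i + 1 by omega, sq] at h4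
      rw [h4, hη0] at h3
      calc PowerSeries.coeff (2 * i + 1) η
          = (algebraMap ℂ A (1 / 2) * 2) * ((r * ri) * PowerSeries.coeff (2 * i + 1) η) := by
            rw [h2, hr, one_mul, one_mul]
        _ = algebraMap ℂ A (1 / 2) * ri *
            (r * PowerSeries.coeff (2 * i + 1) η + PowerSeries.coeff (2 * i + 1) η * r) := by ring
        _ = 0 := by rw [← h3, mul_zero]
  have hN : Odd (2 * J - 1) := ⟨J - 1, by omega⟩
  have hsq := (EX2_mul (2 * J - 1) hN η η (fun n hn ho => hodd n ho hn)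
    (fun n hn ho => hodd n ho hn)).2
  -- odd coefficients of `ηi`
  have hoddi : ∀ n, Odd n → n < 2 * J - 1 → PowerSeries.coeff n ηi = 0 := by
    intro n
    induction n using Nat.strong_induction_on with
    | _ n ih =>
      intro ho hn
      have h3 := (EX2_mul n ho η ηi (fun m hm hm1 => hodd m hm1 (by omega))
        (fun m hm hm1 => ih m hm hm1 (by omega))).2
      have hn0 : n ≠ 0 := by
        rintro rfl
        exact (by decide : ¬ Odd 0) ho
      rw [hi, PowerSeries.coeff_one, if_neg hn0, hη0, hodd n ho hn, zero_mul, add_zero] at h3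
      calc PowerSeries.coeff n ηi = (r * ri) * PowerSeries.coeff n ηi := by rw [hr, one_mul]
        _ = ri * (r * PowerSeries.coeff n ηi) := by ring
        _ = 0 := by rw [← h3, mul_zero]
  have hlast := (EX2_mul (2 * J - 1) hN η ηi (fun n hn ho => hodd n ho hn)
    (fun n hn ho => hoddi n ho hn)).2
  rw [hi, PowerSeries.coeff_one, if_neg (by omega), hη0, hηi0] at hlast
  have hηiN : PowerSeries.coeff (2 * J - 1) ηi =
      - (ri ^ 2 * PowerSeries.coeff (2 * J - 1) η) := by
    calc PowerSeries.coeff (2 * J - 1) ηi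
        = (r * ri) * PowerSeries.coeff (2 * J - 1) ηi := by rw [hr, one_mul]
      _ = ri * (r * PowerSeries.coeff (2 * J - 1) ηi + PowerSeries.coeff (2 * J - 1) η * ri) -
          ri ^ 2 * PowerSeries.coeff (2 * J - 1) η := by ring
      _ = _ := by rw [← hlast]; ring
  have hpow := EX2_pow (2 * J - 1) hN ηi (fun n hn ho => hoddi n ho hn) (2 * J)
  -- the product with `k`
  have hprod : PowerSeries.coeff (2 * J) (ηi ^ (2 * J + 1) * k) =
      PowerSeries.coeff (2 * J - 1) (ηi ^ (2 * J + 1)) := by
    rw [PowerSeries.coeff_mul, Finset.sum_eq_single (2 * J - 1, 1)]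
    · show _ * PowerSeries.coeff 1 k = _
      rw [hk1, mul_one]
    · intro p hp hne
      rw [Finset.HasAntidiagonal.mem_antidiagonal] at hp
      rcases Nat.even_or_odd p.1 with h1 | h1
      · obtain ⟨i, hi⟩ := h1
        have h3 : p.2 = 2 * (J - i) := by omega
        rw [h3, hk, mul_zero]
      · have h3 : p.1 ≠ 2 * J - 1 := fun h => hne (Prod.ext h (by simp; omega))
        have h4 : p.1 < 2 * J - 1 := by
          obtain ⟨i, hi⟩ := h1
          omega
        rw [hpow.1 p.1 h4 h1, zero_mul]
    · intro h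
      exact absurd (Finset.HasAntidiagonal.mem_antidiagonal.2 (by simp; omega)) h
  rw [hprod, hpow.2, hηi0, hηiN, sq η, hsq, hη0]
  have h5 : algebraMap ℂ A ((J : ℂ) + 1 / 2) = (J : A) + algebraMap ℂ A (1 / 2) := by
    rw [map_add, map_natCast]
  rw [h5]
  push_cast
  have h6 : ∀ y : A, (2 * (J : A) + 1) * ri ^ (2 * J) * -(ri ^ 2 * y) =
      -((J : A) + algebraMap ℂ A (1 / 2)) * ri ^ (2 * J + 3) * (r * y + y * r) := by
    intro y
    have h7 : ri ^ (2 * J + 3) * r = ri ^ (2 * J) * ri ^ 2 := by
      calc ri ^ (2 * J + 3) * r = ri ^ (2 * J) * ri ^ 2 * (r * ri) := by ring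
        _ = _ := by rw [hr, mul_one]
    calc (2 * (J : A) + 1) * ri ^ (2 * J) * -(ri ^ 2 * y)
        = -(2 * (J : A) + algebraMap ℂ A (1 / 2) * 2) * (ri ^ (2 * J) * ri ^ 2) * y := by
          rw [h2]
          ring
      _ = -(2 * (J : A) + algebraMap ℂ A (1 / 2) * 2) * (ri ^ (2 * J + 3) * r) * y := by rw [h7]
      _ = _ := by ring
  rw [← h6]

end H738CZ
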