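import Pool.Agent.H738R3.CZ.Defs

set_option autoImplicit false

open Complex Set Filter Topology

namespace H738CZ

section EX3

variable {A : Type} [CommRing A] [Algebra ℂ A] (D : Derivation ℂ A A)

/-- coefficientwise derivation -/
noncomputable def EX3_mD (f : PowerSeries A) : PowerSeries A :=
  PowerSeries.mk fun n => D (PowerSeries.coeff n f)

/-- `d/dX` minus the coefficientwise derivation -/
noncomputable def EX3_dl (f : PowerSeries A) : PowerSeries A :=
  PowerSeries.derivative A f - EX3_mD D f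

theorem EX3_coeff_dl (f : PowerSeries A) (n : ℕ) : PowerSeries.coeff n (EX3_dl D f) =
    PowerSeries.coeff (n + 1) f * (n + 1) - D (PowerSeries.coeff n f) := by
  simp [EX3_dl, EX3_mD, PowerSeries.coeff_derivative]

theorem EX3_mD_mul (f g : PowerSeries A) :
    EX3_mD D (f * g) = f * EX3_mD D g + g * EX3_mD D f := by
  ext n
  simp only [EX3_mD, PowerSeries.coeff_mk, map_add, PowerSeries.coeff_mul, map_sum,
    Derivation.leibniz, smul_eq_mul, Finset.sum_add_distrib]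
  congr 1
  rw [← Finset.Nat.sum_antidiagonal_swap]
  rfl

theorem EX3_dl_mul (f g : PowerSeries A) :
    EX3_dl D (f * g) = f * EX3_dl D g + g * EX3_dl D f := by
  unfold EX3_dl
  rw [EX3_mD_mul, Derivation.leibniz, smul_eq_mul, smul_eq_mul]
  ring

theorem EX3_dl_add (f g : PowerSeries A) : EX3_dl D (f + g) = EX3_dl D f + EX3_dl D g := by
  ext n
  simp only [EX3_coeff_dl, map_add]
  ring

theorem EX3_dl_zero : EX3_dl D (0 : PowerSeries A) = 0 := by
  ext n
  simp [EX3_coeff_dl]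

theorem EX3_dl_one : EX3_dl D (1 : PowerSeries A) = 0 := by
  have h := EX3_dl_mul D (1 : PowerSeries A) 1
  rw [one_mul, one_mul] at h
  have h2 : EX3_dl D (1 : PowerSeries A) + EX3_dl D 1 = EX3_dl D 1 + 0 := by
    rw [add_zero]; exact h.symm
  exact add_left_cancel h2

theorem EX3_dl_X : EX3_dl D (PowerSeries.X : PowerSeries A) = 1 := by
  ext n
  rw [EX3_coeff_dl, PowerSeries.coeff_X, PowerSeries.coeff_X, PowerSeries.coeff_one]
  by_cases h : n = 0
  · subst h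
    simp
  · rw [if_neg (by omega), if_neg h]
    by_cases h1 : n = 1
    · subst h1
      simp
    · rw [if_neg h1]
      simp

theorem EX3_dl_pow (f : PowerSeries A) (n : ℕ) :
    EX3_dl D (f ^ (n + 1)) = (n + 1 : PowerSeries A) * f ^ n * EX3_dl D f := by
  induction n with
  | zero => simp
  | succ n ih =>
    rw [pow_succ, EX3_dl_mul, ih]
    push_cast
    ring

theorem EX3_fac (n : ℕ) : algebraMap ℂ A (((n + 1).factorial : ℂ)⁻¹) * ((n : A) + 1) =
    algebraMap ℂ A ((n.factorial : ℂ)⁻¹) := by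
  have h1 : ((n : A) + 1) = algebraMap ℂ A ((n : ℂ) + 1) := by simp
  rw [h1, ← map_mul]
  congr 1
  rw [Nat.factorial_succ]
  have h2 : ((n : ℂ) + 1) ≠ 0 := by exact_mod_cast Nat.succ_ne_zero n
  have h3 : (n.factorial : ℂ) ≠ 0 := by exact_mod_cast Nat.factorial_ne_zero n
  push_cast
  field_simp

theorem EX3_D_smul (c : ℂ) (a : A) : D (algebraMap ℂ A c * a) = algebraMap ℂ A c * D a := by
  rw [Derivation.leibniz, Derivation.map_algebraMap, smul_zero, add_zero, smul_eq_mul]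

theorem EX3_coeff_EA (a : A) (n : ℕ) : PowerSeries.coeff n (EA D a) =
    algebraMap ℂ A ((n.factorial : ℂ)⁻¹) * (D^[n] a) := by
  simp [EA]

theorem EX3_dl_EA (a : A) : EX3_dl D (EA D a) = 0 := by
  ext n
  rw [EX3_coeff_dl, EX3_coeff_EA, EX3_coeff_EA, EX3_D_smul, Function.iterate_succ_apply',
    mul_right_comm, EX3_fac]
  simp

theorem EX3_coeff_zero_EA (a : A) : PowerSeries.constantCoeff (EA D a) = a := by
  rw [← PowerSeries.coeff_zero_eq_constantCoeff_apply, EX3_coeff_EA]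
  simp

theorem EX3_of_dl (f : PowerSeries A) (h : EX3_dl D f = 0) :
    f = EA D (PowerSeries.constantCoeff f) := by
  ext n
  rw [EX3_coeff_EA]
  induction n with
  | zero => simp
  | succ n ih =>
    have h1 := EX3_coeff_dl D f n
    rw [h, map_zero] at h1
    have h2 : PowerSeries.coeff (n + 1) f * ((n : A) + 1) = D (PowerSeries.coeff n f) := by
      exact (sub_eq_zero.mp h1.symm)
    rw [ih, EX3_D_smul, ← EX3_fac] at h2
    have h3 : ((n : A) + 1) * algebraMap ℂ A (((n : ℂ) + 1)⁻¹) = 1 := by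
      have e1 : ((n : A) + 1) = algebraMap ℂ A ((n : ℂ) + 1) := by simp
      have e2 : ((n : ℂ) + 1) ≠ 0 := by exact_mod_cast Nat.succ_ne_zero n
      rw [e1, ← map_mul, mul_inv_cancel₀ e2, map_one]
    have h4 := congrArg (· * algebraMap ℂ A (((n : ℂ) + 1)⁻¹)) h2
    rw [mul_assoc, h3, mul_one] at h4
    rw [h4, Function.iterate_succ_apply']
    linear_combination (algebraMap ℂ A (((n + 1).factorial : ℂ)⁻¹) * D (D^[n]
      (PowerSeries.constantCoeff f))) * h3

theorem EX3_EA_mul (a b : A) : EA D (a * b) = EA D a * EA D b := by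
  have h : EX3_dl D (EA D a * EA D b) = 0 := by
    rw [EX3_dl_mul, EX3_dl_EA, EX3_dl_EA]
    simp
  rw [EX3_of_dl D _ h, map_mul, EX3_coeff_zero_EA, EX3_coeff_zero_EA]

theorem EX3_EA_add (a b : A) : EA D (a + b) = EA D a + EA D b := by
  have h : EX3_dl D (EA D a + EA D b) = 0 := by
    rw [EX3_dl_add, EX3_dl_EA, EX3_dl_EA]
    simp
  rw [EX3_of_dl D _ h, map_add, EX3_coeff_zero_EA, EX3_coeff_zero_EA]

theorem EX3_EA_one : EA D (1 : A) = 1 := by
  rw [EX3_of_dl D _ (EX3_dl_one D), map_one]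

theorem EX3_EA_zero : EA D (0 : A) = 0 := by
  rw [EX3_of_dl D _ (EX3_dl_zero D), map_zero]

/-- `EA` as a ring homomorphism -/
noncomputable def EX3_EH : A →+* PowerSeries A where
  toFun := EA D
  map_one' := EX3_EA_one D
  map_mul' := EX3_EA_mul D
  map_zero' := EX3_EA_zero D
  map_add' := EX3_EA_add D

theorem EX3_EH_apply (a : A) : EX3_EH D a = EA D a := rfl

theorem EX3_dl_EH (a : A) : EX3_dl D (EX3_EH D a) = 0 := EX3_dl_EA D a

theorem EX3_cc_EH (a : A) : PowerSeries.constantCoeff (EX3_EH D a) = a := EX3_coeff_zero_EA D a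

theorem EX3_dl_Y (kc : ℕ → ℂ) (ρ : A) :
    EX3_dl D (YA kc D ρ) = PowerSeries.C ρ * KA A kc := by
  ext n
  rw [EX3_coeff_dl, PowerSeries.coeff_C_mul]
  simp only [YA, KA, PowerSeries.coeff_mk]
  rw [EX3_D_smul, map_sum, mul_right_comm, EX3_fac, ← mul_sub, Finset.sum_range_succ']
  have h1 : ∀ l ∈ Finset.range n, D (algebraMap ℂ A (kc (n - 1 - l)) * D^[l] ρ) =
      algebraMap ℂ A (kc (n + 1 - 1 - (l + 1))) * D^[l + 1] ρ := by
    intro l hl
    rw [EX3_D_smul, Function.iterate_succ_apply']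
    have : n - 1 - l = n + 1 - 1 - (l + 1) := by omega
    rw [this]
  rw [Finset.sum_congr rfl h1, add_sub_cancel_left]
  simp only [Nat.add_sub_cancel, Nat.sub_zero, Function.iterate_zero, id_eq]
  rw [div_eq_mul_inv, map_mul]
  ring

/-- divisibility by a power of `X` of the square root of one -/
theorem EX3_sqrt_one (w u : PowerSeries A) (n : ℕ) (hw : w ^ 2 = 1 + PowerSeries.X ^ n * u)
    (h0 : PowerSeries.constantCoeff w = 1) : ∃ v, w = 1 + PowerSeries.X ^ n * v := by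
  have h2 : IsUnit (algebraMap ℂ A 2) := (IsUnit.mk0 (2 : ℂ) (by norm_num)).map (algebraMap ℂ A)
  obtain ⟨c, hc⟩ := h2
  have h3 : PowerSeries.constantCoeff (w + 1) = (c : A) := by
    rw [hc, map_add, h0, map_one]
    simp only [map_ofNat]
    norm_num
  have h4 := PowerSeries.mul_invOfUnit (w + 1) c h3
  refine ⟨u * PowerSeries.invOfUnit (w + 1) c, ?_⟩
  have h5 : (w - 1) * (w + 1) = PowerSeries.X ^ n * u := by
    linear_combination hw
  have h6 : w - 1 = (w - 1) * ((w + 1) * PowerSeries.invOfUnit (w + 1) c) := by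
    rw [h4, mul_one]
  rw [← mul_assoc, h5] at h6
  linear_combination h6

/-- one term of the residue -/
theorem EX3_term (ζ ζi : PowerSeries A) (hζ : ζ * ζi = 1) (l N : ℕ) (a : A) :
    ((N : A) + 1) * PowerSeries.coeff (2 * l + 1 + (N + 1))
      (EX3_EH D a * ζi ^ (2 * l + N + 3) * ((PowerSeries.X * ζ) ^ 2) ^ l *
        (PowerSeries.X * ζ * (ζ + PowerSeries.X * EX3_dl D ζ))) =
      D (PowerSeries.coeff N (EX3_EH D a * ζi ^ (N + 1))) := by
  set V := EX3_EH D a * ζi ^ (N + 1) with hV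
  -- derivative of the inverse
  have hdi : EX3_dl D ζi = -(ζi ^ 2 * EX3_dl D ζ) := by
    have h1 := EX3_dl_mul D ζ ζi
    rw [hζ, EX3_dl_one] at h1
    have h2 : EX3_dl D ζi = (ζ * ζi) * EX3_dl D ζi := by rw [hζ, one_mul]
    rw [h2]
    linear_combination (-ζi) * h1
  have hdV : EX3_dl D V = -((N + 1 : PowerSeries A) * EX3_EH D a * ζi ^ (N + 2) *
      EX3_dl D ζ) := by
    rw [hV, EX3_dl_mul, EX3_dl_EH, EX3_dl_pow, hdi]
    ring
  have hpw : ∀ k : ℕ, ζi ^ (k + (2 * l + 1)) * ζ ^ (2 * l + 1) = ζi ^ k := by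
    intro k
    have h1 : ζ ^ (2 * l + 1) * ζi ^ (2 * l + 1) = 1 := by rw [← mul_pow, hζ, one_pow]
    rw [pow_add, mul_assoc, mul_comm (ζi ^ (2 * l + 1)), h1, mul_one]
  have hterm : EX3_EH D a * ζi ^ (2 * l + N + 3) * ((PowerSeries.X * ζ) ^ 2) ^ l *
        (PowerSeries.X * ζ * (ζ + PowerSeries.X * EX3_dl D ζ)) =
      PowerSeries.X ^ (2 * l + 1) * (EX3_EH D a *
        ((ζi * ζ) * ζi ^ (N + 1) + PowerSeries.X * (ζi ^ (N + 2) * EX3_dl D ζ))) := by
    have e1 := hpw (N + 2)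
    have e2 : N + 2 + (2 * l + 1) = 2 * l + N + 3 := by omega
    rw [e2] at e1
    have e3 : ((PowerSeries.X * ζ) ^ 2) ^ l = PowerSeries.X ^ (2 * l) * ζ ^ (2 * l) := by
      rw [← pow_mul, mul_pow]
    rw [e3]
    have e4 : EX3_EH D a * ζi ^ (2 * l + N + 3) * (PowerSeries.X ^ (2 * l) * ζ ^ (2 * l)) *
        (PowerSeries.X * ζ * (ζ + PowerSeries.X * EX3_dl D ζ)) =
        PowerSeries.X ^ (2 * l + 1) * (EX3_EH D a *
          ((ζi ^ (2 * l + N + 3) * ζ ^ (2 * l + 1)) * (ζ + PowerSeries.X * EX3_dl D ζ))) := by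
      ring
    rw [e4, e1]
    ring
  rw [hterm, mul_comm ζi ζ, hζ, one_mul, add_comm (2 * l + 1) (N + 1),
    PowerSeries.coeff_X_pow_mul]
  have h7 : (N + 1 : PowerSeries A) * (EX3_EH D a *
      (ζi ^ (N + 1) + PowerSeries.X * (ζi ^ (N + 2) * EX3_dl D ζ))) =
      (N + 1 : PowerSeries A) * V - PowerSeries.X * EX3_dl D V := by
    rw [hdV, hV]
    ring
  have h8 : ∀ f : PowerSeries A, PowerSeries.coeff (N + 1) ((N + 1 : PowerSeries A) * f) =
      ((N : A) + 1) * PowerSeries.coeff (N + 1) f := by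
    intro f
    have : (N + 1 : PowerSeries A) = PowerSeries.C ((N : A) + 1) := by simp
    rw [this, PowerSeries.coeff_C_mul]
  rw [← h8, h7, map_sub, h8, PowerSeries.coeff_succ_X_mul, EX3_coeff_dl]
  ring

end EX3

theorem tEX3 (hEX1 : StEX1) : StEX3 := by
  intro A _ _ D kc hk r ri hr g hg1 J hJ η ηi hη hηi hsum
  set E := EX3_EH D with hE
  set ρ : A := r ^ 3 with hρ
  set Y := YA kc D ρ with hY
  have hk0 : kc 0 = 0 := hk.even 0
  have hk1 : kc 1 = 1 := hk.one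
  set a2 : A := algebraMap ℂ A (1 / 2) with ha2
  have h2a : (2 : A) * a2 = 1 := by
    have : (2 : A) = algebraMap ℂ A 2 := (map_ofNat (algebraMap ℂ A) 2).symm
    rw [this, ha2, ← map_mul]
    norm_num
  have hrn : ∀ n : ℕ, r ^ n * ri ^ n = 1 := fun n => by rw [← mul_pow, hr, one_pow]
  -- `Y = X^2 Y₂`
  have hY0 : PowerSeries.X ^ 2 ∣ Y := by
    rw [PowerSeries.X_pow_dvd_iff]
    intro m hm
    interval_cases m
    · simp [hY, YA]
    · simp [hY, YA, hk0]
  obtain ⟨Y2, hY2⟩ := hY0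
  have hcY2 : PowerSeries.constantCoeff Y2 = a2 * ρ := by
    have h1 : PowerSeries.coeff (0 + 2) Y = PowerSeries.coeff 0 Y2 := by
      rw [hY2, PowerSeries.coeff_X_pow_mul]
    rw [PowerSeries.coeff_zero_eq_constantCoeff_apply] at h1
    rw [← h1]
    simp only [hY, YA, PowerSeries.coeff_mk]
    simp [Finset.sum_range_succ, hk0, hk1, ha2]
  -- `ζ`
  have h1one : (1 : A) * 1 = 1 := one_mul 1
  obtain ⟨⟨ζ, hζ2, hζ0⟩, -⟩ := hEX1 A 1 1 h1one (E (2 * ri ^ 3) * Y2) (by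
    rw [map_mul, hE, EX3_cc_EH, hcY2, hρ, one_pow]
    linear_combination (2 * a2) * hrn 3 + h2a)
  set ζi := PowerSeries.invOfUnit ζ 1 with hζidef
  have hζi : ζ * ζi = 1 := PowerSeries.mul_invOfUnit ζ 1 (by rw [hζ0]; rfl)
  set h := a2 * ρ with hh
  have hYE : Y = E h * (PowerSeries.X * ζ) ^ 2 := by
    have e1 : E h * E (2 * ri ^ 3) = 1 := by
      rw [← map_mul]
      have : h * (2 * ri ^ 3) = 1 := by
        rw [hh, hρ]
        linear_combination (2 * a2) * hrn 3 + h2a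
      rw [this, map_one]
    rw [mul_pow, hζ2, hY2]
    linear_combination (-(PowerSeries.X ^ 2 * Y2)) * e1
  -- polynomials
  set Φ := Polynomial.eval₂RingHom E ((PowerSeries.X * ζ) ^ 2) with hΦ
  set cj : ℕ → A := fun j => g j * ri ^ j * h ^ j * ri ^ 2 with hcj
  set q : Polynomial A := ∑ j ∈ Finset.Ico 1 J, Polynomial.C (cj j) * Polynomial.X ^ (j - 1)
    with hq
  have hΦC : ∀ a : A, Φ (Polynomial.C a) = E a := fun a => Polynomial.eval₂_C _ _
  have hΦX : Φ Polynomial.X = (PowerSeries.X * ζ) ^ 2 := Polynomial.eval₂_X _ _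
  have hη2 : η ^ 2 = E (r ^ 2) * ζ ^ 2 * Φ q := by
    apply PowerSeries.X_pow_mul_cancel (k := 2)
    rw [← hsum, hq, map_sum, Finset.mul_sum, Finset.mul_sum]
    refine Finset.sum_congr rfl fun j hj => ?_
    obtain ⟨hj1, -⟩ := Finset.mem_Ico.mp hj
    obtain ⟨i, rfl⟩ := Nat.exists_eq_add_of_le hj1
    have e0 : Φ (Polynomial.C (cj (1 + i)) * Polynomial.X ^ (1 + i - 1)) =
        E (cj (1 + i)) * ((PowerSeries.X * ζ) ^ 2) ^ i := by
      rw [Nat.add_sub_cancel_left, map_mul, hΦC, map_pow Φ, hΦX]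
    rw [e0, hYE, mul_pow, hcj]
    change E (g (1 + i) * ri ^ (1 + i)) * _ = _
    have e1 : E (r ^ 2) * E (g (1 + i) * ri ^ (1 + i) * h ^ (1 + i) * ri ^ 2) =
        E (g (1 + i) * ri ^ (1 + i)) * E h ^ (1 + i) := by
      rw [← map_mul, ← map_pow, ← map_mul]
      congr 1
      linear_combination (g (1 + i) * ri ^ (1 + i) * h ^ (1 + i)) * hrn 2
    have e2 : PowerSeries.X ^ 2 * (E (r ^ 2) * ζ ^ 2 *
        (E (g (1 + i) * ri ^ (1 + i) * h ^ (1 + i) * ri ^ 2) *
          ((PowerSeries.X * ζ) ^ 2) ^ i)) =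
        (E (r ^ 2) * E (g (1 + i) * ri ^ (1 + i) * h ^ (1 + i) * ri ^ 2)) *
          ((PowerSeries.X * ζ) ^ 2) ^ (1 + i) := by
      rw [pow_add, pow_one]
      ring
    simp only
    rw [e2, e1]
    ring
  -- constant coefficient of `q`
  have hq0 : q.coeff 0 = 1 := by
    rw [hq, Polynomial.finsetSum_coeff, Finset.sum_eq_single 1]
    · simp only [Nat.sub_self, pow_zero, mul_one, Polynomial.coeff_C_zero, hcj, pow_one]
      rw [hg1, hh, hρ]
      linear_combination (2 * a2) * hrn 3 + h2a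
    · intro j hj hj1
      obtain ⟨hj2, -⟩ := Finset.mem_Ico.mp hj
      rw [Polynomial.coeff_C_mul, Polynomial.coeff_X_pow, if_neg (by omega), mul_zero]
    · intro h1
      exact absurd (Finset.mem_Ico.mpr ⟨le_refl 1, by omega⟩) h1
  -- the truncated inverse square root
  obtain ⟨⟨s, hs2, hs0⟩, -⟩ := hEX1 A 1 1 h1one ((q : PowerSeries A) ^ (2 * J + 1)) (by
    rw [map_pow, ← PowerSeries.coeff_zero_eq_constantCoeff_apply, Polynomial.coeff_coe, hq0,
      one_pow, one_pow])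
  set s' := PowerSeries.invOfUnit s 1 with hs'
  have hss' : s * s' = 1 := PowerSeries.mul_invOfUnit s 1 (by rw [hs0]; rfl)
  set e : Polynomial A := PowerSeries.trunc J s' with he
  have hdiv : Polynomial.X ^ J ∣ e ^ 2 * q ^ (2 * J + 1) - 1 := by
    rw [Polynomial.X_pow_dvd_iff]
    have h1 : PowerSeries.X ^ J ∣ ((e : PowerSeries A) - s') := by
      rw [PowerSeries.X_pow_dvd_iff]
      intro m hm
      rw [map_sub, Polynomial.coeff_coe, he, PowerSeries.coeff_trunc, if_pos hm, sub_self]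
    have h2 : PowerSeries.X ^ J ∣ ((e : PowerSeries A) ^ 2 * (q : PowerSeries A) ^ (2 * J + 1)
        - 1) := by
      have e1 : (e : PowerSeries A) ^ 2 * (q : PowerSeries A) ^ (2 * J + 1) - 1 =
          ((e : PowerSeries A) - s') * (((e : PowerSeries A) + s') *
            (q : PowerSeries A) ^ (2 * J + 1)) := by
        have e2 : s' ^ 2 * (q : PowerSeries A) ^ (2 * J + 1) = 1 := by
          rw [← hs2, ← mul_pow, mul_comm s' s, hss', one_pow]
        linear_combination e2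
      rw [e1]
      exact Dvd.dvd.mul_right h1 _
    intro m hm
    have h3 := (PowerSeries.X_pow_dvd_iff.mp h2) m hm
    rw [← Polynomial.coeff_coe]
    push_cast
    exact h3
  obtain ⟨m, hm⟩ := hdiv
  have hm' : e ^ 2 * q ^ (2 * J + 1) = 1 + Polynomial.X ^ J * m := by rw [← hm]; ring
  -- `θ`
  set θ := E (ri ^ (2 * J + 1)) * ζi ^ (2 * J + 1) * Φ e with hθ
  have hw2 : (θ * η ^ (2 * J + 1)) ^ 2 = 1 + PowerSeries.X ^ (2 * J) * (ζ ^ (2 * J) * Φ m) := by
    have e1 : (θ * η ^ (2 * J + 1)) ^ 2 = θ ^ 2 * (η ^ 2) ^ (2 * J + 1) := by ring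
    have e2 : Φ e ^ 2 * Φ q ^ (2 * J + 1) = 1 + PowerSeries.X ^ (2 * J) * (ζ ^ (2 * J) * Φ m) := by
      have e20 : Φ e ^ 2 * Φ q ^ (2 * J + 1) = Φ (e ^ 2 * q ^ (2 * J + 1)) := by
        rw [map_mul Φ, map_pow Φ, map_pow Φ]
      rw [e20, hm', map_add Φ, map_one Φ, map_mul Φ, map_pow Φ, hΦX,
        ← pow_mul, mul_pow]
      ring
    have e3 : E (ri ^ (2 * J + 1)) ^ 2 * E (r ^ 2) ^ (2 * J + 1) = 1 := by
      rw [← map_pow, ← map_pow, ← map_mul]
      have : (ri ^ (2 * J + 1)) ^ 2 * (r ^ 2) ^ (2 * J + 1) = 1 := by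
        rw [← pow_mul, ← pow_mul, mul_comm (2 * J + 1) 2, mul_comm]
        exact hrn _
      rw [this, map_one]
    have e4 : (ζi ^ (2 * J + 1)) ^ 2 * (ζ ^ 2) ^ (2 * J + 1) = 1 := by
      rw [← pow_mul, ← pow_mul, mul_comm (2 * J + 1) 2, mul_comm, ← mul_pow, hζi, one_pow]
    rw [e1, hη2, hθ]
    calc (E (ri ^ (2 * J + 1)) * ζi ^ (2 * J + 1) * Φ e) ^ 2 *
          (E (r ^ 2) * ζ ^ 2 * Φ q) ^ (2 * J + 1)
        = (E (ri ^ (2 * J + 1)) ^ 2 * E (r ^ 2) ^ (2 * J + 1)) *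
          ((ζi ^ (2 * J + 1)) ^ 2 * (ζ ^ 2) ^ (2 * J + 1)) *
          (Φ e ^ 2 * Φ q ^ (2 * J + 1)) := by
          rw [mul_pow, mul_pow, mul_pow, mul_pow]
          ring
      _ = _ := by rw [e3, e4, e2]; ring
  have hζi0 : PowerSeries.constantCoeff ζi = 1 := by
    have := congrArg PowerSeries.constantCoeff hζi
    rw [map_mul, hζ0, one_mul, map_one] at this
    exact this
  have hJsucc : ∃ J', J = J' + 1 := ⟨J - 1, by omega⟩
  have hdeg : e.natDegree < J := by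
    obtain ⟨J', hJ'⟩ := hJsucc
    rw [he, hJ']
    exact PowerSeries.natDegree_trunc_lt _ _
  have hΦe : Φ e = ∑ l ∈ Finset.range J, E (e.coeff l) * ((PowerSeries.X * ζ) ^ 2) ^ l :=
    Polynomial.eval₂_eq_sum_range' _ hdeg _
  have he0 : e.coeff 0 = 1 := by
    rw [he, PowerSeries.coeff_trunc, if_pos (by omega),
      PowerSeries.coeff_zero_eq_constantCoeff_apply]
    have := congrArg PowerSeries.constantCoeff hss'
    rw [map_mul, hs0, one_mul, map_one] at this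
    exact this
  have hΦe0 : PowerSeries.constantCoeff (Φ e) = 1 := by
    rw [hΦe, map_sum, Finset.sum_eq_single 0]
    · rw [map_mul, hE, EX3_cc_EH, he0]
      simp
    · intro l _ hl
      rw [map_mul, map_pow, map_pow, map_mul, PowerSeries.constantCoeff_X, zero_mul,
        zero_pow two_ne_zero, zero_pow hl, mul_zero]
    · intro h1
      exact absurd (Finset.mem_range.mpr (by omega)) h1
  have hw0 : PowerSeries.constantCoeff (θ * η ^ (2 * J + 1)) = 1 := by
    rw [hθ]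
    simp only [map_mul, map_pow, hΦe0, hζi0, hη]
    rw [hE, EX3_cc_EH, one_pow, mul_one, mul_one, ← mul_pow, mul_comm ri r, hr, one_pow]
  obtain ⟨v, hv⟩ := EX3_sqrt_one _ _ _ hw2 hw0
  -- replace `ηi ^ (2J+1)` by `θ`
  have hθη : ηi ^ (2 * J + 1) = θ - PowerSeries.X ^ (2 * J) * (v * ηi ^ (2 * J + 1)) := by
    have e1 : η ^ (2 * J + 1) * ηi ^ (2 * J + 1) = 1 := by rw [← mul_pow, hηi, one_pow]
    linear_combination (-ηi ^ (2 * J + 1)) * hv + θ * e1
  have hKA : ∃ K', KA A kc = PowerSeries.X * K' := by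
    have : PowerSeries.X ∣ KA A kc := by
      rw [PowerSeries.X_dvd_iff, ← PowerSeries.coeff_zero_eq_constantCoeff_apply]
      simp [KA, hk0]
    exact this
  obtain ⟨K', hK'⟩ := hKA
  have hco : PowerSeries.coeff (2 * J) (ηi ^ (2 * J + 1) * (PowerSeries.C ρ * KA A kc)) =
      PowerSeries.coeff (2 * J) (θ * EX3_dl D Y) := by
    rw [EX3_dl_Y, hθη, sub_mul, map_sub]
    have e1 : PowerSeries.X ^ (2 * J) * (v * ηi ^ (2 * J + 1)) *
        (PowerSeries.C ρ * KA A kc) = PowerSeries.X ^ (2 * J + 1) *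
          (v * ηi ^ (2 * J + 1) * PowerSeries.C ρ * K') := by
      rw [hK', pow_succ]
      ring
    rw [e1]
    have e2 : PowerSeries.coeff (2 * J) (PowerSeries.X ^ (2 * J + 1) *
          (v * ηi ^ (2 * J + 1) * PowerSeries.C ρ * K')) = 0 :=
      (PowerSeries.X_pow_dvd_iff.mp (Dvd.intro _ rfl)) _ (Nat.lt_succ_self _)
    rw [e2, sub_zero]
  -- derivative of `Y`
  have hdY : EX3_dl D Y = 2 * E h * (PowerSeries.X * ζ * (ζ + PowerSeries.X * EX3_dl D ζ)) := by
    rw [hYE, EX3_dl_mul, hE, EX3_dl_EH, sq, EX3_dl_mul, EX3_dl_mul, EX3_dl_X]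
    ring
  refine ⟨∑ l ∈ Finset.range J, algebraMap ℂ A ((((2 * (J - 1 - l) : ℕ) : ℂ) + 1)⁻¹) *
    PowerSeries.coeff (2 * (J - 1 - l))
      (E (2 * (ri ^ (2 * J + 1) * e.coeff l * h)) * ζi ^ (2 * (J - 1 - l) + 1)), ?_⟩
  rw [hco, map_sum, hdY, hθ, hΦe, Finset.mul_sum, Finset.sum_mul, map_sum]
  refine Finset.sum_congr rfl fun l hl => ?_
  have hlJ := Finset.mem_range.mp hl
  rw [EX3_D_smul]
  have ht := EX3_term D ζ ζi hζi l (2 * (J - 1 - l)) (2 * (ri ^ (2 * J + 1) * e.coeff l * h))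
  rw [← hE] at ht
  rw [← ht, ← mul_assoc]
  have e1 : algebraMap ℂ A ((((2 * (J - 1 - l) : ℕ) : ℂ) + 1)⁻¹) *
      (((2 * (J - 1 - l) : ℕ) : A) + 1) = 1 := by
    have e2 : (((2 * (J - 1 - l) : ℕ) : A) + 1) =
        algebraMap ℂ A (((2 * (J - 1 - l) : ℕ) : ℂ) + 1) := by
      rw [map_add, map_natCast, map_one]
    have e3 : (((2 * (J - 1 - l) : ℕ) : ℂ) + 1) ≠ 0 := Nat.cast_add_one_ne_zero _
    rw [e2, ← map_mul, inv_mul_cancel₀ e3, map_one]
  rw [e1, one_mul]
  have e4 : 2 * l + 1 + (2 * (J - 1 - l) + 1) = 2 * J := by omega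
  have e5 : 2 * l + 2 * (J - 1 - l) + 3 = 2 * J + 1 := by omega
  rw [e4, e5]
  congr 1
  have e6 : E (2 * (ri ^ (2 * J + 1) * e.coeff l * h)) =
      2 * (E (ri ^ (2 * J + 1)) * E (e.coeff l) * E h) := by
    rw [map_mul, map_mul, map_mul, map_ofNat]
  rw [e6]
  ring

end H738CZ
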