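import Pool.Agent.H738R3.CZ.Defs

/-! Task EXA (helper25): exactness in a differential algebra. -/

open Complex Set Filter Topology

namespace H738CZ

theorem EXA_y0 {A : Type} [CommRing A] [Algebra ℂ A] (kc : ℕ → ℂ) (D : Derivation ℂ A A) (ρ : A) :
    PowerSeries.coeff 0 (YA kc D ρ) = 0 := by
  simp [YA]

theorem EXA_y1 {A : Type} [CommRing A] [Algebra ℂ A] (kc : ℕ → ℂ) (hk : Ker kc)
    (D : Derivation ℂ A A) (ρ : A) : PowerSeries.coeff 1 (YA kc D ρ) = 0 := by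
  have h0 : kc 0 = 0 := hk.even 0
  simp [YA, h0]

theorem EXA_y2 {A : Type} [CommRing A] [Algebra ℂ A] (kc : ℕ → ℂ) (hk : Ker kc)
    (D : Derivation ℂ A A) (ρ : A) :
    PowerSeries.coeff 2 (YA kc D ρ) = algebraMap ℂ A (2⁻¹) * ρ := by
  have h0 : kc 0 = 0 := hk.even 0
  simp only [YA, PowerSeries.coeff_mk]
  rw [Finset.sum_range_succ, Finset.sum_range_one]
  have h1 : kc (2 - 1 - 0) = 1 := hk.one
  have h2 : kc (2 - 1 - 1) = 0 := h0
  rw [h1, h2, map_one, map_zero]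
  simp [Nat.factorial]

theorem EXA_div {A : Type} [CommRing A] [Algebra ℂ A] (kc : ℕ → ℂ) (hk : Ker kc)
    (D : Derivation ℂ A A) (ρ : A) : ∃ y : PowerSeries A,
      YA kc D ρ = PowerSeries.X ^ 2 * y ∧
      PowerSeries.constantCoeff y = algebraMap ℂ A (2⁻¹) * ρ := by
  have hd : (PowerSeries.X : PowerSeries A) ^ 2 ∣ YA kc D ρ := by
    rw [PowerSeries.X_pow_dvd_iff]
    intro m hm
    have : m = 0 ∨ m = 1 := by omega
    rcases this with rfl | rfl
    · exact EXA_y0 kc D ρ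
    · exact EXA_y1 kc hk D ρ
  obtain ⟨y, hy⟩ := hd
  refine ⟨y, hy, ?_⟩
  have h := EXA_y2 kc hk D ρ
  rw [hy, PowerSeries.coeff_X_pow_mul'] at h
  simpa using h

theorem EXA_ord {A : Type} [CommRing A] (e y : PowerSeries A) (j n : ℕ) (h : n < 2 * j) :
    PowerSeries.coeff n (e * (PowerSeries.X ^ 2 * y) ^ j) = 0 := by
  have : e * (PowerSeries.X ^ 2 * y) ^ j = PowerSeries.X ^ (2 * j) * (e * y ^ j) := by
    rw [mul_pow, ← pow_mul]; ring
  rw [this, PowerSeries.coeff_X_pow_mul', if_neg (by omega)]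

theorem tEXA (hEX1 : StEX1) (hEX2 : StEX2) (hEX3 : StEX3) : StEXA := by
  intro A _ _ D kc hk r ri hr g hg J hJ hlaw
  obtain ⟨y, hy, hyc⟩ := EXA_div kc hk D (r ^ 3)
  set G : PowerSeries A := ∑ j ∈ Finset.Ico 1 J, EA D (g j * ri ^ j) * (YA kc D (r ^ 3)) ^ j with hG
  -- `G = X² γ`
  set γ : PowerSeries A := ∑ j ∈ Finset.Ico 1 J,
    EA D (g j * ri ^ j) * ((PowerSeries.X ^ 2) ^ (j - 1) * y ^ j) with hγ
  have hGγ : G = PowerSeries.X ^ 2 * γ := by
    rw [hG, hγ, Finset.mul_sum]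
    refine Finset.sum_congr rfl fun j hj => ?_
    rw [Finset.mem_Ico] at hj
    rw [hy, mul_pow]
    obtain ⟨i, rfl⟩ : ∃ i, j = i + 1 := ⟨j - 1, by omega⟩
    rw [Nat.add_sub_cancel, pow_succ ((PowerSeries.X : PowerSeries A) ^ 2) i]
    ring
  have hγc : PowerSeries.constantCoeff γ = r ^ 2 := by
    rw [hγ, map_sum, Finset.sum_eq_single 1]
    · rw [map_mul, map_mul]
      simp only [Nat.sub_self, pow_zero, map_one, one_mul, pow_one]
      rw [hyc, hg]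
      have h1 : PowerSeries.constantCoeff (EA D (2 * ri)) = 2 * ri := by
        rw [← PowerSeries.coeff_zero_eq_constantCoeff_apply]
        simp [EA]
      rw [h1]
      have h2 : (2 : A) * algebraMap ℂ A (2⁻¹) = 1 := by
        have : (2 : A) = algebraMap ℂ A 2 := (map_ofNat (algebraMap ℂ A) 2).symm
        rw [this, ← map_mul]
        simp
      calc 2 * ri * (algebraMap ℂ A (2⁻¹) * r ^ 3)
          = (2 * algebraMap ℂ A (2⁻¹)) * (r * ri) * r ^ 2 := by ring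
        _ = r ^ 2 := by rw [h2, hr]; ring
    · intro j hj hj1
      rw [Finset.mem_Ico] at hj
      rw [map_mul, map_mul, map_pow, map_pow, PowerSeries.constantCoeff_X]
      rw [show (0 : A) ^ 2 = 0 by ring, zero_pow (by omega)]
      ring
    · intro h
      exact absurd (Finset.mem_Ico.2 ⟨le_refl 1, by omega⟩) h
  obtain ⟨⟨η, hη2, hηc⟩, -⟩ := hEX1 A r ri hr γ hγc
  obtain ⟨ηi, hηi⟩ : ∃ ηi : PowerSeries A, η * ηi = 1 :=
    ⟨PowerSeries.invOfUnit η (Units.mkOfMulEqOne r ri hr), PowerSeries.mul_invOfUnit _ _ (by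
      rw [hηc]; rfl)⟩
  have hcoef : ∀ i, 1 ≤ i → PowerSeries.coeff (2 * i - 1) (η ^ 2) =
      PowerSeries.coeff (2 * i + 1) G := by
    intro i hi
    rw [hη2, hGγ, PowerSeries.coeff_X_pow_mul', if_pos (by omega)]
    congr 1
  have hvan : ∀ i, 1 ≤ i → i < J → PowerSeries.coeff (2 * i - 1) (η ^ 2) = 0 := by
    intro i hi hiJ
    rw [hcoef i hi, ← hlaw i hi hiJ, hG]
    have hsub : Finset.Icc 1 i ⊆ Finset.Ico 1 J := by
      intro j hj
      rw [Finset.mem_Icc] at hj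
      rw [Finset.mem_Ico]
      omega
    rw [← Finset.sum_sdiff hsub, map_add]
    rw [map_sum, Finset.sum_eq_zero, zero_add]
    intro j hj
    rw [Finset.mem_sdiff, Finset.mem_Ico, Finset.mem_Icc] at hj
    rw [hy]
    exact EXA_ord _ _ _ _ (by omega)
  have hk0 : ∀ i, PowerSeries.coeff (2 * i) (KA A kc) = 0 := by
    intro i
    simp [KA, hk.even i]
  have hk1 : PowerSeries.coeff 1 (KA A kc) = 1 := by
    simp [KA, hk.one]
  have h2 := hEX2 A r ri hr η ηi (KA A kc) J hJ hηc hηi hvan hk0 hk1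
  obtain ⟨S, hS⟩ := hEX3 A D kc hk r ri hr g hg J hJ η ηi hηc hηi (by
    rw [← hG, hGγ, hη2])
  have h3 : ηi ^ (2 * J + 1) * (PowerSeries.C (r ^ 3) * KA A kc) =
      PowerSeries.C (r ^ 3) * (ηi ^ (2 * J + 1) * KA A kc) := by ring
  rw [h3, PowerSeries.coeff_C_mul, h2, hcoef J (by omega)] at hS
  have hc0 : ((J : ℂ) + 1 / 2) ≠ 0 := by
    have : (0 : ℝ) < (J : ℝ) + 1 / 2 := by positivity
    intro h
    have h4 := congrArg Complex.re h
    simp at h4
    linarith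
  refine ⟨(-((J : ℂ) + 1 / 2)⁻¹) • S, ?_⟩
  rw [D.map_smul, hS, Algebra.smul_def]
  have h5 : algebraMap ℂ A (-((J : ℂ) + 1 / 2)⁻¹) * algebraMap ℂ A ((J : ℂ) + 1 / 2) = -1 := by
    rw [← map_mul, neg_mul, inv_mul_cancel₀ hc0, map_neg, map_one]
  have h6 : r ^ 3 * ri ^ (2 * J + 3) = ri ^ (2 * J) := by
    rw [pow_add]
    calc r ^ 3 * (ri ^ (2 * J) * ri ^ 3) = (r * ri) ^ 3 * ri ^ (2 * J) := by ring
      _ = ri ^ (2 * J) := by rw [hr]; ring
  calc algebraMap ℂ A (-((J : ℂ) + 1 / 2)⁻¹) * (r ^ 3 *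
        (-algebraMap ℂ A ((J : ℂ) + 1 / 2) * ri ^ (2 * J + 3) * PowerSeries.coeff (2 * J + 1) G))
      = -(algebraMap ℂ A (-((J : ℂ) + 1 / 2)⁻¹) * algebraMap ℂ A ((J : ℂ) + 1 / 2)) *
        (r ^ 3 * ri ^ (2 * J + 3)) * PowerSeries.coeff (2 * J + 1) G := by ring
    _ = ri ^ (2 * J) * PowerSeries.coeff (2 * J + 1) G := by rw [h5, h6]; ring

end H738CZ
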