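import Pool.Agent.H738R3.CZ.Defs

/-!
# EXT: extension to the punctured disc, with pole orders
-/

open Complex Set Filter Topology

namespace H738CZ

/-- coefficientwise differentiable family of power series -/
def EXT_CD (V : Set ℂ) (P : ℂ → PowerSeries ℂ) : Prop :=
  ∀ n, DifferentiableOn ℂ (fun t => PowerSeries.coeff n (P t)) V

lemma EXT_CD_mul {V : Set ℂ} {P Q : ℂ → PowerSeries ℂ} (hP : EXT_CD V P) (hQ : EXT_CD V Q) :
    EXT_CD V (fun t => P t * Q t) := by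
  intro n
  simp only [PowerSeries.coeff_mul]
  exact DifferentiableOn.fun_sum fun i _ => (hP i.1).mul (hQ i.2)

lemma EXT_CD_pow {V : Set ℂ} {P : ℂ → PowerSeries ℂ} (hP : EXT_CD V P) (k : ℕ) :
    EXT_CD V (fun t => P t ^ k) := by
  induction k with
  | zero =>
    intro n
    simp only [pow_zero]
    exact differentiableOn_const _
  | succ k ih =>
    simp only [pow_succ]
    exact EXT_CD_mul ih hP

lemma EXT_CD_sum {V : Set ℂ} {s : Finset ℕ} {P : ℕ → ℂ → PowerSeries ℂ}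
    (hP : ∀ j ∈ s, EXT_CD V (P j)) : EXT_CD V (fun t => ∑ j ∈ s, P j t) := by
  intro n
  simp only [map_sum]
  exact DifferentiableOn.fun_sum fun j hj => hP j hj n

lemma EXT_DD {V : Set ℂ} (hV : IsOpen V) {d f : ℂ → ℂ} (hd : DifferentiableOn ℂ d V)
    (hd0 : ∀ t ∈ V, d t ≠ 0) (hf : DifferentiableOn ℂ f V) (l : ℕ) :
    DifferentiableOn ℂ ((DD d)^[l] f) V := by
  induction l with
  | zero => simpa using hf
  | succ l ih =>
    rw [Function.iterate_succ_apply']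
    exact (ih.deriv hV).div hd hd0

lemma EXT_CD_Es {V : Set ℂ} (hV : IsOpen V) {d f : ℂ → ℂ} (hd : DifferentiableOn ℂ d V)
    (hd0 : ∀ t ∈ V, d t ≠ 0) (hf : DifferentiableOn ℂ f V) : EXT_CD V (Es d f) := by
  intro n
  simp only [Es, PowerSeries.coeff_mk]
  exact (EXT_DD hV hd hd0 hf n).div_const _

lemma EXT_CD_Ys {V : Set ℂ} (hV : IsOpen V) (kc : ℕ → ℂ) {d ρ : ℂ → ℂ}
    (hd : DifferentiableOn ℂ d V)
    (hd0 : ∀ t ∈ V, d t ≠ 0) (hρ : DifferentiableOn ℂ ρ V) : EXT_CD V (Ys kc d ρ) := by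
  intro n
  simp only [Ys, PowerSeries.coeff_mk]
  exact (DifferentiableOn.fun_sum fun l _ =>
    (EXT_DD hV hd hd0 hρ l).const_mul _).div_const _

lemma EXT_Cf {kc : ℕ → ℂ} {d ρ r0 : ℂ → ℂ} {g : ℕ → ℂ → ℂ} {V : Set ℂ}
    (hB : Base d ρ r0 V) {J : ℕ} (hg : ∀ j, 1 ≤ j → j ≤ J → DifferentiableOn ℂ (g j) V) (N : ℕ) :
    DifferentiableOn ℂ (Cf kc d ρ r0 g J N) V := by
  have hρ : DifferentiableOn ℂ ρ V := (hB.rd.pow 3).congr fun t ht => by
    simpa using hB.cube t ht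
  have h : EXT_CD V (fun t => ∑ j ∈ Finset.Icc 1 J, Tm kc d ρ r0 g j t) := by
    refine EXT_CD_sum fun j hj => ?_
    rw [Finset.mem_Icc] at hj
    refine EXT_CD_mul ?_ (EXT_CD_pow (EXT_CD_Ys hB.op kc hB.dd hB.d0 hρ) j)
    exact EXT_CD_Es hB.op hB.dd hB.d0
      ((hg j hj.1 hj.2).mul ((hB.rd.inv hB.rn).pow j))
  exact h N

lemma EXT_ident {V W : Set ℂ} (hV : IsOpen V) (hVc : IsPreconnected V) (hW : IsOpen W)
    (hWV : W ⊆ V) {t0 : ℂ} (ht0 : t0 ∈ W) {f : ℂ → ℂ} (hf : DifferentiableOn ℂ f V)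
    (h0 : ∀ t ∈ W, f t = 0) : ∀ t ∈ V, f t = 0 := by
  have hfa : AnalyticOnNhd ℂ f V := hf.analyticOnNhd hV
  have := hfa.eqOn_zero_of_preconnected_of_eventuallyEq_zero hVc (hWV ht0)
    (Filter.eventuallyEq_of_mem (hW.mem_nhds ht0) h0)
  exact fun t ht => this ht

lemma EXT_open (R : ℝ) : IsOpen (V3 R) := Metric.isOpen_ball.sdiff isClosed_singleton

lemma EXT_base {m : ℕ} {u : ℂ → ℂ} {R : ℝ} (hU : UN u R) :
    Base d3 (ρ3 m u) (r3 m u) (V3 R) where
  op := EXT_open R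
  dd := by unfold d3; fun_prop
  d0 := by
    intro t ht
    have : t ≠ 0 := ht.2
    simp [d3, this]
  rd := by
    unfold r3
    refine DifferentiableOn.mul (by fun_prop) ?_
    refine hU.df.comp (by fun_prop) ?_
    intro t ht
    have h1 : ‖t‖ < R := by simpa using ht.1
    simp only [Metric.mem_ball, dist_zero_right, norm_pow]
    exact pow_lt_pow_left₀ h1 (norm_nonneg _) (by norm_num)
  rn := by
    intro t ht
    have h1 : ‖t‖ < R := by simpa using ht.1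
    have h2 : t ≠ 0 := ht.2
    refine mul_ne_zero (pow_ne_zero _ h2) (hU.nz _ ?_)
    simp only [Metric.mem_ball, dist_zero_right, norm_pow]
    exact pow_lt_pow_left₀ h1 (norm_nonneg _) (by norm_num)
  cube := by
    intro t _
    rfl

/-- the inductive step -/
lemma EXT_step (hREC : StREC) (hEXV : StEXV) (hWT : StWT) (hPRI : StPRI) (hMON : StMON)
    (hV3C : StV3C) {kc : ℕ → ℂ} (hkc : Ker kc) {m : ℕ} {u : ℂ → ℂ} {R : ℝ} (hm : 1 ≤ m)
    (hU : UN u R) {g : ℕ → ℂ → ℂ} {τ1 : ℂ} {η : ℝ} (hη : 0 < η)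
    (hsub : Metric.ball τ1 η ⊆ V3 R)
    (hFI : FI kc d3 (ρ3 m u) (r3 m u) g (Metric.ball τ1 η)) (J : ℕ) (hJ : 2 ≤ J)
    (h G : ℕ → ℂ → ℂ) (hd : ∀ i, 1 ≤ i → i < J → DifferentiableOn ℂ (h i) (V3 R))
    (he : ∀ i, 1 ≤ i → i < J → EqOn (h i) (g i) (Metric.ball τ1 η))
    (hG : ∀ i, 1 ≤ i → i < J → Pol m R h i (G i)) :
    ∃ f F : ℂ → ℂ, DifferentiableOn ℂ f (V3 R) ∧ EqOn f (g J) (Metric.ball τ1 η) ∧
      DifferentiableOn ℂ F (Metric.ball 0 R) ∧
      ∀ τ ∈ V3 R, f τ * τ ^ ((2 * m + 6) * (J - 1)) = F τ := by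
  have hB := EXT_base (m := m) hU
  have hτ1 : τ1 ∈ Metric.ball τ1 η := Metric.mem_ball_self hη
  -- the modified family
  set h' : ℕ → ℂ → ℂ := fun j => if j < J then h j else g j with hh'
  have hFI' : FI kc d3 (ρ3 m u) (r3 m u) h' (Metric.ball τ1 η) := by
    refine hMON kc d3 (ρ3 m u) (r3 m u) d3 (ρ3 m u) (r3 m u) g h' _ _ hFI Metric.isOpen_ball
      Subset.rfl (fun _ _ => rfl) (fun _ _ => rfl) (fun _ _ => rfl) ?_
    intro j hj
    by_cases hjJ : j < J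
    · simp only [hh', hjJ, if_true]; exact he j hj hjJ
    · simp only [hh', hjJ, if_false]; exact fun _ _ => rfl
  have hTm : ∀ j, j < J → ∀ t, Tm kc d3 (ρ3 m u) (r3 m u) h' j t
      = Tm kc d3 (ρ3 m u) (r3 m u) h j t := by
    intro j hj t
    simp only [Tm, hh', hj, if_true]
  have hCf : ∀ i, i < J → ∀ N t, Cf kc d3 (ρ3 m u) (r3 m u) h' i N t
      = Cf kc d3 (ρ3 m u) (r3 m u) h i N t := by
    intro i hi N t
    unfold Cf
    congr 1
    refine Finset.sum_congr rfl fun j hj => ?_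
    rw [Finset.mem_Icc] at hj
    exact hTm j (by omega) t
  have hLo : ∀ t, Lo kc d3 (ρ3 m u) (r3 m u) h' J t
      = Lo kc d3 (ρ3 m u) (r3 m u) h J t := by
    intro t
    unfold Lo
    congr 1
    refine Finset.sum_congr rfl fun j hj => ?_
    rw [Finset.mem_Ico] at hj
    exact hTm j hj.2 t
  have hlaw : ∀ i, 1 ≤ i → i < J → ∀ t ∈ V3 R,
      Cf kc d3 (ρ3 m u) (r3 m u) h i (2 * i + 1) t = 0 := by
    intro i hi hiJ
    refine EXT_ident (EXT_open R) (hV3C R) Metric.isOpen_ball hsub hτ1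
      (EXT_Cf hB (fun j hj hji => hd j hj (by omega)) _) ?_
    intro t ht
    rw [← hCf i hiJ]
    exact hFI'.law i hi t ht
  have hone : ∀ t ∈ V3 R, h 1 t = 2 := by
    have h1 : ∀ t ∈ V3 R, h 1 t - 2 = 0 := by
      refine EXT_ident (EXT_open R) (hV3C R) Metric.isOpen_ball hsub hτ1
        ((hd 1 le_rfl (by omega)).sub_const 2) ?_
      intro t ht
      rw [he 1 le_rfl (by omega) ht, hFI.one t ht, sub_self]
    intro t ht
    exact sub_eq_zero.mp (h1 t ht)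
  obtain ⟨P, hPd, hP⟩ := hEXV kc hkc d3 (ρ3 m u) (r3 m u) (V3 R) hB h J hJ hd hone hlaw
  -- derivative of `g J`
  have hder : ∀ t ∈ Metric.ball τ1 η, deriv (g J) t = -2 ^ J * deriv P t := by
    intro t ht
    have h1 := hREC kc hkc d3 (ρ3 m u) (r3 m u) (Metric.ball τ1 η) hFI'.base h' J (by omega)
      (hFI'.gd J (by omega)) t ht
    rw [hFI'.law J (by omega) t ht, hLo t] at h1
    have h2 : h' J = g J := by simp [hh']
    rw [h2] at h1
    have h3 := hP t (hsub ht)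
    have hr := hB.rn t (hsub ht)
    have hd0 := hB.d0 t (hsub ht)
    unfold DD at h1 h3
    have h4 : (r3 m u t ^ 2 / 2) ^ J * ((r3 m u t)⁻¹ ^ (2 * J) * 2 ^ J) = 1 := by
      rw [pow_mul, ← mul_pow, ← mul_pow]
      have : r3 m u t ^ 2 / 2 * ((r3 m u t)⁻¹ ^ 2 * 2) = 1 := by
        field_simp
      rw [this, one_pow]
    have h5 : deriv (g J) t / d3 t = -2 ^ J * (deriv P t / d3 t) := by
      rw [h3]
      linear_combination (-((r3 m u t)⁻¹ ^ (2 * J) * 2 ^ J)) * h1 -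
        (deriv (g J) t / d3 t) * h4
    field_simp at h5
    linear_combination h5
  obtain ⟨c, hc⟩ : ∃ c : ℂ, EqOn (g J) (fun t => -2 ^ J * P t + c) (Metric.ball τ1 η) := by
    have hcd : DifferentiableOn ℂ (fun t => -2 ^ J * P t) (Metric.ball τ1 η) :=
      (hPd.mono hsub).const_mul _
    refine Metric.isOpen_ball.exists_eq_add_of_deriv_eq
      (Metric.isPreconnected_ball) (hFI.gd J (by omega)) hcd ?_
    intro t ht
    rw [hder t ht]
    have hPt : DifferentiableAt ℂ P t :=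
      (hPd t (hsub ht)).differentiableAt ((EXT_open R).mem_nhds (hsub ht))
    rw [deriv_const_mul _ hPt]
  obtain ⟨F, hFd, hF⟩ := hWT kc hkc m u R hm hU h J hJ hd
    (fun j hj hjJ => ⟨G j, hG j hj hjJ⟩)
  have hfd : DifferentiableOn ℂ (fun t => -2 ^ J * P t + c) (V3 R) :=
    (hPd.const_mul _).add_const c
  have hfder : ∀ τ ∈ V3 R, deriv (fun t => -2 ^ J * P t + c) τ = -2 ^ J * deriv P τ := by
    intro t ht
    have hPt : DifferentiableAt ℂ P t :=
      (hPd t ht).differentiableAt ((EXT_open R).mem_nhds ht)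
    rw [deriv_add_const, deriv_const_mul _ hPt]
  obtain ⟨G', hG'd, hG'⟩ := hPRI R ((2 * m + 6) * (J - 1)) (fun t => -2 ^ J * P t + c)
    (fun τ => -2 ^ J * 3 * F τ) hU.pos (by
      have : 1 ≤ J - 1 := by omega
      nlinarith) hfd (hFd.const_mul _) (by
      intro τ hτ
      rw [hfder τ hτ, ← hF τ hτ, ← hP τ hτ]
      have hd0 := hB.d0 τ hτ
      have e1 : deriv P τ = d3 τ * DD d3 P τ := by
        unfold DD; field_simp
      rw [e1]
      unfold d3
      ring)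
  exact ⟨fun t => -2 ^ J * P t + c, G', hfd, fun t ht => (hc ht).symm, hG'd, hG'⟩

theorem tEXT (hREC : StREC) (hEXV : StEXV) (hWT : StWT) (hPRI : StPRI) (hMON : StMON)
    (hV3C : StV3C) : StEXT := by
  intro kc hkc m u R hm hU g τ1 η hη hsub hFI
  have hB := EXT_base (m := m) hU
  have hτ1 : τ1 ∈ Metric.ball τ1 η := Metric.mem_ball_self hη
  have key : ∀ J : ℕ, 1 ≤ J → ∃ f F : ℂ → ℂ, DifferentiableOn ℂ f (V3 R) ∧
      EqOn f (g J) (Metric.ball τ1 η) ∧ DifferentiableOn ℂ F (Metric.ball 0 R) ∧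
      ∀ τ ∈ V3 R, f τ * τ ^ ((2 * m + 6) * (J - 1)) = F τ := by
    intro J
    induction J using Nat.strong_induction_on with
    | _ J ih =>
      intro hJ
      by_cases hJ1 : J = 1
      · subst hJ1
        refine ⟨fun _ => 2, fun _ => 2, differentiableOn_const _, ?_, differentiableOn_const _, ?_⟩
        · intro t ht
          exact (hFI.one t ht).symm
        · intro τ _
          simp
      · have hJ2 : 2 ≤ J := by omega
        choose! h G h1 h2 h3 h4 using ih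
        exact EXT_step hREC hEXV hWT hPRI hMON hV3C hkc hm hU hη hsub hFI J hJ2 h G
          (fun i hi hiJ => h1 i hiJ hi) (fun i hi hiJ => h2 i hiJ hi)
          (fun i hi hiJ => ⟨h3 i hiJ hi, h4 i hiJ hi⟩)
  choose! h G h1 h2 h3 h4 using key
  have hFI' : FI kc d3 (ρ3 m u) (r3 m u) h (Metric.ball τ1 η) :=
    hMON kc d3 (ρ3 m u) (r3 m u) d3 (ρ3 m u) (r3 m u) g h _ _ hFI Metric.isOpen_ball
      Subset.rfl (fun _ _ => rfl) (fun _ _ => rfl) (fun _ _ => rfl) h2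
  refine ⟨h, ⟨hB, h1, ?_, ?_⟩, h2, G, fun j hj => ⟨h3 j hj, h4 j hj⟩⟩
  · have h5 : ∀ t ∈ V3 R, h 1 t - 2 = 0 := by
      refine EXT_ident (EXT_open R) (hV3C R) Metric.isOpen_ball hsub hτ1
        ((h1 1 le_rfl).sub_const 2) ?_
      intro t ht
      rw [h2 1 le_rfl ht, hFI.one t ht, sub_self]
    intro t ht
    exact sub_eq_zero.mp (h5 t ht)
  · intro J hJ
    exact EXT_ident (EXT_open R) (hV3C R) Metric.isOpen_ball hsub hτ1
      (EXT_Cf hB (fun j hj _ => h1 j hj) _) (fun t ht => hFI'.law J hJ t ht)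

end H738CZ
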