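import Pool.Agent.H738R3.CZ.Defs

open Complex Set Filter Topology

namespace H738CZ

/-- functions on `V` which are restrictions of holomorphic functions -/
def EXV_A (V : Set ℂ) : Subalgebra ℂ (V → ℂ) where
  carrier := {φ | ∃ f : ℂ → ℂ, DifferentiableOn ℂ f V ∧ ∀ t : V, φ t = f t}
  mul_mem' := by
    rintro a b ⟨f, hf, haf⟩ ⟨g, hg, hbg⟩
    exact ⟨fun t => f t * g t, hf.mul hg, fun t => by rw [Pi.mul_apply, haf, hbg]⟩
  add_mem' := by
    rintro a b ⟨f, hf, haf⟩ ⟨g, hg, hbg⟩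
    exact ⟨fun t => f t + g t, hf.add hg, fun t => by rw [Pi.add_apply, haf, hbg]⟩
  algebraMap_mem' := fun c => ⟨fun _ => c, differentiableOn_const c, fun t => rfl⟩

/-- `a` is the restriction of the holomorphic function `f` -/
def EXV_Rep {V : Set ℂ} (a : EXV_A V) (f : ℂ → ℂ) : Prop :=
  DifferentiableOn ℂ f V ∧ ∀ t : V, a.1 t = f t

theorem EXV_rep_ext {V : Set ℂ} (a : EXV_A V) : EXV_Rep a (Classical.choose a.2) :=
  Classical.choose_spec a.2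

theorem EXV_rep_mul {V : Set ℂ} {a b : EXV_A V} {f g : ℂ → ℂ} (ha : EXV_Rep a f)
    (hb : EXV_Rep b g) : EXV_Rep (a * b) (fun t => f t * g t) :=
  ⟨ha.1.mul hb.1, fun t => by
    show a.1 t * b.1 t = _
    rw [ha.2, hb.2]⟩

theorem EXV_rep_add {V : Set ℂ} {a b : EXV_A V} {f g : ℂ → ℂ} (ha : EXV_Rep a f)
    (hb : EXV_Rep b g) : EXV_Rep (a + b) (fun t => f t + g t) :=
  ⟨ha.1.add hb.1, fun t => by
    show a.1 t + b.1 t = _
    rw [ha.2, hb.2]⟩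

theorem EXV_rep_smul {V : Set ℂ} {a : EXV_A V} {f : ℂ → ℂ} (c : ℂ) (ha : EXV_Rep a f) :
    EXV_Rep (c • a) (fun t => c * f t) :=
  ⟨ha.1.const_mul c, fun t => by
    show c * a.1 t = _
    rw [ha.2]⟩

theorem EXV_rep_pow {V : Set ℂ} {a : EXV_A V} {f : ℂ → ℂ} (ha : EXV_Rep a f) (n : ℕ) :
    EXV_Rep (a ^ n) (fun t => f t ^ n) :=
  ⟨ha.1.pow n, fun t => by
    show (a.1 ^ n) t = _
    rw [Pi.pow_apply, ha.2]⟩

theorem EXV_deriv_eq {V : Set ℂ} (hV : IsOpen V) {a : EXV_A V} {f g : ℂ → ℂ}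
    (hf : EXV_Rep a f) (hg : EXV_Rep a g) {t : ℂ} (ht : t ∈ V) : deriv f t = deriv g t := by
  apply Filter.EventuallyEq.deriv_eq
  filter_upwards [hV.mem_nhds ht] with s hs
  rw [← hf.2 ⟨s, hs⟩, hg.2 ⟨s, hs⟩]

section
variable {V : Set ℂ} {d : ℂ → ℂ} (hV : IsOpen V) (hd : DifferentiableOn ℂ d V)
  (hd0 : ∀ t ∈ V, d t ≠ 0)

include hV hd hd0 in
theorem EXV_DD_diff {f : ℂ → ℂ} (hf : DifferentiableOn ℂ f V) :
    DifferentiableOn ℂ (DD d f) V := (hf.deriv hV).div hd hd0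

/-- the derivation, as a function -/
noncomputable def EXV_D0 (a : EXV_A V) : EXV_A V :=
  ⟨fun t => DD d (Classical.choose a.2) t, DD d (Classical.choose a.2),
    EXV_DD_diff hV hd hd0 (EXV_rep_ext a).1, fun _ => rfl⟩

theorem EXV_D0_rep {a : EXV_A V} {f : ℂ → ℂ} (hf : EXV_Rep a f) :
    EXV_Rep (EXV_D0 hV hd hd0 a) (DD d f) := by
  refine ⟨EXV_DD_diff hV hd hd0 hf.1, fun t => ?_⟩
  show DD d (Classical.choose a.2) t = DD d f t
  unfold DD
  rw [EXV_deriv_eq hV (EXV_rep_ext a) hf t.2]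

theorem EXV_D0_apply {a : EXV_A V} {f : ℂ → ℂ} (hf : EXV_Rep a f) (t : V) :
    (EXV_D0 hV hd hd0 a).1 t = DD d f t := (EXV_D0_rep hV hd hd0 hf).2 t

/-- the derivation `f ↦ f'/d` -/
noncomputable def EXV_D : Derivation ℂ (EXV_A V) (EXV_A V) :=
  Derivation.mk'
    { toFun := EXV_D0 hV hd hd0
      map_add' := by
        intro a b
        apply Subtype.ext
        funext t
        have h1 := EXV_rep_ext a
        have h2 := EXV_rep_ext b
        rw [EXV_D0_apply hV hd hd0 (EXV_rep_add h1 h2) t]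
        show _ = (EXV_D0 hV hd hd0 a).1 t + (EXV_D0 hV hd hd0 b).1 t
        rw [EXV_D0_apply hV hd hd0 h1 t, EXV_D0_apply hV hd hd0 h2 t]
        unfold DD
        rw [deriv_fun_add (h1.1.differentiableAt (hV.mem_nhds t.2))
          (h2.1.differentiableAt (hV.mem_nhds t.2)), add_div]
      map_smul' := by
        intro c a
        apply Subtype.ext
        funext t
        have h1 := EXV_rep_ext a
        rw [EXV_D0_apply hV hd hd0 (EXV_rep_smul c h1) t]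
        show _ = c * (EXV_D0 hV hd hd0 a).1 t
        rw [EXV_D0_apply hV hd hd0 h1 t]
        unfold DD
        rw [deriv_const_mul c (h1.1.differentiableAt (hV.mem_nhds t.2)), mul_div_assoc] }
    (by
      intro a b
      apply Subtype.ext
      funext t
      have h1 := EXV_rep_ext a
      have h2 := EXV_rep_ext b
      show (EXV_D0 hV hd hd0 (a * b)).1 t =
        a.1 t * (EXV_D0 hV hd hd0 b).1 t + b.1 t * (EXV_D0 hV hd hd0 a).1 t
      rw [EXV_D0_apply hV hd hd0 (EXV_rep_mul h1 h2) t, EXV_D0_apply hV hd hd0 h1 t,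
        EXV_D0_apply hV hd hd0 h2 t, h1.2 t, h2.2 t]
      unfold DD
      rw [deriv_fun_mul (h1.1.differentiableAt (hV.mem_nhds t.2))
          (h2.1.differentiableAt (hV.mem_nhds t.2))]
      ring)

theorem EXV_D_rep {a : EXV_A V} {f : ℂ → ℂ} (hf : EXV_Rep a f) :
    EXV_Rep (EXV_D hV hd hd0 a) (DD d f) := EXV_D0_rep hV hd hd0 hf

theorem EXV_iter_rep (l : ℕ) : ∀ {a : EXV_A V} {f : ℂ → ℂ}, EXV_Rep a f →
    EXV_Rep ((EXV_D hV hd hd0)^[l] a) ((DD d)^[l] f) := by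
  induction l with
  | zero => intro a f h; exact h
  | succ l ih =>
    intro a f h
    rw [Function.iterate_succ_apply, Function.iterate_succ_apply]
    exact ih (EXV_D_rep hV hd hd0 h)

/-- evaluation at a point -/
def EXV_ev (t : V) : EXV_A V →+* ℂ := (Pi.evalRingHom (fun _ : V => ℂ) t).comp (EXV_A V).val.toRingHom

theorem EXV_ev_apply (t : V) (a : EXV_A V) : EXV_ev t a = a.1 t := rfl

theorem EXV_map_EA {a : EXV_A V} {f : ℂ → ℂ} (h : EXV_Rep a f) (t : V) :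
    PowerSeries.map (EXV_ev t) (EA (EXV_D hV hd hd0) a) = Es d f t := by
  ext l
  rw [PowerSeries.coeff_map, EA, PowerSeries.coeff_mk, Es, PowerSeries.coeff_mk, map_mul]
  have h1 : EXV_ev t ((EXV_D hV hd hd0)^[l] a) = ((DD d)^[l] f) t :=
    (EXV_iter_rep hV hd hd0 l h).2 t
  have h2 : EXV_ev t (algebraMap ℂ (EXV_A V) ((l.factorial : ℂ)⁻¹)) = (l.factorial : ℂ)⁻¹ := rfl
  rw [h1, h2, div_eq_mul_inv, mul_comm]

theorem EXV_map_YA (kc : ℕ → ℂ) {a : EXV_A V} {f : ℂ → ℂ} (h : EXV_Rep a f) (t : V) :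
    PowerSeries.map (EXV_ev t) (YA kc (EXV_D hV hd hd0) a) = Ys kc d f t := by
  ext n
  rw [PowerSeries.coeff_map, YA, PowerSeries.coeff_mk, Ys, PowerSeries.coeff_mk, map_mul, map_sum]
  have h2 : EXV_ev t (algebraMap ℂ (EXV_A V) ((n.factorial : ℂ)⁻¹)) = (n.factorial : ℂ)⁻¹ := rfl
  rw [h2, div_eq_mul_inv, mul_comm]
  congr 1
  refine Finset.sum_congr rfl fun l _ => ?_
  rw [map_mul]
  have h1 : EXV_ev t ((EXV_D hV hd hd0)^[l] a) = ((DD d)^[l] f) t :=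
    (EXV_iter_rep hV hd hd0 l h).2 t
  have h3 : EXV_ev t (algebraMap ℂ (EXV_A V) (kc (n - 1 - l))) = kc (n - 1 - l) := rfl
  rw [h1, h3]

end

theorem tEXV (hEXA : StEXA) : StEXV := by
  classical
  intro kc hkc d ρ r0 V hB g J hJ hg hg1 hlaw
  obtain ⟨hV, hd, hd0, hrd, hrn, hcube⟩ := hB
  have hρ : DifferentiableOn ℂ ρ V := (hrd.pow 3).congr (fun t ht => hcube t ht)
  have hri : DifferentiableOn ℂ (fun u => (r0 u)⁻¹) V := hrd.inv hrn
  obtain ⟨r, hr⟩ : ∃ r : EXV_A V, EXV_Rep r r0 :=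
    ⟨⟨fun t => r0 t, r0, hrd, fun _ => rfl⟩, hrd, fun _ => rfl⟩
  obtain ⟨ri, hrir⟩ : ∃ ri : EXV_A V, EXV_Rep ri (fun u => (r0 u)⁻¹) :=
    ⟨⟨fun t => (r0 t)⁻¹, (fun u => (r0 u)⁻¹), hri, fun _ => rfl⟩, hri, fun _ => rfl⟩
  have hrr : r * ri = 1 := by
    apply Subtype.ext
    funext t
    show r.1 t * ri.1 t = 1
    rw [hr.2, hrir.2]
    exact mul_inv_cancel₀ (hrn t t.2)
  have hr3 : EXV_Rep (r ^ 3) ρ := ⟨hρ, fun t => by
    rw [(EXV_rep_pow hr 3).2 t]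
    exact (hcube t t.2).symm⟩
  obtain ⟨gA, hgA⟩ : ∃ gA : ℕ → EXV_A V, ∀ j, 1 ≤ j → j < J → EXV_Rep (gA j) (g j) := by
    refine ⟨fun j => if h : 1 ≤ j ∧ j < J then
      ⟨fun t => g j t, g j, hg j h.1 h.2, fun _ => rfl⟩ else 0, ?_⟩
    intro j h1 h2
    refine ⟨hg j h1 h2, fun t => ?_⟩
    simp only [dif_pos (And.intro h1 h2)]
  have hgA1 : gA 1 = 2 := by
    apply Subtype.ext
    funext t
    rw [(hgA 1 le_rfl (by omega)).2 t, hg1 t t.2]
    rfl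
  -- terms
  have hterm : ∀ j, 1 ≤ j → j < J → ∀ t : V, PowerSeries.map (EXV_ev t)
      (EA (EXV_D hV hd hd0) (gA j * ri ^ j) * (YA kc (EXV_D hV hd hd0) (r ^ 3)) ^ j) =
      Tm kc d ρ r0 g j t := by
    intro j h1 h2 t
    rw [map_mul, map_pow, EXV_map_EA hV hd hd0 (EXV_rep_mul (hgA j h1 h2) (EXV_rep_pow hrir j)),
      EXV_map_YA hV hd hd0 kc hr3]
    rfl
  obtain ⟨P, hP⟩ := hEXA (EXV_A V) (EXV_D hV hd hd0) kc hkc r ri hrr gA hgA1 J hJ (by
    intro i h1 h2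
    apply Subtype.ext
    funext t
    have h3 := hlaw i h1 h2 t t.2
    unfold Cf at h3
    show EXV_ev t _ = _
    rw [← PowerSeries.coeff_map, map_sum, Finset.sum_congr rfl (fun j hj => hterm j
      (Finset.mem_Icc.1 hj).1 (lt_of_le_of_lt (Finset.mem_Icc.1 hj).2 h2) t), h3]
    rfl)
  refine ⟨Classical.choose P.2, (EXV_rep_ext P).1, ?_⟩
  intro t ht
  have h4 := (EXV_D_rep hV hd hd0 (EXV_rep_ext P)).2 ⟨t, ht⟩
  rw [← h4, hP, ← EXV_ev_apply, map_mul, ← PowerSeries.coeff_map, map_sum, Finset.sum_congr rfl (fun j hj => hterm j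
      (Finset.mem_Ico.1 hj).1 (Finset.mem_Ico.1 hj).2 ⟨t, ht⟩)]
  have h5 : EXV_ev (⟨t, ht⟩ : V) (ri ^ (2 * J)) = ((r0 t)⁻¹) ^ (2 * J) :=
    (EXV_rep_pow hrir (2 * J)).2 ⟨t, ht⟩
  rw [h5]
  rfl

end H738CZ
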