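import Pool.Agent.H738R3.CZ.Defs

/-!
# MON: restriction and congruence for formal integrals
-/

open Complex Set Filter Topology

namespace H738CZ

lemma MON_iter {d d' f f' : ℂ → ℂ} {V' : Set ℂ} (hV : IsOpen V') (hd : EqOn d' d V')
    (hf : EqOn f' f V') (l : ℕ) : EqOn ((DD d')^[l] f') ((DD d)^[l] f) V' := by
  induction l with
  | zero => simpa using hf
  | succ n ih =>
    intro t ht
    rw [Function.iterate_succ_apply', Function.iterate_succ_apply']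
    show deriv _ t / d' t = deriv _ t / d t
    rw [hd ht]
    congr 1
    exact Filter.EventuallyEq.deriv_eq (ih.eventuallyEq_of_mem (hV.mem_nhds ht))

lemma MON_Es {d d' f f' : ℂ → ℂ} {V' : Set ℂ} (hV : IsOpen V') (hd : EqOn d' d V')
    (hf : EqOn f' f V') {t : ℂ} (ht : t ∈ V') : Es d' f' t = Es d f t := by
  unfold Es
  congr 1
  funext l
  rw [MON_iter hV hd hf l ht]

lemma MON_Ys {d d' ρ ρ' : ℂ → ℂ} (kc : ℕ → ℂ) {V' : Set ℂ} (hV : IsOpen V') (hd : EqOn d' d V')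
    (hf : EqOn ρ' ρ V') {t : ℂ} (ht : t ∈ V') : Ys kc d' ρ' t = Ys kc d ρ t := by
  unfold Ys
  congr 1
  funext n
  congr 1
  refine Finset.sum_congr rfl fun l _ => ?_
  rw [MON_iter hV hd hf l ht]

lemma MON_Tm {d d' ρ ρ' r0 r0' : ℂ → ℂ} {g g' : ℕ → ℂ → ℂ} (kc : ℕ → ℂ) {V' : Set ℂ}
    (hV : IsOpen V') (hd : EqOn d' d V') (hρ : EqOn ρ' ρ V') (hr : EqOn r0' r0 V') {j : ℕ}
    (hg : EqOn (g' j) (g j) V') {t : ℂ} (ht : t ∈ V') :
    Tm kc d' ρ' r0' g' j t = Tm kc d ρ r0 g j t := by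
  unfold Tm
  rw [MON_Ys kc hV hd hρ ht]
  congr 1
  refine MON_Es hV hd ?_ ht
  intro u hu
  show g' j u * ((r0' u)⁻¹) ^ j = g j u * ((r0 u)⁻¹) ^ j
  rw [hg hu, hr hu]

theorem tMON : StMON := by
  intro kc d ρ r0 d' ρ' r0' g g' V V' h hV hsub hd hρ hr hg
  obtain ⟨hb, hgd, hone, hlaw⟩ := h
  refine ⟨⟨hV, (hb.dd.mono hsub).congr hd, fun t ht => ?_, (hb.rd.mono hsub).congr hr,
    fun t ht => ?_, fun t ht => ?_⟩, fun j hj => ((hgd j hj).mono hsub).congr (hg j hj),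
    fun t ht => ?_, fun J hJ t ht => ?_⟩
  · rw [hd ht]; exact hb.d0 t (hsub ht)
  · rw [hr ht]; exact hb.rn t (hsub ht)
  · rw [hρ ht, hr ht]; exact hb.cube t (hsub ht)
  · rw [hg 1 le_rfl ht]; exact hone t (hsub ht)
  · have := hlaw J hJ t (hsub ht)
    rw [← this]
    unfold Cf
    congr 1
    refine Finset.sum_congr rfl fun j hj => ?_
    exact MON_Tm kc hV hd hρ hr (hg j (Finset.mem_Icc.mp hj).1) ht

end H738CZ
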