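import Mathlib

/-!
# Complex zeros of the radius of curvature obstruct analytic integrability of billiards

Definitions and statements (`Prop`s) only; no proofs.  `H738CZ`.
-/

open Complex Set Filter Topology

namespace H738CZ

/-! ## Formal integrals -/

/-- coordinate derivative `f' / d` -/
noncomputable def DD (d f : ℂ → ℂ) : ℂ → ℂ := fun t => deriv f t / d t

/-- Taylor shift: `E f (t) = ∑ (D^l f)(t) X^l / l!` -/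
noncomputable def Es (d f : ℂ → ℂ) (t : ℂ) : PowerSeries ℂ :=
  PowerSeries.mk fun l => ((DD d)^[l] f) t / (l.factorial : ℂ)

/-- Taylor series in `X` of `∫₀^X ρ(t+s) k(X-s) ds`, `kc i = k^{(i)}(0)`. -/
noncomputable def Ys (kc : ℕ → ℂ) (d ρ : ℂ → ℂ) (t : ℂ) : PowerSeries ℂ :=
  PowerSeries.mk fun n =>
    (∑ l ∈ Finset.range n, kc (n - 1 - l) * ((DD d)^[l] ρ) t) / (n.factorial : ℂ)

/-- the `j`-th term of the integral along a tangent line -/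
noncomputable def Tm (kc : ℕ → ℂ) (d ρ r0 : ℂ → ℂ) (g : ℕ → ℂ → ℂ) (j : ℕ) (t : ℂ) :
    PowerSeries ℂ :=
  Es d (fun u => g j u * ((r0 u)⁻¹) ^ j) t * (Ys kc d ρ t) ^ j

noncomputable def Cf (kc : ℕ → ℂ) (d ρ r0 : ℂ → ℂ) (g : ℕ → ℂ → ℂ) (J N : ℕ) (t : ℂ) : ℂ :=
  PowerSeries.coeff N (∑ j ∈ Finset.Icc 1 J, Tm kc d ρ r0 g j t)

noncomputable def Lo (kc : ℕ → ℂ) (d ρ r0 : ℂ → ℂ) (g : ℕ → ℂ → ℂ) (J : ℕ) (t : ℂ) : ℂ :=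
  PowerSeries.coeff (2 * J + 1) (∑ j ∈ Finset.Ico 1 J, Tm kc d ρ r0 g j t)

/-- Taylor coefficients of the kernel (`sin` or `id`) -/
structure Ker (kc : ℕ → ℂ) : Prop where
  even : ∀ i, kc (2 * i) = 0
  one : kc 1 = 1
  bd : ∀ i, ‖kc i‖ ≤ 1

structure Base (d ρ r0 : ℂ → ℂ) (V : Set ℂ) : Prop where
  op : IsOpen V
  dd : DifferentiableOn ℂ d V
  d0 : ∀ t ∈ V, d t ≠ 0
  rd : DifferentiableOn ℂ r0 V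
  rn : ∀ t ∈ V, r0 t ≠ 0
  cube : ∀ t ∈ V, ρ t = r0 t ^ 3

/-- formal integral `∑ g_j r0^{-j} y^j` -/
structure FI (kc : ℕ → ℂ) (d ρ r0 : ℂ → ℂ) (g : ℕ → ℂ → ℂ) (V : Set ℂ) : Prop where
  base : Base d ρ r0 V
  gd : ∀ j, 1 ≤ j → DifferentiableOn ℂ (g j) V
  one : ∀ t ∈ V, g 1 t = 2
  law : ∀ J, 1 ≤ J → ∀ t ∈ V, Cf kc d ρ r0 g J (2 * J + 1) t = 0

/-- Gevrey type bound -/
def GB (C s : ℝ) (g : ℕ → ℂ → ℂ) (V : Set ℂ) : Prop :=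
  ∀ j, 1 ≤ j → ∀ t ∈ V, ‖g j t‖ ≤ C ^ j * ((2 * j).factorial : ℝ) ^ s

/-- sub-Gevrey bound -/
def SG (g : ℕ → ℂ → ℂ) (V : Set ℂ) : Prop :=
  ∃ C s : ℝ, 1 ≤ C ∧ 0 ≤ s ∧ s < 1 ∧ GB C s g V

/-- near `a` there is a sub-Gevrey formal integral -/
def Good (kc : ℕ → ℂ) (ρ : ℂ → ℂ) (a : ℂ) : Prop :=
  ∃ η > 0, ∃ (r0 : ℂ → ℂ) (g : ℕ → ℂ → ℂ),
    FI kc (fun _ => 1) ρ r0 g (Metric.ball a η) ∧ SG g (Metric.ball a η)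

/-- REC: the recursion. -/
def StREC : Prop := ∀ (kc : ℕ → ℂ), Ker kc → ∀ (d ρ r0 : ℂ → ℂ) (V : Set ℂ), Base d ρ r0 V →
  ∀ (g : ℕ → ℂ → ℂ) (J : ℕ), 1 ≤ J → DifferentiableOn ℂ (g J) V → ∀ t ∈ V,
    Cf kc d ρ r0 g J (2 * J + 1) t
      = (r0 t ^ 2 / 2) ^ J * DD d (g J) t + Lo kc d ρ r0 g J t

/-- MON: restriction and congruence. -/
def StMON : Prop := ∀ (kc : ℕ → ℂ) (d ρ r0 d' ρ' r0' : ℂ → ℂ) (g g' : ℕ → ℂ → ℂ) (V V' : Set ℂ),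
  FI kc d ρ r0 g V → IsOpen V' → V' ⊆ V → EqOn d' d V' → EqOn ρ' ρ V' → EqOn r0' r0 V' →
  (∀ j, 1 ≤ j → EqOn (g' j) (g j) V') → FI kc d' ρ' r0' g' V'

/-- CHG: change of coordinates. -/
def StCHG : Prop := ∀ (kc : ℕ → ℂ) (d ρ r0 : ℂ → ℂ) (g : ℕ → ℂ → ℂ) (V : Set ℂ)
  (d' χ : ℂ → ℂ) (V' : Set ℂ), FI kc d ρ r0 g V → IsOpen V' → DifferentiableOn ℂ χ V' →
  MapsTo χ V' V → (∀ t ∈ V', d (χ t) * deriv χ t = d' t) → (∀ t ∈ V', d' t ≠ 0) →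
    FI kc d' (ρ ∘ χ) (r0 ∘ χ) (fun j => g j ∘ χ) V'

/-! ### Exactness -/

noncomputable def EA {A : Type} [CommRing A] [Algebra ℂ A] (D : Derivation ℂ A A) (a : A) :
    PowerSeries A :=
  PowerSeries.mk fun l => algebraMap ℂ A ((l.factorial : ℂ)⁻¹) * (D^[l] a)

noncomputable def YA {A : Type} [CommRing A] [Algebra ℂ A] (kc : ℕ → ℂ) (D : Derivation ℂ A A)
    (ρ : A) : PowerSeries A :=
  PowerSeries.mk fun n => algebraMap ℂ A ((n.factorial : ℂ)⁻¹) *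
    ∑ l ∈ Finset.range n, algebraMap ℂ A (kc (n - 1 - l)) * (D^[l] ρ)

/-- the kernel as a power series -/
noncomputable def KA (A : Type) [CommRing A] [Algebra ℂ A] (kc : ℕ → ℂ) : PowerSeries A :=
  PowerSeries.mk fun n => algebraMap ℂ A (kc n / (n.factorial : ℂ))

/-- EX1: square roots of power series (existence and uniqueness). -/
def StEX1 : Prop := ∀ (A : Type) [CommRing A] [Algebra ℂ A] (r ri : A), r * ri = 1 →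
  ∀ γ : PowerSeries A, PowerSeries.constantCoeff γ = r ^ 2 →
    (∃ η : PowerSeries A, η ^ 2 = γ ∧ PowerSeries.constantCoeff η = r) ∧
    ∀ η η' : PowerSeries A, η ^ 2 = γ → η' ^ 2 = γ → PowerSeries.constantCoeff η = r →
      PowerSeries.constantCoeff η' = r → η = η'

/-- EX2: parity computation. -/
def StEX2 : Prop := ∀ (A : Type) [CommRing A] [Algebra ℂ A] (r ri : A), r * ri = 1 →
  ∀ (η ηi k : PowerSeries A) (J : ℕ), 2 ≤ J → PowerSeries.constantCoeff η = r → η * ηi = 1 →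
    (∀ i, 1 ≤ i → i < J → PowerSeries.coeff (2 * i - 1) (η ^ 2) = 0) →
    (∀ i, PowerSeries.coeff (2 * i) k = 0) → PowerSeries.coeff 1 k = 1 →
      PowerSeries.coeff (2 * J) (ηi ^ (2 * J + 1) * k)
        = - algebraMap ℂ A ((J : ℂ) + 1 / 2) * ri ^ (2 * J + 3)
            * PowerSeries.coeff (2 * J - 1) (η ^ 2)

/-- EX3: the residue is a total derivative. -/
def StEX3 : Prop := ∀ (A : Type) [CommRing A] [Algebra ℂ A] (D : Derivation ℂ A A)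
  (kc : ℕ → ℂ), Ker kc → ∀ (r ri : A), r * ri = 1 → ∀ g : ℕ → A, g 1 = 2 → ∀ J : ℕ, 2 ≤ J →
  ∀ (η ηi : PowerSeries A), PowerSeries.constantCoeff η = r → η * ηi = 1 →
    (∑ j ∈ Finset.Ico 1 J, EA D (g j * ri ^ j) * (YA kc D (r ^ 3)) ^ j)
      = PowerSeries.X ^ 2 * η ^ 2 →
    ∃ S : A, D S = PowerSeries.coeff (2 * J)
      (ηi ^ (2 * J + 1) * (PowerSeries.C (r ^ 3) * KA A kc))

/-- EXA: exactness in a differential algebra. -/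
def StEXA : Prop := ∀ (A : Type) [CommRing A] [Algebra ℂ A] (D : Derivation ℂ A A)
  (kc : ℕ → ℂ), Ker kc → ∀ (r ri : A), r * ri = 1 → ∀ g : ℕ → A, g 1 = 2 → ∀ J : ℕ, 2 ≤ J →
  (∀ i, 1 ≤ i → i < J → PowerSeries.coeff (2 * i + 1)
      (∑ j ∈ Finset.Icc 1 i, EA D (g j * ri ^ j) * (YA kc D (r ^ 3)) ^ j) = 0) →
    ∃ P : A, D P = ri ^ (2 * J) * PowerSeries.coeff (2 * J + 1)
      (∑ j ∈ Finset.Ico 1 J, EA D (g j * ri ^ j) * (YA kc D (r ^ 3)) ^ j)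

/-- EXV: exactness for analytic functions on an open set. -/
def StEXV : Prop := ∀ (kc : ℕ → ℂ), Ker kc → ∀ (d ρ r0 : ℂ → ℂ) (V : Set ℂ), Base d ρ r0 V →
  ∀ (g : ℕ → ℂ → ℂ) (J : ℕ), 2 ≤ J → (∀ j, 1 ≤ j → j < J → DifferentiableOn ℂ (g j) V) →
  (∀ t ∈ V, g 1 t = 2) →
  (∀ i, 1 ≤ i → i < J → ∀ t ∈ V, Cf kc d ρ r0 g i (2 * i + 1) t = 0) →
    ∃ P : ℂ → ℂ, DifferentiableOn ℂ P V ∧
      ∀ t ∈ V, DD d P t = ((r0 t)⁻¹) ^ (2 * J) * Lo kc d ρ r0 g J t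

/-! ### Propagation in discs -/

/-- SOLV: extension of a formal integral to a disc on which `ρ` has no zeros. -/
def StSOLV : Prop := ∀ (kc : ℕ → ℂ), Ker kc → ∀ (ρ r0 : ℂ → ℂ) (g : ℕ → ℂ → ℂ) (a : ℂ)
  (η R : ℝ), 0 < η → η ≤ R → FI kc (fun _ => 1) ρ r0 g (Metric.ball a η) →
  DifferentiableOn ℂ ρ (Metric.ball a R) → (∀ t ∈ Metric.ball a R, ρ t ≠ 0) →
    ∃ (r0' : ℂ → ℂ) (g' : ℕ → ℂ → ℂ), FI kc (fun _ => 1) ρ r0' g' (Metric.ball a R) ∧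
      EqOn r0' r0 (Metric.ball a η) ∧ ∀ j, 1 ≤ j → EqOn (g' j) (g j) (Metric.ball a η)

/-- the normalised series `(2/r0²) E(1/r0) Y = X² + ...` -/
noncomputable def Wt (kc : ℕ → ℂ) (ρ r0 : ℂ → ℂ) (t : ℂ) : PowerSeries ℂ :=
  PowerSeries.C (2 / r0 t ^ 2) * (Es (fun _ => 1) (fun u => (r0 u)⁻¹) t * Ys kc (fun _ => 1) ρ t)

/-- OM: bounds for the normalised series. -/
def StOM : Prop := ∀ (kc : ℕ → ℂ), Ker kc → ∀ (ρ r0 : ℂ → ℂ) (a : ℂ) (R : ℝ), 0 < R →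
  Base (fun _ => 1) ρ r0 (Metric.ball a R) → ∃ V c : ℝ, 1 ≤ V ∧ 1 ≤ c ∧
    ∀ t ∈ Metric.ball a (5 * R / 8), ‖2 / r0 t ^ 2‖ ≤ c ∧
      PowerSeries.coeff 0 (Wt kc ρ r0 t) = 0 ∧ PowerSeries.coeff 1 (Wt kc ρ r0 t) = 0 ∧
      PowerSeries.coeff 2 (Wt kc ρ r0 t) = 1 ∧
      ∀ n, ‖PowerSeries.coeff (n + 2) (Wt kc ρ r0 t)‖ ≤ V ^ n

/-- DGJ: the recursion in normalised form. -/
def StDGJ : Prop := ∀ (kc : ℕ → ℂ), Ker kc → ∀ (ρ r0 : ℂ → ℂ) (g : ℕ → ℂ → ℂ) (V : Set ℂ),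
  FI kc (fun _ => 1) ρ r0 g V → ∀ J, 1 ≤ J → ∀ t ∈ V,
    deriv (g J) t = - ∑ i ∈ Finset.Ico 1 J, (2 / r0 t ^ 2) ^ (J - i) *
      PowerSeries.coeff (2 * J + 1) (Es (fun _ => 1) (g i) t * (Wt kc ρ r0 t) ^ i)

/-- NAG: Nagumo type induction. -/
def StNAG : Prop := ∀ (kc : ℕ → ℂ), Ker kc → ∀ (ρ r0 : ℂ → ℂ) (g : ℕ → ℂ → ℂ) (a : ℂ) (R : ℝ),
  0 < R → R ≤ 1 → FI kc (fun _ => 1) ρ r0 g (Metric.ball a R) →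
  (∃ Λ0 : ℝ, ∀ j, 1 ≤ j → ‖g j a‖ ≤ Λ0 ^ j * ((2 * j).factorial : ℝ)) →
    ∃ Λ : ℝ, 1 ≤ Λ ∧ ∀ j, 1 ≤ j → ∀ t ∈ Metric.ball a (R / 2),
      ‖g j t‖ ≤ Λ ^ j * ((2 * j).factorial : ℝ)

/-- HAD: two constants (three circles). -/
def StHAD : Prop := ∀ (r R : ℝ), 0 < r → r < R → ∃ θ : ℝ, 0 < θ ∧ θ < 1 ∧
  ∀ (a : ℂ) (f : ℂ → ℂ) (M m : ℝ), DifferentiableOn ℂ f (Metric.ball a R) → 0 < m → m ≤ M →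
    (∀ t ∈ Metric.ball a R, ‖f t‖ ≤ M) → (∀ t ∈ Metric.ball a r, ‖f t‖ ≤ m) →
      ∀ t ∈ Metric.ball a (R / 2), ‖f t‖ ≤ M ^ (1 - θ) * m ^ θ

/-- STB: sub-Gevrey bounds propagate. -/
def StSTB : Prop := ∀ (kc : ℕ → ℂ), Ker kc → ∀ (ρ r0 : ℂ → ℂ) (g : ℕ → ℂ → ℂ) (a : ℂ)
  (η R : ℝ), 0 < η → η ≤ R → R ≤ 1 → FI kc (fun _ => 1) ρ r0 g (Metric.ball a R) →
  SG g (Metric.ball a η) → SG g (Metric.ball a (R / 4))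

/-- PRS: propagation along a segment. -/
def StPRS : Prop := ∀ (kc : ℕ → ℂ), Ker kc → ∀ (ρ : ℂ → ℂ) (U : Set ℂ) (a b : ℂ), IsOpen U →
  DifferentiableOn ℂ ρ U → (∀ t ∈ U, ρ t ≠ 0) → segment ℝ a b ⊆ U → Good kc ρ a → Good kc ρ b

/-- AVD: avoiding the zeros by a broken line. -/
def StAVD : Prop := ∀ (ρ : ℂ → ℂ) (c : ℂ) (R : ℝ) (a b : ℂ), DifferentiableOn ℂ ρ (Metric.ball c R) →
  a ∈ Metric.ball c R → b ∈ Metric.ball c R → ρ a ≠ 0 → ρ b ≠ 0 →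
    ∃ p : ℂ, segment ℝ a p ⊆ {t ∈ Metric.ball c R | ρ t ≠ 0} ∧
      segment ℝ p b ⊆ {t ∈ Metric.ball c R | ρ t ≠ 0}

/-- DSC: propagation in a disc. -/
def StDSC : Prop := ∀ (kc : ℕ → ℂ), Ker kc → ∀ (ρ : ℂ → ℂ) (c : ℂ) (R : ℝ) (a b : ℂ),
  DifferentiableOn ℂ ρ (Metric.ball c R) → a ∈ Metric.ball c R → b ∈ Metric.ball c R →
  ρ b ≠ 0 → Good kc ρ a → Good kc ρ b

/-- TRL: translation and congruence. -/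
def StTRL : Prop := ∀ (kc : ℕ → ℂ) (ρ ρ' : ℂ → ℂ) (a c : ℂ), Good kc ρ a →
  (∀ᶠ t in 𝓝 (a - c), ρ' t = ρ (t + c)) → Good kc ρ' (a - c)

/-! ## The singular point: `ρ(z) = z^m u(z)³`, `z = τ³` -/

noncomputable def d3 : ℂ → ℂ := fun τ => 3 * τ ^ 2

noncomputable def r3 (m : ℕ) (u : ℂ → ℂ) : ℂ → ℂ := fun τ => τ ^ m * u (τ ^ 3)

noncomputable def ρ3 (m : ℕ) (u : ℂ → ℂ) : ℂ → ℂ := fun τ => (τ ^ m * u (τ ^ 3)) ^ 3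

/-- punctured disc -/
def V3 (R : ℝ) : Set ℂ := Metric.ball 0 R \ {0}

structure UN (u : ℂ → ℂ) (R : ℝ) : Prop where
  pos : 0 < R
  df : DifferentiableOn ℂ u (Metric.ball 0 (R ^ 3))
  nz : ∀ z ∈ Metric.ball (0 : ℂ) (R ^ 3), u z ≠ 0

/-- V3C: the punctured disc is connected. -/
def StV3C : Prop := ∀ R : ℝ, IsPreconnected (V3 R)

/-- FAC: factorisation at a zero. -/
def StFAC : Prop := ∀ (ρ : ℂ → ℂ) (R : ℝ), 0 < R → DifferentiableOn ℂ ρ (Metric.ball 0 R) →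
  ρ 0 = 0 → (∃ t ∈ Metric.ball (0 : ℂ) R, ρ t ≠ 0) →
    ∃ (m : ℕ) (R' : ℝ) (u : ℂ → ℂ), 1 ≤ m ∧ R' ^ 3 ≤ R ∧ UN u R' ∧
      ∀ t ∈ Metric.ball (0 : ℂ) (R' ^ 3), ρ t = t ^ m * u t ^ 3

/-- INT: passing to the coordinate `τ`. -/
def StINT : Prop := ∀ (kc : ℕ → ℂ) (m : ℕ) (u : ℂ → ℂ) (R : ℝ) (ρ : ℂ → ℂ) (t1 : ℂ), 1 ≤ m →
  UN u R → t1 ∈ Metric.ball (0 : ℂ) (R ^ 3) → t1 ≠ 0 →
  (∀ t ∈ Metric.ball (0 : ℂ) (R ^ 3), ρ t = t ^ m * u t ^ 3) → Good kc ρ t1 →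
    ∃ (ω τ1 : ℂ) (η : ℝ) (g : ℕ → ℂ → ℂ), ω ^ 3 = 1 ∧ 0 < η ∧ Metric.ball τ1 η ⊆ V3 R ∧
      FI kc d3 (ρ3 m (fun z => ω * u z)) (r3 m (fun z => ω * u z)) g (Metric.ball τ1 η) ∧
      SG g (Metric.ball τ1 η)

/-- pole order condition for `g j` -/
def Pol (m : ℕ) (R : ℝ) (g : ℕ → ℂ → ℂ) (j : ℕ) (G : ℂ → ℂ) : Prop :=
  DifferentiableOn ℂ G (Metric.ball 0 R) ∧
    ∀ τ ∈ V3 R, g j τ * τ ^ ((2 * m + 6) * (j - 1)) = G τ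

/-- WT: pole order of the inhomogeneous term. -/
def StWT : Prop := ∀ (kc : ℕ → ℂ), Ker kc → ∀ (m : ℕ) (u : ℂ → ℂ) (R : ℝ), 1 ≤ m → UN u R →
  ∀ (g : ℕ → ℂ → ℂ) (J : ℕ), 2 ≤ J → (∀ j, 1 ≤ j → j < J → DifferentiableOn ℂ (g j) (V3 R)) →
  (∀ j, 1 ≤ j → j < J → ∃ G, Pol m R g j G) →
    ∃ F : ℂ → ℂ, DifferentiableOn ℂ F (Metric.ball 0 R) ∧ ∀ τ ∈ V3 R,
      ((r3 m u τ)⁻¹) ^ (2 * J) * Lo kc d3 (ρ3 m u) (r3 m u) g J τ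
        * τ ^ ((2 * m + 6) * (J - 1) + 3) = F τ

/-- PRI: pole order of a primitive. -/
def StPRI : Prop := ∀ (R : ℝ) (w : ℕ) (f F : ℂ → ℂ), 0 < R → 1 ≤ w →
  DifferentiableOn ℂ f (V3 R) → DifferentiableOn ℂ F (Metric.ball 0 R) →
  (∀ τ ∈ V3 R, deriv f τ * τ ^ (w + 1) = F τ) →
    ∃ G : ℂ → ℂ, DifferentiableOn ℂ G (Metric.ball 0 R) ∧ ∀ τ ∈ V3 R, f τ * τ ^ w = G τ

/-- EXT: extension to the punctured disc (no logarithms), with pole orders. -/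
def StEXT : Prop := ∀ (kc : ℕ → ℂ), Ker kc → ∀ (m : ℕ) (u : ℂ → ℂ) (R : ℝ), 1 ≤ m → UN u R →
  ∀ (g : ℕ → ℂ → ℂ) (τ1 : ℂ) (η : ℝ), 0 < η → Metric.ball τ1 η ⊆ V3 R →
  FI kc d3 (ρ3 m u) (r3 m u) g (Metric.ball τ1 η) →
    ∃ g' : ℕ → ℂ → ℂ, FI kc d3 (ρ3 m u) (r3 m u) g' (V3 R) ∧
      (∀ j, 1 ≤ j → EqOn (g' j) (g j) (Metric.ball τ1 η)) ∧
      ∃ G : ℕ → ℂ → ℂ, ∀ j, 1 ≤ j → Pol m R g' j (G j)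

/-- PRV: sub-Gevrey bounds propagate in the punctured disc. -/
def StPRV : Prop := ∀ (kc : ℕ → ℂ), Ker kc → ∀ (m : ℕ) (u : ℂ → ℂ) (R : ℝ), 1 ≤ m → UN u R →
  ∀ (g : ℕ → ℂ → ℂ), FI kc d3 (ρ3 m u) (r3 m u) g (V3 R) →
  ∀ (τ1 : ℂ) (η : ℝ), 0 < η → Metric.ball τ1 η ⊆ V3 R → SG g (Metric.ball τ1 η) →
    ∀ τ ∈ V3 R, ∃ η' > 0, Metric.ball τ η' ⊆ V3 R ∧ SG g (Metric.ball τ η')

/-- CRC: sub-Gevrey bounds for the leading coefficients. -/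
def StCRC : Prop := ∀ (m : ℕ) (R : ℝ) (g G : ℕ → ℂ → ℂ), 0 < R →
  (∀ τ ∈ V3 R, ∃ η' > 0, Metric.ball τ η' ⊆ V3 R ∧ SG g (Metric.ball τ η')) →
  (∀ j, 1 ≤ j → Pol m R g j (G j)) →
    ∃ C s : ℝ, 1 ≤ C ∧ 0 ≤ s ∧ s < 1 ∧
      ∀ j, 1 ≤ j → ‖G j 0‖ ≤ C ^ j * ((2 * j).factorial : ℝ) ^ s

/-- binomial series `(1+X)^e` -/
noncomputable def binS (e : ℂ) : PowerSeries ℂ :=
  PowerSeries.mk fun l => (∏ i ∈ Finset.range l, (e - i)) / (l.factorial : ℂ)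

/-- Taylor series of `υ³ ∫₀^X (1+s)^m (X-s) ds` -/
noncomputable def Y0 (m : ℕ) (υ : ℂ) : PowerSeries ℂ :=
  PowerSeries.mk fun n => if n < 2 then 0 else
    υ ^ 3 * (∏ i ∈ Finset.range (n - 2), ((m : ℂ) - i)) / (n.factorial : ℂ)

/-- the homogeneous (model) law -/
def MLaw (m : ℕ) (υ : ℂ) (β : ℕ → ℂ) : Prop := ∀ J, 1 ≤ J →
  PowerSeries.coeff (2 * J + 1) (∑ j ∈ Finset.Icc 1 J,
    PowerSeries.C (β j) * binS ((2 * (m : ℂ) + 6 - (3 * m + 6) * j) / 3) * (Y0 m υ) ^ j) = 0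

/-- LIM: the leading coefficients satisfy the model law. -/
def StLIM : Prop := ∀ (kc : ℕ → ℂ), Ker kc → ∀ (m : ℕ) (u : ℂ → ℂ) (R : ℝ), 1 ≤ m → UN u R →
  ∀ (g G : ℕ → ℂ → ℂ), FI kc d3 (ρ3 m u) (r3 m u) g (V3 R) →
  (∀ j, 1 ≤ j → Pol m R g j (G j)) → MLaw m (u 0) (fun j => G j 0 * ((u 0)⁻¹) ^ j)

/-! ## The model -/

noncomputable def Bm (m : ℕ) (x : ℂ) : ℂ := 1 - (m + 2) * x ^ (m + 1) + (m + 1) * x ^ (m + 2)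

noncomputable def Mo (x : ℂ) : ℂ := x / (2 * x - 1)

noncomputable def Mc (m : ℕ) (x : ℂ) : ℂ := cexp ((2 * (m : ℂ) + 6) / 3 * log (2 * x - 1))

/-- the model relation for coefficients `α` (`α 0` is not used) -/
def MRel (m : ℕ) (α : ℕ → ℂ) : Prop := ∀ N : ℕ,
  (fun x : ℂ => ∑ j ∈ Finset.Ico 1 N, α j * Bm m x ^ j
      - Mc m x * ∑ j ∈ Finset.Ico 1 N, α j * Bm m (Mo x) ^ j)
    =O[𝓝 1] fun x => (x - 1) ^ (2 * N + 1)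

/-- MDL: from the model law to the model relation. -/
def StMDL : Prop := ∀ (m : ℕ) (υ : ℂ) (β : ℕ → ℂ), 1 ≤ m → υ ≠ 0 → MLaw m υ β →
  MRel m (fun j => β j * (υ ^ 3 / ((m + 1) * (m + 2))) ^ j)

/-- local uniformising coordinate `w`, `Bm (X w) = w²` -/
structure Loc (m : ℕ) (r c1 : ℝ) (X W : ℂ → ℂ) : Prop where
  r0 : 0 < r
  c0 : 0 < c1
  dX : DifferentiableOn ℂ X (Metric.ball 0 r)
  X0 : X 0 = 1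
  X1 : deriv X 0 = c1
  BX : ∀ w ∈ Metric.ball (0 : ℂ) r, Bm m (X w) = w ^ 2
  nz : ∀ w ∈ Metric.ball (0 : ℂ) r, 2 * X w - 1 ≠ 0
  ge : ∀ w ∈ Metric.ball (0 : ℂ) r, 0 ≤ w.re → 1 ≤ ‖X w‖
  aW : AnalyticAt ℂ W 1
  W0 : W 1 = 0
  XW : ∀ᶠ x in 𝓝 (1 : ℂ), X (W x) = x
  WX : ∀ᶠ w in 𝓝 (0 : ℂ), W (X w) = w

/-- LOC: existence of the local coordinate. -/
def StLOC : Prop := ∀ m : ℕ, 1 ≤ m → ∃ (r c1 : ℝ) (X W : ℂ → ℂ), Loc m r c1 X W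

/-- TE: expansions of the return map and the factor in the local coordinate. -/
def StTE : Prop := ∀ (m : ℕ) (r c1 : ℝ) (X W : ℂ → ℂ), 1 ≤ m → Loc m r c1 X W →
  AnalyticAt ℂ (fun w => - W (Mo (X w))) 0 ∧ AnalyticAt ℂ (fun w => Mc m (X w)) 0 ∧
  (fun w : ℂ => - W (Mo (X w)) - (w - ((2 * (m : ℂ) + 6) / 3 * c1) * w ^ 2))
    =O[𝓝 0] (fun w => w ^ 3) ∧
  (fun w : ℂ => Mc m (X w) - (1 + 2 * ((2 * (m : ℂ) + 6) / 3 * c1) * w))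
    =O[𝓝 0] (fun w => w ^ 2)

/-- partial sums `∑_{j<N} α_j w^{2j}` -/
noncomputable def SN (α : ℕ → ℂ) (N : ℕ) (w : ℂ) : ℂ := ∑ j ∈ Finset.range N, α j * w ^ (2 * j)

/-- hypotheses on `(T, E, α)` at the parabolic fixed point -/
structure Par (a : ℝ) (T E : ℂ → ℂ) (α : ℕ → ℂ) : Prop where
  a0 : 0 < a
  aT : AnalyticAt ℂ T 0
  aE : AnalyticAt ℂ E 0
  eT : (fun w : ℂ => T w - (w - a * w ^ 2)) =O[𝓝 0] (fun w => w ^ 3)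
  eE : (fun w : ℂ => E w - (1 + 2 * a * w)) =O[𝓝 0] (fun w => w ^ 2)
  z : α 0 = 0
  sg : ∃ C s : ℝ, 1 ≤ C ∧ 0 ≤ s ∧ s < 1 ∧ ∀ j, ‖α j‖ ≤ C ^ j * ((2 * j).factorial : ℝ) ^ s
  rel : ∀ N : ℕ, (fun w : ℂ => SN α N w - E w * SN α N (T w)) =O[𝓝 0] (fun w => w ^ (2 * N + 1))

/-- PAR: a sub-Gevrey formal solution at a parabolic fixed point converges. -/
def StPAR : Prop := ∀ (a : ℝ) (T E : ℂ → ℂ) (α : ℕ → ℂ), Par a T E α →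
  ∃ C : ℝ, ∀ j, ‖α j‖ ≤ C ^ j

/-- PA1: the same with `a = 1`. -/
def StPA1 : Prop := ∀ (T E : ℂ → ℂ) (α : ℕ → ℂ), Par 1 T E α → ∃ C : ℝ, ∀ j, ‖α j‖ ≤ C ^ j

/-- the return map `f(Z) = 1/T(1/Z)` and factor `e(Z) = E(1/Z)` near infinity -/
structure PF (f e : ℂ → ℂ) (A R0 : ℝ) : Prop where
  A0 : 0 ≤ A
  R1 : 1 ≤ R0
  df : DifferentiableOn ℂ f {Z | R0 < ‖Z‖}
  de : DifferentiableOn ℂ e {Z | R0 < ‖Z‖}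
  ef : ∀ Z, R0 < ‖Z‖ → ‖f Z - Z - 1‖ ≤ A / ‖Z‖
  ee : ∀ Z, R0 < ‖Z‖ → ‖e Z - 1 - 2 / Z‖ ≤ A / ‖Z‖ ^ 2

/-- ZPF: passing to infinity. -/
def StZPF : Prop := ∀ (T E : ℂ → ℂ), AnalyticAt ℂ T 0 → AnalyticAt ℂ E 0 →
  (fun w : ℂ => T w - (w - w ^ 2)) =O[𝓝 0] (fun w => w ^ 3) →
  (fun w : ℂ => E w - (1 + 2 * w)) =O[𝓝 0] (fun w => w ^ 2) →
    ∃ A R0 : ℝ, PF (fun Z => (T Z⁻¹)⁻¹) (fun Z => E Z⁻¹) A R0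

/-- the petal -/
def Vq (q R : ℝ) : Set ℂ := {Z | R - q * |Z.im| < Z.re}

/-- orbit estimates in the petal -/
structure Pet (f : ℂ → ℂ) (R0 q R c : ℝ) : Prop where
  R0p : 0 < R
  c0 : 0 < c
  big : ∀ Z ∈ Vq q R, R0 < ‖Z‖
  maps : MapsTo f (Vq q R) (Vq q R)
  orb : ∀ (k : ℕ) (Z : ℂ), Z ∈ Vq q R → c * (‖Z‖ + k) ≤ ‖f^[k] Z‖

/-- PET: invariant petals. -/
def StPET : Prop := ∀ (f e : ℂ → ℂ) (A R0 : ℝ), PF f e A R0 → ∀ (q R' : ℝ), 1 ≤ q →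
  ∃ R c : ℝ, R' ≤ R ∧ Pet f R0 q R c

/-- PRD: products along orbits. -/
def StPRD : Prop := ∀ (f e : ℂ → ℂ) (A R0 : ℝ), PF f e A R0 → ∀ (q R c : ℝ), 1 ≤ q →
  Pet f R0 q R c → ∃ C : ℝ, 1 ≤ C ∧ ∀ (k : ℕ) (Z : ℂ), Z ∈ Vq q R →
    ‖∏ i ∈ Finset.range k, e (f^[i] Z)‖ ≤ C * (‖f^[k] Z‖ ^ 2 / ‖Z‖ ^ 2)

/-- BN: uniform bounds for the defect of the partial sums. -/
def StBN : Prop := ∀ (T E : ℂ → ℂ) (α : ℕ → ℂ), Par 1 T E α →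
  ∃ r1 C1 s : ℝ, 0 < r1 ∧ 1 ≤ C1 ∧ 0 ≤ s ∧ s < 1 ∧ ∀ N : ℕ, 1 ≤ N → ∀ w : ℂ, ‖w‖ ≤ r1 →
    ‖SN α N w - E w * SN α N (T w)‖ ≤ C1 ^ N * ((2 * N).factorial : ℝ) ^ s * ‖w‖ ^ (2 * N + 1)

/-- asymptotic expansion with sub-Gevrey remainders in the petal -/
structure Exp (α : ℕ → ℂ) (q R C2 s : ℝ) (H : ℂ → ℂ) : Prop where
  C0 : 1 ≤ C2
  dH : DifferentiableOn ℂ H (Vq q R)
  as : ∀ N : ℕ, 2 ≤ N → ∀ Z ∈ Vq q R,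
    ‖H Z - SN α N Z⁻¹‖ ≤ C2 ^ N * ((2 * N).factorial : ℝ) ^ s * (‖Z‖⁻¹) ^ (2 * N)

/-- HV: the sectorial solution. -/
def StHV : Prop := ∀ (T E : ℂ → ℂ) (A R0 : ℝ) (α : ℕ → ℂ) (r1 C1 s : ℝ),
  PF (fun Z => (T Z⁻¹)⁻¹) (fun Z => E Z⁻¹) A R0 → 0 < r1 → 1 ≤ C1 → 0 ≤ s →
  (∀ N : ℕ, DifferentiableOn ℂ (fun Z => SN α N Z⁻¹ - E Z⁻¹ * SN α N (T Z⁻¹)) {Z | R0 < ‖Z‖}) →
  (∀ N : ℕ, 1 ≤ N → ∀ w : ℂ, ‖w‖ ≤ r1 →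
    ‖SN α N w - E w * SN α N (T w)‖ ≤ C1 ^ N * ((2 * N).factorial : ℝ) ^ s * ‖w‖ ^ (2 * N + 1)) →
  ∀ q : ℝ, 1 ≤ q → ∃ (R C2 : ℝ) (H : ℂ → ℂ), 1 ≤ R ∧ Exp α q R C2 s H

/-- WAT: Watson type uniqueness. -/
def StWAT : Prop := ∀ s : ℝ, 0 ≤ s → s < 1 → ∃ q : ℝ, 1 ≤ q ∧ ∀ (R C2 : ℝ) (D : ℂ → ℂ),
  0 < R → 1 ≤ C2 → DifferentiableOn ℂ D {Z | R + |Z.re| < q * Z.im} →
  (∀ N : ℕ, 2 ≤ N → ∀ Z : ℂ, R + |Z.re| < q * Z.im →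
    ‖D Z‖ ≤ C2 ^ N * ((2 * N).factorial : ℝ) ^ s * (‖Z‖⁻¹) ^ (2 * N)) →
  ∀ Z : ℂ, R + |Z.re| < q * Z.im → D Z = 0

/-- GLU: a single valued sectorial solution gives convergence. -/
def StGLU : Prop := ∀ (α : ℕ → ℂ) (q R C2 s : ℝ) (H : ℂ → ℂ), 1 ≤ q → 1 ≤ R → 0 ≤ s →
  Exp α q R C2 s H → (∀ Z : ℂ, Z ∈ Vq q R → -Z ∈ Vq q R → H Z = H (-Z)) →
    ∃ C : ℝ, ∀ j, 1 ≤ j → ‖α j‖ ≤ C ^ j

/-- M4: convergence in the model. -/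
def StM4 : Prop := ∀ (m : ℕ) (α : ℕ → ℂ), 1 ≤ m → MRel m α →
  (∃ C s : ℝ, 1 ≤ C ∧ 0 ≤ s ∧ s < 1 ∧ ∀ j, 1 ≤ j → ‖α j‖ ≤ C ^ j * ((2 * j).factorial : ℝ) ^ s) →
    ∃ C : ℝ, ∀ j, 1 ≤ j → ‖α j‖ ≤ C ^ j

/-! ### The model has no convergent solution -/

/-- the vector field `Bm / Bm'` -/
noncomputable def vf (m : ℕ) (x : ℂ) : ℂ :=
  x * ((m + 1) - ∑ j ∈ Finset.Icc 1 (m + 1), (x⁻¹) ^ j) / ((m + 1) * (m + 2))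

/-- 5V -/
def St5V : Prop := ∀ (m : ℕ) (x : ℂ),
  (HasDerivAt (Bm m) ((m + 1) * (m + 2) * x ^ m * (x - 1)) x) ∧
  (x ≠ 0 → vf m x * ((m + 1) * (m + 2) * x ^ m * (x - 1)) = Bm m x) ∧
  (1 ≤ ‖x‖ → 0 ≤ (vf m x / x).re) ∧
  (1 ≤ ‖x‖ → ‖2 * x - 1‖ ≥ 1 ∧ (x ≠ 1 → 1 < ‖2 * x - 1‖) ∧
    HasDerivAt (fun y => Bm m (Mo y))
      ((m + 1) * (m + 2) * x ^ m * (x - 1) * ((2 * x - 1)⁻¹) ^ (m + 3)) x)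

/-- a trajectory of `vf` in the exterior of the unit disc -/
structure Traj (m : ℕ) (x0 : ℂ) (x : ℝ → ℂ) : Prop where
  ini : x 0 = x0
  der : ∀ s, 0 ≤ s → HasDerivWithinAt x (vf m (x s)) (Ici 0) s
  ge : ∀ s, 0 ≤ s → 1 ≤ ‖x s‖
  val : ∀ s : ℝ, 0 ≤ s → Bm m (x s) = Real.exp s * Bm m x0

/-- 5F: global trajectories. -/
def St5F : Prop := ∀ (m : ℕ) (x0 : ℂ), 1 ≤ ‖x0‖ → ∃ x : ℝ → ℂ, Traj m x0 x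

/-- 5S: starting points. -/
def St5S : Prop := ∀ (m : ℕ) (ε : ℝ), 1 ≤ m → 0 < ε → ∃ r > 0, ∀ q : ℂ, 0 < ‖q‖ → ‖q‖ < r →
  ∃ x0 : ℂ, 1 ≤ ‖x0‖ ∧ ‖x0 - 1‖ < ε ∧ Bm m x0 = q ∧ ‖Bm m (Mo x0)‖ < ‖q‖

/-- 5T: contraction along trajectories. -/
def St5T : Prop := ∀ (m : ℕ) (x0 : ℂ) (x : ℝ → ℂ), Traj m x0 x → Bm m x0 ≠ 0 →
  ‖Bm m (Mo x0)‖ < ‖Bm m x0‖ → ∀ s, 0 ≤ s → ‖Bm m (Mo (x s))‖ < ‖Bm m (x s)‖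

/-- local relation at `1` -/
def Rel1 (m : ℕ) (F : ℂ → ℂ) : Prop :=
  ∀ᶠ x in 𝓝 (1 : ℂ), F (Bm m x) = Mc m x * F (Bm m (Mo x))

/-- relation near `x1`, where the left side is defined only for `|Bm x| < R` -/
def RelAt (m : ℕ) (F : ℂ → ℂ) (R : ℝ) (x1 : ℂ) : Prop :=
  ∃ c : ℂ → ℂ, AnalyticAt ℂ c x1 ∧ (∀ᶠ x in 𝓝 x1, c x ^ 3 = (2 * x - 1) ^ (2 * m + 6)) ∧
    ∀ᶠ x in 𝓝 x1, ‖Bm m x‖ < R → F (Bm m x) = c x * F (Bm m (Mo x))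

/-- 5P: continuation of the relation along trajectories. -/
def St5P : Prop := ∀ (m : ℕ) (F : ℂ → ℂ) (R : ℝ), 1 ≤ m → 0 < R →
  DifferentiableOn ℂ F (Metric.ball 0 R) → Rel1 m F → ∀ q1 : ℂ, q1 ≠ 0 → ‖q1‖ ≤ R →
    ∃ x1 : ℂ, 1 ≤ ‖x1‖ ∧ Bm m x1 = q1 ∧ ‖Bm m (Mo x1)‖ < ‖q1‖ ∧ RelAt m F R x1

/-- 5E: extension to an entire function. -/
def St5E : Prop := ∀ (m : ℕ) (F : ℂ → ℂ) (R : ℝ), 1 ≤ m → 0 < R →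
  DifferentiableOn ℂ F (Metric.ball 0 R) → Rel1 m F →
    ∃ F' : ℂ → ℂ, Differentiable ℂ F' ∧ EqOn F' F (Metric.ball 0 R)

/-- 5G: growth. -/
def St5G : Prop := ∀ (m : ℕ) (F : ℂ → ℂ), 1 ≤ m → Differentiable ℂ F → Rel1 m F →
  ∀ q, F q = F 0

/-- 5R: from the formal relation to the relation for the sum. -/
def St5R : Prop := ∀ (m : ℕ) (α : ℕ → ℂ) (C : ℝ), 1 ≤ m → MRel m α → (∀ j, 1 ≤ j → ‖α j‖ ≤ C ^ j) →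
  ∃ (R : ℝ) (F : ℂ → ℂ), 0 < R ∧ DifferentiableOn ℂ F (Metric.ball 0 R) ∧ F 0 = 0 ∧
    deriv F 0 = α 1 ∧ Rel1 m F

/-- S5: the model has no convergent solution. -/
def StS5 : Prop := ∀ (m : ℕ) (α : ℕ → ℂ) (C : ℝ), 1 ≤ m → MRel m α →
  (∀ j, 1 ≤ j → ‖α j‖ ≤ C ^ j) → α 1 = 0

/-- END: no sub-Gevrey formal integral near a zero of `ρ`. -/
def StEND : Prop := ∀ (kc : ℕ → ℂ), Ker kc → ∀ (ρ : ℂ → ℂ) (c : ℂ) (R : ℝ) (a : ℂ),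
  DifferentiableOn ℂ ρ (Metric.ball c R) → a ∈ Metric.ball c R → ρ c = 0 → ¬ Good kc ρ a

/-- a chain of discs along which `R 0` is continued analytically -/
structure Chain (k : ℕ) (a : ℕ → ℂ) (r : ℕ → ℝ) (R : ℕ → ℂ → ℂ) : Prop where
  df : ∀ i, i ≤ k → DifferentiableOn ℂ (R i) (Metric.ball (a i) (r i))
  ne : ∀ i, i < k → (Metric.ball (a i) (r i) ∩ Metric.ball (a (i + 1)) (r (i + 1))).Nonempty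
  eq : ∀ i, i < k → EqOn (R i) (R (i + 1))
    (Metric.ball (a i) (r i) ∩ Metric.ball (a (i + 1)) (r (i + 1)))

/-- CHN: continuation along a chain of discs never meets a zero. -/
def StCHN : Prop := ∀ (kc : ℕ → ℂ), Ker kc → ∀ (k : ℕ) (a : ℕ → ℂ) (r : ℕ → ℝ) (R : ℕ → ℂ → ℂ),
  Chain k a r R → (∃ z ∈ Metric.ball (a 0) (r 0), Good kc (R 0) z) →
    ∀ z ∈ Metric.ball (a k) (r k), R k z ≠ 0

/-! ## From an analytic integral to a formal integral -/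

/-- `∫₀^δ ρ(ψ+s) k(δ-s) ds` -/
noncomputable def Yf (kf ρ : ℂ → ℂ) (ψ δ : ℂ) : ℂ :=
  δ * ∫ r in (0:ℝ)..1, ρ (ψ + r * δ) * kf ((1 - r) * δ)

def KF (kf : ℂ → ℂ) (kc : ℕ → ℂ) : Prop :=
  ∀ z : ℂ, HasSum (fun i => kc i * z ^ i / (i.factorial : ℂ)) (kf z)

/-- YTA: Taylor coefficients of `Yf`. -/
def StYTA : Prop := ∀ (kf : ℂ → ℂ) (kc : ℕ → ℂ), KF kf kc → Ker kc → ∀ (ρ : ℂ → ℂ) (a : ℂ)
  (η : ℝ), DifferentiableOn ℂ ρ (Metric.ball a η) → ∀ ψ ∈ Metric.ball a η, ∃ ε > 0, ∀ δ : ℂ,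
    ‖δ‖ < ε → HasSum (fun n => PowerSeries.coeff n (Ys kc (fun _ => 1) ρ ψ) * δ ^ n)
      (Yf kf ρ ψ δ)

/-- analytic function `∑ b_j(t) y^j` of two variables -/
structure BD (b : ℕ → ℂ → ℂ) (a : ℂ) (η M r : ℝ) : Prop where
  η0 : 0 < η
  r0 : 0 < r
  df : ∀ j, DifferentiableOn ℂ (b j) (Metric.ball a η)
  bd : ∀ j, ∀ t ∈ Metric.ball a η, ‖b j t‖ ≤ M * (r⁻¹) ^ j

/-- evenness (reflection law) at the real point `ψ` -/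
def EV (kf ρ : ℂ → ℂ) (b : ℕ → ℂ → ℂ) (ψ : ℝ) : Prop :=
  ∃ ε > 0, ∀ δ : ℝ, 0 < δ → δ < ε →
    ∑' j, b j (ψ + δ) * (Yf kf ρ ψ δ) ^ j = ∑' j, b j (ψ - δ) * (Yf kf ρ ψ (-δ)) ^ j

/-- LAW: the reflection law for the coefficients. -/
def StLAW : Prop := ∀ (kf : ℂ → ℂ) (kc : ℕ → ℂ), KF kf kc → Ker kc → ∀ (ρ : ℂ → ℂ) (a : ℝ)
  (b : ℕ → ℂ → ℂ) (η M r : ℝ), BD b a η M r → DifferentiableOn ℂ ρ (Metric.ball (a : ℂ) η) →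
  (∀ ψ : ℝ, |ψ - a| < η → EV kf ρ b ψ) →
    (∀ t ∈ Metric.ball (a : ℂ) η, b 0 t = b 0 a) ∧
    ∀ J, 1 ≤ J → ∀ t ∈ Metric.ball (a : ℂ) η, PowerSeries.coeff (2 * J + 1)
      (∑ j ∈ Finset.Icc 1 J, Es (fun _ => 1) (b j) t * (Ys kc (fun _ => 1) ρ t) ^ j) = 0

/-- ROO: extracting a root, normalisation. -/
def StROO : Prop := ∀ (kc : ℕ → ℂ), Ker kc → ∀ (ρ r0 : ℂ → ℂ) (a : ℂ) (b : ℕ → ℂ → ℂ)
  (η M r : ℝ), BD b a η M r → Base (fun _ => 1) ρ r0 (Metric.ball a η) →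
  (∀ J, 1 ≤ J → ∀ t ∈ Metric.ball a η, PowerSeries.coeff (2 * J + 1)
      (∑ j ∈ Finset.Icc 1 J, Es (fun _ => 1) (b j) t * (Ys kc (fun _ => 1) ρ t) ^ j) = 0) →
  (∃ j, 1 ≤ j ∧ ∃ t ∈ Metric.ball a η, b j t ≠ 0) →
    ∃ η' > 0, ∃ g : ℕ → ℂ → ℂ, FI kc (fun _ => 1) ρ r0 g (Metric.ball a η') ∧
      SG g (Metric.ball a η')

/-- INI: start. -/
def StINI : Prop := ∀ (kf : ℂ → ℂ) (kc : ℕ → ℂ), KF kf kc → Ker kc → ∀ (ρ : ℂ → ℂ) (a : ℝ)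
  (b : ℕ → ℂ → ℂ) (η M r : ℝ), BD b a η M r → DifferentiableOn ℂ ρ (Metric.ball (a : ℂ) η) →
  ρ a ≠ 0 → (∀ ψ : ℝ, |ψ - a| < η → EV kf ρ b ψ) →
  (∃ j, 1 ≤ j ∧ ∃ t ∈ Metric.ball (a : ℂ) η, b j t ≠ 0) → Good kc ρ a

/-- CPX: a real analytic function of two variables. -/
def StCPX : Prop := ∀ (L : ℝ → ℝ → ℝ) (a : ℝ), AnalyticAt ℝ (Function.uncurry L) (a, 0) →
  ∃ (b : ℕ → ℂ → ℂ) (η M r : ℝ), BD b a η M r ∧ ∀ φ y : ℝ, |φ - a| < η → |y| < r →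
    HasSum (fun j => b j φ * (y : ℂ) ^ j) (L φ y : ℂ)

/-! ## Final statements -/

/-- the table: a closed curve parametrised by its normal angle, positive radius of curvature -/
structure IsOval (γ : ℝ → ℂ) (ρ : ℝ → ℝ) : Prop where
  per : ∀ s, γ (s + 2 * Real.pi) = γ s
  cont : Continuous ρ
  pos : ∀ s, 0 < ρ s
  der : ∀ s : ℝ, HasDerivAt γ ((ρ s : ℂ) * I * cexp (s * I)) s

/-- support coordinate `Re (z e^{-iφ})` of the oriented line with normal angle `φ` through `z` -/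
noncomputable def sup (z : ℂ) (φ : ℝ) : ℝ := (z * cexp (-(φ * I))).re

/-- INN: inner (Birkhoff) billiards. -/
def StINN : Prop := ∀ (γ : ℝ → ℂ) (ρ : ℝ → ℝ), IsOval γ ρ → ∀ (K : ℝ → ℝ → ℝ) (ε : ℝ), 0 < ε →
  AnalyticOnNhd ℝ (Function.uncurry K) {z | |z.2 - sup (γ z.1) z.1| < ε} →
  (∀ s : ℝ, ∃ εs > 0, ∀ δ : ℝ, 0 < δ → δ < εs →
    K (s + δ) (sup (γ s) (s + δ)) = K (s - δ) (sup (γ s) (s - δ))) →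
  (¬ ∃ c, ∀ φ p : ℝ, |p - sup (γ φ) φ| < ε → K φ p = c) →
  ∀ (k : ℕ) (a : ℕ → ℂ) (r : ℕ → ℝ) (R : ℕ → ℂ → ℂ), Chain k a r R →
  (∃ x : ℝ, (x : ℂ) ∈ Metric.ball (a 0) (r 0)) →
  (∀ x : ℝ, (x : ℂ) ∈ Metric.ball (a 0) (r 0) → R 0 x = ρ x) →
    ∀ z ∈ Metric.ball (a k) (r k), R k z ≠ 0

/-- OUT: outer billiards near a strictly convex arc `y = f(x)`, `f'' > 0`. -/
def StOUT : Prop := ∀ (f f' f2 : ℝ → ℝ) (x0 x1 : ℝ), x0 < x1 →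
  (∀ x ∈ Ioo x0 x1, HasDerivAt f (f' x) x ∧ HasDerivAt f' (f2 x) x ∧ 0 < f2 x) →
  ∀ (K : ℝ → ℝ → ℝ) (U : Set (ℝ × ℝ)), IsOpen U → IsPreconnected U →
  (∀ x ∈ Ioo x0 x1, (x, f x) ∈ U) → AnalyticOnNhd ℝ (Function.uncurry K) U →
  (∀ x ∈ Ioo x0 x1, ∃ ε > 0, ∀ δ : ℝ, 0 < δ → δ < ε →
    K (x + δ) (f x + f' x * δ) = K (x - δ) (f x - f' x * δ)) →
  (¬ ∃ c, ∀ z ∈ U, K z.1 z.2 = c) →
  ∀ (k : ℕ) (a : ℕ → ℂ) (r : ℕ → ℝ) (R : ℕ → ℂ → ℂ), Chain k a r R →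
  (∃ x ∈ Ioo x0 x1, (x : ℂ) ∈ Metric.ball (a 0) (r 0)) →
  (∀ x ∈ Ioo x0 x1, (x : ℂ) ∈ Metric.ball (a 0) (r 0) → R 0 x = f2 x) →
    ∀ z ∈ Metric.ball (a k) (r k), R k z ≠ 0

end H738CZ
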