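import Mathlib
import Pool.Agent.H738R3.CZ.Defs

/-!
# PRI: pole order of a primitive
-/

open Complex Set Filter Topology

namespace H738CZ

/-- radial integration of the derivative -/
theorem PRI_radial (r0 : ℝ) (w : ℕ) (f : ℂ → ℂ) (hr0 : 0 < r0) (hw : 1 ≤ w) (R : ℝ)
    (hR : r0 < R) (hf : DifferentiableOn ℂ f (V3 R)) (C C1 : ℝ)
    (hC : ∀ τ : ℂ, τ ≠ 0 → ‖τ‖ ≤ r0 → ‖deriv f τ‖ * ‖τ‖ ^ (w + 1) ≤ C)
    (hC1 : ∀ τ : ℂ, ‖τ‖ = r0 → ‖f τ‖ ≤ C1) (τ : ℂ) (hτ : τ ≠ 0) (hτr : ‖τ‖ ≤ r0) :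
    ‖f τ‖ ≤ C1 + C / w * (‖τ‖ ^ w)⁻¹ := by
  have hC0 : 0 ≤ C := le_trans (by positivity) (hC τ hτ hτr)
  have hn : 0 < ‖τ‖ := norm_pos_iff.mpr hτ
  obtain ⟨e, he⟩ : ∃ e : ℂ, e = τ / ‖τ‖ := ⟨_, rfl⟩
  have hen : ‖e‖ = 1 := by
    rw [he, norm_div, Complex.norm_real, norm_norm, div_self hn.ne']
  have hwR : (0 : ℝ) < w := by exact_mod_cast hw
  have hnorm : ∀ t : ℝ, t ≤ r0 → ‖((r0 - t : ℝ) : ℂ) * e‖ = r0 - t := by
    intro t ht
    rw [norm_mul, hen, mul_one, Complex.norm_real, Real.norm_of_nonneg (by linarith)]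
  have hV : ∀ t : ℝ, 0 ≤ t → t < r0 → ((r0 - t : ℝ) : ℂ) * e ∈ V3 R := by
    intro t ht0 ht
    constructor
    · rw [mem_ball_zero_iff, hnorm t ht.le]
      linarith
    · rw [mem_singleton_iff, ← norm_eq_zero, hnorm t ht.le]
      linarith
  have hopen : IsOpen (V3 R) := Metric.isOpen_ball.sdiff isClosed_singleton
  have hder : ∀ t : ℝ, 0 ≤ t → t < r0 → HasDerivAt (fun t : ℝ => f (((r0 - t : ℝ) : ℂ) * e))
      (deriv f (((r0 - t : ℝ) : ℂ) * e) * (-e)) t := by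
    intro t ht0 ht
    have h1 : HasDerivAt f (deriv f (((r0 - t : ℝ) : ℂ) * e)) (((r0 - t : ℝ) : ℂ) * e) :=
      ((hf _ (hV t ht0 ht)).differentiableAt (hopen.mem_nhds (hV t ht0 ht))).hasDerivAt
    have h2 : HasDerivAt (fun t : ℝ => ((r0 - t : ℝ) : ℂ) * e) (-e) t := by
      have h3 : HasDerivAt (fun t : ℝ => r0 - t) (-1) t := by
        exact (hasDerivAt_id' t).const_sub r0
      have h4 := (h3.ofReal_comp).mul_const e
      simpa using h4
    exact h1.comp t h2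
  have hB : ∀ t : ℝ, t < r0 → HasDerivAt (fun t : ℝ => C1 + C / w * ((r0 - t) ^ w)⁻¹)
      (C * ((r0 - t) ^ (w + 1))⁻¹) t := by
    intro t ht
    have h3 : HasDerivAt (fun t : ℝ => r0 - t) (-1) t := by
      exact (hasDerivAt_id' t).const_sub r0
    have h4 := (h3.pow w).inv (pow_ne_zero _ (by linarith : r0 - t ≠ 0 ))
    have h5 := (h4.const_mul (C / w)).const_add C1
    refine HasDerivAt.congr_deriv h5 ?_
    have h6 : r0 - t ≠ 0 := by linarith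
    obtain ⟨k, rfl⟩ : ∃ k, w = k + 1 := ⟨w - 1, by omega⟩
    have h7 : ((k : ℝ) + 1) ≠ 0 := by positivity
    rw [Nat.add_sub_cancel, Pi.pow_apply]
    push_cast
    field_simp
    try ring
  have key := image_norm_le_of_norm_deriv_right_le_deriv_boundary'
    (f := fun t : ℝ => f (((r0 - t : ℝ) : ℂ) * e))
    (f' := fun t : ℝ => deriv f (((r0 - t : ℝ) : ℂ) * e) * (-e)) (a := 0) (b := r0 - ‖τ‖)
    (B := fun t : ℝ => C1 + C / w * ((r0 - t) ^ w)⁻¹) (B' := fun t : ℝ => C * ((r0 - t) ^ (w + 1))⁻¹)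
    (fun t ht => (hder t ht.1 (by linarith [ht.2])).continuousAt.continuousWithinAt)
    (fun t ht => (hder t ht.1 (by linarith [ht.2])).hasDerivWithinAt)
    (by
      have h1 := hC1 (((r0 - 0 : ℝ) : ℂ) * e) (by rw [hnorm 0 hr0.le]; ring)
      have h2 : 0 ≤ C / w * ((r0 - 0) ^ w)⁻¹ := by
        rw [sub_zero]
        positivity
      linarith)
    (fun t ht => (hB t (by linarith [ht.2])).continuousAt.continuousWithinAt)
    (fun t ht => (hB t (by linarith [ht.2])).hasDerivWithinAt)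
    (fun t ht => by
      have h1 : t < r0 := by linarith [ht.2]
      have h2 : 0 < r0 - t := by linarith
      have h3 := hC (((r0 - t : ℝ) : ℂ) * e) (hV t ht.1 h1).2
        (by rw [hnorm t h1.le]; linarith [ht.1])
      rw [hnorm t h1.le] at h3
      rw [norm_mul, norm_neg, hen, mul_one, ← div_eq_mul_inv, le_div_iff₀ (by positivity)]
      exact h3)
    (x := r0 - ‖τ‖) ⟨by linarith, le_rfl⟩
  have h1 : r0 - (r0 - ‖τ‖) = ‖τ‖ := by ring
  simp only [h1] at key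
  have h2 : ((‖τ‖ : ℝ) : ℂ) * e = τ := by
    rw [he, mul_div_cancel₀]
    exact_mod_cast hn.ne'
  rw [h2] at key
  exact key

/-- PRI: pole order of a primitive. -/
theorem tPRI : StPRI := by
  intro R w f F hR hw hf hF hd
  obtain ⟨r0, hr0⟩ : ∃ r : ℝ, r = R / 2 := ⟨_, rfl⟩
  have hr0p : 0 < r0 := by rw [hr0]; linarith
  have hr0R : r0 < R := by rw [hr0]; linarith
  have hsub : Metric.closedBall (0 : ℂ) r0 ⊆ Metric.ball 0 R := Metric.closedBall_subset_ball hr0R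
  obtain ⟨C, hC⟩ := (isCompact_closedBall (0 : ℂ) r0).exists_bound_of_continuousOn
    (hF.continuousOn.mono hsub)
  have hsph : Metric.sphere (0 : ℂ) r0 ⊆ V3 R := by
    intro z hz
    rw [mem_sphere_zero_iff_norm] at hz
    refine ⟨by rw [mem_ball_zero_iff, hz]; exact hr0R, ?_⟩
    rw [mem_singleton_iff, ← norm_eq_zero, hz]
    exact hr0p.ne'
  obtain ⟨C1, hC1⟩ := (isCompact_sphere (0 : ℂ) r0).exists_bound_of_continuousOn
    (hf.continuousOn.mono hsph)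
  have hbd : ∀ τ : ℂ, τ ≠ 0 → ‖τ‖ ≤ r0 → ‖f τ‖ ≤ C1 + C / w * (‖τ‖ ^ w)⁻¹ := by
    refine PRI_radial r0 w f hr0p hw R hr0R hf C C1 ?_ ?_
    · intro τ hτ hτr
      have h1 : τ ∈ V3 R := ⟨hsub (by rw [mem_closedBall_zero_iff]; exact hτr), hτ⟩
      rw [← norm_pow, ← norm_mul, hd τ h1]
      exact hC τ (by rw [mem_closedBall_zero_iff]; exact hτr)
    · intro τ hτ
      exact hC1 τ (by rw [mem_sphere_zero_iff_norm]; exact hτ)
  have hC0 : 0 ≤ C1 := by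
    have h := hC1 (r0 : ℂ) (by rw [mem_sphere_zero_iff_norm, Complex.norm_real,
      Real.norm_of_nonneg hr0p.le])
    exact (norm_nonneg _).trans h
  have hh : DifferentiableOn ℂ (fun τ => f τ * τ ^ w) (Metric.ball 0 R \ {0}) :=
    hf.mul (differentiableOn_id.pow w)
  have ho : (fun z : ℂ => f z * z ^ w - f 0 * 0 ^ w) =o[𝓝[≠] 0] fun z => (z - 0)⁻¹ := by
    have h1 : (fun z : ℂ => f z * z ^ w - f 0 * 0 ^ w) =O[𝓝[≠] 0] fun _ => (1 : ℝ) := by
      refine Asymptotics.IsBigO.of_bound (C1 * r0 ^ w + C / w + ‖f 0 * 0 ^ w‖) ?_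
      have h2 : ∀ᶠ z : ℂ in 𝓝[≠] 0, ‖z‖ < r0 := by
        have h3 : ∀ᶠ z : ℂ in 𝓝 0, z ∈ Metric.ball (0 : ℂ) r0 := Metric.ball_mem_nhds _ hr0p
        filter_upwards [h3.filter_mono nhdsWithin_le_nhds] with z hz
        rwa [mem_ball_zero_iff] at hz
      filter_upwards [h2, self_mem_nhdsWithin] with z hz hz0
      have hz0' : z ≠ 0 := hz0
      have hzn : 0 < ‖z‖ := norm_pos_iff.mpr hz0'
      have h4 := hbd z hz0' hz.le
      have h5 : ‖f z * z ^ w‖ ≤ C1 * r0 ^ w + C / w := by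
        rw [norm_mul, norm_pow]
        have h6 : ‖f z‖ * ‖z‖ ^ w ≤ (C1 + C / w * (‖z‖ ^ w)⁻¹) * ‖z‖ ^ w :=
          mul_le_mul_of_nonneg_right h4 (by positivity)
        have h7 : (C1 + C / w * (‖z‖ ^ w)⁻¹) * ‖z‖ ^ w = C1 * ‖z‖ ^ w + C / w := by
          have : ‖z‖ ^ w ≠ 0 := by positivity
          field_simp
        have h8 : C1 * ‖z‖ ^ w ≤ C1 * r0 ^ w :=
          mul_le_mul_of_nonneg_left (pow_le_pow_left₀ hzn.le hz.le w) hC0
        linarith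
      calc ‖f z * z ^ w - f 0 * 0 ^ w‖ ≤ ‖f z * z ^ w‖ + ‖f 0 * 0 ^ w‖ := norm_sub_le _ _
        _ ≤ (C1 * r0 ^ w + C / w + ‖f 0 * 0 ^ w‖) * ‖(1 : ℝ)‖ := by
            rw [norm_one, mul_one]
            linarith
    refine h1.trans_isLittleO ?_
    rw [Asymptotics.isLittleO_one_left_iff]
    simp only [sub_zero]
    exact tendsto_norm_inv_nhdsNE_zero_atTop
  have hres := Complex.differentiableOn_update_limUnder_of_isLittleO
    (Metric.ball_mem_nhds (0 : ℂ) hR) hh ho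
  refine ⟨_, hres, ?_⟩
  intro τ hτ
  rw [Function.update_of_ne hτ.2]

end H738CZ

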