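import Pool.Agent.H738R3.CZ.Defs

open Complex Set Filter Topology

namespace H738CZ

theorem REC_W (kc : ℕ → ℂ) (hk : Ker kc) (d ρ : ℂ → ℂ) (t : ℂ) :
    ∃ W : PowerSeries ℂ, Ys kc d ρ t = PowerSeries.X ^ 2 * W ∧
      PowerSeries.coeff 0 W = ρ t / 2 ∧ PowerSeries.coeff 1 W = DD d ρ t / 6 := by
  have k0 : kc 0 = 0 := by simpa using hk.even 0
  have k1 : kc 1 = 1 := hk.one
  have k2 : kc 2 = 0 := by simpa using hk.even 1
  refine ⟨PowerSeries.mk fun n => PowerSeries.coeff (n + 2) (Ys kc d ρ t), ?_, ?_, ?_⟩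
  · ext n
    rcases n with _ | _ | n
    · rw [PowerSeries.coeff_X_pow_mul']
      simp [Ys]
    · rw [PowerSeries.coeff_X_pow_mul']
      simp [Ys, k0]
    · rw [PowerSeries.coeff_X_pow_mul' _ 2 (n + 1 + 1), if_pos (by omega)]
      have : n + 1 + 1 - 2 = n := by omega
      rw [this, PowerSeries.coeff_mk]
  · rw [PowerSeries.coeff_mk]
    simp [Ys, Finset.sum_range_succ, k0, k1, Nat.factorial]
  · rw [PowerSeries.coeff_mk]
    simp [Ys, Finset.sum_range_succ, k0, k1, k2, Nat.factorial]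

theorem tREC : StREC := by
  intro kc hk d ρ r0 V hB g J hJ hg t ht
  obtain ⟨K, rfl⟩ : ∃ K, J = K + 1 := ⟨J - 1, by omega⟩
  obtain ⟨W, hW, hW0, hW1⟩ := REC_W kc hk d ρ t
  have hVn : V ∈ 𝓝 t := hB.op.mem_nhds ht
  have hr : DifferentiableAt ℂ r0 t := hB.rd.differentiableAt hVn
  have hG : DifferentiableAt ℂ (g (K + 1)) t := hg.differentiableAt hVn
  have hrn := hB.rn t ht
  have hd0 := hB.d0 t ht
  have hρ : deriv ρ t = 3 * r0 t ^ 2 * deriv r0 t := by
    have h1 : ρ =ᶠ[𝓝 t] fun u => r0 u ^ 3 := by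
      filter_upwards [hVn] with u hu using hB.cube u hu
    rw [h1.deriv_eq]
    have := (hr.hasDerivAt.pow 3).deriv
    rw [show (fun u => r0 u ^ 3) = r0 ^ 3 from rfl, this]
    norm_num
  set b : ℂ → ℂ := fun u => g (K + 1) u * ((r0 u)⁻¹) ^ (K + 1) with hb
  have hb' : deriv b t = deriv (g (K + 1)) t * ((r0 t)⁻¹) ^ (K + 1) +
      g (K + 1) t * (((K + 1 : ℕ) : ℂ) * ((r0 t)⁻¹) ^ K * (-deriv r0 t / r0 t ^ 2)) := by
    have h2 : HasDerivAt (fun u => (r0 u)⁻¹) (-deriv r0 t / r0 t ^ 2) t := hr.hasDerivAt.inv hrn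
    have h3 := h2.pow (K + 1)
    have h4 := hG.hasDerivAt.mul h3
    have h5 := h4.deriv
    rw [show b = g (K + 1) * (fun u => (r0 u)⁻¹) ^ (K + 1) from rfl, h5]
    simp
  have hsum : Cf kc d ρ r0 g (K + 1) (2 * (K + 1) + 1) t = Lo kc d ρ r0 g (K + 1) t +
      PowerSeries.coeff (2 * (K + 1) + 1) (Tm kc d ρ r0 g (K + 1) t) := by
    unfold Cf Lo
    rw [← map_add]
    congr 1
    have h7 : Finset.Icc 1 (K + 1) = insert (K + 1) (Finset.Ico 1 (K + 1)) := by
      ext j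
      simp only [Finset.mem_Icc, Finset.mem_insert, Finset.mem_Ico]
      omega
    rw [h7, Finset.sum_insert (by simp)]
    ring
  rw [hsum, add_comm]
  congr 1
  have e1 : Tm kc d ρ r0 g (K + 1) t = PowerSeries.X ^ (2 * (K + 1)) * (Es d b t * W ^ (K + 1)) := by
    unfold Tm
    rw [hW, mul_pow, ← pow_mul]
    ring
  rw [e1, PowerSeries.coeff_X_pow_mul' , if_pos (by omega)]
  have e2 : 2 * (K + 1) + 1 - 2 * (K + 1) = 1 := by omega
  rw [e2, PowerSeries.coeff_mul]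
  have e3 : Finset.HasAntidiagonal.antidiagonal (1 : ℕ) = {(0, 1), (1, 0)} := rfl
  rw [e3, Finset.sum_insert (by simp), Finset.sum_singleton]
  have f0 : PowerSeries.coeff 0 (Es d b t) = b t := by simp [Es]
  have f1 : PowerSeries.coeff 1 (Es d b t) = deriv b t / d t := by simp [Es, DD]
  have w0 : PowerSeries.coeff 0 (W ^ (K + 1)) = (ρ t / 2) ^ (K + 1) := by
    rw [PowerSeries.coeff_zero_eq_constantCoeff_apply, map_pow,
      ← PowerSeries.coeff_zero_eq_constantCoeff_apply, hW0]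
  have w1 : PowerSeries.coeff 1 (W ^ (K + 1)) =
      ((K + 1 : ℕ) : ℂ) * (DD d ρ t / 6) * (ρ t / 2) ^ K := by
    rw [PowerSeries.coeff_one_pow, hW1, ← PowerSeries.coeff_zero_eq_constantCoeff_apply, hW0]
    simp
  simp only
  rw [f0, f1, w0, w1, hb']
  unfold DD
  rw [hρ, hB.cube t ht]
  simp only [hb]
  push_cast
  generalize deriv r0 t = r' at *
  generalize deriv (g (K + 1)) t = G' at *
  generalize g (K + 1) t = G at *
  generalize d t = δ at *
  generalize r0 t = r at *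
  simp only [inv_pow, div_pow]
  field_simp
  ring

end H738CZ
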