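import Pool.Agent.H738R3.CZ.Defs

/-! Task V3C: the punctured disc is preconnected (helper155). -/

open Complex Set Filter Topology

namespace H738CZ

theorem V3C_exp (ρ : ℝ) (hρ : 0 < ρ) :
    Complex.exp '' {z : ℂ | z.re < Real.log ρ} = {z : ℂ | z ∈ Metric.ball (0 : ℂ) ρ ∧ z ≠ 0} := by
  ext w
  constructor
  · rintro ⟨z, hz, rfl⟩
    refine ⟨?_, Complex.exp_ne_zero z⟩
    rw [mem_ball_zero_iff, Complex.norm_exp]
    have : Real.exp z.re < Real.exp (Real.log ρ) := Real.exp_lt_exp.mpr hz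
    rwa [Real.exp_log hρ] at this
  · rintro ⟨hw, hw0⟩
    refine ⟨Complex.log w, ?_, Complex.exp_log hw0⟩
    show (Complex.log w).re < Real.log ρ
    rw [Complex.log_re]
    rw [mem_ball_zero_iff] at hw
    exact Real.log_lt_log (norm_pos_iff.mpr hw0) hw

theorem V3C_pre (ρ : ℝ) : IsPreconnected {z : ℂ | z ∈ Metric.ball (0 : ℂ) ρ ∧ z ≠ 0} := by
  by_cases hρ : 0 < ρ
  · rw [← V3C_exp ρ hρ]
    have hconv : Convex ℝ {z : ℂ | z.re < Real.log ρ} := convex_halfSpace_re_lt _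
    exact hconv.isPreconnected.image _ Complex.continuous_exp.continuousOn
  · have : {z : ℂ | z ∈ Metric.ball (0 : ℂ) ρ ∧ z ≠ 0} = ∅ := by
      ext z
      simp only [Set.mem_ofPred_eq, Set.mem_empty_iff_false, iff_false]
      rintro ⟨hz, _⟩
      rw [mem_ball_zero_iff] at hz
      exact hρ (lt_of_le_of_lt (norm_nonneg z) hz)
    rw [this]
    exact isPreconnected_empty

theorem tV3C : StV3C := by
  intro R
  have : V3 R = {z : ℂ | z ∈ Metric.ball (0 : ℂ) R ∧ z ≠ 0} := by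
    ext z
    rfl
  rw [this]
  exact V3C_pre R

end H738CZ
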