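import Pool.Agent.H738R3.CZ.Defs

open Complex Set Filter Topology

namespace H738CZ

open scoped NNReal

/-- global solutions of a bounded Lipschitz vector field -/
theorem F5_global (v : ℂ → ℂ) (K L : ℝ≥0) (hK : LipschitzWith K v) (hL : ∀ x, ‖v x‖ ≤ L)
    (z0 : ℂ) : ∃ γ : ℝ → ℂ, γ 0 = z0 ∧ ∀ s, 0 ≤ s → HasDerivWithinAt γ (v (γ s)) (Ici 0) s := by
  have hex : ∀ N : ℕ, ∃ α : ℝ → ℂ, α 0 = z0 ∧
      ∀ t ∈ Icc (0 : ℝ) N, HasDerivWithinAt α (v (α t)) (Icc (0 : ℝ) N) t := by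
    intro N
    have h0 : (0 : ℝ) ∈ Icc (0 : ℝ) N := ⟨le_refl _, Nat.cast_nonneg _⟩
    have hp : IsPicardLindelof (fun _ : ℝ => v) (⟨0, h0⟩ : Icc (0 : ℝ) N) z0 (L * N) 0 L K := by
      apply IsPicardLindelof.of_time_independent
      · intro x _; exact hL x
      · exact hK.lipschitzOnWith
      · simp
    exact hp.exists_eq_forall_mem_Icc_hasDerivWithinAt₀
  choose α hα0 hα using hex
  have huniq : ∀ M N : ℕ, M ≤ N → EqOn (α M) (α N) (Icc (0 : ℝ) M) := by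
    intro M N hMN
    have hMN' : (M : ℝ) ≤ N := by exact_mod_cast hMN
    have hsub : Icc (0 : ℝ) M ⊆ Icc (0 : ℝ) N := Icc_subset_Icc_right hMN'
    apply ODE_solution_unique (v := fun _ => v) (K := K) (fun _ => hK)
    · exact fun t ht => (hα M t ht).continuousWithinAt
    · intro t ht
      have h1 := hα M t ⟨ht.1, ht.2.le⟩
      exact h1.mono_of_mem_nhdsWithin (Icc_mem_nhdsGE_of_mem ht)
    · exact fun t ht => ((hα N t (hsub ht)).mono hsub).continuousWithinAt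
    · intro t ht
      have h1 := hα N t (hsub ⟨ht.1, ht.2.le⟩)
      exact h1.mono_of_mem_nhdsWithin (Icc_mem_nhdsGE_of_mem ⟨ht.1, ht.2.trans_le hMN'⟩)
    · rw [hα0, hα0]
  have heq : ∀ (M N : ℕ) (s : ℝ), 0 ≤ s → s ≤ M → s ≤ N → α M s = α N s := by
    intro M N s h0 hM hN
    rcases le_total M N with h | h
    · exact huniq M N h ⟨h0, hM⟩
    · exact (huniq N M h ⟨h0, hN⟩).symm
  refine ⟨fun s => α (⌈s⌉₊ + 1) s, hα0 _, ?_⟩
  intro s hs
  set N := ⌈s⌉₊ + 1 with hN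
  have hsN : s < N := by
    rw [hN]; push_cast
    have := Nat.le_ceil s
    linarith
  have h1 := hα N s ⟨hs, hsN.le⟩
  have hmem : Icc (0 : ℝ) N ∈ 𝓝[Ici 0] s := by
    have h2 : Iio (N : ℝ) ∈ 𝓝 s := Iio_mem_nhds hsN
    filter_upwards [self_mem_nhdsWithin, mem_nhdsWithin_of_mem_nhds h2] with t h3 h4
    exact ⟨h3, le_of_lt h4⟩
  have h2 : HasDerivWithinAt (α N) (v (α N s)) (Ici 0) s := h1.mono_of_mem_nhdsWithin hmem
  refine h2.congr_of_eventuallyEq ?_ rfl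
  filter_upwards [hmem] with t ht
  apply heq _ _ _ ht.1 _ ht.2
  push_cast
  have := Nat.le_ceil t
  linarith

/-- retraction on the half plane -/
noncomputable def F5_ret (z : ℂ) : ℂ := ⟨max z.re 0, z.im⟩

theorem F5_ret_re (z : ℂ) : 0 ≤ (F5_ret z).re := le_max_right _ _

theorem F5_ret_id {z : ℂ} (h : 0 ≤ z.re) : F5_ret z = z := by
  apply Complex.ext
  · exact max_eq_left h
  · rfl

theorem F5_ret_lip (z w : ℂ) : ‖F5_ret z - F5_ret w‖ ≤ ‖z - w‖ := by
  have h1 : |max z.re 0 - max w.re 0| ≤ |z.re - w.re| := abs_max_sub_max_le_abs _ _ _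
  rw [Complex.norm_def, Complex.norm_def]
  apply Real.sqrt_le_sqrt
  rw [Complex.normSq_apply, Complex.normSq_apply]
  simp only [F5_ret, Complex.sub_re, Complex.sub_im]
  nlinarith [sq_abs (max z.re 0 - max w.re 0), sq_abs (z.re - w.re),
    abs_nonneg (max z.re 0 - max w.re 0), abs_nonneg (z.re - w.re)]

theorem F5_exp_lip (j : ℕ) (z w : ℂ) (hz : 0 ≤ z.re) (hw : 0 ≤ w.re) :
    ‖cexp (-(j * z)) - cexp (-(j * w))‖ ≤ j * ‖z - w‖ := by
  have hc : Convex ℝ {z : ℂ | 0 ≤ z.re} := convex_halfSpace_re_ge 0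
  have hd : ∀ x ∈ {z : ℂ | 0 ≤ z.re}, HasDerivWithinAt (fun z : ℂ => cexp (-(j * z)))
      (cexp (-(j * x)) * (-(j : ℂ))) {z : ℂ | 0 ≤ z.re} x := by
    intro x _
    have h1 : HasDerivAt (fun z : ℂ => -((j : ℂ) * z)) (-((j : ℂ) * 1)) x :=
      ((hasDerivAt_id x).const_mul (j : ℂ)).neg
    rw [mul_one] at h1
    exact h1.cexp.hasDerivWithinAt
  have hb : ∀ x ∈ {z : ℂ | 0 ≤ z.re}, ‖cexp (-(j * x)) * (-(j : ℂ))‖ ≤ j := by
    intro x hx
    rw [norm_mul, norm_neg, Complex.norm_natCast, Complex.norm_exp]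
    have h2 : (-((j : ℂ) * x)).re ≤ 0 := by
      have : ((j : ℂ) * x).re = j * x.re := by simp
      rw [Complex.neg_re, this]
      have : 0 ≤ (j : ℝ) * x.re := mul_nonneg (Nat.cast_nonneg _) hx
      linarith
    exact mul_le_of_le_one_left (Nat.cast_nonneg _) (Real.exp_le_one_iff.2 h2)
  exact hc.norm_image_sub_le_of_norm_hasDerivWithin_le hd hb hw hz

/-- vector field in the logarithmic coordinate -/
noncomputable def F5_v (m : ℕ) (z : ℂ) : ℂ :=
  ((m + 1) - ∑ j ∈ Finset.Icc 1 (m + 1), cexp (-(j * F5_ret z))) / ((m + 1) * (m + 2))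

theorem F5_v_eq (m : ℕ) (z : ℂ) : F5_v m z = vf m (cexp (F5_ret z)) / cexp (F5_ret z) := by
  unfold F5_v vf
  have h0 : cexp (F5_ret z) ≠ 0 := Complex.exp_ne_zero _
  have h1 : ∀ j : ℕ, (cexp (F5_ret z))⁻¹ ^ j = cexp (-(j * F5_ret z)) := by
    intro j
    rw [← Complex.exp_neg, ← Complex.exp_nat_mul]
    congr 1
    ring
  simp only [h1]
  generalize ∑ j ∈ Finset.Icc 1 (m + 1), cexp (-(j * F5_ret z)) = S
  field_simp

theorem F5_v_bd (m : ℕ) (z : ℂ) : ‖F5_v m z‖ ≤ (1 : ℝ≥0) := by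
  unfold F5_v
  have hm : (0 : ℝ) ≤ m := Nat.cast_nonneg _
  have h1 : ‖(((m : ℂ) + 1) * (m + 2))‖ = ((m : ℝ) + 1) * (m + 2) := by
    rw [norm_mul]
    have e1 : ‖((m : ℂ) + 1)‖ = (m : ℝ) + 1 := by
      have : ((m : ℂ) + 1) = ((m + 1 : ℕ) : ℂ) := by push_cast; ring
      rw [this, Complex.norm_natCast]; push_cast; ring
    have e2 : ‖((m : ℂ) + 2)‖ = (m : ℝ) + 2 := by
      have : ((m : ℂ) + 2) = ((m + 2 : ℕ) : ℂ) := by push_cast; ring
      rw [this, Complex.norm_natCast]; push_cast; ring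
    rw [e1, e2]
  rw [norm_div, h1, NNReal.coe_one, div_le_one (by positivity)]
  have h2 : ‖∑ j ∈ Finset.Icc 1 (m + 1), cexp (-(j * F5_ret z))‖ ≤ (m : ℝ) + 1 := by
    refine (norm_sum_le _ _).trans ?_
    have h3 : ∀ j ∈ Finset.Icc 1 (m + 1), ‖cexp (-((j : ℂ) * F5_ret z))‖ ≤ 1 := by
      intro j _
      rw [Complex.norm_exp, Real.exp_le_one_iff]
      have : ((j : ℂ) * F5_ret z).re = j * (F5_ret z).re := by simp
      rw [Complex.neg_re, this]
      have : 0 ≤ (j : ℝ) * (F5_ret z).re := mul_nonneg (Nat.cast_nonneg _) (F5_ret_re z)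
      linarith
    refine (Finset.sum_le_sum h3).trans ?_
    rw [Finset.sum_const, Nat.card_Icc]
    simp
  have h4 : ‖((m : ℂ) + 1)‖ = (m : ℝ) + 1 := by
    have : ((m : ℂ) + 1) = ((m + 1 : ℕ) : ℂ) := by push_cast; ring
    rw [this, Complex.norm_natCast]; push_cast; ring
  refine (norm_sub_le _ _).trans ?_
  rw [h4]
  nlinarith

theorem F5_v_lip (m : ℕ) : ∃ K : ℝ≥0, LipschitzWith K (F5_v m) := by
  refine ⟨∑ j ∈ Finset.Icc 1 (m + 1), (j : ℝ≥0), LipschitzWith.of_dist_le_mul fun z w => ?_⟩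
  rw [dist_eq_norm, dist_eq_norm]
  unfold F5_v
  rw [← sub_div, norm_div]
  have h1 : (1 : ℝ) ≤ ‖(((m : ℂ) + 1) * (m + 2))‖ := by
    rw [norm_mul]
    have hm : (0 : ℝ) ≤ m := Nat.cast_nonneg _
    have e1 : ‖((m : ℂ) + 1)‖ = (m : ℝ) + 1 := by
      have : ((m : ℂ) + 1) = ((m + 1 : ℕ) : ℂ) := by push_cast; ring
      rw [this, Complex.norm_natCast]; push_cast; ring
    have e2 : ‖((m : ℂ) + 2)‖ = (m : ℝ) + 2 := by
      have : ((m : ℂ) + 2) = ((m + 2 : ℕ) : ℂ) := by push_cast; ring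
      rw [this, Complex.norm_natCast]; push_cast; ring
    rw [e1, e2]
    nlinarith
  refine (div_le_self (norm_nonneg _) h1).trans ?_
  have h2 : ((m : ℂ) + 1) - ∑ j ∈ Finset.Icc 1 (m + 1), cexp (-(j * F5_ret z)) -
      (((m : ℂ) + 1) - ∑ j ∈ Finset.Icc 1 (m + 1), cexp (-(j * F5_ret w))) =
      ∑ j ∈ Finset.Icc 1 (m + 1), (cexp (-(j * F5_ret w)) - cexp (-(j * F5_ret z))) := by
    rw [Finset.sum_sub_distrib]; ring
  rw [h2]
  refine (norm_sum_le _ _).trans ?_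
  rw [NNReal.coe_sum, Finset.sum_mul]
  refine Finset.sum_le_sum fun j _ => ?_
  refine (F5_exp_lip j _ _ (F5_ret_re w) (F5_ret_re z)).trans ?_
  rw [NNReal.coe_natCast]
  refine mul_le_mul_of_nonneg_left ?_ (Nat.cast_nonneg _)
  rw [norm_sub_rev z w]
  exact F5_ret_lip w z

theorem t5F (h5V : St5V) : St5F := by
  intro m x0 hx0
  obtain ⟨K, hK⟩ := F5_v_lip m
  have hx0' : x0 ≠ 0 := by
    rintro rfl
    rw [norm_zero] at hx0
    linarith
  obtain ⟨γ, hγ0, hγ⟩ := F5_global (F5_v m) K 1 hK (F5_v_bd m) (log x0)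
  have hre0 : 0 ≤ (γ 0).re := by
    rw [hγ0, Complex.log_re]
    exact Real.log_nonneg hx0
  have hder_re : ∀ s, 0 ≤ s → HasDerivWithinAt (fun s => (γ s).re) (F5_v m (γ s)).re (Ici 0) s := by
    intro s hs
    have := (Complex.reCLM.hasFDerivAt (x := γ s)).comp_hasDerivWithinAt s (hγ s hs)
    exact this
  have hnn : ∀ z : ℂ, 0 ≤ (F5_v m z).re := by
    intro z
    rw [F5_v_eq]
    apply (h5V m _).2.2.1
    rw [Complex.norm_exp]
    exact Real.one_le_exp (F5_ret_re z)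
  have hre : ∀ s, 0 ≤ s → 0 ≤ (γ s).re := by
    intro s hs
    have hcont : ContinuousOn (fun t => -(γ t).re) (Icc 0 s) := by
      intro t ht
      exact ((hder_re t ht.1).continuousWithinAt.mono (fun x hx => hx.1)).neg
    have := image_le_of_deriv_right_le_deriv_boundary (f := fun t => -(γ t).re)
      (f' := fun t => -(F5_v m (γ t)).re) (a := 0) (b := s) hcont
      (fun t ht => ((hder_re t ht.1).mono (fun x hx => ht.1.trans hx)).neg)
      (B := fun _ => 0) (B' := fun _ => 0) (by simpa using hre0) continuousOn_const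
      (fun t _ => hasDerivWithinAt_const _ _ _) (fun t _ => by
        have := hnn (γ t)
        linarith) (x := s) ⟨hs, le_refl _⟩
    simpa using this
  have hvx : ∀ s, 0 ≤ s → cexp (γ s) * F5_v m (γ s) = vf m (cexp (γ s)) := by
    intro s hs
    rw [F5_v_eq, F5_ret_id (hre s hs)]
    field_simp
  have hder : ∀ s, 0 ≤ s → HasDerivWithinAt (fun s => cexp (γ s)) (vf m (cexp (γ s))) (Ici 0) s := by
    intro s hs
    rw [← hvx s hs]
    exact (hγ s hs).cexp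
  have hge : ∀ s, 0 ≤ s → 1 ≤ ‖cexp (γ s)‖ := by
    intro s hs
    rw [Complex.norm_exp]
    exact Real.one_le_exp (hre s hs)
  have hini : cexp (γ 0) = x0 := by rw [hγ0, Complex.exp_log hx0']
  refine ⟨fun s => cexp (γ s), hini, hder, hge, ?_⟩
  intro s hs
  -- the function e^{-s} Bm (x s) is constant
  have hB : ∀ t, 0 ≤ t → HasDerivWithinAt
      (fun t : ℝ => cexp (-(t : ℂ)) * Bm m (cexp (γ t))) 0 (Ici 0) t := by
    intro t ht
    have h1 : HasDerivWithinAt (fun t : ℝ => Bm m (cexp (γ t)))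
        ((m + 1) * (m + 2) * (cexp (γ t)) ^ m * (cexp (γ t) - 1) * vf m (cexp (γ t))) (Ici 0) t := by
      have h0 := (h5V m (cexp (γ t))).1
      exact HasDerivAt.comp_hasDerivWithinAt (h₂ := Bm m) (h := fun s : ℝ => cexp (γ s)) t h0 (hder t ht)
    have h2 : HasDerivWithinAt (fun t : ℝ => cexp (-(t : ℂ))) (cexp (-(t : ℂ)) * (-1)) (Ici 0) t := by
      have h3 : HasDerivAt (fun t : ℝ => -(t : ℂ)) (-1) t := (Complex.ofRealCLM.hasDerivAt (x := t)).neg
      exact h3.cexp.hasDerivWithinAt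
    have h3 := h2.mul h1
    have h4 := (h5V m (cexp (γ t))).2.1 (Complex.exp_ne_zero _)
    have h5 : ((m : ℂ) + 1) * (m + 2) * (cexp (γ t)) ^ m * (cexp (γ t) - 1) * vf m (cexp (γ t)) =
        Bm m (cexp (γ t)) := by
      rw [← h4]; ring
    rw [h5] at h3
    have h6 : cexp (-(t : ℂ)) * (-1) * Bm m (cexp (γ t)) + cexp (-(t : ℂ)) * Bm m (cexp (γ t)) = 0 := by
      ring
    rw [h6] at h3
    exact h3
  have hconst := constant_of_has_deriv_right_zero (a := 0) (b := s)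
    (f := fun t : ℝ => cexp (-(t : ℂ)) * Bm m (cexp (γ t)))
    (fun t ht => (hB t ht.1).continuousWithinAt.mono (fun x hx => hx.1))
    (fun t ht => (hB t ht.1).mono (fun x hx => ht.1.trans hx)) s ⟨hs, le_refl _⟩
  simp only [Complex.ofReal_zero, neg_zero, Complex.exp_zero, one_mul] at hconst
  rw [hini] at hconst
  rw [← hconst, ← mul_assoc, Complex.ofReal_exp, ← Complex.exp_add]
  simp

end H738CZ
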