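import Pool.Agent.H738R3.CZ.Defs

/-! MDL: from the model law to the model relation. -/

open Complex Set Filter Topology

namespace H738CZ

open Asymptotics

/-- `P` is the asymptotic expansion of `f` at `0` -/
def MDL_R (f : ℂ → ℂ) (P : PowerSeries ℂ) : Prop :=
  ∀ K : ℕ, (fun d : ℂ => f d - (PowerSeries.trunc K P).eval d) =O[𝓝 0] fun d => d ^ K

theorem MDL_poly (p : Polynomial ℂ) (K : ℕ) (h : ∀ k < K, p.coeff k = 0) :
    (fun d : ℂ => p.eval d) =O[𝓝 0] fun d => d ^ K := by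
  obtain ⟨q, rfl⟩ := Polynomial.X_pow_dvd_iff.2 h
  have h1 : (fun d : ℂ => q.eval d) =O[𝓝 0] fun _ => (1 : ℂ) :=
    (q.continuous.tendsto 0).isBigO_one ℂ
  have h2 := (isBigO_refl (fun d : ℂ => d ^ K) (𝓝 0)).mul h1
  refine (h2.congr_left fun d => ?_).congr_right fun d => mul_one _
  rw [Polynomial.eval_mul, Polynomial.eval_pow, Polynomial.eval_X]

theorem MDL_polyR (p : Polynomial ℂ) : MDL_R (fun d => p.eval d) (p : PowerSeries ℂ) := by
  intro K
  have := MDL_poly (p - PowerSeries.trunc K (p : PowerSeries ℂ)) K fun k hk => by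
    rw [Polynomial.coeff_sub, PowerSeries.coeff_trunc, if_pos hk, Polynomial.coeff_coe, sub_self]
  refine this.congr_left fun d => ?_
  rw [Polynomial.eval_sub]

theorem MDL_bdd {f : ℂ → ℂ} {P : PowerSeries ℂ} (h : MDL_R f P) :
    f =O[𝓝 0] fun _ => (1 : ℂ) := by
  have := h 0
  refine (this.congr_left fun d => ?_).congr_right fun d => pow_zero d
  have h0 : PowerSeries.trunc 0 P = 0 := by
    ext k
    rw [PowerSeries.coeff_trunc, if_neg (by omega), Polynomial.coeff_zero]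
  rw [h0, Polynomial.eval_zero, sub_zero]

theorem MDL_add {f g : ℂ → ℂ} {P Q : PowerSeries ℂ} (hf : MDL_R f P) (hg : MDL_R g Q) :
    MDL_R (fun d => f d + g d) (P + Q) := by
  intro K
  refine ((hf K).add (hg K)).congr_left fun d => ?_
  rw [map_add, Polynomial.eval_add]
  ring

theorem MDL_mul {f g : ℂ → ℂ} {P Q : PowerSeries ℂ} (hf : MDL_R f P) (hg : MDL_R g Q) :
    MDL_R (fun d => f d * g d) (P * Q) := by
  intro K
  set p := PowerSeries.trunc K P with hp
  set q := PowerSeries.trunc K Q with hq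
  have h1 : (fun d => (f d - p.eval d) * g d) =O[𝓝 0] fun d : ℂ => d ^ K :=
    ((hf K).mul (MDL_bdd hg)).congr_right fun d => mul_one _
  have h2 : (fun d => p.eval d * (g d - q.eval d)) =O[𝓝 0] fun d : ℂ => d ^ K :=
    (((p.continuous.tendsto 0).isBigO_one ℂ).mul (hg K)).congr_right fun d => one_mul _
  have h3 := MDL_poly (p * q - PowerSeries.trunc K (P * Q)) K fun k hk => by
    rw [Polynomial.coeff_sub, PowerSeries.coeff_trunc, if_pos hk,
      PowerSeries.coeff_mul_eq_coeff_trunc_mul_trunc P Q hk, ← Polynomial.coe_mul,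
      Polynomial.coeff_coe, sub_self]
  refine ((h1.add h2).add h3).congr_left fun d => ?_
  rw [Polynomial.eval_sub, Polynomial.eval_mul]
  ring

theorem MDL_const (c : ℂ) : MDL_R (fun _ => c) (PowerSeries.C c) := by
  have := MDL_polyR (Polynomial.C c)
  rw [Polynomial.coe_C] at this
  intro K
  refine (this K).congr_left fun d => ?_
  simp only [Polynomial.eval_C]

theorem MDL_one : MDL_R (fun _ => 1) 1 := by
  have := MDL_const 1
  rwa [map_one] at this

theorem MDL_pow {f : ℂ → ℂ} {P : PowerSeries ℂ} (hf : MDL_R f P) (j : ℕ) :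
    MDL_R (fun d => f d ^ j) (P ^ j) := by
  induction j with
  | zero =>
    simp only [pow_zero]
    exact MDL_one
  | succ j ih =>
    simp only [pow_succ]
    exact MDL_mul ih hf

theorem MDL_sum {ι : Type} (s : Finset ι) (f : ι → ℂ → ℂ) (P : ι → PowerSeries ℂ)
    (h : ∀ i ∈ s, MDL_R (f i) (P i)) : MDL_R (fun d => ∑ i ∈ s, f i d) (∑ i ∈ s, P i) := by
  classical
  induction s using Finset.induction_on with
  | empty =>
    simp only [Finset.sum_empty]
    have := MDL_const 0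
    rwa [map_zero] at this
  | insert a s ha ih =>
    simp only [Finset.sum_insert ha]
    exact MDL_add (h a (Finset.mem_insert_self _ _))
      (ih fun i hi => h i (Finset.mem_insert_of_mem hi))

theorem MDL_desc (e : ℂ) (l : ℕ) :
    (descPochhammer ℤ l).smeval e = ∏ i ∈ Finset.range l, (e - i) := by
  induction l with
  | zero => simp
  | succ l ih =>
    rw [Finset.prod_range_succ, ← ih]
    simp [descPochhammer_succ_right, Polynomial.smeval_mul, Polynomial.smeval_natCast]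

theorem MDL_choose (e : ℂ) (l : ℕ) :
    (∏ i ∈ Finset.range l, (e - i)) / (l.factorial : ℂ) = Ring.choose e l := by
  rw [Ring.choose_eq_smul, MDL_desc, smul_eq_mul]
  ring

theorem MDL_binS (e : ℂ) : binS e = PowerSeries.binomialSeries ℂ e := by
  ext l
  rw [PowerSeries.binomialSeries_coeff, binS, PowerSeries.coeff_mk, MDL_choose, smul_eq_mul,
    mul_one]

theorem MDL_binS_add (a b : ℂ) : binS (a + b) = binS a * binS b := by
  rw [MDL_binS, MDL_binS, MDL_binS, PowerSeries.binomialSeries_add]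

theorem MDL_binS_zero : binS 0 = 1 := by
  rw [MDL_binS, PowerSeries.binomialSeries_zero]

theorem MDL_binS_pow (a : ℂ) (j : ℕ) : binS a ^ j = binS (a * j) := by
  induction j with
  | zero => rw [pow_zero, Nat.cast_zero, mul_zero, MDL_binS_zero]
  | succ j ih =>
    rw [pow_succ, ih, ← MDL_binS_add]
    congr 1
    push_cast
    ring

theorem MDL_cpow (e : ℂ) : MDL_R (fun d => (1 + d) ^ e) (binS e) := by
  intro K
  have h := (Complex.one_add_cpow_hasFPowerSeriesAt_zero (a := e)).isBigO_sub_partialSum_pow K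
  have h2 : (fun y : ℂ => (1 + (0 + y)) ^ e - (binomialSeries ℂ e).partialSum K y) =O[𝓝 0]
      fun y => y ^ K := by
    refine Asymptotics.IsBigO.trans h ?_
    refine IsBigO.of_bound 1 (Eventually.of_forall fun y => ?_)
    rw [norm_pow, norm_norm, one_mul, norm_pow]
  refine h2.congr_left fun d => ?_
  rw [zero_add]
  congr 1
  have h3 : (PowerSeries.trunc K (binS e)).eval d =
      ∑ i ∈ Finset.range K, Ring.choose e i * d ^ i := by
    rw [Polynomial.eval, PowerSeries.eval₂_trunc_eq_sum_range]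
    refine Finset.sum_congr rfl fun i _ => ?_
    rw [RingHom.id_apply, binS, PowerSeries.coeff_mk, MDL_choose]
  rw [h3, FormalMultilinearSeries.partialSum]
  refine Finset.sum_congr rfl fun i _ => ?_
  rw [binomialSeries_apply]
  simp

theorem MDL_parity {f : ℂ → ℂ} {P : PowerSeries ℂ} (h : MDL_R f P) (N : ℕ)
    (h0 : ∀ i < N, PowerSeries.coeff (2 * i + 1) P = 0) :
    (fun d => f (-d) - f d) =O[𝓝 0] fun d : ℂ => d ^ (2 * N + 1) := by
  set p := PowerSeries.trunc (2 * N + 1) P with hp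
  have h1 := h (2 * N + 1)
  have ht : Tendsto (fun d : ℂ => -d) (𝓝 0) (𝓝 0) := by
    have := (continuous_neg (G := ℂ)).tendsto 0
    rwa [neg_zero] at this
  have h2 : (fun d => f (-d) - p.eval (-d)) =O[𝓝 0] fun d : ℂ => d ^ (2 * N + 1) := by
    refine (h1.comp_tendsto ht).trans ?_
    refine IsBigO.of_bound 1 (Eventually.of_forall fun y => ?_)
    rw [Function.comp_apply, norm_pow, norm_neg, one_mul, norm_pow]
  have h3 : ∀ d, p.eval (-d) = p.eval d := by
    intro d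
    rw [hp, Polynomial.eval, Polynomial.eval, PowerSeries.eval₂_trunc_eq_sum_range,
      PowerSeries.eval₂_trunc_eq_sum_range]
    refine Finset.sum_congr rfl fun i hi => ?_
    rw [Finset.mem_range] at hi
    rcases Nat.even_or_odd' i with ⟨k, rfl | rfl⟩
    · rw [Even.neg_pow ⟨k, by ring⟩]
    · rw [h0 k (by omega), map_zero, zero_mul, zero_mul]
  refine (h2.sub h1).congr_left fun d => ?_
  rw [h3]
  ring

/-- the series of `(1+d)^n - 1 - n d` -/
noncomputable def MDL_P (m : ℕ) : PowerSeries ℂ :=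
  binS ((m : ℂ) + 2) - 1 - PowerSeries.C ((m : ℂ) + 2) * PowerSeries.X

theorem MDL_P_coeff (m k : ℕ) : PowerSeries.coeff k (MDL_P m) =
    if k < 2 then 0 else
      ((m : ℂ) + 2) * ((m : ℂ) + 1) * (∏ i ∈ Finset.range (k - 2), ((m : ℂ) - i)) /
        (k.factorial : ℂ) := by
  unfold MDL_P
  rw [map_sub, map_sub, PowerSeries.coeff_C_mul, PowerSeries.coeff_X, PowerSeries.coeff_one, binS,
    PowerSeries.coeff_mk]
  rcases k with _ | _ | k
  · simp
  · simp
  · rw [if_neg (by omega), if_neg (by omega), if_neg (by omega), Finset.prod_range_succ',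
      Finset.prod_range_succ']
    rw [show k + 1 + 1 - 2 = k by omega]
    have : ∀ i : ℕ, (m : ℂ) + 2 - ((i + 1 + 1 : ℕ) : ℂ) = (m : ℂ) - i := by
      intro i; push_cast; ring
    rw [Finset.prod_congr rfl fun i _ => this i]
    push_cast
    ring

theorem MDL_P_dvd (m : ℕ) : (PowerSeries.X : PowerSeries ℂ) ^ 2 ∣ MDL_P m := by
  rw [PowerSeries.X_pow_dvd_iff]
  intro k hk
  rw [MDL_P_coeff, if_pos hk]

theorem MDL_Y0 (m : ℕ) (υ : ℂ) :
    Y0 m υ = PowerSeries.C (υ ^ 3 / ((m + 1) * (m + 2))) * MDL_P m := by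
  ext k
  rw [PowerSeries.coeff_C_mul, MDL_P_coeff, Y0, PowerSeries.coeff_mk]
  by_cases hk : k < 2
  · rw [if_pos hk, if_pos hk, mul_zero]
  · rw [if_neg hk, if_neg hk]
    have h1 : (m : ℂ) + 1 ≠ 0 := by exact_mod_cast Nat.succ_ne_zero m
    have h2 : (m : ℂ) + 2 ≠ 0 := by exact_mod_cast Nat.succ_ne_zero (m + 1)
    have h3 : (k.factorial : ℂ) ≠ 0 := by exact_mod_cast k.factorial_ne_zero
    field_simp

/-- the series of `s` -/
noncomputable def MDL_S (m : ℕ) : PowerSeries ℂ := binS (-((m : ℂ) + 2)) * MDL_P m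

theorem MDL_S_dvd (m j : ℕ) : (PowerSeries.X : PowerSeries ℂ) ^ (2 * j) ∣ MDL_S m ^ j := by
  rw [pow_mul]
  exact pow_dvd_pow_of_dvd ((MDL_P_dvd m).mul_left _) j

theorem MDL_term (m : ℕ) (υ b : ℂ) (j : ℕ) :
    PowerSeries.C b * binS ((2 * (m : ℂ) + 6 - (3 * m + 6) * j) / 3) * (Y0 m υ) ^ j =
      binS ((2 * (m : ℂ) + 6) / 3) *
        (PowerSeries.C (b * (υ ^ 3 / ((m + 1) * (m + 2))) ^ j) * MDL_S m ^ j) := by
  have h1 : (2 * (m : ℂ) + 6 - (3 * m + 6) * j) / 3 =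
      (2 * (m : ℂ) + 6) / 3 + -((m : ℂ) + 2) * j := by ring
  rw [h1, MDL_binS_add, ← MDL_binS_pow, MDL_Y0, mul_pow, ← map_pow, map_mul, MDL_S, mul_pow]
  ring

theorem MDL_coeff {m : ℕ} {υ : ℂ} {β : ℕ → ℂ} (h : MLaw m υ β) (N i : ℕ) (hi : i < N) :
    PowerSeries.coeff (2 * i + 1) (binS ((2 * (m : ℂ) + 6) / 3) *
      ∑ j ∈ Finset.Ico 1 N,
        PowerSeries.C (β j * (υ ^ 3 / ((m + 1) * (m + 2))) ^ j) * MDL_S m ^ j) = 0 := by
  have h1 : Finset.Ico 1 N = Finset.Ico 1 (i + 1) ∪ Finset.Ico (i + 1) N := by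
    rw [Finset.Ico_union_Ico_eq_Ico (by omega) (by omega)]
  rw [h1, Finset.sum_union (Finset.Ico_disjoint_Ico_consecutive _ _ _), mul_add, map_add]
  have h2 : PowerSeries.coeff (2 * i + 1) (binS ((2 * (m : ℂ) + 6) / 3) *
      ∑ j ∈ Finset.Ico (i + 1) N,
        PowerSeries.C (β j * (υ ^ 3 / ((m + 1) * (m + 2))) ^ j) * MDL_S m ^ j) = 0 := by
    have h3 : (PowerSeries.X : PowerSeries ℂ) ^ (2 * (i + 1)) ∣ binS ((2 * (m : ℂ) + 6) / 3) *
      ∑ j ∈ Finset.Ico (i + 1) N,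
        PowerSeries.C (β j * (υ ^ 3 / ((m + 1) * (m + 2))) ^ j) * MDL_S m ^ j := by
      refine Dvd.dvd.mul_left (Finset.dvd_sum fun j hj => Dvd.dvd.mul_left ?_ _) _
      rw [Finset.mem_Ico] at hj
      exact (pow_dvd_pow _ (by omega)).trans (MDL_S_dvd m j)
    exact PowerSeries.X_pow_dvd_iff.1 h3 _ (by omega)
  rw [h2, add_zero]
  rcases Nat.eq_zero_or_pos i with rfl | hpos
  · simp
  · have h4 := h i hpos
    rw [← h4]
    congr 1
    have h5 : Finset.Ico 1 (i + 1) = Finset.Icc 1 i := by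
      ext x; simp only [Finset.mem_Ico, Finset.mem_Icc]; omega
    rw [h5, Finset.mul_sum]
    refine Finset.sum_congr rfl fun j _ => ?_
    rw [MDL_term]

/-- the function `s` -/
noncomputable def MDL_s (m : ℕ) (d : ℂ) : ℂ :=
  (1 + d) ^ (-((m : ℂ) + 2)) * ((1 + d) ^ ((m : ℂ) + 2) - 1 - ((m : ℂ) + 2) * d)

theorem MDL_s_R (m : ℕ) : MDL_R (MDL_s m) (MDL_S m) := by
  unfold MDL_s MDL_S MDL_P
  refine MDL_mul (MDL_cpow _) ?_
  have h1 := MDL_add (MDL_cpow ((m : ℂ) + 2))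
    (MDL_polyR (-1 - Polynomial.C ((m : ℂ) + 2) * Polynomial.X))
  have e1 : ((-1 - Polynomial.C ((m : ℂ) + 2) * Polynomial.X : Polynomial ℂ) : PowerSeries ℂ) =
      -1 - PowerSeries.C ((m : ℂ) + 2) * PowerSeries.X := by
    rw [Polynomial.coe_sub, Polynomial.coe_neg, Polynomial.coe_one, Polynomial.coe_mul,
      Polynomial.coe_C, Polynomial.coe_X]
  rw [e1] at h1
  intro K
  have h2 := h1 K
  have e2 : binS ((m : ℂ) + 2) + (-1 - PowerSeries.C ((m : ℂ) + 2) * PowerSeries.X) =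
      binS ((m : ℂ) + 2) - 1 - PowerSeries.C ((m : ℂ) + 2) * PowerSeries.X := by ring
  rw [e2] at h2
  refine h2.congr_left fun d => ?_
  simp only [Polynomial.eval_sub, Polynomial.eval_neg, Polynomial.eval_one, Polynomial.eval_mul,
    Polynomial.eval_C, Polynomial.eval_X]
  ring

theorem MDL_s_eq (m : ℕ) {y : ℂ} (hy : y ≠ 0) : MDL_s m (-(1 - 1 / y)) = Bm m y := by
  unfold MDL_s Bm
  have h1 : 1 + -(1 - 1 / y) = y⁻¹ := by ring
  have h2 : (m : ℂ) + 2 = ((m + 2 : ℕ) : ℂ) := by push_cast; ring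
  rw [h1, Complex.cpow_neg, h2, Complex.cpow_natCast, inv_pow, inv_inv]
  have h3 : y ^ (m + 2) ≠ 0 := pow_ne_zero _ hy
  rw [mul_sub, mul_sub, mul_inv_cancel₀ h3]
  push_cast
  field_simp
  ring

/-- the function `Θ` -/
noncomputable def MDL_T (m : ℕ) (α : ℕ → ℂ) (N : ℕ) (d : ℂ) : ℂ :=
  (1 + d) ^ ((2 * (m : ℂ) + 6) / 3) * ∑ j ∈ Finset.Ico 1 N, α j * MDL_s m d ^ j

theorem MDL_T_R (m : ℕ) (α : ℕ → ℂ) (N : ℕ) :
    MDL_R (MDL_T m α N) (binS ((2 * (m : ℂ) + 6) / 3) *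
      ∑ j ∈ Finset.Ico 1 N, PowerSeries.C (α j) * MDL_S m ^ j) := by
  unfold MDL_T
  exact MDL_mul (MDL_cpow _) (MDL_sum _ _ _ fun j _ =>
    MDL_mul (MDL_const _) (MDL_pow (MDL_s_R m) j))

theorem MDL_re {z : ℂ} (hz : 0 < z.re) : |z.arg| < Real.pi / 2 :=
  Complex.abs_arg_lt_pi_div_two_iff.2 (Or.inl hz)

theorem MDL_eq (m : ℕ) (α : ℕ → ℂ) (N : ℕ) {x : ℂ} (hx : 0 < x.re)
    (hx2 : 0 < (1 + (1 - 1 / x)).re) :
    ∑ j ∈ Finset.Ico 1 N, α j * Bm m x ^ j
      - Mc m x * ∑ j ∈ Finset.Ico 1 N, α j * Bm m (Mo x) ^ j =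
    x ^ ((2 * (m : ℂ) + 6) / 3) *
      (MDL_T m α N (-(1 - 1 / x)) - MDL_T m α N (1 - 1 / x)) := by
  have hx0 : x ≠ 0 := by
    rintro rfl
    simp at hx
  have h1 : 1 + (1 - 1 / x) ≠ 0 := by
    intro h
    rw [h] at hx2
    simp at hx2
  have h2 : (1 + (1 - 1 / x)) * x = 2 * x - 1 := by
    field_simp
    ring
  have h21 : 2 * x - 1 ≠ 0 := by
    rw [← h2]
    exact mul_ne_zero h1 hx0
  have hMo : Mo x ≠ 0 := div_ne_zero hx0 h21
  have e1 : MDL_s m (-(1 - 1 / x)) = Bm m x := MDL_s_eq m hx0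
  have e2 : MDL_s m (1 - 1 / x) = Bm m (Mo x) := by
    rw [← MDL_s_eq m hMo]
    congr 1
    unfold Mo
    field_simp
    ring
  have e3 : x ^ ((2 * (m : ℂ) + 6) / 3) * (1 + -(1 - 1 / x)) ^ ((2 * (m : ℂ) + 6) / 3) = 1 := by
    have : 1 + -(1 - 1 / x) = x⁻¹ := by ring
    rw [this, Complex.inv_cpow _ _ (fun h => ?_), mul_inv_cancel₀]
    · rw [Complex.cpow_ne_zero_iff]
      exact Or.inl hx0
    · have := MDL_re hx
      rw [h, abs_of_pos Real.pi_pos] at this
      linarith [Real.pi_pos]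
  have e4 : x ^ ((2 * (m : ℂ) + 6) / 3) * (1 + (1 - 1 / x)) ^ ((2 * (m : ℂ) + 6) / 3) =
      Mc m x := by
    unfold Mc
    rw [Complex.cpow_def_of_ne_zero hx0, Complex.cpow_def_of_ne_zero h1, ← Complex.exp_add,
      ← h2, Complex.log_mul h1 hx0]
    · congr 1
      ring
    · have a1 := abs_lt.1 (MDL_re hx)
      have a2 := abs_lt.1 (MDL_re hx2)
      constructor <;> linarith [a1.1, a1.2, a2.1, a2.2]
  unfold MDL_T
  rw [e1, e2, mul_sub, ← mul_assoc, ← mul_assoc, e3, e4, one_mul]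

theorem tMDL : StMDL := by
  intro m υ β hm hυ h N
  set α : ℕ → ℂ := fun j => β j * (υ ^ 3 / ((m + 1) * (m + 2))) ^ j with hα
  have h1 : (fun d => MDL_T m α N (-d) - MDL_T m α N d) =O[𝓝 0] fun d : ℂ => d ^ (2 * N + 1) :=
    MDL_parity (MDL_T_R m α N) N fun i hi => MDL_coeff h N i hi
  have hc : ContinuousAt (fun x : ℂ => 1 - 1 / x) 1 := by
    refine ContinuousAt.sub continuousAt_const ?_
    exact ContinuousAt.div continuousAt_const continuousAt_id one_ne_zero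
  have ht : Tendsto (fun x : ℂ => 1 - 1 / x) (𝓝 1) (𝓝 0) := by
    have := hc.tendsto
    simpa using this
  have h2 := h1.comp_tendsto ht
  have h3 : (fun x : ℂ => (1 - 1 / x) ^ (2 * N + 1)) =O[𝓝 1] fun x => (x - 1) ^ (2 * N + 1) := by
    refine IsBigO.pow ?_ _
    have h4 : (fun x : ℂ => x⁻¹) =O[𝓝 1] fun _ => (1 : ℂ) :=
      ((continuousAt_inv₀ (one_ne_zero (α := ℂ))).tendsto).isBigO_one ℂ
    have h5 := (isBigO_refl (fun x : ℂ => x - 1) (𝓝 1)).mul h4
    refine (h5.congr' ?_ (Eventually.of_forall fun x => mul_one _))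
    filter_upwards [eventually_ne_nhds (one_ne_zero (α := ℂ))] with x hx
    field_simp
  have h6 : (fun x : ℂ => x ^ ((2 * (m : ℂ) + 6) / 3)) =O[𝓝 1] fun _ => (1 : ℂ) := by
    have : ContinuousAt (fun x : ℂ => x ^ ((2 * (m : ℂ) + 6) / 3)) 1 :=
      continuousAt_cpow_const (by simp)
    exact this.tendsto.isBigO_one ℂ
  have h7 := h6.mul (h2.trans h3)
  refine h7.congr' ?_ (Eventually.of_forall fun x => one_mul _)
  have g1 : ∀ᶠ x : ℂ in 𝓝 1, 0 < x.re := by
    refine (Complex.continuous_re.tendsto 1).eventually (lt_mem_nhds ?_)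
    simp
  have g2 : ∀ᶠ x : ℂ in 𝓝 1, 0 < (1 + (1 - 1 / x)).re := by
    have : Tendsto (fun x : ℂ => (1 + (1 - 1 / x)).re) (𝓝 1) (𝓝 ((1 + 0 : ℂ)).re) :=
      (Complex.continuous_re.tendsto _).comp (tendsto_const_nhds.add ht)
    refine this.eventually (lt_mem_nhds ?_)
    simp
  filter_upwards [g1, g2] with x hx hx2
  exact (MDL_eq m α N hx hx2).symm

end H738CZ
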