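import Pool.Agent.H738R3.CZ.Defs

set_option autoImplicit false

/-!
# Task 5R: from the formal relation to the relation for the sum.
-/

open Complex Set Filter Topology

namespace H738CZ

theorem R5_Bm (m : ℕ) (x : ℂ) :
    Bm m x = (x - 1) ^ 2 * ∑ j ∈ Finset.range (m + 1), ((j : ℂ) + 1) * x ^ j := by
  induction m with
  | zero => simp [Bm]; ring
  | succ n ih =>
    rw [Finset.sum_range_succ, mul_add, ← ih]
    simp only [Bm]
    push_cast
    ring

theorem R5_Bm_one (m : ℕ) : Bm m 1 = 0 := by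
  rw [R5_Bm]; simp

theorem R5_Bm_cont (m : ℕ) : Continuous (Bm m) := by
  unfold Bm
  fun_prop

theorem R5_Bm_O (m : ℕ) : (fun x : ℂ => Bm m x) =O[𝓝 1] fun x => (x - 1) ^ 2 := by
  have h : (fun x : ℂ => ∑ j ∈ Finset.range (m + 1), ((j : ℂ) + 1) * x ^ j) =O[𝓝 1]
      (fun _ => (1 : ℂ)) := by
    have hc : ContinuousAt (fun x : ℂ => ∑ j ∈ Finset.range (m + 1), ((j : ℂ) + 1) * x ^ j) 1 := by
      fun_prop
    exact hc.isBigO_one ℂ
  have h2 := (Asymptotics.isBigO_refl (fun x : ℂ => (x - 1) ^ 2) (𝓝 1)).mul h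
  simp only [mul_one] at h2
  refine h2.congr_left ?_
  intro x
  exact (R5_Bm m x).symm

theorem R5_Mo_one : Mo 1 = 1 := by
  unfold Mo; norm_num

theorem R5_Mo_an : AnalyticAt ℂ Mo 1 := by
  unfold Mo
  apply AnalyticAt.div analyticAt_id
  · fun_prop
  · norm_num

theorem R5_Mo_O : (fun x : ℂ => Mo x - 1) =O[𝓝 1] fun x => (x - 1) := by
  have h : (fun x : ℂ => (-(2 * x - 1)⁻¹)) =O[𝓝 1] (fun _ => (1 : ℂ)) := by
    have hc : ContinuousAt (fun x : ℂ => (-(2 * x - 1)⁻¹)) 1 := by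
      apply ContinuousAt.neg
      apply ContinuousAt.inv₀
      · fun_prop
      · norm_num
    exact hc.isBigO_one ℂ
  have h2 := (Asymptotics.isBigO_refl (fun x : ℂ => (x - 1)) (𝓝 1)).mul h
  simp only [mul_one] at h2
  refine h2.congr' ?_ (Eventually.of_forall fun _ => rfl)
  have hne : ∀ᶠ x : ℂ in 𝓝 1, 2 * x - 1 ≠ 0 := by
    have hc : ContinuousAt (fun x : ℂ => 2 * x - 1) 1 := by fun_prop
    exact hc.eventually_ne (by norm_num)
  filter_upwards [hne] with x hx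
  have hv : (2 * x - 1)⁻¹ * (2 * x - 1) = 1 := inv_mul_cancel₀ hx
  unfold Mo
  rw [div_eq_mul_inv]
  linear_combination (-1 : ℂ) * hv

theorem R5_BMo_O (m : ℕ) : (fun x : ℂ => Bm m (Mo x)) =O[𝓝 1] fun x => (x - 1) ^ 2 := by
  have h1 : Tendsto Mo (𝓝 1) (𝓝 1) := by
    have := R5_Mo_an.continuousAt.tendsto
    rwa [R5_Mo_one] at this
  have h2 := (R5_Bm_O m).comp_tendsto h1
  exact h2.trans (R5_Mo_O.pow 2)

theorem R5_Mc_an (m : ℕ) : AnalyticAt ℂ (Mc m) 1 := by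
  unfold Mc
  apply AnalyticAt.cexp
  apply AnalyticAt.mul analyticAt_const
  apply AnalyticAt.clog
  · fun_prop
  · norm_num

/-- The sum of the series. -/
noncomputable def R5_F (α : ℕ → ℂ) (q : ℂ) : ℂ := ∑' j : ℕ, (if j = 0 then 0 else α j) * q ^ j

theorem R5_term (α : ℕ → ℂ) (K : ℝ) (hK : 1 ≤ K) (hα : ∀ j, 1 ≤ j → ‖α j‖ ≤ K ^ j) (q : ℂ)
    (hq : ‖q‖ ≤ (2 * K)⁻¹) (j N : ℕ) :
    ‖(if j + N = 0 then 0 else α (j + N)) * q ^ (j + N)‖ ≤ (K * ‖q‖) ^ N * (1 / 2 : ℝ) ^ j := by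
  have hK0 : 0 < K := by linarith
  have h1 : ‖(if j + N = 0 then 0 else α (j + N))‖ ≤ K ^ (j + N) := by
    split_ifs with h
    · simp; positivity
    · exact hα _ (by omega)
  have h2 : K * ‖q‖ ≤ 1 / 2 := by
    calc K * ‖q‖ ≤ K * (2 * K)⁻¹ := mul_le_mul_of_nonneg_left hq hK0.le
      _ = 1 / 2 := by field_simp
  have h0 : 0 ≤ K * ‖q‖ := by positivity
  rw [norm_mul, norm_pow]
  calc ‖(if j + N = 0 then 0 else α (j + N))‖ * ‖q‖ ^ (j + N) ≤ K ^ (j + N) * ‖q‖ ^ (j + N) :=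
        mul_le_mul_of_nonneg_right h1 (by positivity)
    _ = (K * ‖q‖) ^ N * (K * ‖q‖) ^ j := by rw [← mul_pow, pow_add]; ring
    _ ≤ (K * ‖q‖) ^ N * (1 / 2 : ℝ) ^ j := by
        apply mul_le_mul_of_nonneg_left _ (by positivity)
        exact pow_le_pow_left₀ h0 h2 j

theorem R5_summ (α : ℕ → ℂ) (K : ℝ) (hK : 1 ≤ K) (hα : ∀ j, 1 ≤ j → ‖α j‖ ≤ K ^ j) (q : ℂ)
    (hq : ‖q‖ ≤ (2 * K)⁻¹) : Summable (fun j : ℕ => (if j = 0 then 0 else α j) * q ^ j) := by
  apply Summable.of_norm_bounded (g := fun j : ℕ => (1 / 2 : ℝ) ^ j)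
    (summable_geometric_of_lt_one (by norm_num) (by norm_num))
  intro j
  have := R5_term α K hK hα q hq j 0
  simpa using this

theorem R5_rem (α : ℕ → ℂ) (K : ℝ) (hK : 1 ≤ K) (hα : ∀ j, 1 ≤ j → ‖α j‖ ≤ K ^ j) (q : ℂ)
    (hq : ‖q‖ ≤ (2 * K)⁻¹) (N : ℕ) (hN : 1 ≤ N) :
    ‖R5_F α q - ∑ j ∈ Finset.Ico 1 N, α j * q ^ j‖ ≤ (K * ‖q‖) ^ N * 2 := by
  have hs := R5_summ α K hK hα q hq
  have h1 : ∑ j ∈ Finset.Ico 1 N, α j * q ^ j =
      ∑ j ∈ Finset.range N, (if j = 0 then 0 else α j) * q ^ j := by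
    rw [Finset.range_eq_Ico, Finset.sum_eq_sum_Ico_succ_bot (show 0 < N by omega)]
    simp only [if_true, zero_mul, zero_add]
    apply Finset.sum_congr rfl
    intro j hj
    rw [Finset.mem_Ico] at hj
    rw [if_neg (by omega)]
  have h2 := hs.sum_add_tsum_nat_add N
  have h3 : R5_F α q - ∑ j ∈ Finset.Ico 1 N, α j * q ^ j =
      ∑' j : ℕ, (if j + N = 0 then 0 else α (j + N)) * q ^ (j + N) := by
    rw [h1, R5_F, ← h2]; ring
  rw [h3]
  have hg : HasSum (fun j : ℕ => (K * ‖q‖) ^ N * (1 / 2 : ℝ) ^ j) ((K * ‖q‖) ^ N * 2) := by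
    apply HasSum.mul_left
    have := hasSum_geometric_of_lt_one (r := (1 / 2 : ℝ)) (by norm_num) (by norm_num)
    norm_num at this ⊢
    exact this
  exact tsum_of_norm_bounded hg (fun j => R5_term α K hK hα q hq j N)

theorem R5_diff (α : ℕ → ℂ) (K : ℝ) (hK : 1 ≤ K) (hα : ∀ j, 1 ≤ j → ‖α j‖ ≤ K ^ j) :
    DifferentiableOn ℂ (R5_F α) (Metric.ball 0 (2 * K)⁻¹) := by
  apply differentiableOn_tsum_of_summable_norm (u := fun j : ℕ => (1 / 2 : ℝ) ^ j)
    (summable_geometric_of_lt_one (by norm_num) (by norm_num))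
  · intro j
    fun_prop
  · exact Metric.isOpen_ball
  · intro j q hq
    rw [mem_ball_zero_iff] at hq
    have := R5_term α K hK hα q hq.le j 0
    simpa using this

/-- An analytic function vanishing to infinite order vanishes near the point. -/
theorem R5_flat (f : ℂ → ℂ) (a : ℂ) (hf : AnalyticAt ℂ f a)
    (h : ∀ N : ℕ, 1 ≤ N → f =O[𝓝 a] fun x => (x - a) ^ (2 * N)) : ∀ᶠ x in 𝓝 a, f x = 0 := by
  by_contra hne
  obtain ⟨n, g, hg, hga, hfg⟩ := (hf.exists_eventuallyEq_pow_smul_nonzero_iff).mpr hne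
  have h1 := h (n + 1) (by omega)
  have h2 : g =O[𝓝[≠] a] fun x => (x - a) ^ (n + 2) := by
    have h3 : (fun x => ((x - a) ^ n)⁻¹ * f x) =O[𝓝[≠] a]
        fun x => ((x - a) ^ n)⁻¹ * (x - a) ^ (2 * (n + 1)) :=
      (Asymptotics.isBigO_refl _ _).mul (h1.mono nhdsWithin_le_nhds)
    refine h3.congr' ?_ ?_
    · have hfg' : ∀ᶠ x in 𝓝[≠] a, f x = (x - a) ^ n • g x := nhdsWithin_le_nhds hfg
      filter_upwards [hfg', self_mem_nhdsWithin] with x hx hxa
      have : x - a ≠ 0 := sub_ne_zero.mpr hxa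
      rw [hx, smul_eq_mul, ← mul_assoc, inv_mul_cancel₀ (pow_ne_zero _ this), one_mul]
    · filter_upwards [self_mem_nhdsWithin] with x hxa
      have : x - a ≠ 0 := sub_ne_zero.mpr hxa
      have e : 2 * (n + 1) = n + (n + 2) := by ring
      rw [e, pow_add, ← mul_assoc, inv_mul_cancel₀ (pow_ne_zero _ this), one_mul]
  have h3 : Tendsto (fun x : ℂ => (x - a) ^ (n + 2)) (𝓝[≠] a) (𝓝 0) := by
    have hc : ContinuousAt (fun x : ℂ => (x - a) ^ (n + 2)) a := by fun_prop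
    have := hc.tendsto
    simp only [sub_self, ne_eq, Nat.add_eq_zero_iff, OfNat.ofNat_ne_zero, and_false,
      not_false_eq_true, zero_pow] at this
    exact this.mono_left nhdsWithin_le_nhds
  have h4 : Tendsto g (𝓝[≠] a) (𝓝 0) := h2.trans_tendsto h3
  have h5 : Tendsto g (𝓝[≠] a) (𝓝 (g a)) := hg.continuousAt.tendsto.mono_left nhdsWithin_le_nhds
  exact hga (tendsto_nhds_unique h5 h4)

theorem t5R : St5R := by
  intro m α C hm hrel hα0
  set K : ℝ := |C| + 1 with hKdef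
  have hK : 1 ≤ K := by have := abs_nonneg C; linarith
  have hK0 : 0 < K := by linarith
  have hα : ∀ j, 1 ≤ j → ‖α j‖ ≤ K ^ j := by
    intro j hj
    have hC : ‖α j‖ ≤ |C| ^ j := by
      calc ‖α j‖ ≤ C ^ j := hα0 j hj
        _ ≤ |C ^ j| := le_abs_self _
        _ = |C| ^ j := abs_pow _ _
    exact hC.trans (pow_le_pow_left₀ (abs_nonneg C) (by linarith) j)
  have hR : (0 : ℝ) < (2 * K)⁻¹ := by positivity
  have hdiff := R5_diff α K hK hα
  have hF0 : R5_F α 0 = 0 := by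
    have := R5_rem α K hK hα 0 (by simp; positivity) 1 le_rfl
    simpa using this
  have hFan : AnalyticAt ℂ (R5_F α) 0 :=
    hdiff.analyticAt (Metric.ball_mem_nhds 0 hR)
  -- remainders
  have hremO : ∀ N : ℕ, 1 ≤ N → ∀ u : ℂ → ℂ, ContinuousAt u 1 → u 1 = 0 →
      (u =O[𝓝 1] fun x => (x - 1) ^ 2) →
      (fun x => R5_F α (u x) - ∑ j ∈ Finset.Ico 1 N, α j * u x ^ j) =O[𝓝 1]
        fun x => (x - 1) ^ (2 * N) := by
    intro N hN u hu hu1 huO
    have hsmall : ∀ᶠ x in 𝓝 (1 : ℂ), ‖u x‖ ≤ (2 * K)⁻¹ := by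
      have h := hu.norm.tendsto
      simp only [hu1, norm_zero] at h
      exact (h.eventually_lt_const hR).mono fun x hx => hx.le
    have h1 : (fun x => R5_F α (u x) - ∑ j ∈ Finset.Ico 1 N, α j * u x ^ j) =O[𝓝 1]
        fun x => u x ^ N := by
      apply Asymptotics.IsBigO.of_bound (K ^ N * 2)
      filter_upwards [hsmall] with x hx
      refine (R5_rem α K hK hα (u x) hx N hN).trans (le_of_eq ?_)
      rw [norm_pow, mul_pow]; ring
    refine h1.trans ?_
    have h2 := huO.pow N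
    simpa [← pow_mul] using h2
  refine ⟨(2 * K)⁻¹, R5_F α, hR, hdiff, hF0, ?_, ?_⟩
  · -- derivative at zero
    have h1 : HasDerivAt (R5_F α) (α 1) 0 := by
      rw [hasDerivAt_iff_isLittleO]
      have h2 : (fun q : ℂ => R5_F α q - R5_F α 0 - (q - 0) • α 1) =O[𝓝 0] fun q => (q - 0) ^ 2 := by
        apply Asymptotics.IsBigO.of_bound (K ^ 2 * 2)
        have hsmall : ∀ᶠ q in 𝓝 (0 : ℂ), ‖q‖ ≤ (2 * K)⁻¹ := by
          filter_upwards [Metric.ball_mem_nhds (0 : ℂ) hR] with q hq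
          rw [mem_ball_zero_iff] at hq
          exact hq.le
        filter_upwards [hsmall] with q hq
        have h3 := R5_rem α K hK hα q hq 2 (by norm_num)
        rw [hF0]
        have e : R5_F α q - 0 - (q - 0) • α 1 =
            R5_F α q - ∑ j ∈ Finset.Ico 1 2, α j * q ^ j := by
          simp; ring
        rw [e]
        refine h3.trans (le_of_eq ?_)
        rw [norm_pow, sub_zero, mul_pow]; ring
      refine h2.trans_isLittleO ?_
      have h4 : (fun q : ℂ => q ^ 2) =o[𝓝 0] fun q => q ^ 1 :=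
        Asymptotics.isLittleO_pow_pow (by norm_num)
      simpa using h4
    exact h1.deriv
  · -- the relation
    have hBan : AnalyticAt ℂ (fun x => Bm m x) 1 := by
      unfold Bm
      fun_prop
    have hBMan : AnalyticAt ℂ (fun x => Bm m (Mo x)) 1 := by
      have h : AnalyticAt ℂ (Bm m) (Mo 1) := by rw [R5_Mo_one]; exact hBan
      exact h.comp R5_Mo_an
    have hBM1 : Bm m (Mo 1) = 0 := by rw [R5_Mo_one, R5_Bm_one]
    have hD : AnalyticAt ℂ
        (fun x => R5_F α (Bm m x) - Mc m x * R5_F α (Bm m (Mo x))) 1 := by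
      apply AnalyticAt.sub
      · have h : AnalyticAt ℂ (R5_F α) (Bm m 1) := by rw [R5_Bm_one]; exact hFan
        exact AnalyticAt.comp (g := R5_F α) (f := fun x => Bm m x) h hBan
      · apply (R5_Mc_an m).mul
        have h : AnalyticAt ℂ (R5_F α) (Bm m (Mo 1)) := by rw [hBM1]; exact hFan
        exact AnalyticAt.comp (g := R5_F α) (f := fun x => Bm m (Mo x)) h hBMan
    have hflat := R5_flat _ 1 hD ?_
    · filter_upwards [hflat] with x hx
      exact sub_eq_zero.mp hx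
    intro N hN
    have h1 := hremO N hN (fun x => Bm m x) hBan.continuousAt (R5_Bm_one m) (R5_Bm_O m)
    have h2 := hremO N hN (fun x => Bm m (Mo x)) hBMan.continuousAt hBM1 (R5_BMo_O m)
    have h3 : (fun x => Mc m x * (R5_F α (Bm m (Mo x)) -
        ∑ j ∈ Finset.Ico 1 N, α j * Bm m (Mo x) ^ j)) =O[𝓝 1] fun x => (x - 1) ^ (2 * N) := by
      have h4 := ((R5_Mc_an m).continuousAt.isBigO_one ℂ).mul h2
      simpa using h4
    have h5 : (fun x : ℂ => ∑ j ∈ Finset.Ico 1 N, α j * Bm m x ^ j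
      - Mc m x * ∑ j ∈ Finset.Ico 1 N, α j * Bm m (Mo x) ^ j)
        =O[𝓝 1] fun x => (x - 1) ^ (2 * N) := by
      refine (hrel N).trans ?_
      apply Asymptotics.IsBigO.of_bound 1
      have hball : ∀ᶠ x in 𝓝 (1 : ℂ), ‖x - 1‖ ≤ 1 := by
        filter_upwards [Metric.ball_mem_nhds (1 : ℂ) one_pos] with x hx
        rw [Metric.mem_ball, dist_eq_norm] at hx
        exact hx.le
      filter_upwards [hball] with x hx
      rw [norm_pow, norm_pow, one_mul]
      exact pow_le_pow_of_le_one (norm_nonneg _) hx (by omega)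
    have h6 := (h1.sub h3).add h5
    refine h6.congr_left ?_
    intro x
    ring

end H738CZ
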