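import Pool.Agent.H738R3.CZ.Defs

open Complex Set Filter Topology

namespace H738CZ

/-- iterates of the coordinate derivative are differentiable -/
theorem CHG_diff {d : ℂ → ℂ} {V : Set ℂ} (hV : IsOpen V) (hd : DifferentiableOn ℂ d V)
    (h0 : ∀ t ∈ V, d t ≠ 0) {f : ℂ → ℂ} (hf : DifferentiableOn ℂ f V) (l : ℕ) :
    DifferentiableOn ℂ ((DD d)^[l] f) V := by
  induction l with
  | zero => exact hf
  | succ l ih =>
    rw [Function.iterate_succ_apply']
    exact (ih.deriv hV).div hd h0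

/-- iterates of the coordinate derivative in new coordinates -/
theorem CHG_iter {d d' χ : ℂ → ℂ} {V V' : Set ℂ} (hV : IsOpen V) (hd : DifferentiableOn ℂ d V)
    (h0 : ∀ t ∈ V, d t ≠ 0) (hV' : IsOpen V') (hχ : DifferentiableOn ℂ χ V')
    (hm : MapsTo χ V' V) (hdd : ∀ t ∈ V', d (χ t) * deriv χ t = d' t)
    (h0' : ∀ t ∈ V', d' t ≠ 0) {f : ℂ → ℂ} (hf : DifferentiableOn ℂ f V) (l : ℕ) :
    ∀ t ∈ V', ((DD d')^[l] (f ∘ χ)) t = ((DD d)^[l] f) (χ t) := by
  induction l with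
  | zero => intro t _; rfl
  | succ l ih =>
    intro t ht
    rw [Function.iterate_succ_apply', Function.iterate_succ_apply']
    have h1 : (DD d')^[l] (f ∘ χ) =ᶠ[𝓝 t] ((DD d)^[l] f) ∘ χ := by
      filter_upwards [hV'.mem_nhds ht] with s hs
      exact ih s hs
    have hχt : DifferentiableAt ℂ χ t := hχ.differentiableAt (hV'.mem_nhds ht)
    have hH : DifferentiableAt ℂ ((DD d)^[l] f) (χ t) :=
      (CHG_diff hV hd h0 hf l).differentiableAt (hV.mem_nhds (hm ht))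
    have h2 : deriv ((DD d')^[l] (f ∘ χ)) t = deriv ((DD d)^[l] f) (χ t) * deriv χ t := by
      rw [h1.deriv_eq]
      exact deriv_comp t hH hχt
    show deriv ((DD d')^[l] (f ∘ χ)) t / d' t = deriv ((DD d)^[l] f) (χ t) / d (χ t)
    have h3 : deriv χ t ≠ 0 := by
      intro e
      apply h0' t ht
      rw [← hdd t ht, e, mul_zero]
    rw [h2, ← hdd t ht, mul_div_mul_right _ _ h3]

theorem tCHG : StCHG := by
  intro kc d ρ r0 g V d' χ V' h hV' hχ hm hdd h0'
  have hB := h.base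
  have hr : DifferentiableOn ℂ ρ V := (hB.rd.pow 3).congr hB.cube
  have hd' : DifferentiableOn ℂ d' V' := by
    have h1 : DifferentiableOn ℂ (fun t => d (χ t) * deriv χ t) V' :=
      (hB.dd.comp hχ hm).mul (hχ.deriv hV')
    exact h1.congr (fun t ht => (hdd t ht).symm)
  have it : ∀ {f : ℂ → ℂ}, DifferentiableOn ℂ f V → ∀ l, ∀ t ∈ V',
      ((DD d')^[l] (f ∘ χ)) t = ((DD d)^[l] f) (χ t) := fun {f} hf l =>
    CHG_iter hB.op hB.dd hB.d0 hV' hχ hm hdd h0' hf l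
  refine ⟨⟨hV', hd', h0', hB.rd.comp hχ hm, fun t ht => hB.rn _ (hm ht),
    fun t ht => hB.cube _ (hm ht)⟩, fun j hj => (h.gd j hj).comp hχ hm,
    fun t ht => h.one _ (hm ht), ?_⟩
  intro J hJ t ht
  rw [← h.law J hJ (χ t) (hm ht)]
  unfold Cf
  congr 1
  apply Finset.sum_congr rfl
  intro j hj
  have hj1 : 1 ≤ j := (Finset.mem_Icc.1 hj).1
  have hf : DifferentiableOn ℂ (fun u => g j u * ((r0 u)⁻¹) ^ j) V :=
    (h.gd j hj1).mul ((hB.rd.inv hB.rn).pow j)
  unfold Tm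
  have e1 : Es d' (fun u => (g j ∘ χ) u * (((r0 ∘ χ) u)⁻¹) ^ j) t =
      Es d (fun u => g j u * ((r0 u)⁻¹) ^ j) (χ t) := by
    unfold Es
    ext l
    rw [PowerSeries.coeff_mk, PowerSeries.coeff_mk, ← it hf l t ht]
    rfl
  have e2 : Ys kc d' (ρ ∘ χ) t = Ys kc d ρ (χ t) := by
    unfold Ys
    ext n
    rw [PowerSeries.coeff_mk, PowerSeries.coeff_mk]
    congr 1
    apply Finset.sum_congr rfl
    intro l _
    rw [it hr l t ht]
  rw [e1, e2]

end H738CZ
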