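import Pool.Agent.H738R3.CZ.Defs

/-! TRL: translation and congruence for `Good` (helper368). -/

open Complex Set Filter Topology

namespace H738CZ

theorem TRL_maps (a c : ℂ) (η : ℝ) :
    MapsTo (fun t : ℂ => t + c) (Metric.ball (a - c) η) (Metric.ball a η) := by
  intro t ht
  rw [Metric.mem_ball] at ht ⊢
  calc dist (t + c) a = dist t (a - c) := by
        rw [dist_eq_norm, dist_eq_norm]; congr 1; ring
    _ < η := ht

theorem tTRL (hCHG : StCHG) (hMON : StMON) : StTRL := by
  intro kc ρ ρ' a c hG hev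
  obtain ⟨η, hη, r0, g, hFI, C, s, hC, hs0, hs1, hB⟩ := hG
  have hder : ∀ t : ℂ, deriv (fun t : ℂ => t + c) t = 1 := by
    intro t
    simp
  have h1 := hCHG kc (fun _ => 1) ρ r0 g (Metric.ball a η) (fun _ => 1) (fun t => t + c)
    (Metric.ball (a - c) η) hFI Metric.isOpen_ball
    (by fun_prop) (TRL_maps a c η)
    (by intro t _; rw [hder]; ring)
    (by intro t _; exact one_ne_zero)
  obtain ⟨ε, hε, hεs⟩ := Metric.eventually_nhds_iff_ball.1 hev
  have hsub1 : Metric.ball (a - c) (min η ε) ⊆ Metric.ball (a - c) η :=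
    Metric.ball_subset_ball (min_le_left _ _)
  have hsub2 : Metric.ball (a - c) (min η ε) ⊆ Metric.ball (a - c) ε :=
    Metric.ball_subset_ball (min_le_right _ _)
  refine ⟨min η ε, lt_min hη hε, r0 ∘ (fun t => t + c), fun j => g j ∘ (fun t => t + c), ?_, ?_⟩
  · refine hMON kc (fun _ => 1) (ρ ∘ fun t => t + c) (r0 ∘ fun t => t + c) (fun _ => 1) ρ'
      (r0 ∘ fun t => t + c) (fun j => g j ∘ fun t => t + c) (fun j => g j ∘ fun t => t + c)
      (Metric.ball (a - c) η) (Metric.ball (a - c) (min η ε)) h1 Metric.isOpen_ball hsub1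
      (fun _ _ => rfl) ?_ (fun _ _ => rfl) (fun _ _ _ _ => rfl)
    intro t ht
    exact hεs t (hsub2 ht)
  · refine ⟨C, s, hC, hs0, hs1, ?_⟩
    intro j hj t ht
    exact hB j hj (t + c) (TRL_maps a c η (hsub1 ht))

end H738CZ
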