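import Pool.Agent.H738R3.CZ.Defs

open Complex Set Filter Topology

namespace H738CZ

/-- Taylor coefficients of the sine -/
noncomputable def INN_kc (i : ℕ) : ℂ := if Even i then 0 else (-1) ^ (i / 2)

theorem INN_ker : Ker INN_kc where
  even i := by simp [INN_kc]
  one := by simp [INN_kc]
  bd i := by
    unfold INN_kc
    split_ifs
    · simp
    · simp

theorem INN_KF : KF Complex.sin INN_kc := by
  intro z
  have h1 := Complex.hasSum_sin z
  have he : HasSum (fun k : ℕ => INN_kc (2 * k) * z ^ (2 * k) / ((2 * k).factorial : ℂ)) 0 := by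
    have : (fun k : ℕ => INN_kc (2 * k) * z ^ (2 * k) / ((2 * k).factorial : ℂ)) = fun _ => 0 := by
      funext k
      rw [INN_ker.even k]
      simp
    rw [this]
    exact hasSum_zero
  have ho : HasSum (fun k : ℕ => INN_kc (2 * k + 1) * z ^ (2 * k + 1)
      / ((2 * k + 1).factorial : ℂ)) (Complex.sin z) := by
    refine h1.congr_fun ?_ |> fun h => h
    intro k
    have h2 : ¬ Even (2 * k + 1) := by
      rw [Nat.not_even_iff_odd]; exact ⟨k, rfl⟩
    have h3 : (2 * k + 1) / 2 = k := by omega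
    simp only [INN_kc, h2, if_false, h3]
  have := he.even_add_odd (f := fun i => INN_kc i * z ^ i / (i.factorial : ℂ)) ho
  simpa using this


/-- the boundary curve is real analytic where the radius of curvature is -/
theorem INN_gamma (γ : ℝ → ℂ) (ρ : ℝ → ℝ) (ho : IsOval γ ρ) (R0 : ℂ → ℂ) (a0 : ℂ) (r0 : ℝ)
    (hd : DifferentiableOn ℂ R0 (Metric.ball a0 r0))
    (hR : ∀ x : ℝ, (x : ℂ) ∈ Metric.ball a0 r0 → R0 x = ρ x) (x : ℝ)
    (hx : (x : ℂ) ∈ Metric.ball a0 r0) : AnalyticAt ℝ γ x := by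
  have hexp : Differentiable ℂ fun z : ℂ => cexp (z * I) := by fun_prop
  have hd' : DifferentiableOn ℂ (fun z => R0 z * I * cexp (z * I)) (Metric.ball a0 r0) :=
    (hd.mul_const I).mul hexp.differentiableOn
  obtain ⟨G, hG⟩ := hd'.isExactOn_ball
  have hopen : IsOpen {s : ℝ | (s : ℂ) ∈ Metric.ball a0 r0} :=
    Metric.isOpen_ball.preimage Complex.continuous_ofReal
  obtain ⟨δ, hδ, hsub⟩ := Metric.isOpen_iff.1 hopen x hx
  have hder : ∀ s ∈ Metric.ball x δ, HasDerivAt (fun u : ℝ => γ u - G u) 0 s := by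
    intro s hs
    have hs' : (s : ℂ) ∈ Metric.ball a0 r0 := hsub hs
    have h1 := (hG (s : ℂ) hs').comp_ofReal
    have h2 := ho.der s
    simp only at h1
    rw [hR s hs'] at h1
    simpa using h2.fun_sub h1
  have hconst : ∀ s ∈ Metric.ball x δ, γ s = G s + (γ x - G x) := by
    intro s hs
    have h1 : (fun u : ℝ => γ u - G u) s = (fun u : ℝ => γ u - G u) x := by
      refine Metric.isOpen_ball.is_const_of_deriv_eq_zero (convex_ball x δ).isPreconnected
        (fun u hu => (hder u hu).differentiableAt.differentiableWithinAt)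
        (fun u hu => (hder u hu).deriv) hs (Metric.mem_ball_self hδ)
    simp only at h1
    rw [← h1]
    ring
  have hGd : DifferentiableOn ℂ G (Metric.ball a0 r0) := fun z hz =>
    (hG z hz).differentiableAt.differentiableWithinAt
  have hGa : AnalyticAt ℂ G (x : ℂ) := hGd.analyticAt (Metric.isOpen_ball.mem_nhds hx)
  have hGr : AnalyticAt ℝ (fun u : ℝ => G u) x :=
    (hGa.restrictScalars (𝕜 := ℝ)).comp (Complex.ofRealCLM.analyticAt x)
  refine (hGr.add analyticAt_const).congr (f := fun u : ℝ => G u + (γ x - G x)) ?_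
  filter_upwards [Metric.ball_mem_nhds x hδ] with s hs
  exact (hconst s hs).symm

/-- support function as a function of the normal angle -/
theorem INN_h (γ : ℝ → ℂ) (x : ℝ) (hγ : AnalyticAt ℝ γ x) :
    AnalyticAt ℝ (fun s : ℝ => sup (γ s) s) x := by
  unfold sup
  have h1 : AnalyticAt ℝ (fun s : ℝ => cexp (-(s * I))) x := by
    have h2 : AnalyticAt ℂ (fun z : ℂ => cexp (-(z * I))) (x : ℂ) := by
      have : Differentiable ℂ fun z : ℂ => cexp (-(z * I)) := by fun_prop
      exact this.analyticAt _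
    exact (h2.restrictScalars (𝕜 := ℝ)).comp (Complex.ofRealCLM.analyticAt x)
  exact (Complex.reCLM.analyticAt _).comp (hγ.mul h1)

/-- the height of the boundary point `ψ` over the tangent line with normal angle `ψ + δ` -/
theorem INN_Y (γ : ℝ → ℂ) (ρ : ℝ → ℝ) (ho : IsOval γ ρ) (R0 : ℂ → ℂ) (ψ δ : ℝ)
    (hR : ∀ r ∈ Set.Icc (0:ℝ) 1, R0 ((ψ + r * δ : ℝ) : ℂ) = ρ (ψ + r * δ)) :
    Yf Complex.sin R0 ψ δ = ((sup (γ (ψ + δ)) (ψ + δ) - sup (γ ψ) (ψ + δ) : ℝ) : ℂ) := by
  -- the real integral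
  have hcont : Continuous fun r : ℝ => δ * ρ (ψ + r * δ) * Real.sin ((1 - r) * δ) := by
    have := ho.cont
    fun_prop
  have h1 : Yf Complex.sin R0 ψ δ
      = ((∫ r in (0:ℝ)..1, δ * ρ (ψ + r * δ) * Real.sin ((1 - r) * δ) : ℝ) : ℂ) := by
    unfold Yf
    rw [← intervalIntegral.integral_const_mul, ← intervalIntegral.integral_ofReal]
    refine intervalIntegral.integral_congr fun r hr => ?_
    rw [Set.uIcc_of_le zero_le_one] at hr
    have h2 := hR r hr
    push_cast at h2 ⊢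
    rw [h2]
    ring
  rw [h1]
  congr 1
  -- fundamental theorem of calculus
  have hder : ∀ r ∈ Set.uIcc (0:ℝ) 1, HasDerivAt
      (fun r : ℝ => (γ (ψ + r * δ) * cexp (-((ψ + δ : ℝ) * I))).re)
      (δ * ρ (ψ + r * δ) * Real.sin ((1 - r) * δ)) r := by
    intro r _
    have h2 : HasDerivAt (fun r : ℝ => ψ + r * δ) δ r := by
      simpa using ((hasDerivAt_id r).mul_const δ).const_add ψ
    have h3 := (ho.der (ψ + r * δ)).scomp r h2
    have h4 := h3.mul_const (cexp (-((ψ + δ : ℝ) * I)))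
    have h5 := (Complex.reCLM.hasFDerivAt.comp_hasDerivAt r h4)
    have h6 : Complex.reCLM (δ • ((ρ (ψ + r * δ) : ℂ) * I * cexp ((ψ + r * δ : ℝ) * I))
        * cexp (-((ψ + δ : ℝ) * I))) = δ * ρ (ψ + r * δ) * Real.sin ((1 - r) * δ) := by
      have h7 : δ • ((ρ (ψ + r * δ) : ℂ) * I * cexp ((ψ + r * δ : ℝ) * I))
        * cexp (-((ψ + δ : ℝ) * I))
        = ((δ * ρ (ψ + r * δ) : ℝ) : ℂ) * (I * cexp ((-((1 - r) * δ) : ℝ) * I)) := by
        rw [Complex.real_smul]
        have h8 : cexp ((-((1 - r) * δ) : ℝ) * I)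
            = cexp ((ψ + r * δ : ℝ) * I) * cexp (-((ψ + δ : ℝ) * I)) := by
          rw [← Complex.exp_add]
          congr 1
          push_cast
          ring
        rw [h8]
        push_cast
        ring
      rw [h7, Complex.reCLM_apply, Complex.re_ofReal_mul]
      congr 1
      rw [Complex.I_mul_re, Complex.exp_ofReal_mul_I_im, Real.sin_neg, neg_neg]
    rw [h6] at h5
    exact h5
  rw [intervalIntegral.integral_eq_sub_of_hasDerivAt hder (hcont.intervalIntegrable _ _)]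
  simp only [one_mul, zero_mul, add_zero]
  rfl

theorem INN_cont (γ : ℝ → ℂ) (ρ : ℝ → ℝ) (ho : IsOval γ ρ) : Continuous γ :=
  continuous_iff_continuousAt.2 fun s => (ho.der s).continuousAt

theorem INN_mem (x ψ σ η' : ℝ) (h1 : |ψ - x| < η') (h2 : |σ| < η' - |ψ - x|) (t : ℝ)
    (ht : t ∈ Set.Icc (0:ℝ) 1) : ((ψ + t * σ : ℝ) : ℂ) ∈ Metric.ball (x : ℂ) η' := by
  rw [Metric.mem_ball, Complex.dist_eq, ← Complex.ofReal_sub, Complex.norm_real, Real.norm_eq_abs]
  have h3 : |t * σ| ≤ |σ| := by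
    rw [abs_mul, abs_of_nonneg ht.1]
    exact mul_le_of_le_one_left (abs_nonneg _) ht.2
  calc |ψ + t * σ - x| = |(ψ - x) + t * σ| := by ring_nf
    _ ≤ |ψ - x| + |t * σ| := abs_add_le _ _
    _ < η' := by linarith

theorem tINN (hLAW : StLAW) (hINI : StINI) (hCPX : StCPX) (hCHN : StCHN) : StINN := by
  intro γ ρ ho K ε hε hK hrefl hnc k a r R hch ⟨x, hx⟩ hR
  refine hCHN INN_kc INN_ker k a r R hch ⟨(x : ℂ), hx, ?_⟩
  have hdR : DifferentiableOn ℂ (R 0) (Metric.ball (a 0) (r 0)) := hch.df 0 (Nat.zero_le k)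
  have hγ : AnalyticAt ℝ γ x := INN_gamma γ ρ ho (R 0) (a 0) (r 0) hdR hR x hx
  have hh : AnalyticAt ℝ (fun s : ℝ => sup (γ s) s) x := INN_h γ x hγ
  have hcγ := INN_cont γ ρ ho
  have hch : Continuous fun s : ℝ => sup (γ s) s := by unfold sup; fun_prop
  have hL : AnalyticAt ℝ (Function.uncurry fun φ y : ℝ => K φ (sup (γ φ) φ - y)) (x, 0) := by
    have h1 : AnalyticAt ℝ (Function.uncurry K) (x, sup (γ x) x - 0) := by
      refine hK _ ?_
      simp [hε]
    have h2 : AnalyticAt ℝ (fun z : ℝ × ℝ => (z.1, sup (γ z.1) z.1 - z.2)) (x, 0) := by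
      refine AnalyticAt.prod analyticAt_fst (AnalyticAt.sub ?_ analyticAt_snd)
      exact AnalyticAt.comp (g := fun s : ℝ => sup (γ s) s) (f := Prod.fst) hh analyticAt_fst
    exact AnalyticAt.comp (g := Function.uncurry K)
      (f := fun z : ℝ × ℝ => (z.1, sup (γ z.1) z.1 - z.2)) h1 h2
  obtain ⟨b, η, M, rr, hBD, hsum⟩ := hCPX _ x hL
  obtain ⟨η1, hη1, hsub⟩ := Metric.isOpen_iff.1 (Metric.isOpen_ball (x := a 0) (ε := r 0)) x hx
  have hη' : 0 < min η η1 := lt_min hBD.η0 hη1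
  have hBD' : BD b x (min η η1) M rr :=
    ⟨hη', hBD.r0, fun j => (hBD.df j).mono (Metric.ball_subset_ball (min_le_left _ _)),
      fun j t ht => hBD.bd j t (Metric.ball_subset_ball (min_le_left _ _) ht)⟩
  have hsub' : Metric.ball (x : ℂ) (min η η1) ⊆ Metric.ball (a 0) (r 0) :=
    (Metric.ball_subset_ball (min_le_right _ _)).trans hsub
  have hdR' : DifferentiableOn ℂ (R 0) (Metric.ball (x : ℂ) (min η η1)) := hdR.mono hsub'
  have hEV : ∀ ψ : ℝ, |ψ - x| < min η η1 → EV Complex.sin (R 0) b ψ := by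
    intro ψ hψ
    obtain ⟨εs, hεs, hs⟩ := hrefl ψ
    have hF : Continuous fun σ : ℝ => sup (γ (ψ + σ)) (ψ + σ) - sup (γ ψ) (ψ + σ) := by
      unfold sup; fun_prop
    have hF0 : (fun σ : ℝ => sup (γ (ψ + σ)) (ψ + σ) - sup (γ ψ) (ψ + σ)) 0 = 0 := by simp
    have hev : ∀ᶠ σ in 𝓝 (0 : ℝ),
        |sup (γ (ψ + σ)) (ψ + σ) - sup (γ ψ) (ψ + σ)| < rr := by
      have h1 := hF.tendsto 0
      simp only at hF0
      rw [hF0] at h1
      have h2 := h1.eventually (Metric.ball_mem_nhds (0 : ℝ) hBD.r0)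
      filter_upwards [h2] with σ hσ
      simpa [Real.dist_eq] using hσ
    obtain ⟨ε1, hε1, hball⟩ := Metric.eventually_nhds_iff.1 hev
    have key : ∀ σ : ℝ, |σ| < ε1 → |σ| < min η η1 - |ψ - x| →
        ∑' j, b j ((ψ + σ : ℝ) : ℂ) * (Yf Complex.sin (R 0) ψ (σ : ℝ)) ^ j
          = ((K (ψ + σ) (sup (γ ψ) (ψ + σ)) : ℝ) : ℂ) := by
      intro σ h1 h2
      have h3 := INN_Y γ ρ ho (R 0) ψ σ (fun t ht => by
        have h4 := hsub' (INN_mem x ψ σ _ hψ h2 t ht)
        exact hR _ h4)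
      rw [h3]
      have h5 : |ψ + σ - x| < η := by
        have h6 := INN_mem x ψ σ _ hψ h2 1 ⟨zero_le_one, le_refl _⟩
        rw [Metric.mem_ball, Complex.dist_eq, ← Complex.ofReal_sub, Complex.norm_real,
          Real.norm_eq_abs, one_mul] at h6
        exact h6.trans_le (min_le_left _ _)
      have h7 : |sup (γ (ψ + σ)) (ψ + σ) - sup (γ ψ) (ψ + σ)| < rr := by
        refine hball ?_
        simpa [Real.dist_eq] using h1
      have h8 := (hsum (ψ + σ) _ h5 h7).tsum_eq
      rw [h8]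
      congr 2
      ring
    refine ⟨min (min ε1 εs) (min η η1 - |ψ - x|), lt_min (lt_min hε1 hεs) (by linarith), ?_⟩
    intro δ hδ hδ'
    have h1 : |δ| < ε1 := by
      rw [abs_of_pos hδ]; exact hδ'.trans_le ((min_le_left _ _).trans (min_le_left _ _))
    have h2 : |δ| < min η η1 - |ψ - x| := by
      rw [abs_of_pos hδ]; exact hδ'.trans_le (min_le_right _ _)
    have h3 : δ < εs := hδ'.trans_le ((min_le_left _ _).trans (min_le_right _ _))
    have h4 := key δ h1 h2
    have h5 := key (-δ) (by rwa [abs_neg]) (by rwa [abs_neg])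
    have h6 := hs δ hδ h3
    push_cast at h4 h5
    rw [h4]
    rw [← sub_eq_add_neg, ← sub_eq_add_neg] at h5
    rw [h5, h6]
  have hne : ∃ j, 1 ≤ j ∧ ∃ t ∈ Metric.ball (x : ℂ) (min η η1), b j t ≠ 0 := by
    by_contra hcon
    push Not at hcon
    have h0 := (hLAW Complex.sin INN_kc INN_KF INN_ker (R 0) x b (min η η1) M rr hBD' hdR' hEV).1
    have hLc : ∀ φ y : ℝ, |φ - x| < min η η1 → |y| < rr →
        ((K φ (sup (γ φ) φ - y) : ℝ) : ℂ) = b 0 x := by
      intro φ y hφ hy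
      have h1 := hsum φ y (hφ.trans_le (min_le_left _ _)) hy
      have hφ' : (φ : ℂ) ∈ Metric.ball (x : ℂ) (min η η1) := by
        rw [Metric.mem_ball, Complex.dist_eq, ← Complex.ofReal_sub, Complex.norm_real,
          Real.norm_eq_abs]
        exact hφ
      have h2 : HasSum (fun j => b j φ * (y : ℂ) ^ j) (b 0 φ * (y : ℂ) ^ 0) := by
        refine hasSum_single 0 fun j hj => ?_
        rw [hcon j (Nat.one_le_iff_ne_zero.2 hj) φ hφ', zero_mul]
      have h3 := h1.unique h2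
      rw [pow_zero, mul_one, h0 φ hφ'] at h3
      exact h3
    have hc : ∀ φ p : ℝ, |φ - x| < min η η1 → |sup (γ φ) φ - p| < rr →
        K φ p = K x (sup (γ x) x) := by
      intro φ p hφ hp
      have h1 := hLc φ _ hφ hp
      have h2 := hLc x 0 (by simpa using hη') (by simpa using hBD.r0)
      rw [← h2, Complex.ofReal_inj] at h1
      simpa using h1
    refine hnc ⟨K x (sup (γ x) x), ?_⟩
    have hpre : IsPreconnected {z : ℝ × ℝ | |z.2 - sup (γ z.1) z.1| < ε} := by
      have h1 : IsPreconnected ((Set.univ : Set ℝ) ×ˢ Metric.ball (0 : ℝ) ε) :=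
        isPreconnected_univ.prod (convex_ball 0 ε).isPreconnected
      have h2 : Continuous fun z : ℝ × ℝ => (z.1, sup (γ z.1) z.1 + z.2) := by
        refine continuous_fst.prodMk ((hch.comp continuous_fst).add continuous_snd)
      have h3 := h1.image _ h2.continuousOn
      convert h3 using 1
      ext z
      simp only [Set.mem_ofPred_eq, Set.mem_image, Set.mem_prod, Set.mem_univ, true_and,
        Metric.mem_ball, Real.dist_eq, sub_zero]
      constructor
      · intro hz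
        exact ⟨(z.1, z.2 - sup (γ z.1) z.1), hz, by simp⟩
      · rintro ⟨w, hw, rfl⟩
        simpa using hw
    have hz0 : ((x, sup (γ x) x) : ℝ × ℝ) ∈ {z : ℝ × ℝ | |z.2 - sup (γ z.1) z.1| < ε} := by
      simpa using hε
    have hev : Function.uncurry K =ᶠ[𝓝 ((x, sup (γ x) x) : ℝ × ℝ)]
        fun _ => K x (sup (γ x) x) := by
      have hc1 : Continuous fun z : ℝ × ℝ => |z.1 - x| := by fun_prop
      have hc2 : Continuous fun z : ℝ × ℝ => |sup (γ z.1) z.1 - z.2| :=
        ((hch.comp continuous_fst).sub continuous_snd).abs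
      have h1 : ∀ᶠ z in 𝓝 ((x, sup (γ x) x) : ℝ × ℝ), |z.1 - x| < min η η1 :=
        (hc1.tendsto _).eventually_lt_const (by simpa using hη')
      have h2 : ∀ᶠ z in 𝓝 ((x, sup (γ x) x) : ℝ × ℝ), |sup (γ z.1) z.1 - z.2| < rr :=
        (hc2.tendsto _).eventually_lt_const (by simpa using hBD.r0)
      filter_upwards [h1, h2] with z hz1 hz2
      exact hc z.1 z.2 hz1 hz2
    have heq := hK.eqOn_of_preconnected_of_eventuallyEq
      (g := fun _ => K x (sup (γ x) x)) analyticOnNhd_const hpre hz0 hev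
    intro φ p hp
    exact heq (x := (φ, p)) hp
  refine hINI Complex.sin INN_kc INN_KF INN_ker (R 0) x b (min η η1) M rr hBD' hdR' ?_ hEV hne
  rw [hR x hx]
  exact Complex.ofReal_ne_zero.2 (ho.pos x).ne'

end H738CZ
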