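import Pool.Agent.H738R3.CZ.Defs

open Complex Set Filter Topology

namespace H738CZ

/-- Taylor expansion to third order with continuous remainder -/
lemma TE_T (f : ℂ → ℂ) (a : ℂ) (hf : AnalyticAt ℂ f a) :
    ∃ (b : ℂ) (g : ℂ → ℂ), ContinuousAt g a ∧
      ∀ x, f x = f a + deriv f a * (x - a) + b * (x - a) ^ 2 + (x - a) ^ 3 * g x := by
  obtain ⟨p, hp⟩ := hf
  have h1 := hp.has_fpower_series_dslope_fslope
  have h2 := h1.has_fpower_series_dslope_fslope
  have h3 := h2.has_fpower_series_dslope_fslope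
  refine ⟨dslope (dslope f a) a a, dslope (dslope (dslope f a) a) a, h3.continuousAt, ?_⟩
  intro x
  have e1 := sub_smul_dslope f a x
  have e2 := sub_smul_dslope (dslope f a) a x
  have e3 := sub_smul_dslope (dslope (dslope f a) a) a x
  simp only [smul_eq_mul] at e1 e2 e3
  have e0 : deriv f a = dslope f a a := (dslope_same f a).symm
  rw [e0]
  linear_combination (norm := ring) (-1 : ℂ) * e1 - (x - a) * e2 - (x - a) ^ 2 * e3

lemma TE_id (p q : ℂ) (g : ℂ → ℂ) (hg : ContinuousAt g 0)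
    (h : ∀ᶠ w in 𝓝[≠] (0 : ℂ), p + q * w + w ^ 2 * g w = 0) : p = 0 ∧ q = 0 := by
  have hw : ContinuousAt (fun w : ℂ => w) 0 := continuousAt_id
  have hp : p = 0 := by
    have t1 : Tendsto (fun w => p + q * w + w ^ 2 * g w) (𝓝[≠] (0 : ℂ)) (𝓝 (p + q * 0 + 0 ^ 2 * g 0)) :=
      (((continuousAt_const.add (continuousAt_const.mul hw)).add ((hw.pow 2).mul hg)).tendsto).mono_left
        nhdsWithin_le_nhds
    have t2 : Tendsto (fun w => p + q * w + w ^ 2 * g w) (𝓝[≠] (0 : ℂ)) (𝓝 0) :=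
      tendsto_const_nhds.congr' (h.mono fun w hw => hw.symm)
    have := tendsto_nhds_unique t1 t2
    simpa using this
  refine ⟨hp, ?_⟩
  have h' : ∀ᶠ w in 𝓝[≠] (0 : ℂ), q + w * g w = 0 := by
    filter_upwards [h, self_mem_nhdsWithin] with w h1 h2
    have h3 : w * (q + w * g w) = 0 := by
      rw [hp] at h1
      linear_combination h1
    rcases mul_eq_zero.mp h3 with h4 | h4
    · exact absurd h4 h2
    · exact h4
  have t1 : Tendsto (fun w => q + w * g w) (𝓝[≠] (0 : ℂ)) (𝓝 (q + 0 * g 0)) :=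
    ((continuousAt_const.add (hw.mul hg)).tendsto).mono_left nhdsWithin_le_nhds
  have t2 : Tendsto (fun w => q + w * g w) (𝓝[≠] (0 : ℂ)) (𝓝 0) :=
    tendsto_const_nhds.congr' (h'.mono fun w hw => hw.symm)
  have := tendsto_nhds_unique t1 t2
  simpa using this

lemma TE_bin (n : ℕ) : ∃ q : ℂ → ℂ, Continuous q ∧ ∀ z : ℂ, (1 + z) ^ n =
    1 + n * z + (n * (n - 1) / 2) * z ^ 2 + (n * (n - 1) * (n - 2) / 6) * z ^ 3 + z ^ 4 * q z := by
  induction n with
  | zero => exact ⟨fun _ => 0, continuous_const, fun z => by simp⟩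
  | succ n ih =>
    obtain ⟨q, hq, h⟩ := ih
    refine ⟨fun z => (n * (n - 1) * (n - 2) / 6 : ℂ) + (1 + z) * q z, by fun_prop, fun z => ?_⟩
    rw [pow_succ, h z]
    push_cast
    ring

lemma TE_Bm (m : ℕ) : ∃ q : ℂ → ℂ, Continuous q ∧ ∀ z : ℂ, Bm m (1 + z) =
    ((m + 1) * (m + 2) / 2) * z ^ 2 + ((m + 1) * (m + 2) / 2) * (2 * m / 3) * z ^ 3
      + z ^ 4 * q z := by
  obtain ⟨q1, hq1, h1⟩ := TE_bin (m + 1)
  obtain ⟨q2, hq2, h2⟩ := TE_bin (m + 2)
  refine ⟨fun z => -(m + 2) * q1 z + (m + 1) * q2 z, by fun_prop, fun z => ?_⟩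
  rw [Bm, h1 z, h2 z]
  push_cast
  ring

theorem tTE : StTE := by
  intro m r c1 X W hm hL
  have hr := hL.r0
  have hc0 : (c1 : ℂ) ≠ 0 := by exact_mod_cast hL.c0.ne'
  have h0r : (0 : ℂ) ∈ Metric.ball (0 : ℂ) r := Metric.mem_ball_self hr
  have hXa : AnalyticAt ℂ X 0 :=
    hL.dX.analyticAt (Metric.isOpen_ball.mem_nhds h0r)
  have hX0 := hL.X0
  have hWa := hL.aW
  -- analyticity
  have hMo : AnalyticAt ℂ Mo 1 := by
    unfold Mo
    apply AnalyticAt.div analyticAt_id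
    · fun_prop
    · norm_num
  have hMo1 : Mo 1 = 1 := by unfold Mo; norm_num
  have hMoX : AnalyticAt ℂ (fun w => Mo (X w)) 0 := by
    apply AnalyticAt.fun_comp (g := Mo) (f := X) (by rw [hX0]; exact hMo) hXa
  have hWMoX : AnalyticAt ℂ (fun w => W (Mo (X w))) 0 := by
    apply AnalyticAt.fun_comp (g := W) (f := fun w => Mo (X w)) (by rw [hX0, hMo1]; exact hWa) hMoX
  have hMc : AnalyticAt ℂ (Mc m) 1 := by
    unfold Mc
    apply AnalyticAt.cexp
    apply AnalyticAt.mul analyticAt_const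
    apply AnalyticAt.clog
    · fun_prop
    · norm_num
  have hMcX : AnalyticAt ℂ (fun w => Mc m (X w)) 0 := by
    apply AnalyticAt.fun_comp (g := Mc m) (f := X) (by rw [hX0]; exact hMc) hXa
  refine ⟨hWMoX.neg, hMcX, ?_, ?_⟩
  · -- expansions
    obtain ⟨a, g, hg, hX⟩ := TE_T X 0 hXa
    obtain ⟨b2, k, hk, hW⟩ := TE_T W 1 hWa
    obtain ⟨q, hq, hB⟩ := TE_Bm m
    rw [hX0, hL.X1] at hX
    rw [hL.W0] at hW
    set b1 := deriv W 1 with hb1
    set s1 : ℂ → ℂ := fun w => a + w * g w with hs1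
    set s : ℂ → ℂ := fun w => c1 + w * s1 w with hs
    have hXs : ∀ w, X w = 1 + w * s w := by
      intro w; rw [hX w]; simp only [hs, hs1]; ring
    have cs1 : ContinuousAt s1 0 := continuousAt_const.add (continuousAt_id.mul hg)
    have cs : ContinuousAt s 0 := continuousAt_const.add (continuousAt_id.mul cs1)
    have cX : ContinuousAt X 0 := hXa.continuousAt
    have hkX : ContinuousAt (fun w => k (X w)) 0 :=
      ContinuousAt.comp' (g := k) (f := X) (by rw [hX0]; exact hk) cX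
    have hkM : ContinuousAt (fun w => k (Mo (X w))) 0 :=
      ContinuousAt.comp' (g := k) (f := fun w => Mo (X w)) (by rw [hX0, hMo1]; exact hk)
        hMoX.continuousAt
    have hw0 : ContinuousAt (fun w : ℂ => w) 0 := continuousAt_id
    obtain ⟨kX, hkXd⟩ : ∃ kX : ℂ → ℂ, kX = fun w => k (X w) := ⟨_, rfl⟩
    obtain ⟨kM, hkMd⟩ : ∃ kM : ℂ → ℂ, kM = fun w => k (Mo (X w)) := ⟨_, rfl⟩
    rw [← hkXd] at hkX
    rw [← hkMd] at hkM
    -- first relation
    have R1 := TE_id (((m + 1) * (m + 2) / 2 : ℂ) * c1 ^ 2 - 1)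
      (((m + 1) * (m + 2) / 2 : ℂ) * (2 * c1 * a) + ((m + 1) * (m + 2) / 2 : ℂ) * (2 * m / 3) * c1 ^ 3)
      (fun w => ((m + 1) * (m + 2) / 2 : ℂ) * (2 * c1 * g w + s1 w ^ 2)
        + ((m + 1) * (m + 2) / 2 : ℂ) * (2 * m / 3) * (3 * c1 ^ 2 * s1 w + 3 * c1 * w * s1 w ^ 2
          + w ^ 2 * s1 w ^ 3) + s w ^ 4 * q (w * s w))
      (by fun_prop)
      (by
        filter_upwards [self_mem_nhdsWithin,
          nhdsWithin_le_nhds (Metric.isOpen_ball.mem_nhds h0r)] with w hw hwr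
        have e1 := hL.BX w hwr
        rw [hXs w, hB (w * s w)] at e1
        have hw' : w ≠ 0 := hw
        have e2 : w ^ 2 * ((((m + 1) * (m + 2) / 2 : ℂ) * c1 ^ 2 - 1) +
          (((m + 1) * (m + 2) / 2 : ℂ) * (2 * c1 * a) + ((m + 1) * (m + 2) / 2 : ℂ) * (2 * m / 3) * c1 ^ 3) * w
          + w ^ 2 * (((m + 1) * (m + 2) / 2 : ℂ) * (2 * c1 * g w + s1 w ^ 2)
          + ((m + 1) * (m + 2) / 2 : ℂ) * (2 * m / 3) * (3 * c1 ^ 2 * s1 w + 3 * c1 * w * s1 w ^ 2
          + w ^ 2 * s1 w ^ 3) + s w ^ 4 * q (w * s w))) = 0 := by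
          have e3 : s w = c1 + w * s1 w := rfl
          have e4 : s1 w = a + w * g w := rfl
          rw [e3, e4] at e1 ⊢
          linear_combination e1
        rcases mul_eq_zero.mp e2 with h | h
        · exact absurd (pow_eq_zero_iff (two_ne_zero) |>.mp h) hw'
        · exact h)
    obtain ⟨R1a, R1b⟩ := R1
    have R2 := TE_id (b1 * c1 - 1) (b1 * a + b2 * c1 ^ 2)
      (fun w => b1 * g w + b2 * (2 * c1 * s1 w + w * s1 w ^ 2) + s w ^ 3 * kX w)
      (by fun_prop)
      (by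
        filter_upwards [self_mem_nhdsWithin, nhdsWithin_le_nhds hL.WX] with w hw hwr
        have hw' : w ≠ 0 := hw
        have e1 := hW (X w)
        rw [hwr] at e1
        have e5 : X w - 1 = w * s w := by rw [hXs w]; ring
        rw [e5] at e1
        have e2 : w * ((b1 * c1 - 1) + (b1 * a + b2 * c1 ^ 2) * w
          + w ^ 2 * (b1 * g w + b2 * (2 * c1 * s1 w + w * s1 w ^ 2) + s w ^ 3 * kX w)) = 0 := by
          have e6 : kX w = k (X w) := by rw [hkXd]
          rw [e6]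
          have e3 : s w = c1 + w * s1 w := rfl
          have e4 : s1 w = a + w * g w := rfl
          rw [e3, e4] at e1
          rw [e3, e4]
          linear_combination -e1
        rcases mul_eq_zero.mp e2 with h | h
        · exact absurd h hw'
        · exact h)
    obtain ⟨R2a, R2b⟩ := R2
    -- solve
    have hC1 : ((m + 1) * (m + 2) / 2 : ℂ) ≠ 0 := by
      intro h
      rw [h] at R1a
      norm_num at R1a
    have ha : a = -(m / 3 : ℂ) * c1 ^ 2 := by
      have : ((m + 1) * (m + 2) / 2 : ℂ) * (2 * c1) * (a + (m / 3 : ℂ) * c1 ^ 2) = 0 := by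
        linear_combination R1b
      have h2 : ((m + 1) * (m + 2) / 2 : ℂ) * (2 * c1) ≠ 0 :=
        mul_ne_zero hC1 (mul_ne_zero two_ne_zero hc0)
      have := (mul_eq_zero.mp this).resolve_left h2
      linear_combination this
    have hcoef : b1 * a - 2 * b1 * c1 ^ 2 - b2 * c1 ^ 2 + (2 * (m : ℂ) + 6) / 3 * c1 = 0 := by
      rw [ha] at R2b ⊢
      linear_combination (-(2 * (m : ℂ) + 6) / 3 * c1) * R2a - R2b
    -- G
    obtain ⟨iv, hivd⟩ : ∃ iv : ℂ → ℂ, iv = fun w => (1 + 2 * (w * s w))⁻¹ := ⟨_, rfl⟩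
    have civ : ContinuousAt iv 0 := by
      rw [hivd]
      apply ContinuousAt.inv₀
      · fun_prop
      · simp
    obtain ⟨t1, ht1⟩ : ∃ t1 : ℂ → ℂ, t1 = fun w => - s1 w + 2 * s w ^ 2 - 4 * w * s w ^ 3 * iv w :=
      ⟨_, rfl⟩
    have ct1 : ContinuousAt t1 0 := by
      rw [ht1]
      fun_prop
    obtain ⟨G, hG⟩ : ∃ G : ℂ → ℂ, G = fun w => b1 * g w - b1 * (4 * c1 * s1 w + 2 * w * s1 w ^ 2)
      + 4 * b1 * s w ^ 3 * iv w - b2 * (-2 * c1 * t1 w + w * t1 w ^ 2)
      - (-c1 + w * t1 w) ^ 3 * kM w := ⟨_, rfl⟩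
    have cG : ContinuousAt G 0 := by
      rw [hG]
      fun_prop
    have hev : ∀ᶠ w in 𝓝 (0 : ℂ), - W (Mo (X w)) - (w - ((2 * (m : ℂ) + 6) / 3 * c1) * w ^ 2)
        = w ^ 3 * G w := by
      filter_upwards [Metric.isOpen_ball.mem_nhds h0r] with w hwr
      have hnz := hL.nz w hwr
      have hD : (1 + 2 * (w * s w)) ≠ 0 := by
        intro h
        apply hnz
        rw [hXs w]
        linear_combination h
      have hiv : (1 + 2 * (w * s w)) * iv w = 1 := by
        rw [hivd]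
        exact mul_inv_cancel₀ hD
      have e3 : s w = c1 + w * s1 w := rfl
      have e4 : s1 w = a + w * g w := rfl
      have e7 : t1 w = - s1 w + 2 * s w ^ 2 - 4 * w * s w ^ 3 * iv w := by rw [ht1]
      have e8 : G w = b1 * g w - b1 * (4 * c1 * s1 w + 2 * w * s1 w ^ 2)
        + 4 * b1 * s w ^ 3 * iv w - b2 * (-2 * c1 * t1 w + w * t1 w ^ 2)
        - (-c1 + w * t1 w) ^ 3 * kM w := by rw [hG]
      have e9 : kM w = k (Mo (X w)) := by rw [hkMd]
      have e1 := hW (Mo (X w))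
      have e2 : Mo (X w) - 1 = w * (-c1 + w * t1 w) := by
        have e5 : Mo (X w) = (1 + w * s w) * iv w := by
          have e6 : 2 * (1 + w * s w) - 1 = 1 + 2 * (w * s w) := by ring
          rw [hXs w, Mo, e6, hivd]
          rfl
        rw [e5, e7]
        linear_combination (1 - w * s w * (1 - 2 * (w * s w))) * hiv - w * e3
      rw [e1, e2, e8, e9]
      linear_combination w * R2a + w ^ 2 * hcoef - b1 * w ^ 2 * e7
        - 2 * b1 * w ^ 2 * (s w + (c1 + w * s1 w)) * e3 + b1 * w ^ 2 * e4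
    have : (fun w : ℂ => - W (Mo (X w)) - (w - ((2 * (m : ℂ) + 6) / 3 * c1) * w ^ 2))
        =O[𝓝 0] (fun w => w ^ 3 * (1 : ℂ)) := by
      refine Asymptotics.IsBigO.congr' ?_ (hev.mono fun w hw => hw.symm) (EventuallyEq.refl _ _)
      exact (Asymptotics.isBigO_refl _ _).mul (cG.tendsto.isBigO_one ℂ)
    simpa using this
  · obtain ⟨b, k, hk, hF⟩ := TE_T (fun w => Mc m (X w)) 0 hMcX
    have h1 : Mc m (X 0) = 1 := by
      rw [hX0]; unfold Mc; norm_num
    have h2 : deriv (fun w => Mc m (X w)) 0 = 2 * ((2 * (m : ℂ) + 6) / 3 * c1) := by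
      have dX : HasDerivAt X c1 0 := by
        have := hXa.differentiableAt.hasDerivAt
        rwa [hL.X1] at this
      have d1 : HasDerivAt (fun w => 2 * X w - 1) (2 * c1) 0 := (dX.const_mul 2).sub_const 1
      have d2 : HasDerivAt (fun w => log (2 * X w - 1)) (2 * c1 / (2 * X 0 - 1)) 0 := by
        apply d1.clog
        rw [hX0]; norm_num
      have d3 := (d2.const_mul ((2 * (m : ℂ) + 6) / 3)).cexp
      have : deriv (fun w => Mc m (X w)) 0 = _ := d3.deriv
      rw [this, hX0]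
      norm_num
      ring
    simp only [h1, h2] at hF
    have : (fun w : ℂ => Mc m (X w) - (1 + 2 * ((2 * (m : ℂ) + 6) / 3 * c1) * w))
        =O[𝓝 0] (fun w => w ^ 2 * (1 : ℂ)) := by
      have e : (fun w : ℂ => Mc m (X w) - (1 + 2 * ((2 * (m : ℂ) + 6) / 3 * c1) * w))
        = fun w => w ^ 2 * (b + w * k w) := by
        funext w
        rw [hF w]; ring
      rw [e]
      refine (Asymptotics.isBigO_refl _ _).mul ?_
      have : ContinuousAt (fun w => b + w * k w) 0 :=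
        continuousAt_const.add (continuousAt_id.mul hk)
      exact this.tendsto.isBigO_one ℂ
    simpa using this

end H738CZ
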