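import Pool.Agent.H738R3.CZ.Defs

/-!
# WT: pole order of the inhomogeneous term
-/

open Complex Set Filter Topology

namespace H738CZ

/-- `f τ ^ w` extends analytically to the disc -/
def WT_W (R : ℝ) (w : ℤ) (f : ℂ → ℂ) : Prop :=
  ∃ F : ℂ → ℂ, DifferentiableOn ℂ F (Metric.ball 0 R) ∧ ∀ τ ∈ V3 R, f τ * τ ^ w = F τ

theorem WT_ne {R : ℝ} {τ : ℂ} (h : τ ∈ V3 R) : τ ≠ 0 := h.2

theorem WT_ball {R : ℝ} {τ : ℂ} (h : τ ∈ V3 R) : τ ∈ Metric.ball (0 : ℂ) R := h.1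

theorem WT_open (R : ℝ) : IsOpen (V3 R) := Metric.isOpen_ball.sdiff isClosed_singleton

theorem WT_congr {R : ℝ} {w : ℤ} {f f' : ℂ → ℂ} (h : EqOn f' f (V3 R)) (hf : WT_W R w f) :
    WT_W R w f' := by
  obtain ⟨F, h1, h2⟩ := hf
  exact ⟨F, h1, fun τ hτ => by rw [h hτ]; exact h2 τ hτ⟩

theorem WT_zero (R : ℝ) (w : ℤ) : WT_W R w (fun _ => 0) :=
  ⟨fun _ => 0, differentiableOn_const 0, fun τ _ => by rw [zero_mul]⟩

theorem WT_one (R : ℝ) : WT_W R 0 (fun _ => 1) :=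
  ⟨fun _ => 1, differentiableOn_const 1, fun τ _ => by rw [zpow_zero, mul_one]⟩

theorem WT_add {R : ℝ} {w : ℤ} {f f' : ℂ → ℂ} (hf : WT_W R w f) (hf' : WT_W R w f') :
    WT_W R w (fun t => f t + f' t) := by
  obtain ⟨F, h1, h2⟩ := hf
  obtain ⟨F', h1', h2'⟩ := hf'
  exact ⟨fun t => F t + F' t, h1.add h1', fun τ hτ => by rw [add_mul, h2 τ hτ, h2' τ hτ]⟩

theorem WT_mul {R : ℝ} {w w' : ℤ} {f f' : ℂ → ℂ} (hf : WT_W R w f) (hf' : WT_W R w' f') :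
    WT_W R (w + w') (fun t => f t * f' t) := by
  obtain ⟨F, h1, h2⟩ := hf
  obtain ⟨F', h1', h2'⟩ := hf'
  refine ⟨fun t => F t * F' t, h1.mul h1', fun τ hτ => ?_⟩
  show f τ * f' τ * τ ^ (w + w') = F τ * F' τ
  rw [← h2 τ hτ, ← h2' τ hτ, zpow_add₀ (WT_ne hτ)]
  ring

theorem WT_smul {R : ℝ} {w : ℤ} {f : ℂ → ℂ} (c : ℂ) (hf : WT_W R w f) :
    WT_W R w (fun t => c * f t) := by
  obtain ⟨F, h1, h2⟩ := hf
  exact ⟨fun t => c * F t, h1.const_mul c, fun τ hτ => by rw [mul_assoc, h2 τ hτ]⟩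

theorem WT_mono {R : ℝ} {w w' : ℤ} {f : ℂ → ℂ} (h : w ≤ w') (hf : WT_W R w f) :
    WT_W R w' f := by
  obtain ⟨F, h1, h2⟩ := hf
  obtain ⟨k, hk⟩ := Int.eq_ofNat_of_zero_le (sub_nonneg.2 h)
  refine ⟨fun t => F t * t ^ k, h1.mul (differentiableOn_pow k), fun τ hτ => ?_⟩
  show f τ * τ ^ w' = F τ * τ ^ k
  have e : w' = w + (k : ℤ) := by omega
  rw [e, zpow_add₀ (WT_ne hτ), zpow_natCast, ← mul_assoc, h2 τ hτ]

theorem WT_sum {R : ℝ} {w : ℤ} {ι : Type} (s : Finset ι) (f : ι → ℂ → ℂ)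
    (h : ∀ i ∈ s, WT_W R w (f i)) : WT_W R w (fun t => ∑ i ∈ s, f i t) := by
  classical
  induction s using Finset.induction_on with
  | empty => simpa using WT_zero R w
  | insert a s ha ih =>
    have h1 := WT_add (h a (Finset.mem_insert_self a s))
      (ih (fun i hi => h i (Finset.mem_insert_of_mem hi)))
    refine WT_congr (fun t _ => ?_) h1
    exact Finset.sum_insert ha

theorem WT_DD {R : ℝ} {w : ℤ} {f : ℂ → ℂ} (hf : WT_W R w f) : WT_W R (w + 3) (DD d3 f) := by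
  obtain ⟨F, h1, h2⟩ := hf
  have hd := h1.deriv Metric.isOpen_ball
  refine ⟨fun t => (deriv F t * t - w * F t) / 3,
    ((hd.mul differentiableOn_id).sub (h1.const_mul _)).div_const 3, fun τ hτ => ?_⟩
  have h0 := WT_ne hτ
  have hev : f =ᶠ[𝓝 τ] fun s => F s * s ^ (-w) := by
    filter_upwards [(WT_open R).mem_nhds hτ] with s hs
    have hs0 := WT_ne hs
    rw [← h2 s hs, mul_assoc, ← zpow_add₀ hs0, add_neg_cancel, zpow_zero, mul_one]
  have hF : HasDerivAt F (deriv F τ) τ :=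
    (h1.differentiableAt (Metric.isOpen_ball.mem_nhds (WT_ball hτ))).hasDerivAt
  have hz := hasDerivAt_zpow (-w) τ (Or.inl h0)
  have h3 : deriv f τ = deriv F τ * τ ^ (-w) + F τ * (((-w : ℤ) : ℂ) * τ ^ (-w - 1)) := by
    rw [hev.deriv_eq]
    exact (hF.mul hz).deriv
  show deriv f τ / (3 * τ ^ 2) * τ ^ (w + 3) = (deriv F τ * τ - w * F τ) / 3
  have ha : τ ^ w ≠ 0 := zpow_ne_zero _ h0
  have e1 : τ ^ (-w) = (τ ^ w)⁻¹ := zpow_neg τ w
  have e2 : τ ^ (-w - 1) = (τ ^ w)⁻¹ * τ⁻¹ := by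
    rw [zpow_sub₀ h0, zpow_neg, zpow_one, div_eq_mul_inv]
  have e3 : τ ^ (w + 3) = τ ^ w * τ ^ 3 := by
    rw [zpow_add₀ h0]
    norm_cast
  rw [h3, e1, e2, e3]
  push_cast
  field_simp
  ring

theorem WT_DDl {R : ℝ} {w : ℤ} {f : ℂ → ℂ} (hf : WT_W R w f) (l : ℕ) :
    WT_W R (w + 3 * l) ((DD d3)^[l] f) := by
  induction l with
  | zero => simpa using hf
  | succ l ih =>
    rw [Function.iterate_succ_apply']
    have h1 := WT_DD ih
    have e : w + 3 * ((l + 1 : ℕ) : ℤ) = w + 3 * l + 3 := by push_cast; ring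
    rw [e]
    exact h1

/-- weight of a family of power series -/
def WT_P (R : ℝ) (w : ℤ) (P : ℂ → PowerSeries ℂ) : Prop :=
  ∀ n : ℕ, WT_W R (w + 3 * n) (fun t => PowerSeries.coeff n (P t))

theorem WT_Pmul {R : ℝ} {w w' : ℤ} {P P' : ℂ → PowerSeries ℂ} (h : WT_P R w P)
    (h' : WT_P R w' P') : WT_P R (w + w') (fun t => P t * P' t) := by
  intro n
  have h3 : ∀ p ∈ (Finset.HasAntidiagonal.antidiagonal n : Finset (ℕ × ℕ)),
      WT_W R (w + w' + 3 * n)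
        (fun t => PowerSeries.coeff p.1 (P t) * PowerSeries.coeff p.2 (P' t)) := by
    intro p hp
    rw [Finset.HasAntidiagonal.mem_antidiagonal] at hp
    have h2 := WT_mul (h p.1) (h' p.2)
    have e : w + w' + 3 * (n : ℤ) = w + 3 * (p.1 : ℤ) + (w' + 3 * (p.2 : ℤ)) := by
      rw [← hp]; push_cast; ring
    rw [e]
    exact h2
  have h1 := WT_sum (Finset.HasAntidiagonal.antidiagonal n : Finset (ℕ × ℕ))
    (fun p t => PowerSeries.coeff p.1 (P t) * PowerSeries.coeff p.2 (P' t)) h3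
  refine WT_congr (fun t _ => ?_) h1
  exact PowerSeries.coeff_mul n (P t) (P' t)

theorem WT_Ppow {R : ℝ} {w : ℤ} {P : ℂ → PowerSeries ℂ} (h : WT_P R w P) (j : ℕ) :
    WT_P R (j * w) (fun t => P t ^ j) := by
  induction j with
  | zero =>
    intro n
    by_cases hn : n = 0
    · subst hn
      have h1 := WT_one R
      simpa using h1
    · refine WT_congr (fun t _ => ?_) (WT_zero R _)
      simp [PowerSeries.coeff_one, hn]
  | succ j ih =>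
    have h1 := WT_Pmul ih h
    have e : ((j + 1 : ℕ) : ℤ) * w = j * w + w := by push_cast; ring
    rw [e]
    intro n
    refine WT_congr (fun t _ => ?_) (h1 n)
    simp only [pow_succ]

theorem WT_Es {R : ℝ} {w : ℤ} {f : ℂ → ℂ} (hf : WT_W R w f) :
    WT_P R w (fun t => Es d3 f t) := by
  intro l
  refine WT_congr (fun t _ => ?_) (WT_smul ((l.factorial : ℂ)⁻¹) (WT_DDl hf l))
  simp only [Es, PowerSeries.coeff_mk]
  ring

theorem WT_Ys {kc : ℕ → ℂ} (hk : Ker kc) {R : ℝ} {w : ℤ} {f : ℂ → ℂ} (hf : WT_W R w f) :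
    WT_P R (w - 6) (fun t => Ys kc d3 f t) := by
  intro n
  have hk0 : kc 0 = 0 := hk.even 0
  have h1 : WT_W R (w - 6 + 3 * n) (fun t => ∑ l ∈ Finset.range n,
      kc (n - 1 - l) * ((DD d3)^[l] f) t) := by
    refine WT_sum _ (fun l t => kc (n - 1 - l) * ((DD d3)^[l] f) t) fun l hl => ?_
    rw [Finset.mem_range] at hl
    by_cases h : l + 1 = n
    · refine WT_congr (fun t _ => ?_) (WT_zero R _)
      show kc (n - 1 - l) * ((DD d3)^[l] f) t = 0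
      rw [show n - 1 - l = 0 by omega, hk0, zero_mul]
    · refine WT_smul _ (WT_mono ?_ (WT_DDl hf l))
      omega
  refine WT_congr (fun t _ => ?_) (WT_smul ((n.factorial : ℂ)⁻¹) h1)
  simp only [Ys, PowerSeries.coeff_mk]
  ring

theorem WT_pow {R : ℝ} {w : ℤ} {f : ℂ → ℂ} (hf : WT_W R w f) (j : ℕ) :
    WT_W R (j * w) (fun t => f t ^ j) := by
  induction j with
  | zero => simpa using WT_one R
  | succ j ih =>
    have h1 := WT_mul ih hf
    have e : ((j + 1 : ℕ) : ℤ) * w = j * w + w := by push_cast; ring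
    rw [e]
    refine WT_congr (fun t _ => ?_) h1
    simp only [pow_succ]

theorem tWT : StWT := by
  intro kc hk m u R hm hU g J hJ hg hG
  have hmaps : ∀ τ ∈ Metric.ball (0 : ℂ) R, τ ^ 3 ∈ Metric.ball (0 : ℂ) (R ^ 3) := by
    intro τ hτ
    rw [mem_ball_zero_iff] at hτ ⊢
    rw [norm_pow]
    exact pow_lt_pow_left₀ hτ (norm_nonneg _) (by norm_num)
  have hu3 : DifferentiableOn ℂ (fun τ : ℂ => u (τ ^ 3)) (Metric.ball 0 R) :=
    hU.df.comp (differentiableOn_pow 3) hmaps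
  -- weights of the building blocks
  have hρ : WT_W R (-(3 * m : ℤ)) (ρ3 m u) := by
    refine ⟨fun τ => u (τ ^ 3) ^ 3, hu3.pow 3, fun τ hτ => ?_⟩
    have h0 := WT_ne hτ
    show (τ ^ m * u (τ ^ 3)) ^ 3 * τ ^ (-(3 * m : ℤ)) = u (τ ^ 3) ^ 3
    have e : τ ^ (-(3 * m : ℤ)) = ((τ ^ m) ^ 3)⁻¹ := by
      rw [zpow_neg, ← pow_mul]
      congr 1
      rw [show (3 * m : ℤ) = ((m * 3 : ℕ) : ℤ) by push_cast; ring, zpow_natCast]
    have h1 : (τ ^ m) ^ 3 ≠ 0 := pow_ne_zero _ (pow_ne_zero _ h0)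
    rw [e, mul_pow]
    field_simp
  have hr : WT_W R (m : ℤ) (fun t => (r3 m u t)⁻¹) := by
    refine ⟨fun τ => (u (τ ^ 3))⁻¹, hu3.inv (fun τ hτ => hU.nz _ (hmaps τ hτ)), fun τ hτ => ?_⟩
    have h0 := WT_ne hτ
    have h1 := hU.nz _ (hmaps τ (WT_ball hτ))
    show (τ ^ m * u (τ ^ 3))⁻¹ * τ ^ (m : ℤ) = (u (τ ^ 3))⁻¹
    rw [zpow_natCast]
    have h2 : τ ^ m ≠ 0 := pow_ne_zero _ h0
    field_simp
  have hgj : ∀ j, 1 ≤ j → j < J → WT_W R ((2 * m + 6) * (j - 1) : ℤ) (g j) := by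
    intro j h1 h2
    obtain ⟨G, hG1, hG2⟩ := hG j h1 h2
    refine ⟨G, hG1, fun τ hτ => ?_⟩
    rw [← hG2 τ hτ]
    congr 1
    rw [show ((2 * m + 6) * (j - 1) : ℤ) = (((2 * m + 6) * (j - 1) : ℕ) : ℤ) by
      push_cast [Nat.cast_sub h1]; ring, zpow_natCast]
  have hT : ∀ j ∈ Finset.Ico 1 J, WT_P R (-(2 * m + 6 : ℤ))
      (fun t => Tm kc d3 (ρ3 m u) (r3 m u) g j t) := by
    intro j hj
    rw [Finset.mem_Ico] at hj
    have h1 := WT_Es (WT_mul (hgj j hj.1 hj.2) (WT_pow hr j))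
    have h2 := WT_Ppow (WT_Ys hk hρ) j
    have h3 := WT_Pmul h1 h2
    have e : ((2 * m + 6) * (j - 1) : ℤ) + j * m + j * (-(3 * m : ℤ) - 6) = -(2 * m + 6 : ℤ) := by
      ring
    rw [e] at h3
    exact h3
  have hL : WT_W R (-(2 * m + 6 : ℤ) + 3 * ((2 * J + 1 : ℕ) : ℤ))
      (fun t => Lo kc d3 (ρ3 m u) (r3 m u) g J t) := by
    have h1 := WT_sum (Finset.Ico 1 J) (fun j t => PowerSeries.coeff (2 * J + 1)
      (Tm kc d3 (ρ3 m u) (r3 m u) g j t)) (fun j hj => hT j hj (2 * J + 1))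
    refine WT_congr (fun t _ => ?_) h1
    show Lo kc d3 (ρ3 m u) (r3 m u) g J t = _
    unfold Lo
    rw [map_sum]
  obtain ⟨F, hF1, hF2⟩ := WT_mul (WT_pow hr (2 * J)) hL
  refine ⟨F, hF1, fun τ hτ => ?_⟩
  rw [← hF2 τ hτ]
  congr 1
  have e : (((2 * J : ℕ) : ℤ) * (m : ℤ) + (-(2 * m + 6 : ℤ) + 3 * ((2 * J + 1 : ℕ) : ℤ)))
      = (((2 * m + 6) * (J - 1) + 3 : ℕ) : ℤ) := by
    push_cast [Nat.cast_sub (show 1 ≤ J by omega)]
    ring
  rw [e, zpow_natCast]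

end H738CZ
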