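import Pool.Agent.H738R3.CZ.Defs

/-!
# OUT: outer billiards near a strictly convex arc
-/

open Complex Set Filter Topology

namespace H738CZ

/-- Taylor coefficients of the kernel `z ↦ z` -/
noncomputable def OUT_kc : ℕ → ℂ := fun i => if i = 1 then 1 else 0

theorem OUT_ker : Ker OUT_kc where
  even i := if_neg (by omega)
  one := if_pos rfl
  bd i := by
    unfold OUT_kc
    split_ifs <;> simp

theorem OUT_KF : KF (fun z => z) OUT_kc := by
  intro z
  have h := hasSum_single (f := fun i : ℕ => OUT_kc i * z ^ i / (i.factorial : ℂ)) 1 (by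
    intro i hi
    simp [OUT_kc, hi])
  simpa [OUT_kc] using h

theorem OUT_mem {x η y : ℝ} (h : |y - x| < η) : (y : ℂ) ∈ Metric.ball (x : ℂ) η := by
  rw [mem_ball_iff_norm, ← Complex.ofReal_sub, Complex.norm_real, Real.norm_eq_abs]
  exact h

theorem OUT_const {x η : ℝ} {u u' v : ℝ → ℝ}
    (hu : ∀ y : ℝ, |y - x| < η → HasDerivAt u (u' y) y)
    (hv : ∀ y : ℝ, |y - x| < η → HasDerivAt v (u' y) y) (hη : 0 < η) :
    ∀ y : ℝ, |y - x| < η → u y = v y + (u x - v x) := by
  intro y hy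
  have hs : ∀ y ∈ Metric.ball x η, |y - x| < η := by
    intro y hy
    rwa [Metric.mem_ball, Real.dist_eq] at hy
  have h1 : DifferentiableOn ℝ (fun y => u y - v y) (Metric.ball x η) := fun y hy =>
    ((hu y (hs y hy)).sub (hv y (hs y hy))).differentiableAt.differentiableWithinAt
  have h2 : (Metric.ball x η).EqOn (deriv (fun y => u y - v y)) 0 := by
    intro y hy
    have h3 := ((hu y (hs y hy)).sub (hv y (hs y hy))).deriv
    rw [sub_self] at h3
    exact h3
  have h4 := Metric.isOpen_ball.is_const_of_deriv_eq_zero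
    (convex_ball x η).isPreconnected h1 h2 (x := y) (y := x)
    (by rwa [Metric.mem_ball, Real.dist_eq]) (Metric.mem_ball_self hη)
  linarith

theorem OUT_analytic {ρ : ℂ → ℂ} {x η : ℝ} (hη : 0 < η)
    (hρ : DifferentiableOn ℂ ρ (Metric.ball (x : ℂ) η)) {f f' f2 : ℝ → ℝ}
    (hf : ∀ y : ℝ, |y - x| < η → HasDerivAt f (f' y) y ∧ HasDerivAt f' (f2 y) y)
    (he : ∀ y : ℝ, |y - x| < η → ρ y = f2 y) : AnalyticAt ℝ f x := by
  obtain ⟨P, hP⟩ := hρ.isExactOn_ball
  have hPd : DifferentiableOn ℂ P (Metric.ball (x : ℂ) η) := fun z hz =>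
    (hP z hz).differentiableAt.differentiableWithinAt
  obtain ⟨Q, hQ⟩ := hPd.isExactOn_ball
  have hQd : DifferentiableOn ℂ Q (Metric.ball (x : ℂ) η) := fun z hz =>
    (hQ z hz).differentiableAt.differentiableWithinAt
  have hp : ∀ y : ℝ, |y - x| < η → HasDerivAt (fun y : ℝ => (P y).re) (f2 y) y := by
    intro y hy
    have h := (hP y (OUT_mem hy)).real_of_complex
    rw [he y hy, Complex.ofReal_re] at h
    exact h
  have h1 := OUT_const (fun y hy => (hf y hy).2) hp hη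
  set c1 : ℝ := f' x - (P x).re with hc1
  have hq : ∀ y : ℝ, |y - x| < η →
      HasDerivAt (fun y : ℝ => (Q y).re + c1 * y) (f' y) y := by
    intro y hy
    have h := (hQ y (OUT_mem hy)).real_of_complex.add ((hasDerivAt_id y).const_mul c1)
    rw [mul_one] at h
    rw [h1 y hy]
    exact h
  have h2 := OUT_const (fun y hy => (hf y hy).1) hq hη
  set c2 : ℝ := f x - ((Q x).re + c1 * x) with hc2
  have hQa : AnalyticAt ℂ Q x :=
    hQd.analyticAt (Metric.isOpen_ball.mem_nhds (Metric.mem_ball_self hη))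
  have hqa : AnalyticAt ℝ (fun y : ℝ => (Q y).re + c1 * y + c2) x :=
    (hQa.re_ofReal.add (analyticAt_const.mul analyticAt_id)).add analyticAt_const
  apply hqa.congr
  filter_upwards [Metric.ball_mem_nhds x hη] with y hy
  rw [Metric.mem_ball, Real.dist_eq] at hy
  exact (h2 y hy).symm

theorem OUT_Yf {ρ : ℂ → ℂ} {x η : ℝ}
    (hρ : DifferentiableOn ℂ ρ (Metric.ball (x : ℂ) η)) {f f' f2 : ℝ → ℝ}
    (hf : ∀ y : ℝ, |y - x| < η → HasDerivAt f (f' y) y ∧ HasDerivAt f' (f2 y) y)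
    (he : ∀ y : ℝ, |y - x| < η → ρ y = f2 y) {ψ δ : ℝ} (h1 : |ψ - x| < η)
    (h2 : |ψ + δ - x| < η) :
    Yf (fun z => z) ρ ψ δ = ((f (ψ + δ) - f ψ - f' ψ * δ : ℝ) : ℂ) := by
  unfold Yf
  have hseg : ∀ r ∈ uIcc (0 : ℝ) 1, |ψ + r * δ - x| < η := by
    intro r hr
    rw [uIcc_of_le zero_le_one] at hr
    rw [abs_lt] at h1 h2 ⊢
    obtain ⟨hr0, hr1⟩ := hr
    rcases le_total 0 δ with hδ | hδ
    · have b1 : 0 ≤ r * δ := mul_nonneg hr0 hδ
      have b2 : r * δ ≤ δ := mul_le_of_le_one_left hδ hr1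
      constructor <;> linarith
    · have b1 : r * δ ≤ 0 := mul_nonpos_of_nonneg_of_nonpos hr0 hδ
      have b2 : δ ≤ r * δ := by nlinarith
      constructor <;> linarith
  have hder : ∀ r ∈ uIcc (0 : ℝ) 1, HasDerivAt
      (fun r : ℝ => ((f (ψ + r * δ) + (1 - r) * δ * f' (ψ + r * δ) : ℝ) : ℂ))
      ((δ : ℂ) * (ρ (ψ + r * δ) * ((1 - r) * δ))) r := by
    intro r hr
    have h3 := hseg r hr
    have hin : HasDerivAt (fun r : ℝ => ψ + r * δ) δ r := by
      have := ((hasDerivAt_id r).mul_const δ).const_add ψ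
      simpa using this
    have a1 : HasDerivAt (fun r : ℝ => f (ψ + r * δ)) (f' (ψ + r * δ) * δ) r :=
      (hf _ h3).1.comp r hin
    have a2 : HasDerivAt (fun r : ℝ => f' (ψ + r * δ)) (f2 (ψ + r * δ) * δ) r :=
      (hf _ h3).2.comp r hin
    have a3 : HasDerivAt (fun r : ℝ => (1 - r) * δ) (-δ) r := by
      have := ((hasDerivAt_id r).const_sub 1).mul_const δ
      simpa using this
    have a4 := (a1.add (a3.mul a2)).ofReal_comp
    have e1 : ((f' (ψ + r * δ) * δ + (-δ * f' (ψ + r * δ) + (1 - r) * δ * (f2 (ψ + r * δ) * δ)) :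
        ℝ) : ℂ) = (δ : ℂ) * (ρ (ψ + r * δ) * ((1 - r) * δ)) := by
      have h4 := he _ h3
      push_cast at h4 ⊢
      rw [h4]
      ring
    rw [e1] at a4
    exact a4
  have hcont : ContinuousOn (fun r : ℝ => (δ : ℂ) * (ρ (ψ + r * δ) * ((1 - r) * δ)))
      (uIcc (0 : ℝ) 1) := by
    apply continuousOn_const.mul
    apply ContinuousOn.mul
    · apply hρ.continuousOn.comp (by fun_prop)
      intro r hr
      have := OUT_mem (hseg r hr)
      push_cast at this
      exact this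
    · fun_prop
  rw [← intervalIntegral.integral_const_mul,
    intervalIntegral.integral_eq_sub_of_hasDerivAt hder hcont.intervalIntegrable]
  push_cast
  simp only [one_mul, zero_mul, add_zero, sub_self, sub_zero]
  ring

theorem tOUT (hINI : StINI) (hCPX : StCPX) (hCHN : StCHN) (hLAW : StLAW) : StOUT := by
  intro f f' f2 x0 x1 _ hf K U hUo hUc hfU hK hinv hnc k a r R hch hx hR z hz
  obtain ⟨x, hxI, hxb⟩ := hx
  obtain ⟨ε1, hε1, hε1s⟩ := Metric.isOpen_iff.1 Metric.isOpen_ball (x : ℂ) hxb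
  set η0 : ℝ := min ε1 (min (x - x0) (x1 - x)) with hη0def
  have hη0 : 0 < η0 := lt_min hε1 (lt_min (sub_pos.2 hxI.1) (sub_pos.2 hxI.2))
  have hsub : Metric.ball (x : ℂ) η0 ⊆ Metric.ball (a 0) (r 0) :=
    (Metric.ball_subset_ball (min_le_left _ _)).trans hε1s
  have hIoo : ∀ y : ℝ, |y - x| < η0 → y ∈ Ioo x0 x1 := by
    intro y hy
    have h1 : |y - x| < x - x0 := hy.trans_le ((min_le_right _ _).trans (min_le_left _ _))
    have h2 : |y - x| < x1 - x := hy.trans_le ((min_le_right _ _).trans (min_le_right _ _))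
    rw [abs_lt] at h1 h2
    constructor <;> linarith
  have hd0 : DifferentiableOn ℂ (R 0) (Metric.ball (x : ℂ) η0) :=
    (hch.df 0 (Nat.zero_le _)).mono hsub
  have hf0 : ∀ y : ℝ, |y - x| < η0 → HasDerivAt f (f' y) y ∧ HasDerivAt f' (f2 y) y :=
    fun y hy => ⟨(hf y (hIoo y hy)).1, (hf y (hIoo y hy)).2.1⟩
  have he0 : ∀ y : ℝ, |y - x| < η0 → R 0 y = f2 y := fun y hy =>
    hR y (hIoo y hy) (hsub (OUT_mem hy))
  have hfa : AnalyticAt ℝ f x := OUT_analytic hη0 hd0 hf0 he0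
  set L : ℝ → ℝ → ℝ := fun φ y => K φ (f φ - y) with hLdef
  have hL : AnalyticAt ℝ (Function.uncurry L) (x, 0) := by
    have h1 : AnalyticAt ℝ (Function.uncurry K) ((fun p : ℝ × ℝ => (p.1, f p.1 - p.2)) (x, 0)) := by
      simp only [sub_zero]
      exact hK _ (hfU x hxI)
    have h2 : AnalyticAt ℝ (fun p : ℝ × ℝ => (p.1, f p.1 - p.2)) (x, 0) := by
      have h3 : AnalyticAt ℝ (fun p : ℝ × ℝ => f p.1) (x, 0) :=
        AnalyticAt.comp (g := f) (f := Prod.fst) (x := ((x, 0) : ℝ × ℝ)) hfa analyticAt_fst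
      exact analyticAt_fst.prod (h3.sub analyticAt_snd)
    exact AnalyticAt.comp (g := Function.uncurry K)
      (f := fun p : ℝ × ℝ => (p.1, f p.1 - p.2)) (x := ((x, 0) : ℝ × ℝ)) h1 h2
  obtain ⟨b, η1, M, rr, hBD, hsum⟩ := hCPX L x hL
  set η : ℝ := min η0 η1 with hηdef
  have hη : 0 < η := lt_min hη0 hBD.η0
  have hηη0 : η ≤ η0 := min_le_left _ _
  have hηη1 : η ≤ η1 := min_le_right _ _
  have hBD' : BD b x η M rr :=
    ⟨hη, hBD.r0, fun j => (hBD.df j).mono (Metric.ball_subset_ball hηη1),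
      fun j t ht => hBD.bd j t (Metric.ball_subset_ball hηη1 ht)⟩
  have hd' : DifferentiableOn ℂ (R 0) (Metric.ball (x : ℂ) η) :=
    hd0.mono (Metric.ball_subset_ball hηη0)
  have hxx : |x - x| < η := by simpa using hη
  have hEV : ∀ ψ : ℝ, |ψ - x| < η → EV (fun z => z) (R 0) b ψ := by
    intro ψ hψ
    have hψ0 : |ψ - x| < η0 := hψ.trans_le hηη0
    obtain ⟨εψ, hεψ, hinvψ⟩ := hinv ψ (hIoo ψ hψ0)
    set u : ℝ → ℝ := fun δ => f (ψ + δ) - f ψ - f' ψ * δ with hu
    have hucont : ContinuousAt u 0 := by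
      have h1 : ContinuousAt (fun δ : ℝ => f (ψ + δ)) 0 := by
        have h2 : ContinuousAt f (ψ + 0) := by
          rw [add_zero]; exact (hf0 ψ hψ0).1.continuousAt
        exact ContinuousAt.comp (g := f) (f := fun δ : ℝ => ψ + δ) h2 (by fun_prop)
      exact (h1.sub continuousAt_const).sub (by fun_prop)
    have hu0 : u 0 = 0 := by simp [hu]
    obtain ⟨ε2, hε2, hε2u⟩ := Metric.continuousAt_iff.1 hucont rr hBD.r0
    refine ⟨min εψ (min ε2 (η - |ψ - x|)), lt_min hεψ (lt_min hε2 (sub_pos.2 hψ)), ?_⟩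
    intro δ hδ0 hδ
    have g1 : δ < εψ := hδ.trans_le (min_le_left _ _)
    have g2 : δ < ε2 := hδ.trans_le ((min_le_right _ _).trans (min_le_left _ _))
    have g3 : δ < η - |ψ - x| := hδ.trans_le ((min_le_right _ _).trans (min_le_right _ _))
    have k1 : |ψ + δ - x| < η := by
      have : ψ + δ - x = (ψ - x) + δ := by ring
      rw [this]
      refine (abs_add_le _ _).trans_lt ?_
      rw [abs_of_pos hδ0]
      linarith
    have k2 : |ψ + -δ - x| < η := by
      have : ψ + -δ - x = (ψ - x) + -δ := by ring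
      rw [this]
      refine (abs_add_le _ _).trans_lt ?_
      rw [abs_neg, abs_of_pos hδ0]
      linarith
    have l1 : |u δ| < rr := by
      have := hε2u (x := δ) (by rw [Real.dist_eq, sub_zero, abs_of_pos hδ0]; exact g2)
      rwa [hu0, Real.dist_eq, sub_zero] at this
    have l2 : |u (-δ)| < rr := by
      have := hε2u (x := -δ) (by rw [Real.dist_eq, sub_zero, abs_neg, abs_of_pos hδ0]; exact g2)
      rwa [hu0, Real.dist_eq, sub_zero] at this
    have m1 := OUT_Yf hd0 hf0 he0 hψ0 (k1.trans_le hηη0)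
    have m2 := OUT_Yf hd0 hf0 he0 hψ0 (k2.trans_le hηη0)
    have n1 := (hsum (ψ + δ) (u δ) (k1.trans_le hηη1) l1).tsum_eq
    have n2 := (hsum (ψ + -δ) (u (-δ)) (k2.trans_le hηη1) l2).tsum_eq
    have c1 : ((ψ + -δ : ℝ) : ℂ) = (ψ : ℂ) - (δ : ℂ) := by push_cast; ring
    have c2 : ((-δ : ℝ) : ℂ) = -(δ : ℂ) := by push_cast; ring
    have c3 : ((ψ + δ : ℝ) : ℂ) = (ψ : ℂ) + (δ : ℂ) := by push_cast; ring
    rw [c2] at m2
    rw [m1, m2]
    rw [c3] at n1
    rw [c1] at n2
    have q1 : L (ψ + δ) (u δ) = K (ψ + δ) (f ψ + f' ψ * δ) := by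
      simp only [hLdef, hu]
      congr 1
      ring
    have q2 : L (ψ + -δ) (u (-δ)) = K (ψ - δ) (f ψ - f' ψ * δ) := by
      simp only [hLdef, hu]
      rw [← sub_eq_add_neg]
      congr 1
      ring
    have q3 := hinvψ δ hδ0 g1
    refine n1.trans (Eq.trans ?_ n2.symm)
    rw [q1, q2, q3]
  have hnon : ∃ j, 1 ≤ j ∧ ∃ t ∈ Metric.ball (x : ℂ) η, b j t ≠ 0 := by
    by_contra hcon
    push Not at hcon
    obtain ⟨hb0, -⟩ := hLAW (fun z => z) OUT_kc OUT_KF OUT_ker (R 0) x b η M rr hBD' hd' hEV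
    have hLc : ∀ φ y : ℝ, |φ - x| < η → |y| < rr → ((L φ y : ℝ) : ℂ) = b 0 x := by
      intro φ y hφ hy
      have h := hsum φ y (hφ.trans_le hηη1) hy
      have h' : HasSum (fun j => b j φ * (y : ℂ) ^ j) (b 0 φ * (y : ℂ) ^ 0) := by
        apply hasSum_single
        intro j hj
        rw [hcon j (Nat.one_le_iff_ne_zero.2 hj) _ (OUT_mem hφ), zero_mul]
      rw [h.unique h', pow_zero, mul_one, hb0 _ (OUT_mem hφ)]
    have hLc' : ∀ φ y : ℝ, |φ - x| < η → |y| < rr → L φ y = L x 0 := by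
      intro φ y hφ hy
      have := (hLc φ y hφ hy).trans (hLc x 0 hxx (by simpa using hBD.r0)).symm
      exact_mod_cast this
    apply hnc
    refine ⟨L x 0, ?_⟩
    have hev : Function.uncurry K =ᶠ[𝓝 (x, f x)] fun _ => L x 0 := by
      have hcont : ContinuousAt (fun p : ℝ × ℝ => f p.1 - p.2) (x, f x) := by
        have h2 : ContinuousAt f x := (hf x hxI).1.continuousAt
        have h3 : ContinuousAt (fun p : ℝ × ℝ => f p.1) (x, f x) :=
          ContinuousAt.comp (g := f) (f := Prod.fst) (x := ((x, f x) : ℝ × ℝ)) h2 continuousAt_fst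
        exact h3.sub continuousAt_snd
      have h1 : ∀ᶠ p : ℝ × ℝ in 𝓝 (x, f x), |f p.1 - p.2| < rr := by
        have h4 := hcont.abs
        apply h4.eventually_lt continuousAt_const
        simpa using hBD.r0
      have h2 : ∀ᶠ p : ℝ × ℝ in 𝓝 (x, f x), |p.1 - x| < η := by
        have h4 : ContinuousAt (fun p : ℝ × ℝ => |p.1 - x|) (x, f x) :=
          (continuousAt_fst.sub continuousAt_const).abs
        apply h4.eventually_lt continuousAt_const
        simpa using hη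
      filter_upwards [h1, h2] with p hp1 hp2
      have h3 := hLc' p.1 (f p.1 - p.2) hp2 hp1
      rw [← h3]
      simp only [hLdef, Function.uncurry, sub_sub_cancel]
    have := hK.eqOn_of_preconnected_of_eventuallyEq analyticOnNhd_const hUc (hfU x hxI) hev
    intro z hz
    exact this hz
  have hR0x : R 0 x ≠ 0 := by
    rw [he0 x (by simpa using hη0)]
    exact_mod_cast (hf x hxI).2.2.ne'
  have hgood : Good OUT_kc (R 0) x :=
    hINI (fun z => z) OUT_kc OUT_KF OUT_ker (R 0) x b η M rr hBD' hd' hR0x hEV hnon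
  exact hCHN OUT_kc OUT_ker k a r R hch ⟨x, hxb, hgood⟩ z hz

end H738CZ
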