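import Pool.Agent.H738R3.CZ.Defs

/-! Task BN (helper680): uniform bounds for the defect of the partial sums. -/

open Complex Set Filter Topology

namespace H738CZ

/-- Schwarz lemma of order `n` -/
theorem BN_schwarz (n : ℕ) : ∀ (f : ℂ → ℂ) (B r : ℝ), 0 < r →
    DifferentiableOn ℂ f (Metric.ball 0 r) → (∀ z ∈ Metric.ball (0 : ℂ) r, ‖f z‖ ≤ B) →
    f =O[𝓝[≠] 0] (fun w => w ^ n) → ∀ w ∈ Metric.ball (0 : ℂ) r, ‖f w‖ ≤ B * (‖w‖ / r) ^ n := by
  induction n with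
  | zero =>
    intro f B r _ _ hB _ w hw
    rw [pow_zero, mul_one]
    exact hB w hw
  | succ n ih =>
    intro f B r hr hd hB hO w hw
    have h0 : (0 : ℂ) ∈ Metric.ball (0 : ℂ) r := Metric.mem_ball_self hr
    have hnhds : Metric.ball (0 : ℂ) r ∈ 𝓝 (0 : ℂ) := Metric.ball_mem_nhds _ hr
    have hf0 : f 0 = 0 := by
      have hc : Tendsto f (𝓝[≠] 0) (𝓝 (f 0)) :=
        ((hd.differentiableAt hnhds).continuousAt.tendsto).mono_left nhdsWithin_le_nhds
      have hp : Tendsto (fun w : ℂ => w ^ (n + 1)) (𝓝[≠] 0) (𝓝 0) := by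
        have h1 : Tendsto (fun w : ℂ => w ^ (n + 1)) (𝓝 0) (𝓝 ((0 : ℂ) ^ (n + 1))) :=
          (continuous_pow (n + 1)).tendsto 0
        rw [zero_pow (Nat.succ_ne_zero n)] at h1
        exact h1.mono_left nhdsWithin_le_nhds
      exact tendsto_nhds_unique hc (hO.trans_tendsto hp)
    have hB0 : 0 ≤ B := (norm_nonneg _).trans (hB 0 h0)
    set g := dslope f 0 with hg
    have hgd : DifferentiableOn ℂ g (Metric.ball 0 r) :=
      (Complex.differentiableOn_dslope hnhds).2 hd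
    have hgB : ∀ z ∈ Metric.ball (0 : ℂ) r, ‖g z‖ ≤ B / r := by
      intro z hz
      have hmaps : MapsTo f (Metric.ball 0 r) (Metric.closedBall (f 0) B) := by
        intro y hy
        rw [hf0, Metric.mem_closedBall, dist_zero_right]
        exact hB y hy
      exact Complex.norm_dslope_le_div_of_mapsTo_ball hd hmaps hz
    have hgO : g =O[𝓝[≠] 0] (fun w => w ^ n) := by
      obtain ⟨c, hc⟩ := hO.bound
      refine Asymptotics.IsBigO.of_bound c ?_
      filter_upwards [hc, self_mem_nhdsWithin] with y hy hy0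
      have hy0' : y ≠ 0 := hy0
      have hyn : 0 < ‖y‖ := norm_pos_iff.2 hy0'
      have e : g y = f y / y := by
        rw [hg, dslope_of_ne _ hy0', slope_def_field, hf0, sub_zero, sub_zero]
      rw [e, norm_div, div_le_iff₀ hyn, norm_pow]
      rw [norm_pow] at hy
      calc ‖f y‖ ≤ c * ‖y‖ ^ (n + 1) := hy
        _ = _ := by ring
    have h3 := ih g (B / r) r hr hgd hgB hgO w hw
    have h4 : f w = w * g w := by
      by_cases hw0 : w = 0
      · rw [hw0, hf0, zero_mul]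
      · rw [hg, dslope_of_ne _ hw0, slope_def_field, hf0, sub_zero, sub_zero]
        field_simp
    rw [h4, norm_mul]
    calc ‖w‖ * ‖g w‖ ≤ ‖w‖ * (B / r * (‖w‖ / r) ^ n) :=
          mul_le_mul_of_nonneg_left h3 (norm_nonneg _)
      _ = B * (‖w‖ / r) ^ (n + 1) := by
          rw [pow_succ]
          ring

/-- bound of the partial sums on the unit disc -/
theorem BN_SN {α : ℕ → ℂ} {C s : ℝ} (hC : 1 ≤ C) (hs : 0 ≤ s)
    (h : ∀ j, ‖α j‖ ≤ C ^ j * ((2 * j).factorial : ℝ) ^ s) (N : ℕ) {w : ℂ} (hw : ‖w‖ ≤ 1) :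
    ‖SN α N w‖ ≤ N * (C ^ N * ((2 * N).factorial : ℝ) ^ s) := by
  unfold SN
  have h1 : ∀ j ∈ Finset.range N, ‖α j * w ^ (2 * j)‖ ≤ C ^ N * ((2 * N).factorial : ℝ) ^ s := by
    intro j hj
    rw [Finset.mem_range] at hj
    rw [norm_mul, norm_pow]
    have h2 : ‖w‖ ^ (2 * j) ≤ 1 := pow_le_one₀ (norm_nonneg _) hw
    have h3 : C ^ j ≤ C ^ N := pow_le_pow_right₀ hC hj.le
    have h4 : ((2 * j).factorial : ℝ) ^ s ≤ ((2 * N).factorial : ℝ) ^ s := by
      apply Real.rpow_le_rpow (by positivity) _ hs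
      exact_mod_cast Nat.factorial_le (by omega)
    calc ‖α j‖ * ‖w‖ ^ (2 * j) ≤ (C ^ j * ((2 * j).factorial : ℝ) ^ s) * 1 :=
          mul_le_mul (h j) h2 (by positivity) (by positivity)
      _ = C ^ j * ((2 * j).factorial : ℝ) ^ s := mul_one _
      _ ≤ _ := mul_le_mul h3 h4 (by positivity) (by positivity)
  refine (norm_sum_le _ _).trans ((Finset.sum_le_sum h1).trans ?_)
  rw [Finset.sum_const, Finset.card_range, nsmul_eq_mul]

theorem tBN : StBN := by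
  intro T E α hP
  obtain ⟨C, s, hC, hs0, hs1, hα⟩ := hP.sg
  -- a good radius
  have hTO : (fun w : ℂ => T w - (w - ((1 : ℝ) : ℂ) * w ^ 2)) =O[𝓝 0] (fun w => w ^ 3) := hP.eT
  have hT2 : ∀ᶠ w in 𝓝 (0 : ℂ), ‖T w‖ ≤ 2 * ‖w‖ := by
    obtain ⟨c, hc⟩ := hTO.bound
    have h1 : ∀ᶠ w in 𝓝 (0 : ℂ), ‖w‖ + |c| * ‖w‖ ^ 2 < 1 := by
      have h2 : Tendsto (fun w : ℂ => ‖w‖ + |c| * ‖w‖ ^ 2) (𝓝 0) (𝓝 (‖(0 : ℂ)‖ + |c| * ‖(0 : ℂ)‖ ^ 2)) :=
        (continuous_norm.add (continuous_const.mul (continuous_norm.pow 2))).tendsto 0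
      rw [norm_zero] at h2
      have h3 : (0 : ℝ) + |c| * 0 ^ 2 < 1 := by norm_num
      exact h2.eventually (gt_mem_nhds h3)
    filter_upwards [hc, h1] with w hw hw1
    have h4 : ‖w - ((1 : ℝ) : ℂ) * w ^ 2‖ ≤ ‖w‖ + ‖w‖ ^ 2 := by
      refine (norm_sub_le _ _).trans ?_
      rw [norm_mul, norm_pow]
      simp
    have h5 : ‖T w‖ ≤ ‖T w - (w - ((1 : ℝ) : ℂ) * w ^ 2)‖ + ‖w - ((1 : ℝ) : ℂ) * w ^ 2‖ := by
      calc ‖T w‖ = ‖(T w - (w - ((1 : ℝ) : ℂ) * w ^ 2)) + (w - ((1 : ℝ) : ℂ) * w ^ 2)‖ := by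
            congr 1; ring
        _ ≤ _ := norm_add_le _ _
    rw [norm_pow] at hw
    have h6 : c * ‖w‖ ^ 3 ≤ |c| * ‖w‖ ^ 3 := mul_le_mul_of_nonneg_right (le_abs_self c) (by positivity)
    have h7 : ‖w‖ * (‖w‖ + |c| * ‖w‖ ^ 2) ≤ ‖w‖ * 1 :=
      mul_le_mul_of_nonneg_left hw1.le (norm_nonneg _)
    nlinarith
  obtain ⟨M, hM⟩ : ∃ M : ℝ, M = ‖E 0‖ + 1 := ⟨_, rfl⟩
  have hM1 : 1 ≤ M := by rw [hM]; linarith [norm_nonneg (E 0)]
  have hEM : ∀ᶠ w in 𝓝 (0 : ℂ), ‖E w‖ ≤ M := by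
    have h1 : Tendsto (fun w => ‖E w‖) (𝓝 0) (𝓝 ‖E 0‖) := hP.aE.continuousAt.norm
    have h2 := h1.eventually (gt_mem_nhds (show ‖E 0‖ < M by rw [hM]; linarith))
    filter_upwards [h2] with w hw using hw.le
  have hev := (hT2.and hEM).and (hP.aT.eventually_analyticAt.and hP.aE.eventually_analyticAt)
  obtain ⟨r', hr', hball⟩ := Metric.eventually_nhds_iff_ball.1 hev
  obtain ⟨r, hrdef⟩ : ∃ r : ℝ, r = min r' (1 / 2) := ⟨_, rfl⟩
  have hr : 0 < r := by rw [hrdef]; positivity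
  have hr1 : r ≤ 1 / 2 := by rw [hrdef]; exact min_le_right _ _
  have hin : ∀ w ∈ Metric.ball (0 : ℂ) r, (‖T w‖ ≤ 2 * ‖w‖ ∧ ‖E w‖ ≤ M) ∧
      AnalyticAt ℂ T w ∧ AnalyticAt ℂ E w := by
    intro w hw
    exact hball w (Metric.ball_subset_ball (by rw [hrdef]; exact min_le_left _ _) hw)
  refine ⟨r / 2, 2 * C * ((1 + M) / r) / r ^ 2, s, by positivity, ?_, hs0, hs1, ?_⟩
  · have h1 : 1 ≤ (1 + M) / r := by
      rw [le_div_iff₀ hr]
      linarith
    have h2 : r ^ 2 ≤ 1 := pow_le_one₀ hr.le (by linarith)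
    rw [le_div_iff₀ (by positivity), one_mul]
    nlinarith
  · intro N hN w hw
    set e : ℂ → ℂ := fun w => SN α N w - E w * SN α N (T w) with he
    have hSNd : Differentiable ℂ (SN α N) := by
      unfold SN
      fun_prop
    have hed : DifferentiableOn ℂ e (Metric.ball 0 r) := by
      intro z hz
      obtain ⟨-, haT, haE⟩ := hin z hz
      have h1 : DifferentiableAt ℂ (fun w => SN α N (T w)) z :=
        (hSNd (T z)).comp z haT.differentiableAt
      exact ((hSNd z).sub (haE.differentiableAt.mul h1)).differentiableWithinAt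
    set B : ℝ := (1 + M) * (N * (C ^ N * ((2 * N).factorial : ℝ) ^ s)) with hBdef
    have heB : ∀ z ∈ Metric.ball (0 : ℂ) r, ‖e z‖ ≤ B := by
      intro z hz
      obtain ⟨⟨h1, h2⟩, -, -⟩ := hin z hz
      rw [Metric.mem_ball, dist_zero_right] at hz
      have h3 := BN_SN hC hs0 hα N (w := z) (by linarith)
      have h4 := BN_SN hC hs0 hα N (w := T z) (by linarith)
      have h5 : 0 ≤ N * (C ^ N * ((2 * N).factorial : ℝ) ^ s) := by positivity
      calc ‖e z‖ ≤ ‖SN α N z‖ + ‖E z * SN α N (T z)‖ := norm_sub_le _ _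
        _ ≤ N * (C ^ N * ((2 * N).factorial : ℝ) ^ s) +
            M * (N * (C ^ N * ((2 * N).factorial : ℝ) ^ s)) := by
            rw [norm_mul]
            exact add_le_add h3 (mul_le_mul h2 h4 (norm_nonneg _) (by linarith))
        _ = B := by rw [hBdef]; ring
    have heO : e =O[𝓝[≠] 0] (fun w => w ^ (2 * N + 1)) :=
      (hP.rel N).mono nhdsWithin_le_nhds
    have hwb : w ∈ Metric.ball (0 : ℂ) r := by
      rw [Metric.mem_ball, dist_zero_right]
      linarith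
    have h6 := BN_schwarz (2 * N + 1) e B r hr hed heB heO w hwb
    refine h6.trans ?_
    have h7 : (N : ℝ) ≤ 2 ^ N := by exact_mod_cast (Nat.lt_two_pow_self).le
    have hA : 1 ≤ (1 + M) / r := by
      rw [le_div_iff₀ hr]
      linarith
    have h8 : (1 + M) / r ≤ ((1 + M) / r) ^ N := by
      calc (1 + M) / r = ((1 + M) / r) ^ 1 := (pow_one _).symm
        _ ≤ _ := pow_le_pow_right₀ hA hN
    have hCN : 0 ≤ C ^ N := by positivity
    have hfs : 0 ≤ ((2 * N).factorial : ℝ) ^ s := by positivity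
    calc B * (‖w‖ / r) ^ (2 * N + 1)
        = (N : ℝ) * ((1 + M) / r) * (C ^ N * ((2 * N).factorial : ℝ) ^ s * (1 / r ^ 2) ^ N *
            ‖w‖ ^ (2 * N + 1)) := by
          rw [hBdef, div_pow, pow_succ r, pow_mul r, one_div, inv_pow]
          field_simp
      _ ≤ 2 ^ N * ((1 + M) / r) ^ N * (C ^ N * ((2 * N).factorial : ℝ) ^ s * (1 / r ^ 2) ^ N *
            ‖w‖ ^ (2 * N + 1)) := by
          apply mul_le_mul_of_nonneg_right _ (by positivity)
          exact mul_le_mul h7 h8 (by positivity) (by positivity)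
      _ = (2 * C * ((1 + M) / r) / r ^ 2) ^ N * ((2 * N).factorial : ℝ) ^ s *
            ‖w‖ ^ (2 * N + 1) := by
          rw [div_pow (2 * C * ((1 + M) / r)), mul_pow, mul_pow, one_div, inv_pow]
          ring

end H738CZ
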