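import Pool.Agent.H738R3.CZ.Defs

open Complex Set Filter Topology

namespace H738CZ

theorem CHN_good_ne {kc : ℕ → ℂ} {ρ : ℂ → ℂ} {a : ℂ} (h : Good kc ρ a) : ρ a ≠ 0 := by
  obtain ⟨η, hη, r0, g, hFI, _⟩ := h
  have ha : a ∈ Metric.ball a η := Metric.mem_ball_self hη
  rw [hFI.base.cube a ha]
  exact pow_ne_zero 3 (hFI.base.rn a ha)

theorem CHN_noz (hEND : StEND) (hDSC : StDSC) {kc : ℕ → ℂ} (hk : Ker kc) {ρ : ℂ → ℂ} {c : ℂ}
    {R : ℝ} {z : ℂ} (hρ : DifferentiableOn ℂ ρ (Metric.ball c R)) (hz : z ∈ Metric.ball c R)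
    (hg : Good kc ρ z) : ∀ w ∈ Metric.ball c R, ρ w ≠ 0 := by
  intro w hw h0
  obtain ⟨δ, hδ, hsub⟩ := Metric.isOpen_iff.1 Metric.isOpen_ball w hw
  by_cases h : ∀ᶠ t in 𝓝 w, ρ t = 0
  · have han : AnalyticOnNhd ℂ ρ (Metric.ball c R) := hρ.analyticOnNhd Metric.isOpen_ball
    have hE := han.eqOn_zero_of_preconnected_of_eventuallyEq_zero
      (convex_ball c R).isPreconnected hw h
    exact CHN_good_ne hg (hE hz)
  · rw [not_eventually] at h
    obtain ⟨t, ht, ht2⟩ := (h.and_eventually (Metric.ball_mem_nhds w hδ)).exists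
    have ht3 : t ∈ Metric.ball c R := hsub ht2
    have h1 : Good kc ρ t := hDSC kc hk ρ c R z t hρ hz ht3 ht hg
    exact hEND kc hk ρ w δ t (hρ.mono hsub) ht2 h0 h1

theorem tCHN (hEND : StEND) (hDSC : StDSC) (hTRL : StTRL) : StCHN := by
  intro kc hk k a r R hC hstart
  have key : ∀ i, i ≤ k → ∃ z ∈ Metric.ball (a i) (r i), Good kc (R i) z := by
    intro i
    induction i with
    | zero => intro _; exact hstart
    | succ i ih =>
      intro hi
      obtain ⟨z, hz, hg⟩ := ih (by omega)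
      obtain ⟨z', hz'⟩ := hC.ne i (by omega)
      have hdf := hC.df i (by omega)
      have hne := CHN_noz hEND hDSC hk hdf hz hg z' hz'.1
      have hg' : Good kc (R i) z' := hDSC kc hk (R i) (a i) (r i) z z' hdf hz hz'.1 hne hg
      have h1 := hTRL kc (R i) (R (i + 1)) z' 0 hg' (by
        rw [sub_zero]
        have hnh : Metric.ball (a i) (r i) ∩ Metric.ball (a (i + 1)) (r (i + 1)) ∈ 𝓝 z' :=
          (Metric.isOpen_ball.inter Metric.isOpen_ball).mem_nhds hz'
        filter_upwards [hnh] with t ht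
        rw [add_zero]
        exact (hC.eq i (by omega) ht).symm)
      rw [sub_zero] at h1
      exact ⟨z', hz'.2, h1⟩
  obtain ⟨z, hz, hg⟩ := key k le_rfl
  exact CHN_noz hEND hDSC hk (hC.df k le_rfl) hz hg

end H738CZ
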