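import Pool.Agent.H738R3.CZ.Defs

/-! CPX: complexification of a real analytic function of two variables (helper903). -/

open Complex Set Filter Topology

namespace H738CZ

/-- the mixed coefficients of a power series in two variables -/
noncomputable def CPX_c (p : FormalMultilinearSeries ℝ (ℝ × ℝ) ℝ) (n i : ℕ) : ℝ :=
  ∑ s : Finset (Fin n) with s.card = i,
    p n (s.piecewise (fun _ => ((1 : ℝ), (0 : ℝ))) (fun _ => ((0 : ℝ), (1 : ℝ))))

theorem CPX_bound (p : FormalMultilinearSeries ℝ (ℝ × ℝ) ℝ) (n i : ℕ) :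
    |CPX_c p n i| ≤ 2 ^ n * ‖p n‖ := by
  unfold CPX_c
  refine (Finset.abs_sum_le_sum_abs _ _).trans ?_
  have h1 : ∀ s : Finset (Fin n),
      |p n (s.piecewise (fun _ => ((1 : ℝ), (0 : ℝ))) (fun _ => ((0 : ℝ), (1 : ℝ))))| ≤ ‖p n‖ := by
    intro s
    rw [← Real.norm_eq_abs]
    refine ((p n).le_opNorm _).trans ?_
    have : ∏ i : Fin n, ‖(s.piecewise (fun _ => ((1 : ℝ), (0 : ℝ))) (fun _ => ((0 : ℝ), (1 : ℝ))) :
        Fin n → ℝ × ℝ) i‖ = 1 := by
      refine Finset.prod_eq_one fun i _ => ?_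
      by_cases h : i ∈ s
      · rw [Finset.piecewise_eq_of_mem _ _ _ h]; simp [Prod.norm_def]
      · rw [Finset.piecewise_eq_of_notMem _ _ _ h]; simp [Prod.norm_def]
    rw [this, mul_one]
  calc _ ≤ ∑ s : Finset (Fin n) with s.card = i, ‖p n‖ := Finset.sum_le_sum fun s _ => h1 s
    _ ≤ ∑ s : Finset (Fin n), ‖p n‖ :=
      Finset.sum_le_sum_of_subset_of_nonneg (Finset.filter_subset _ _) fun _ _ _ => norm_nonneg _
    _ = 2 ^ n * ‖p n‖ := by simp

theorem CPX_eval (p : FormalMultilinearSeries ℝ (ℝ × ℝ) ℝ) (n : ℕ) (x y : ℝ) :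
    p n (fun _ => (x, y)) = ∑ ij ∈ Finset.HasAntidiagonal.antidiagonal n,
      CPX_c p (ij.1 + ij.2) ij.1 * x ^ ij.1 * y ^ ij.2 := by
  have h0 : (fun _ : Fin n => ((x, y) : ℝ × ℝ)) = (fun _ => x • ((1 : ℝ), (0 : ℝ))) +
      (fun _ => y • ((0 : ℝ), (1 : ℝ))) := by
    ext <;> simp
  have hterm : ∀ s : Finset (Fin n),
      p n (s.piecewise (fun _ => x • ((1 : ℝ), (0 : ℝ))) (fun _ => y • ((0 : ℝ), (1 : ℝ)))) =
      x ^ s.card * y ^ (n - s.card) *
        p n (s.piecewise (fun _ => ((1 : ℝ), (0 : ℝ))) (fun _ => ((0 : ℝ), (1 : ℝ)))) := by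
    intro s
    have h1 : (s.piecewise (fun _ => x • ((1 : ℝ), (0 : ℝ))) (fun _ => y • ((0 : ℝ), (1 : ℝ))) :
        Fin n → ℝ × ℝ) = fun i => (s.piecewise (fun _ => x) (fun _ => y) i : ℝ) •
        (s.piecewise (fun _ => ((1 : ℝ), (0 : ℝ))) (fun _ => ((0 : ℝ), (1 : ℝ))) :
          Fin n → ℝ × ℝ) i := by
      funext i
      by_cases h : i ∈ s
      · simp [Finset.piecewise_eq_of_mem _ _ _ h]
      · simp [Finset.piecewise_eq_of_notMem _ _ _ h]
    rw [h1, (p n).map_smul_univ, smul_eq_mul]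
    congr 1
    rw [Finset.prod_piecewise]
    simp [Finset.card_sdiff, Finset.card_univ]
  rw [h0, (p n).map_add_univ]
  simp_rw [hterm]
  have h2 : ∑ ij ∈ Finset.HasAntidiagonal.antidiagonal n, CPX_c p (ij.1 + ij.2) ij.1 * x ^ ij.1 * y ^ ij.2 =
      ∑ i ∈ Finset.range (n + 1), CPX_c p n i * x ^ i * y ^ (n - i) := by
    rw [Finset.Nat.sum_antidiagonal_eq_sum_range_succ_mk]
    refine Finset.sum_congr rfl fun i hi => ?_
    have : i + (n - i) = n := by have := Finset.mem_range.1 hi; omega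
    simp only [this]
  rw [h2, ← Finset.sum_fiberwise_of_maps_to (s := Finset.univ) (t := Finset.range (n + 1))
    (g := fun s : Finset (Fin n) => s.card)]
  · refine Finset.sum_congr rfl fun i _ => ?_
    unfold CPX_c
    rw [Finset.sum_mul, Finset.sum_mul]
    refine Finset.sum_congr rfl fun s hs => ?_
    rw [(Finset.mem_filter.1 hs).2]
    ring
  · intro s _
    have := Finset.card_le_univ s
    rw [Fintype.card_fin] at this
    simp only [Finset.mem_range]
    omega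

theorem tCPX : StCPX := by
  rintro L a ⟨p, ρ, hp⟩
  obtain ⟨R, hR0, hRρ⟩ := ENNReal.lt_iff_exists_nnreal_btwn.1 hp.r_pos
  have hR : (0 : ℝ) < R := by exact_mod_cast hR0
  obtain ⟨C, hC0, hC⟩ := p.norm_le_div_pow_of_pos_of_lt_radius (r := R) (by exact_mod_cast hR0)
    (lt_of_lt_of_le hRρ hp.r_le)
  have hcb : ∀ i j : ℕ, |CPX_c p (i + j) i| ≤ C * (2 / (R : ℝ)) ^ i * (2 / (R : ℝ)) ^ j := by
    intro i j
    calc |CPX_c p (i + j) i| ≤ 2 ^ (i + j) * ‖p (i + j)‖ := CPX_bound p _ _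
      _ ≤ 2 ^ (i + j) * (C / (R : ℝ) ^ (i + j)) :=
        mul_le_mul_of_nonneg_left (hC _) (by positivity)
      _ = C * (2 / (R : ℝ)) ^ i * (2 / (R : ℝ)) ^ j := by
        rw [mul_assoc, ← pow_add, div_pow]; ring
  have hpt : ∀ (i j : ℕ) (X : ℝ), 0 ≤ X → X ≤ R / 4 →
      |CPX_c p (i + j) i| * X ^ i ≤ C * (1 / 2) ^ i * (2 / (R : ℝ)) ^ j := by
    intro i j X hX0 hX
    calc |CPX_c p (i + j) i| * X ^ i ≤ (C * (2 / (R : ℝ)) ^ i * (2 / (R : ℝ)) ^ j) * (R / 4) ^ i :=
        mul_le_mul (hcb i j) (pow_le_pow_left₀ hX0 hX i) (by positivity) (by positivity)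
      _ = C * ((2 / (R : ℝ)) * (R / 4)) ^ i * (2 / (R : ℝ)) ^ j := by rw [mul_pow]; ring
      _ = C * (1 / 2) ^ i * (2 / (R : ℝ)) ^ j := by
        congr 3
        field_simp
        norm_num
  have hsum1 : ∀ j : ℕ, Summable fun i : ℕ => C * (1 / 2 : ℝ) ^ i * (2 / (R : ℝ)) ^ j := by
    intro j
    exact (summable_geometric_two.mul_left C).mul_right _
  refine ⟨fun j t => ∑' i : ℕ, (CPX_c p (i + j) i : ℂ) * (t - a) ^ i, R / 4, 2 * C, R / 4,
    ⟨by positivity, by positivity, ?_, ?_⟩, ?_⟩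
  · intro j
    refine differentiableOn_tsum_of_summable_norm (hsum1 j) (fun i => ?_) Metric.isOpen_ball
      (fun i t ht => ?_)
    · fun_prop
    · rw [norm_mul, norm_pow, Complex.norm_real, Real.norm_eq_abs]
      refine hpt i j _ (norm_nonneg _) ?_
      rw [← dist_eq_norm]
      exact (Metric.mem_ball.1 ht).le
  · intro j t ht
    have h1 : ∀ i : ℕ, ‖(CPX_c p (i + j) i : ℂ) * (t - a) ^ i‖ ≤
        C * (1 / 2) ^ i * (2 / (R : ℝ)) ^ j := by
      intro i
      rw [norm_mul, norm_pow, Complex.norm_real, Real.norm_eq_abs]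
      refine hpt i j _ (norm_nonneg _) ?_
      rw [← dist_eq_norm]
      exact (Metric.mem_ball.1 ht).le
    refine (tsum_of_norm_bounded (hsum1 j).hasSum h1).trans ?_
    rw [tsum_mul_right, tsum_mul_left, tsum_geometric_two]
    have h2 : (2 / (R : ℝ)) ^ j ≤ ((R / 4 : ℝ)⁻¹) ^ j := by
      refine pow_le_pow_left₀ (by positivity) ?_ j
      rw [inv_div]
      gcongr
      norm_num
    calc C * 2 * (2 / (R : ℝ)) ^ j ≤ C * 2 * ((R / 4 : ℝ)⁻¹) ^ j :=
        mul_le_mul_of_nonneg_left h2 (by positivity)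
      _ = 2 * C * ((R / 4 : ℝ)⁻¹) ^ j := by ring
  · intro φ y hφ hy
    have hsummable : Summable fun ij : ℕ × ℕ =>
        CPX_c p (ij.1 + ij.2) ij.1 * (φ - a) ^ ij.1 * y ^ ij.2 := by
      have hg : Summable fun ij : ℕ × ℕ => (C * (1 / 2 : ℝ) ^ ij.1) * (1 / 2 : ℝ) ^ ij.2 :=
        (summable_geometric_two.mul_left C).mul_of_nonneg summable_geometric_two
          (fun i => by positivity) (fun i => by positivity)
      refine Summable.of_norm_bounded hg fun ij => ?_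
      rw [Real.norm_eq_abs, abs_mul, abs_mul, abs_pow, abs_pow]
      calc |CPX_c p (ij.1 + ij.2) ij.1| * |φ - a| ^ ij.1 * |y| ^ ij.2 ≤
          (C * (1 / 2) ^ ij.1 * (2 / (R : ℝ)) ^ ij.2) * (R / 4) ^ ij.2 :=
            mul_le_mul (hpt _ _ _ (abs_nonneg _) hφ.le)
              (pow_le_pow_left₀ (abs_nonneg _) hy.le _) (by positivity) (by positivity)
        _ = (C * (1 / 2) ^ ij.1) * ((2 / (R : ℝ)) * (R / 4)) ^ ij.2 := by rw [mul_pow]; ring
        _ = (C * (1 / 2 : ℝ) ^ ij.1) * (1 / 2 : ℝ) ^ ij.2 := by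
          congr 2
          field_simp
          norm_num
    have hV := hsummable.hasSum
    have hdiag : HasSum (fun n : ℕ => p n (fun _ => (φ - a, y)))
        (∑' ij : ℕ × ℕ, CPX_c p (ij.1 + ij.2) ij.1 * (φ - a) ^ ij.1 * y ^ ij.2) := by
      have h1 := (Finset.HasAntidiagonal.sigmaAntidiagonalEquivProd (A := ℕ)).hasSum_iff.2 hV
      have h2 := h1.sigma (fun n => hasSum_fintype _)
      have h3 : (fun n : ℕ => p n (fun _ => (φ - a, y))) = fun n : ℕ =>
          ∑ c : Finset.HasAntidiagonal.antidiagonal n,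
            ((fun ij : ℕ × ℕ => CPX_c p (ij.1 + ij.2) ij.1 * (φ - a) ^ ij.1 * y ^ ij.2) ∘
              (Finset.HasAntidiagonal.sigmaAntidiagonalEquivProd (A := ℕ))) ⟨n, c⟩ := by
        funext n
        rw [CPX_eval, ← Finset.sum_coe_sort (Finset.HasAntidiagonal.antidiagonal n)]
        rfl
      rw [h3]
      exact h2
    have hval : HasSum (fun n : ℕ => p n (fun _ => (φ - a, y))) (L φ y) := by
      have h1 : ((φ - a, y) : ℝ × ℝ) ∈ Metric.eball (0 : ℝ × ℝ) ρ := by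
        rw [Metric.mem_eball, edist_zero_right]
        refine lt_trans ?_ hRρ
        rw [← ofReal_norm, Prod.norm_mk, ← ENNReal.ofReal_coe_nnreal]
        refine (ENNReal.ofReal_lt_ofReal_iff (by exact_mod_cast hR0)).2 ?_
        rw [Real.norm_eq_abs, Real.norm_eq_abs]
        refine max_lt (hφ.trans ?_) (hy.trans ?_) <;> linarith
      have h2 := hp.hasSum h1
      have h3 : Function.uncurry L ((a, 0) + (φ - a, y)) = L φ y := by
        simp [Function.uncurry]
      rw [h3] at h2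
      exact h2
    have hL : (∑' ij : ℕ × ℕ, CPX_c p (ij.1 + ij.2) ij.1 * (φ - a) ^ ij.1 * y ^ ij.2) = L φ y :=
      hdiag.unique hval
    rw [hL] at hV
    have hswap : HasSum (fun ji : ℕ × ℕ =>
        CPX_c p (ji.2 + ji.1) ji.2 * (φ - a) ^ ji.2 * y ^ ji.1) (L φ y) :=
      (Equiv.prodComm ℕ ℕ).hasSum_iff.2 hV
    have hfib : ∀ j : ℕ, HasSum (fun i : ℕ => CPX_c p (i + j) i * (φ - a) ^ i * y ^ j)
        ((∑' i : ℕ, CPX_c p (i + j) i * (φ - a) ^ i) * y ^ j) := by
      intro j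
      refine HasSum.mul_right _ (Summable.hasSum ?_)
      refine Summable.of_norm_bounded (hsum1 j) fun i => ?_
      rw [Real.norm_eq_abs, abs_mul, abs_pow]
      exact hpt i j _ (abs_nonneg _) hφ.le
    have hfin := hswap.prod_fiberwise hfib
    have h4 := Complex.hasSum_ofReal.2 hfin
    convert h4 using 1
    funext j
    push_cast
    rfl

end H738CZ
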