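import Pool.Agent.H738R3.CZ.Defs

/-!
# DGJ: the recursion in normalised form
-/

open Complex Set Filter Topology

namespace H738CZ

theorem DGJ_iter (f : ℂ → ℂ) (l : ℕ) : (DD (fun _ => 1))^[l] f = iteratedDeriv l f := by
  rw [iteratedDeriv_eq_iterate]
  have h : DD (fun _ : ℂ => (1:ℂ)) = deriv := by
    funext f t
    simp [DD]
  rw [h]

theorem DGJ_coeff (f : ℂ → ℂ) (t : ℂ) (l : ℕ) :
    PowerSeries.coeff l (Es (fun _ => 1) f t) = iteratedDeriv l f t / (l.factorial : ℂ) := by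
  simp only [Es, PowerSeries.coeff_mk]
  rw [DGJ_iter]

theorem DGJ_mul {f h : ℂ → ℂ} {t : ℂ} (hf : AnalyticAt ℂ f t) (hh : AnalyticAt ℂ h t) :
    Es (fun _ => 1) (fun u => f u * h u) t = Es (fun _ => 1) f t * Es (fun _ => 1) h t := by
  ext l
  rw [PowerSeries.coeff_mul, DGJ_coeff]
  simp only [DGJ_coeff]
  rw [Finset.Nat.sum_antidiagonal_eq_sum_range_succ
    (fun a b => iteratedDeriv a f t / (a.factorial : ℂ) * (iteratedDeriv b h t / (b.factorial : ℂ)))]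
  rw [iteratedDeriv_fun_mul hf.contDiffAt hh.contDiffAt, Finset.sum_div]
  apply Finset.sum_congr rfl
  intro i hi
  have hil : i ≤ l := Nat.lt_succ_iff.1 (Finset.mem_range.1 hi)
  have h1 : ((l.choose i : ℕ) : ℂ) * (i.factorial : ℂ) * ((l - i).factorial : ℂ)
      = (l.factorial : ℂ) := by
    exact_mod_cast Nat.choose_mul_factorial_mul_factorial hil
  have hi0 : (i.factorial : ℂ) ≠ 0 := by exact_mod_cast Nat.factorial_ne_zero i
  have hli0 : ((l - i).factorial : ℂ) ≠ 0 := by exact_mod_cast Nat.factorial_ne_zero (l - i)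
  have hl0 : (l.factorial : ℂ) ≠ 0 := by exact_mod_cast Nat.factorial_ne_zero l
  rw [div_mul_div_comm, div_eq_div_iff hl0 (mul_ne_zero hi0 hli0), ← h1]
  ring

theorem DGJ_one (t : ℂ) : Es (fun _ => 1) (fun _ => 1) t = 1 := by
  ext l
  rw [DGJ_coeff, iteratedDeriv_const, PowerSeries.coeff_one]
  split_ifs with h
  · subst h; simp
  · simp

theorem DGJ_pow {f : ℂ → ℂ} {t : ℂ} (hf : AnalyticAt ℂ f t) (i : ℕ) :
    Es (fun _ => 1) (fun u => f u ^ i) t = (Es (fun _ => 1) f t) ^ i := by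
  induction i with
  | zero => simp only [pow_zero]; exact DGJ_one t
  | succ i ih =>
    have h1 : (fun u => f u ^ (i + 1)) = fun u => f u ^ i * f u := by
      funext u; rw [pow_succ]
    rw [h1, DGJ_mul (hf.fun_pow i) hf, ih, pow_succ]

theorem tDGJ (hREC : StREC) : StDGJ := by
  intro kc hkc ρ r0 g V hFI J hJ t ht
  have hV := hFI.base.op
  have hr0 : r0 t ≠ 0 := hFI.base.rn t ht
  have hra : AnalyticAt ℂ r0 t := hFI.base.rd.analyticAt (hV.mem_nhds ht)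
  have hrinv : AnalyticAt ℂ (fun u => (r0 u)⁻¹) t := hra.inv hr0
  have h1 := hREC kc hkc (fun _ => 1) ρ r0 V hFI.base g J hJ (hFI.gd J hJ) t ht
  rw [hFI.law J hJ t ht] at h1
  have hDD : DD (fun _ => 1) (g J) t = deriv (g J) t := by simp [DD]
  rw [hDD] at h1
  have hc : (r0 t ^ 2 / 2) ≠ 0 := by
    simp [hr0]
  have hinv : (2 / r0 t ^ 2) = (r0 t ^ 2 / 2)⁻¹ := by
    rw [inv_div]
  have h2 : deriv (g J) t = - ((2 / r0 t ^ 2) ^ J * Lo kc (fun _ => 1) ρ r0 g J t) := by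
    rw [hinv, inv_pow]
    have hcJ : (r0 t ^ 2 / 2) ^ J ≠ 0 := pow_ne_zero _ hc
    have h3 : (r0 t ^ 2 / 2) ^ J * deriv (g J) t = - Lo kc (fun _ => 1) ρ r0 g J t := by
      linear_combination -h1
    calc deriv (g J) t = ((r0 t ^ 2 / 2) ^ J)⁻¹ * ((r0 t ^ 2 / 2) ^ J * deriv (g J) t) := by
          rw [← mul_assoc, inv_mul_cancel₀ hcJ, one_mul]
      _ = _ := by rw [h3]; ring
  rw [h2, neg_inj]
  unfold Lo
  rw [map_sum, Finset.mul_sum]
  apply Finset.sum_congr rfl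
  intro i hi
  obtain ⟨hi1, hiJ⟩ := Finset.mem_Ico.1 hi
  have hga : AnalyticAt ℂ (g i) t := (hFI.gd i hi1).analyticAt (hV.mem_nhds ht)
  have h4 : Tm kc (fun _ => 1) ρ r0 g i t
      = Es (fun _ => 1) (g i) t * (Es (fun _ => 1) (fun u => (r0 u)⁻¹) t * Ys kc (fun _ => 1) ρ t) ^ i := by
    unfold Tm
    rw [DGJ_mul hga (hrinv.fun_pow i), DGJ_pow hrinv i, mul_pow, mul_assoc]
  have h5 : (Wt kc ρ r0 t) ^ i = PowerSeries.C ((2 / r0 t ^ 2) ^ i)
      * (Es (fun _ => 1) (fun u => (r0 u)⁻¹) t * Ys kc (fun _ => 1) ρ t) ^ i := by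
    unfold Wt
    rw [mul_pow, ← map_pow]
  rw [h4, h5]
  have h6 : Es (fun _ => 1) (g i) t * (PowerSeries.C ((2 / r0 t ^ 2) ^ i)
      * (Es (fun _ => 1) (fun u => (r0 u)⁻¹) t * Ys kc (fun _ => 1) ρ t) ^ i)
      = PowerSeries.C ((2 / r0 t ^ 2) ^ i) * (Es (fun _ => 1) (g i) t
      * (Es (fun _ => 1) (fun u => (r0 u)⁻¹) t * Ys kc (fun _ => 1) ρ t) ^ i) := by ring
  rw [h6, PowerSeries.coeff_C_mul, ← mul_assoc, ← pow_add]
  congr 2
  omega

end H738CZ
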