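import Pool.Agent.H738R3.CZ.Defs

/-!
DSC: propagation of sub-Gevrey formal integrals in a disc.
-/

open Complex Set Filter Topology

namespace H738CZ

theorem DSC_ne {kc : ℕ → ℂ} {ρ : ℂ → ℂ} {a : ℂ} (h : Good kc ρ a) : ρ a ≠ 0 := by
  obtain ⟨η, hη, r0, g, hF, _⟩ := h
  have ha : a ∈ Metric.ball a η := Metric.mem_ball_self hη
  rw [hF.base.cube a ha]
  exact pow_ne_zero 3 (hF.base.rn a ha)

theorem tDSC (hPRS : StPRS) (hAVD : StAVD) : StDSC := by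
  intro kc hkc ρ c R a b hρ ha hb hb0 hG
  have ha0 : ρ a ≠ 0 := DSC_ne hG
  obtain ⟨p, hp1, hp2⟩ := hAVD ρ c R a b hρ ha hb ha0 hb0
  have hU : IsOpen {t ∈ Metric.ball c R | ρ t ≠ 0} :=
    hρ.continuousOn.isOpen_inter_preimage Metric.isOpen_ball isOpen_compl_singleton
  have hd : DifferentiableOn ℂ ρ {t ∈ Metric.ball c R | ρ t ≠ 0} :=
    hρ.mono fun t ht => ht.1
  have h1 := hPRS kc hkc ρ _ a p hU hd (fun t ht => ht.2) hp1 hG
  exact hPRS kc hkc ρ _ p b hU hd (fun t ht => ht.2) hp2 h1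

end H738CZ
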