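import Pool.Agent.H738R3.CZ.Defs

/-! Task END (helper680): no sub-Gevrey formal integral near a zero of `ρ`. -/

open Complex Set Filter Topology

namespace H738CZ

theorem END_good_ne {kc : ℕ → ℂ} {ρ : ℂ → ℂ} {a : ℂ} (h : Good kc ρ a) : ρ a ≠ 0 := by
  obtain ⟨η, hη, r0, g, hFI, -⟩ := h
  have ha : a ∈ Metric.ball a η := Metric.mem_ball_self hη
  rw [hFI.base.cube a ha]
  exact pow_ne_zero _ (hFI.base.rn a ha)

theorem END_one {m : ℕ} {R : ℝ} (hR : 0 < R) {g : ℕ → ℂ → ℂ} {G : ℂ → ℂ}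
    (hone : ∀ t ∈ V3 R, g 1 t = 2) (hP : Pol m R g 1 G) : G 0 = 2 := by
  obtain ⟨hd, hG⟩ := hP
  have hV : ∀ τ ∈ V3 R, G τ = 2 := by
    intro τ hτ
    rw [← hG τ hτ, hone τ hτ]
    simp
  have hcont : ContinuousAt G 0 :=
    (hd.differentiableAt (Metric.ball_mem_nhds _ hR)).continuousAt
  have h1 : Tendsto G (𝓝[≠] 0) (𝓝 (G 0)) := hcont.tendsto.mono_left nhdsWithin_le_nhds
  have h2 : Tendsto G (𝓝[≠] 0) (𝓝 2) := by
    refine tendsto_const_nhds.congr' ?_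
    have h3 : Metric.ball (0 : ℂ) R ∈ 𝓝 (0 : ℂ) := Metric.ball_mem_nhds _ hR
    filter_upwards [self_mem_nhdsWithin, mem_nhdsWithin_of_mem_nhds h3] with τ hτ hτ'
    exact (hV τ ⟨hτ', hτ⟩).symm
  exact tendsto_nhds_unique h1 h2

theorem tEND (hTRL : StTRL) (hFAC : StFAC) (hDSC : StDSC) (hINT : StINT) (hEXT : StEXT)
    (hPRV : StPRV) (hCRC : StCRC) (hLIM : StLIM) (hMDL : StMDL) (hM4 : StM4) (hS5 : StS5)
    (_hMON : StMON) : StEND := by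
  intro kc hk ρ₀ c R a hd₀ ha₀ hc hgood₀
  have hR : 0 < R := by
    have := Metric.mem_ball.1 ha₀
    exact lt_of_le_of_lt dist_nonneg this
  -- translation
  obtain ⟨ρ, hρ⟩ : ∃ ρ : ℂ → ℂ, ρ = fun t => ρ₀ (t + c) := ⟨_, rfl⟩
  have hgood : Good kc ρ (a - c) := hTRL kc ρ₀ ρ a c hgood₀ (by
    rw [hρ]
    exact Eventually.of_forall fun t => rfl)
  have hd : DifferentiableOn ℂ ρ (Metric.ball 0 R) := by
    rw [hρ]
    refine hd₀.comp (differentiableOn_id.add_const c) ?_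
    intro t ht
    rw [Metric.mem_ball, dist_eq_norm] at ht ⊢
    simpa using ht
  have hρ0 : ρ 0 = 0 := by rw [hρ]; simpa using hc
  have ha : a - c ∈ Metric.ball (0 : ℂ) R := by
    rw [Metric.mem_ball, dist_eq_norm] at ha₀ ⊢
    simpa using ha₀
  have hne := END_good_ne hgood
  obtain ⟨m, R', u, hm, hR'R, hUN, hfac⟩ := hFAC ρ R hR hd hρ0 ⟨_, ha, hne⟩
  have hR' : 0 < R' := hUN.pos
  -- a good point in the small ball
  obtain ⟨t1, ht1⟩ : ∃ t1 : ℂ, t1 = ((R' ^ 3 / 2 : ℝ) : ℂ) := ⟨_, rfl⟩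
  have hR3 : 0 < R' ^ 3 := by positivity
  have hnt1 : ‖t1‖ = R' ^ 3 / 2 := by
    rw [ht1, Complex.norm_real, Real.norm_eq_abs, abs_of_pos (by positivity)]
  have ht1b : t1 ∈ Metric.ball (0 : ℂ) (R' ^ 3) := by
    rw [Metric.mem_ball, dist_zero_right, hnt1]
    linarith
  have ht1b' : t1 ∈ Metric.ball (0 : ℂ) R := Metric.ball_subset_ball hR'R ht1b
  have ht10 : t1 ≠ 0 := by
    intro h
    rw [h, norm_zero] at hnt1
    linarith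
  have hρt1 : ρ t1 ≠ 0 := by
    rw [hfac t1 ht1b]
    exact mul_ne_zero (pow_ne_zero _ ht10) (pow_ne_zero _ (hUN.nz t1 ht1b))
  have hg1 : Good kc ρ t1 := hDSC kc hk ρ 0 R (a - c) t1 hd ha ht1b' hρt1 hgood
  obtain ⟨ω, τ1, η, g, hω, hη, hsub, hFI, hSG⟩ := hINT kc m u R' ρ t1 hm hUN ht1b ht10 hfac hg1
  have hω0 : ω ≠ 0 := by
    intro h
    rw [h] at hω
    norm_num at hω
  obtain ⟨u', hu'⟩ : ∃ u' : ℂ → ℂ, u' = fun z => ω * u z := ⟨_, rfl⟩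
  rw [← hu'] at hFI
  have hUN' : UN u' R' := by
    rw [hu']
    exact ⟨hUN.pos, hUN.df.const_mul ω, fun z hz => mul_ne_zero hω0 (hUN.nz z hz)⟩
  obtain ⟨g', hFI', heq, G, hG⟩ := hEXT kc hk m u' R' hm hUN' g τ1 η hη hsub hFI
  have hSG' : SG g' (Metric.ball τ1 η) := by
    obtain ⟨C, s, h1, h2, h3, h4⟩ := hSG
    refine ⟨C, s, h1, h2, h3, fun j hj t ht => ?_⟩
    rw [heq j hj ht]
    exact h4 j hj t ht
  have hprv := hPRV kc hk m u' R' hm hUN' g' hFI' τ1 η hη hsub hSG'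
  obtain ⟨C, s, hC, hs0, hs1, hbd⟩ := hCRC m R' g' G hR' hprv hG
  have hlaw := hLIM kc hk m u' R' hm hUN' g' G hFI' hG
  have hυ : u' 0 ≠ 0 := hUN'.nz 0 (Metric.mem_ball_self hR3)
  have hrel := hMDL m (u' 0) _ hm hυ hlaw
  obtain ⟨κ, hκ⟩ : ∃ κ : ℂ, κ = u' 0 ^ 3 / (((m : ℂ) + 1) * (m + 2)) := ⟨_, rfl⟩
  rw [← hκ] at hrel
  have hm1 : ((m : ℂ) + 1) ≠ 0 := by exact_mod_cast Nat.succ_ne_zero m
  have hm2 : ((m : ℂ) + 2) ≠ 0 := by exact_mod_cast Nat.succ_ne_zero (m + 1)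
  have hκ0 : κ ≠ 0 := by
    rw [hκ]
    exact div_ne_zero (pow_ne_zero _ hυ) (mul_ne_zero hm1 hm2)
  obtain ⟨α, hα⟩ : ∃ α : ℕ → ℂ, α = fun j => (G j 0 * ((u' 0)⁻¹) ^ j) * κ ^ j := ⟨_, rfl⟩
  have hrel' : MRel m α := by rw [hα]; exact hrel
  obtain ⟨C1, hC1⟩ := hM4 m α hm hrel' ⟨max 1 (C * (‖(u' 0)⁻¹‖ * ‖κ‖)), s, le_max_left _ _,
    hs0, hs1, fun j hj => by
      have e : ‖α j‖ = ‖G j 0‖ * (‖(u' 0)⁻¹‖ * ‖κ‖) ^ j := by
        rw [hα]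
        show ‖(G j 0 * ((u' 0)⁻¹) ^ j) * κ ^ j‖ = _
        rw [norm_mul, norm_mul, norm_pow, norm_pow, mul_pow]
        ring
      rw [e]
      have hf : 0 ≤ ((2 * j).factorial : ℝ) ^ s := by positivity
      calc ‖G j 0‖ * (‖(u' 0)⁻¹‖ * ‖κ‖) ^ j
          ≤ (C ^ j * ((2 * j).factorial : ℝ) ^ s) * (‖(u' 0)⁻¹‖ * ‖κ‖) ^ j :=
            mul_le_mul_of_nonneg_right (hbd j hj) (by positivity)
        _ = (C * (‖(u' 0)⁻¹‖ * ‖κ‖)) ^ j * ((2 * j).factorial : ℝ) ^ s := by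
            rw [mul_pow]
            ring
        _ ≤ (max 1 (C * (‖(u' 0)⁻¹‖ * ‖κ‖))) ^ j * ((2 * j).factorial : ℝ) ^ s := by
            apply mul_le_mul_of_nonneg_right _ hf
            exact pow_le_pow_left₀ (by positivity) (le_max_right _ _) _⟩
  have hα1 := hS5 m α C1 hm hrel' hC1
  have hG1 : G 1 0 = 2 := END_one hR' hFI'.one (hG 1 le_rfl)
  rw [hα] at hα1
  have hα1' : (G 1 0 * ((u' 0)⁻¹) ^ 1) * κ ^ 1 = 0 := hα1
  rw [hG1] at hα1'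
  exact (mul_ne_zero (mul_ne_zero two_ne_zero (pow_ne_zero _ (inv_ne_zero hυ)))
    (pow_ne_zero _ hκ0)) hα1'

end H738CZ
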