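import Pool.Agent.H738R3.CZ.Defs

open Complex Set Filter Topology

namespace H738CZ

theorem tFAC : StFAC := by
  intro ρ R hR hρ h0 hne
  obtain ⟨t1, ht1, ht1n⟩ := hne
  have hball : Metric.ball (0 : ℂ) R ∈ 𝓝 (0 : ℂ) := Metric.ball_mem_nhds 0 hR
  have hAon : AnalyticOnNhd ℂ ρ (Metric.ball 0 R) := hρ.analyticOnNhd Metric.isOpen_ball
  have hA : AnalyticAt ℂ ρ 0 := hAon 0 (Metric.mem_ball_self hR)
  have hnz : ¬ (∀ᶠ z in 𝓝 (0 : ℂ), ρ z = 0) := by
    intro hz
    have := hAon.eqOn_zero_of_preconnected_of_eventuallyEq_zero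
      (convex_ball (0 : ℂ) R).isPreconnected (Metric.mem_ball_self hR) hz
    exact ht1n (this ht1)
  obtain ⟨m, v, hv, hv0, hev⟩ := hA.exists_eventuallyEq_pow_smul_nonzero_iff.mpr hnz
  have hm : 1 ≤ m := by
    rcases Nat.eq_zero_or_pos m with hm | hm
    · subst hm
      exfalso
      have := hev.self_of_nhds
      simp [h0] at this
      exact hv0 this.symm
    · exact hm
  have hev2 : ∀ᶠ z in 𝓝 (0 : ℂ), ρ z = z ^ m * v z := by
    filter_upwards [hev] with z hz
    simpa using hz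
  have hvan : ∀ᶠ z in 𝓝 (0 : ℂ), AnalyticAt ℂ v z := hv.eventually_analyticAt
  have hvc : ContinuousAt v 0 := hv.continuousAt
  have hnear : ∀ᶠ z in 𝓝 (0 : ℂ), ‖v z / v 0 - 1‖ < 1 := by
    have hc : ContinuousAt (fun z => ‖v z / v 0 - 1‖) 0 := by
      exact ((hvc.div_const _).sub continuousAt_const).norm
    have h1 : (fun z => ‖v z / v 0 - 1‖) 0 < 1 := by
      simp [div_self hv0]
    exact hc.eventually (gt_mem_nhds h1)
  have hall := (hev2.and (hvan.and (hnear.and (Filter.eventually_of_mem hball (fun z hz => hz)))))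
  obtain ⟨ε, hε, hεs⟩ := Metric.eventually_nhds_iff_ball.mp hall
  -- choose R'
  obtain ⟨R', hR'0, hR'1⟩ : ∃ R' : ℝ, 0 < R' ∧ R' ^ 3 ≤ min ε R := by
    have h1 : 0 < min (min ε R) 1 := lt_min (lt_min hε hR) one_pos
    refine ⟨min (min ε R) 1, h1, ?_⟩
    have h2 : min (min ε R) 1 ≤ 1 := min_le_right _ _
    calc (min (min ε R) 1) ^ 3 ≤ (min (min ε R) 1) ^ 1 := pow_le_pow_of_le_one h1.le h2 (by norm_num)
      _ = min (min ε R) 1 := pow_one _
      _ ≤ min ε R := min_le_left _ _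
  have hsub : Metric.ball (0 : ℂ) (R' ^ 3) ⊆ Metric.ball (0 : ℂ) ε :=
    Metric.ball_subset_ball (hR'1.trans (min_le_left _ _))
  -- cube root of v 0
  set c : ℂ := (v 0) ^ (1 / 3 : ℂ) with hc
  have hc3 : c ^ 3 = v 0 := by
    rw [hc, ← Complex.cpow_nat_mul]
    norm_num
  have hc0 : c ≠ 0 := by
    intro h
    rw [h] at hc3
    exact hv0 (by rw [← hc3]; norm_num)
  refine ⟨m, R', fun z => c * (v z / v 0) ^ (1 / 3 : ℂ), hm, hR'1.trans (min_le_right _ _), ?_, ?_⟩
  · have hslit : ∀ z ∈ Metric.ball (0 : ℂ) (R' ^ 3), v z / v 0 ∈ Complex.slitPlane := by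
      intro z hz
      have h1 := (hεs z (hsub hz)).2.2.1
      left
      have h2 : |(v z / v 0 - 1).re| < 1 := lt_of_le_of_lt (Complex.abs_re_le_norm _) h1
      rw [Complex.sub_re, Complex.one_re, abs_lt] at h2
      linarith [h2.1]
    constructor
    · exact hR'0
    · intro z hz
      have h1 := (hεs z (hsub hz)).2.1
      have h2 : DifferentiableAt ℂ (fun z => c * (v z / v 0) ^ (1 / 3 : ℂ)) z := by
        refine DifferentiableAt.const_mul ?_ c
        exact (h1.differentiableAt.div_const _).cpow_const (hslit z hz)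
      exact h2.differentiableWithinAt
    · intro z hz
      refine mul_ne_zero hc0 ?_
      intro h
      rw [Complex.cpow_eq_zero_iff] at h
      exact Complex.slitPlane_ne_zero (hslit z hz) h.1
  · intro z hz
    have h1 := (hεs z (hsub hz)).1
    rw [h1, mul_pow, hc3]
    congr 1
    have h3 : ((v z / v 0) ^ (1 / 3 : ℂ)) ^ 3 = v z / v 0 := by
      rw [← Complex.cpow_nat_mul]; norm_num
    rw [h3]
    field_simp

end H738CZ
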