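import Pool.Agent.H738R3.CZ.Defs

/-! Task 5G (helper680): growth. -/

open Complex Set Filter Topology

namespace H738CZ

theorem G5_Mo {x : ℂ} (hx : 1 ≤ ‖x‖) : ‖Mo x‖ ≤ 1 := by
  unfold Mo
  have h1 : ‖x‖ ≤ ‖2 * x - 1‖ := by
    have h2 : ‖2 * x‖ - ‖(1 : ℂ)‖ ≤ ‖2 * x - 1‖ := norm_sub_norm_le _ _
    have h3 : ‖2 * x‖ = 2 * ‖x‖ := by
      rw [norm_mul]
      norm_num
    rw [h3, norm_one] at h2
    linarith
  rw [norm_div]
  exact div_le_one_of_le₀ h1 (norm_nonneg _)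

theorem G5_Bm_le (m : ℕ) {y : ℂ} (hy : ‖y‖ ≤ 1) : ‖Bm m y‖ ≤ 2 * (m : ℝ) + 4 := by
  unfold Bm
  have h1 : ‖y ^ (m + 1)‖ ≤ 1 := by
    rw [norm_pow]; exact pow_le_one₀ (norm_nonneg _) hy
  have h2 : ‖y ^ (m + 2)‖ ≤ 1 := by
    rw [norm_pow]; exact pow_le_one₀ (norm_nonneg _) hy
  have c1 : ‖((m : ℂ) + 2)‖ = (m : ℝ) + 2 := by
    have : ((m : ℂ) + 2) = (((m : ℝ) + 2 : ℝ) : ℂ) := by push_cast; ring
    rw [this, Complex.norm_real, Real.norm_eq_abs, abs_of_nonneg (by positivity)]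
  have c2 : ‖((m : ℂ) + 1)‖ = (m : ℝ) + 1 := by
    have : ((m : ℂ) + 1) = (((m : ℝ) + 1 : ℝ) : ℂ) := by push_cast; ring
    rw [this, Complex.norm_real, Real.norm_eq_abs, abs_of_nonneg (by positivity)]
  calc ‖1 - ((m : ℂ) + 2) * y ^ (m + 1) + ((m : ℂ) + 1) * y ^ (m + 2)‖
      ≤ ‖1 - ((m : ℂ) + 2) * y ^ (m + 1)‖ + ‖((m : ℂ) + 1) * y ^ (m + 2)‖ := norm_add_le _ _
    _ ≤ (‖(1 : ℂ)‖ + ‖((m : ℂ) + 2) * y ^ (m + 1)‖) + ‖((m : ℂ) + 1) * y ^ (m + 2)‖ := by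
        gcongr
        exact norm_sub_le _ _
    _ ≤ (1 + ((m : ℝ) + 2) * 1) + ((m : ℝ) + 1) * 1 := by
        rw [norm_mul, norm_mul, c1, c2, norm_one]
        gcongr
    _ = 2 * (m : ℝ) + 4 := by ring

theorem G5_Bm_ge (m : ℕ) (hm : 1 ≤ m) {x : ℂ} (hx : 1 ≤ ‖x‖) :
    ‖x‖ ^ (m + 2) ≤ (2 * ((m : ℝ) + 2)) ^ (m + 2) * (1 + ‖Bm m x‖) := by
  have hm1 : (1 : ℝ) ≤ m := by exact_mod_cast hm
  rcases le_or_gt (2 * ((m : ℝ) + 2)) ‖x‖ with h | h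
  · have c1 : ‖((m : ℂ) + 2)‖ = (m : ℝ) + 2 := by
      have : ((m : ℂ) + 2) = (((m : ℝ) + 2 : ℝ) : ℂ) := by push_cast; ring
      rw [this, Complex.norm_real, Real.norm_eq_abs, abs_of_nonneg (by positivity)]
    have c2 : ‖((m : ℂ) + 1)‖ = (m : ℝ) + 1 := by
      have : ((m : ℂ) + 1) = (((m : ℝ) + 1 : ℝ) : ℂ) := by push_cast; ring
      rw [this, Complex.norm_real, Real.norm_eq_abs, abs_of_nonneg (by positivity)]
    have e : ((m : ℂ) + 1) * x ^ (m + 2) = Bm m x + (((m : ℂ) + 2) * x ^ (m + 1) - 1) := by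
      unfold Bm; ring
    have h1 : ((m : ℝ) + 1) * ‖x‖ ^ (m + 2) ≤ ‖Bm m x‖ + (((m : ℝ) + 2) * ‖x‖ ^ (m + 1) + 1) := by
      calc ((m : ℝ) + 1) * ‖x‖ ^ (m + 2) = ‖((m : ℂ) + 1) * x ^ (m + 2)‖ := by
            rw [norm_mul, c2, norm_pow]
        _ = ‖Bm m x + (((m : ℂ) + 2) * x ^ (m + 1) - 1)‖ := by rw [e]
        _ ≤ ‖Bm m x‖ + ‖((m : ℂ) + 2) * x ^ (m + 1) - 1‖ := norm_add_le _ _
        _ ≤ ‖Bm m x‖ + (‖((m : ℂ) + 2) * x ^ (m + 1)‖ + ‖(1 : ℂ)‖) := by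
            gcongr
            exact norm_sub_le _ _
        _ = _ := by rw [norm_mul, c1, norm_pow, norm_one]
    have h2 : ((m : ℝ) + 2) * ‖x‖ ^ (m + 1) ≤ 1 / 2 * ‖x‖ ^ (m + 2) := by
      have h3 : ‖x‖ ^ (m + 2) = ‖x‖ * ‖x‖ ^ (m + 1) := by ring
      have h4 : 0 ≤ ‖x‖ ^ (m + 1) := by positivity
      rw [h3]
      nlinarith
    have h5 : 0 ≤ ‖x‖ ^ (m + 2) := by positivity
    have h6 : ‖x‖ ^ (m + 2) ≤ 1 + ‖Bm m x‖ := by nlinarith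
    have h7 : (1 : ℝ) ≤ (2 * ((m : ℝ) + 2)) ^ (m + 2) := one_le_pow₀ (by linarith)
    have h8 : 0 ≤ 1 + ‖Bm m x‖ := by positivity
    calc ‖x‖ ^ (m + 2) ≤ 1 * (1 + ‖Bm m x‖) := by rw [one_mul]; exact h6
      _ ≤ _ := mul_le_mul_of_nonneg_right h7 h8
  · have h1 : ‖x‖ ^ (m + 2) ≤ (2 * ((m : ℝ) + 2)) ^ (m + 2) :=
      pow_le_pow_left₀ (norm_nonneg _) h.le _
    have h2 : (1 : ℝ) ≤ 1 + ‖Bm m x‖ := by
      have := norm_nonneg (Bm m x); linarith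
    calc ‖x‖ ^ (m + 2) ≤ (2 * ((m : ℝ) + 2)) ^ (m + 2) * 1 := by rw [mul_one]; exact h1
      _ ≤ _ := mul_le_mul_of_nonneg_left h2 (by positivity)

/-- an entire function with `|F|^9 ≤ K (1+|q|)^8` is constant -/
theorem G5_const (F : ℂ → ℂ) (hF : Differentiable ℂ F) (K : ℝ) (hK : 0 ≤ K)
    (h : ∀ q, ‖F q‖ ^ 9 ≤ K * (1 + ‖q‖) ^ 8) : ∀ q, F q = F 0 := by
  have hd : ∀ c, deriv F c = 0 := by
    intro c
    have key : ∀ R : ℝ, 1 ≤ R → ‖deriv F c‖ ^ 9 ≤ K * (2 + ‖c‖) ^ 8 / R := by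
      intro R hR
      have hR0 : 0 < R := by linarith
      have hn := norm_nonneg c
      have hX : 0 ≤ K * (1 + ‖c‖ + R) ^ 8 := by positivity
      set C : ℝ := (K * (1 + ‖c‖ + R) ^ 8) ^ (((9 : ℕ) : ℝ)⁻¹) with hC
      have hC9 : C ^ 9 = K * (1 + ‖c‖ + R) ^ 8 := Real.rpow_inv_natCast_pow hX (by norm_num)
      have hC0 : 0 ≤ C := Real.rpow_nonneg hX _
      have h1 : ‖deriv F c‖ ≤ C / R := by
        refine Complex.norm_deriv_le_of_forall_mem_sphere_norm_le hR0 hF.diffContOnCl ?_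
        intro z hz
        have hz' : ‖z‖ ≤ ‖c‖ + R := by
          have : ‖z - c‖ = R := by
            rw [← dist_eq_norm]; exact hz
          calc ‖z‖ = ‖c + (z - c)‖ := by congr 1; ring
            _ ≤ ‖c‖ + ‖z - c‖ := norm_add_le _ _
            _ = ‖c‖ + R := by rw [this]
        have h2 : ‖F z‖ ^ 9 ≤ C ^ 9 := by
          rw [hC9]
          refine (h z).trans ?_
          apply mul_le_mul_of_nonneg_left _ hK
          apply pow_le_pow_left₀ (by positivity)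
          linarith
        exact le_of_pow_le_pow_left₀ (by norm_num) hC0 h2
      have h3 : ‖deriv F c‖ ^ 9 ≤ (C / R) ^ 9 := pow_le_pow_left₀ (norm_nonneg _) h1 _
      refine h3.trans ?_
      rw [div_pow, hC9]
      have h4 : 1 + ‖c‖ + R ≤ (2 + ‖c‖) * R := by nlinarith
      have h5 : (1 + ‖c‖ + R) ^ 8 ≤ ((2 + ‖c‖) * R) ^ 8 := pow_le_pow_left₀ (by positivity) h4 _
      rw [div_le_div_iff₀ (by positivity) hR0]
      calc K * (1 + ‖c‖ + R) ^ 8 * R ≤ K * ((2 + ‖c‖) * R) ^ 8 * R := by gcongr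
        _ = K * (2 + ‖c‖) ^ 8 * R ^ 9 := by ring
    have hlim : Tendsto (fun R : ℝ => K * (2 + ‖c‖) ^ 8 / R) atTop (𝓝 0) :=
      tendsto_const_nhds.div_atTop tendsto_id
    have h6 : ‖deriv F c‖ ^ 9 ≤ 0 :=
      ge_of_tendsto hlim (by filter_upwards [eventually_ge_atTop 1] with R hR using key R hR)
    have h7 : ‖deriv F c‖ ^ 9 = 0 := le_antisymm h6 (by positivity)
    have h8 : ‖deriv F c‖ = 0 := by
      exact pow_eq_zero_iff (by norm_num) |>.1 h7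
    exact norm_eq_zero.1 h8
  intro q
  exact is_const_of_deriv_eq_zero hF hd q 0

theorem t5G (h5P : St5P) (_h5V : St5V) : St5G := by
  intro m F hm hF hrel
  have hm1 : (1 : ℝ) ≤ m := by exact_mod_cast hm
  obtain ⟨K0, hK0⟩ := (isCompact_closedBall (0 : ℂ) (2 * (m : ℝ) + 4)).exists_bound_of_continuousOn
    hF.continuous.continuousOn
  have hK : 0 ≤ K0 := (norm_nonneg _).trans (hK0 0 (by
    rw [Metric.mem_closedBall, dist_self]; positivity))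
  set T : ℝ := (2 * ((m : ℝ) + 2)) ^ (m + 2) with hT
  have hT0 : 0 ≤ T := by positivity
  refine G5_const F hF (K0 ^ 9 * 3 ^ (3 * (2 * m + 6)) * T ^ 8 + ‖F 0‖ ^ 9) (by positivity) ?_
  intro q
  have hone : (1 : ℝ) ≤ (1 + ‖q‖) ^ 8 := one_le_pow₀ (by linarith [norm_nonneg q])
  by_cases hq : q = 0
  · subst hq
    have h1 : 0 ≤ K0 ^ 9 * 3 ^ (3 * (2 * m + 6)) * T ^ 8 := by positivity
    have h2 : 0 ≤ ‖F 0‖ ^ 9 := by positivity
    calc ‖F 0‖ ^ 9 ≤ (K0 ^ 9 * 3 ^ (3 * (2 * m + 6)) * T ^ 8 + ‖F 0‖ ^ 9) * 1 := by linarith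
      _ ≤ _ := mul_le_mul_of_nonneg_left hone (by positivity)
  · obtain ⟨x1, hx1, hB, -, c, -, hc3, hcF⟩ := h5P m F (‖q‖ + 1) hm (by positivity)
      hF.differentiableOn hrel q hq (by linarith)
    have e3 := hc3.self_of_nhds
    have eF := hcF.self_of_nhds (by rw [hB]; linarith)
    rw [hB] at eF
    set t := ‖x1‖ with ht
    have hy : ‖F (Bm m (Mo x1))‖ ≤ K0 := by
      apply hK0
      rw [Metric.mem_closedBall, dist_zero_right]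
      exact G5_Bm_le m (G5_Mo hx1)
    have h2x : ‖2 * x1 - 1‖ ≤ 3 * t := by
      calc ‖2 * x1 - 1‖ ≤ ‖2 * x1‖ + ‖(1 : ℂ)‖ := norm_sub_le _ _
        _ = 2 * t + 1 := by rw [norm_mul, norm_one, ← ht]; norm_num
        _ ≤ 3 * t := by linarith
    have hc9 : ‖c x1‖ ^ 9 ≤ (3 * t) ^ (3 * (2 * m + 6)) := by
      have h4 : ‖c x1‖ ^ 9 = ‖2 * x1 - 1‖ ^ (3 * (2 * m + 6)) := by
        have h5 : ‖c x1‖ ^ 3 = ‖2 * x1 - 1‖ ^ (2 * m + 6) := by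
          rw [← norm_pow, e3, norm_pow]
        calc ‖c x1‖ ^ 9 = (‖c x1‖ ^ 3) ^ 3 := by ring
          _ = _ := by rw [h5, ← pow_mul]; congr 1; ring
      rw [h4]
      exact pow_le_pow_left₀ (norm_nonneg _) h2x _
    have ht8 : t ^ (3 * (2 * m + 6)) ≤ (T * (1 + ‖q‖)) ^ 8 := by
      calc t ^ (3 * (2 * m + 6)) ≤ t ^ (8 * (m + 2)) := pow_le_pow_right₀ hx1 (by omega)
        _ = (t ^ (m + 2)) ^ 8 := by rw [← pow_mul]; congr 1; ring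
        _ ≤ (T * (1 + ‖q‖)) ^ 8 := by
            apply pow_le_pow_left₀ (by positivity)
            have := G5_Bm_ge m hm hx1
            rw [hB] at this
            exact this
    have hfin : ‖F q‖ ^ 9 ≤ K0 ^ 9 * 3 ^ (3 * (2 * m + 6)) * T ^ 8 * (1 + ‖q‖) ^ 8 := by
      calc ‖F q‖ ^ 9 = ‖c x1‖ ^ 9 * ‖F (Bm m (Mo x1))‖ ^ 9 := by
            rw [eF, norm_mul, mul_pow]
        _ ≤ (3 * t) ^ (3 * (2 * m + 6)) * K0 ^ 9 := by
            apply mul_le_mul hc9 (pow_le_pow_left₀ (norm_nonneg _) hy _) (by positivity)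
              (by positivity)
        _ = 3 ^ (3 * (2 * m + 6)) * t ^ (3 * (2 * m + 6)) * K0 ^ 9 := by rw [mul_pow]
        _ ≤ 3 ^ (3 * (2 * m + 6)) * (T * (1 + ‖q‖)) ^ 8 * K0 ^ 9 := by gcongr
        _ = _ := by rw [mul_pow]; ring
    refine hfin.trans ?_
    apply mul_le_mul_of_nonneg_right _ (by positivity)
    have : 0 ≤ ‖F 0‖ ^ 9 := by positivity
    linarith

end H738CZ
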