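import Pool.Agent.H738R3.CZ.Defs

open Complex Set Filter Topology

namespace H738CZ

theorem GLU_cover (q R : ℝ) (hq : 1 ≤ q) (hR : 1 ≤ R) (Z : ℂ) (hZ : 2 * R ≤ ‖Z‖) :
    Z ∈ Vq q R ∨ -Z ∈ Vq q R := by
  by_contra h
  push Not at h
  obtain ⟨h1, h2⟩ := h
  simp only [Vq, Set.mem_ofPred_eq, not_lt, neg_im, neg_re, abs_neg] at h1 h2
  have h3 : |Z.re| ≤ R - q * |Z.im| := abs_le.mpr ⟨by linarith, h1⟩
  have h4 := Complex.norm_le_abs_re_add_abs_im Z
  have h5 : |Z.im| ≤ q * |Z.im| := by nlinarith [abs_nonneg Z.im]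
  linarith

theorem GLU_even (α : ℕ → ℂ) (N : ℕ) (w : ℂ) : SN α N (-w) = SN α N w := by
  unfold SN
  refine Finset.sum_congr rfl fun j _ => ?_
  rw [pow_mul, pow_mul, neg_sq]

/-- the iteration step data -/
def GLU_P (α : ℕ → ℂ) (r : ℝ) (j : ℕ) (f : ℂ → ℂ) : Prop :=
  DifferentiableOn ℂ f (Metric.ball 0 r) ∧ f 0 = α j ∧
    ∀ N : ℕ, 1 ≤ N → ∃ C : ℝ, ∀ w ∈ Metric.ball (0 : ℂ) r, w ≠ 0 →
      ‖f w - SN (fun i => α (j + i)) N w‖ ≤ C * ‖w‖ ^ (2 * N)

theorem GLU_analytic0 (f : ℂ → ℂ) (r : ℝ) (hr : 0 < r)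
    (hd : ∀ w ∈ Metric.ball (0 : ℂ) r, w ≠ 0 → DifferentiableAt ℂ f w)
    (hc : ContinuousAt f 0) : DifferentiableOn ℂ f (Metric.ball 0 r) := by
  intro w hw
  by_cases h0 : w = 0
  · subst h0
    have : AnalyticAt ℂ f 0 := by
      apply Complex.analyticAt_of_differentiable_on_punctured_nhds_of_continuousAt _ hc
      rw [eventually_nhdsWithin_iff]
      filter_upwards [Metric.ball_mem_nhds (0 : ℂ) hr] with z hz hz0
      exact hd z hz hz0
    exact this.differentiableAt.differentiableWithinAt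
  · exact (hd w hw h0).differentiableWithinAt

theorem GLU_cont (α : ℕ → ℂ) (r : ℝ) (hr : 0 < r) (j : ℕ) (f : ℂ → ℂ) (hf0 : f 0 = α j) (C : ℝ)
    (h : ∀ w ∈ Metric.ball (0 : ℂ) r, w ≠ 0 → ‖f w - SN (fun i => α (j + i)) 1 w‖ ≤ C * ‖w‖ ^ 2) :
    ContinuousAt f 0 := by
  have h1 : ∀ᶠ w in 𝓝 (0 : ℂ), ‖f w - f 0‖ ≤ |C| * ‖w‖ ^ 2 := by
    filter_upwards [Metric.ball_mem_nhds (0 : ℂ) hr] with w hw
    by_cases hw0 : w = 0
    · subst hw0; simp
    · have := h w hw hw0
      simp only [SN, Finset.range_one, Finset.sum_singleton, mul_zero, pow_zero, mul_one,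
        add_zero] at this
      rw [hf0]
      exact this.trans (mul_le_mul_of_nonneg_right (le_abs_self C) (by positivity))
  have h2 : Tendsto (fun w : ℂ => |C| * ‖w‖ ^ 2) (𝓝 0) (𝓝 0) := by
    have : Continuous fun w : ℂ => |C| * ‖w‖ ^ 2 := by fun_prop
    simpa using this.tendsto 0
  rw [ContinuousAt, tendsto_iff_norm_sub_tendsto_zero]
  exact squeeze_zero' (Eventually.of_forall fun _ => norm_nonneg _) h1 h2

theorem GLU_step (α : ℕ → ℂ) (r : ℝ) (hr : 0 < r) (j : ℕ) (f : ℂ → ℂ) (hf : GLU_P α r j f) :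
    ∃ g : ℂ → ℂ, GLU_P α r (j + 1) g ∧
      ∀ w ∈ Metric.ball (0 : ℂ) r, w ≠ 0 → g w = (f w - α j) / w ^ 2 := by
  classical
  obtain ⟨hd, h0, hN⟩ := hf
  refine ⟨fun w => if w = 0 then α (j + 1) else (f w - α j) / w ^ 2, ?_, ?_⟩
  swap
  · intro w _ hw; simp [hw]
  have hNg : ∀ N : ℕ, 1 ≤ N → ∃ C : ℝ, ∀ w ∈ Metric.ball (0 : ℂ) r, w ≠ 0 →
      ‖(if w = 0 then α (j + 1) else (f w - α j) / w ^ 2) - SN (fun i => α (j + 1 + i)) N w‖
        ≤ C * ‖w‖ ^ (2 * N) := by
    intro N hN1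
    obtain ⟨C, hC⟩ := hN (N + 1) (by omega)
    refine ⟨C, fun w hw hw0 => ?_⟩
    rw [if_neg hw0]
    have hw2 : w ^ 2 ≠ 0 := pow_ne_zero _ hw0
    have e1 : (f w - α j) / w ^ 2 - SN (fun i => α (j + 1 + i)) N w
        = (f w - SN (fun i => α (j + i)) (N + 1) w) / w ^ 2 := by
      have : SN (fun i => α (j + i)) (N + 1) w
          = α j + w ^ 2 * SN (fun i => α (j + 1 + i)) N w := by
        unfold SN
        rw [Finset.sum_range_succ', Finset.mul_sum, add_comm]
        simp only [mul_zero, pow_zero, mul_one, add_zero]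
        congr 1
        refine Finset.sum_congr rfl fun i _ => ?_
        rw [show j + (i + 1) = j + 1 + i by ring]
        ring
      rw [this]
      field_simp
      ring
    rw [e1, norm_div, norm_pow]
    have hwp : 0 < ‖w‖ ^ 2 := pow_pos (norm_pos_iff.mpr hw0) 2
    rw [div_le_iff₀ hwp]
    calc _ ≤ C * ‖w‖ ^ (2 * (N + 1)) := hC w hw hw0
      _ = C * ‖w‖ ^ (2 * N) * ‖w‖ ^ 2 := by ring
  refine ⟨?_, by simp, hNg⟩
  apply GLU_analytic0 _ r hr
  · intro w hw hw0
    have hfw : DifferentiableAt ℂ f w := hd.differentiableAt (Metric.isOpen_ball.mem_nhds hw)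
    have : DifferentiableAt ℂ (fun w => (f w - α j) / w ^ 2) w :=
      (hfw.sub_const _).div (differentiableAt_id.pow 2) (pow_ne_zero _ hw0)
    refine this.congr_of_eventuallyEq ?_
    filter_upwards [isOpen_ne.mem_nhds hw0] with z hz
    have hz' : z ≠ 0 := hz
    simp [hz']
  · obtain ⟨C, hC⟩ := hNg 1 le_rfl
    exact GLU_cont α r hr (j + 1) _ (by simp) C (by simpa using hC)

theorem tGLU : StGLU := by
  intro α q R C2 s H hq hR hs hE hsym
  classical
  set r : ℝ := (2 * R)⁻¹ with hr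
  have hr0 : 0 < r := by positivity
  have hr1 : r ≤ 1 := by
    rw [hr]; exact inv_le_one_of_one_le₀ (by linarith)
  set h : ℂ → ℂ := fun w => if w = 0 then α 0 else if w⁻¹ ∈ Vq q R then H w⁻¹ else H (-w⁻¹) with hh
  have hZ : ∀ w ∈ Metric.ball (0 : ℂ) r, w ≠ 0 → 2 * R ≤ ‖w⁻¹‖ := by
    intro w hw hw0
    rw [mem_ball_zero_iff] at hw
    rw [norm_inv, le_inv_comm₀ (by positivity) (norm_pos_iff.mpr hw0)]
    exact hw.le
  have hcov : ∀ w ∈ Metric.ball (0 : ℂ) r, w ≠ 0 → w⁻¹ ∈ Vq q R ∨ -w⁻¹ ∈ Vq q R :=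
    fun w hw hw0 => GLU_cover q R hq hR _ (hZ w hw hw0)
  have hVo : IsOpen (Vq q R) := by
    unfold Vq
    exact isOpen_lt (by fun_prop) (by fun_prop)
  have hb2 : ∀ N : ℕ, 2 ≤ N → ∃ C : ℝ, ∀ w ∈ Metric.ball (0 : ℂ) r, w ≠ 0 →
      ‖h w - SN α N w‖ ≤ C * ‖w‖ ^ (2 * N) := by
    intro N hN
    refine ⟨C2 ^ N * ((2 * N).factorial : ℝ) ^ s, fun w hw hw0 => ?_⟩
    simp only [hh, if_neg hw0]
    by_cases hm : w⁻¹ ∈ Vq q R
    · rw [if_pos hm]
      have := hE.as N hN _ hm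
      rwa [inv_inv, norm_inv, inv_inv] at this
    · rw [if_neg hm]
      have hm' := (hcov w hw hw0).resolve_left hm
      have := hE.as N hN _ hm'
      rwa [inv_neg, inv_inv, GLU_even, norm_neg, norm_inv, inv_inv] at this
  have hP0 : GLU_P α r 0 h := by
    have hNall : ∀ N : ℕ, 1 ≤ N → ∃ C : ℝ, ∀ w ∈ Metric.ball (0 : ℂ) r, w ≠ 0 →
        ‖h w - SN (fun i => α (0 + i)) N w‖ ≤ C * ‖w‖ ^ (2 * N) := by
      intro N hN
      simp only [zero_add]
      rcases Nat.lt_or_ge N 2 with h2 | h2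
      · have : N = 1 := by omega
        subst this
        obtain ⟨C, hC⟩ := hb2 2 le_rfl
        refine ⟨|C| + ‖α 1‖, fun w hw hw0 => ?_⟩
        have h3 := hC w hw hw0
        have e : h w - SN α 1 w = (h w - SN α 2 w) + α 1 * w ^ 2 := by
          simp only [SN, Finset.sum_range_succ, Finset.range_zero, Finset.sum_empty, mul_zero,
            pow_zero, mul_one, zero_add]
          ring
        have hw1 : ‖w‖ ≤ 1 := by
          rw [mem_ball_zero_iff] at hw; linarith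
        rw [e]
        calc _ ≤ ‖h w - SN α 2 w‖ + ‖α 1 * w ^ 2‖ := norm_add_le _ _
          _ ≤ |C| * ‖w‖ ^ (2 * 1) + ‖α 1‖ * ‖w‖ ^ (2 * 1) := by
              rw [norm_mul, norm_pow]
              refine add_le_add (h3.trans ?_) (by simp)
              have : ‖w‖ ^ (2 * 2) ≤ ‖w‖ ^ (2 * 1) :=
                pow_le_pow_of_le_one (norm_nonneg _) hw1 (by norm_num)
              calc _ ≤ |C| * ‖w‖ ^ (2 * 2) :=
                    mul_le_mul_of_nonneg_right (le_abs_self C) (by positivity)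
                _ ≤ _ := mul_le_mul_of_nonneg_left this (abs_nonneg C)
          _ = _ := by ring
      · exact hb2 N h2
    refine ⟨?_, by simp [hh], hNall⟩
    apply GLU_analytic0 _ r hr0
    · intro w hw hw0
      have hinv : DifferentiableAt ℂ (fun w : ℂ => w⁻¹) w := differentiableAt_inv hw0
      by_cases hm : w⁻¹ ∈ Vq q R
      · have : DifferentiableAt ℂ (fun w => H w⁻¹) w :=
          DifferentiableAt.comp (g := H) w (hE.dH.differentiableAt (hVo.mem_nhds hm)) hinv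
        refine this.congr_of_eventuallyEq ?_
        filter_upwards [isOpen_ne.mem_nhds hw0,
          hinv.continuousAt.preimage_mem_nhds (hVo.mem_nhds hm)] with z hz hz2
        simp only [mem_preimage] at hz2
        have hz' : z ≠ 0 := hz
        simp [hh, hz', hz2]
      · have hm' := (hcov w hw hw0).resolve_left hm
        have hinv2 : DifferentiableAt ℂ (fun w : ℂ => -w⁻¹) w := hinv.neg
        have : DifferentiableAt ℂ (fun w => H (-w⁻¹)) w :=
          DifferentiableAt.comp (g := H) w (hE.dH.differentiableAt (hVo.mem_nhds hm')) hinv2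
        refine this.congr_of_eventuallyEq ?_
        filter_upwards [isOpen_ne.mem_nhds hw0,
          hinv2.continuousAt.preimage_mem_nhds (hVo.mem_nhds hm')] with z hz hz2
        simp only [mem_preimage] at hz2
        have hz' : z ≠ 0 := hz
        by_cases hz3 : z⁻¹ ∈ Vq q R
        · simp only [hh, hz', if_false, hz3, if_true]
          exact hsym _ hz3 hz2
        · simp [hh, hz', hz3]
    · obtain ⟨C, hC⟩ := hNall 1 le_rfl
      exact GLU_cont α r hr0 0 _ (by simp [hh]) C (by simpa using hC)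
  -- bound on the closed ball of radius r/2
  set ρ : ℝ := r / 2 with hρ
  have hρ0 : 0 < ρ := by positivity
  have hρr : ρ < r := by rw [hρ]; linarith
  have hsub : Metric.closedBall (0 : ℂ) ρ ⊆ Metric.ball 0 r := Metric.closedBall_subset_ball hρr
  obtain ⟨M0, hM0⟩ := (isCompact_closedBall (0 : ℂ) ρ).exists_bound_of_continuousOn
    (hP0.1.continuousOn.mono hsub)
  set M : ℝ := max M0 1 with hM
  have hM1 : 1 ≤ M := le_max_right _ _
  set A : ℝ := 2 / ρ ^ 2 with hA
  have hA0 : 0 < A := by positivity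
  have key : ∀ j : ℕ, ∃ f : ℂ → ℂ, GLU_P α r j f ∧
      ∀ z ∈ Metric.closedBall (0 : ℂ) ρ, ‖f z‖ ≤ M * A ^ j := by
    intro j
    induction j with
    | zero => exact ⟨h, hP0, fun z hz => by
        rw [pow_zero, mul_one]; exact (hM0 z hz).trans (le_max_left _ _)⟩
    | succ j ih =>
      obtain ⟨f, hf, hfb⟩ := ih
      obtain ⟨g, hg, hgf⟩ := GLU_step α r hr0 j f hf
      refine ⟨g, hg, ?_⟩
      have hcl : closure (Metric.ball (0 : ℂ) ρ) = Metric.closedBall 0 ρ :=
        closure_ball _ hρ0.ne'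
      have hdc : DiffContOnCl ℂ g (Metric.ball 0 ρ) := by
        refine ⟨hg.1.mono (Metric.ball_subset_closedBall.trans hsub), ?_⟩
        rw [hcl]; exact hg.1.continuousOn.mono hsub
      intro z hz
      rw [← hcl] at hz
      refine Complex.norm_le_of_forall_mem_frontier_norm_le Metric.isBounded_ball hdc ?_ hz
      intro w hw
      rw [frontier_ball _ hρ0.ne', mem_sphere_zero_iff_norm] at hw
      have hw0 : w ≠ 0 := by
        intro hw0; rw [hw0, norm_zero] at hw; linarith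
      have hwc : w ∈ Metric.closedBall (0 : ℂ) ρ := by
        rw [mem_closedBall_zero_iff]; exact hw.le
      rw [hgf w (hsub hwc) hw0, norm_div, norm_pow, hw]
      have h0 : ‖α j‖ ≤ M * A ^ j := by
        rw [← hf.2.1]; exact hfb 0 (by simp [hρ0.le])
      have h1 : ‖f w - α j‖ ≤ 2 * (M * A ^ j) := by
        refine (norm_sub_le _ _).trans ?_
        have := hfb w hwc
        linarith
      calc ‖f w - α j‖ / ρ ^ 2 ≤ 2 * (M * A ^ j) / ρ ^ 2 := by gcongr
        _ = M * A ^ (j + 1) := by rw [hA]; ring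
  refine ⟨M * A, fun j hj => ?_⟩
  obtain ⟨f, hf, hfb⟩ := key j
  have h0 : ‖α j‖ ≤ M * A ^ j := by
    rw [← hf.2.1]; exact hfb 0 (by simp [hρ0.le])
  refine h0.trans ?_
  rw [mul_pow]
  have : M ≤ M ^ j := by
    calc M = M ^ 1 := (pow_one M).symm
      _ ≤ M ^ j := pow_le_pow_right₀ hM1 hj
  gcongr

end H738CZ
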