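import Pool.Agent.H738R3.CZ.Defs

set_option autoImplicit false

open Complex Set Filter Topology

namespace H738CZ

theorem HAD_triv {m M θ : ℝ} (hm : 0 < m) (hmM : m ≤ M) (h1 : θ < 1) :
    m ≤ M ^ (1 - θ) * m ^ θ := by
  have e : m = m ^ (1 - θ) * m ^ θ := by
    rw [← Real.rpow_add hm, sub_add_cancel, Real.rpow_one]
  calc m = m ^ (1 - θ) * m ^ θ := e
    _ ≤ M ^ (1 - θ) * m ^ θ :=
      mul_le_mul_of_nonneg_right (Real.rpow_le_rpow hm.le hmM (by linarith))
        (Real.rpow_nonneg hm.le _)

theorem HAD_pow {m M θ s : ℝ} (hm : 0 < m) (hmM : m ≤ M) (h1 : θ ≤ 1 - s) :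
    m ^ (1 - s) * M ^ s ≤ M ^ (1 - θ) * m ^ θ := by
  have hM : 0 < M := hm.trans_le hmM
  have e1 : m ^ (1 - s) = m ^ θ * m ^ (1 - s - θ) := by
    rw [← Real.rpow_add hm]; congr 1; ring
  have e2 : M ^ (1 - θ) = M ^ (1 - s - θ) * M ^ s := by
    rw [← Real.rpow_add hM]; congr 1; ring
  rw [e1, e2]
  have h2 : m ^ (1 - s - θ) ≤ M ^ (1 - s - θ) := Real.rpow_le_rpow hm.le hmM (by linarith)
  have h3 : 0 ≤ m ^ θ := Real.rpow_nonneg hm.le _
  have h4 : 0 ≤ M ^ s := Real.rpow_nonneg hM.le _
  calc m ^ θ * m ^ (1 - s - θ) * M ^ s ≤ m ^ θ * M ^ (1 - s - θ) * M ^ s :=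
        mul_le_mul_of_nonneg_right (mul_le_mul_of_nonneg_left h2 h3) h4
    _ = M ^ (1 - s - θ) * M ^ s * m ^ θ := by ring

theorem tHAD : StHAD := by
  intro r R hr hrR
  have hR : 0 < R := hr.trans hrR
  set l : ℝ := Real.log (r / 2) with hl
  set u : ℝ := Real.log (3 * R / 4) with hu
  have hlu : l < u := Real.log_lt_log (by positivity) (by linarith)
  have hlog : 0 < Real.log (3 / 2) := Real.log_pos (by norm_num)
  have hul : 0 < u - l := sub_pos.2 hlu
  refine ⟨Real.log (3 / 2) / (u - l), div_pos hlog hul, ?_, ?_⟩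
  · rw [div_lt_one hul, hl, hu, ← Real.log_div (by positivity) (by positivity)]
    apply Real.log_lt_log (by norm_num)
    rw [lt_div_iff₀ (by positivity)]
    linarith
  intro a f M m hf hm hmM hM hmb t ht
  have hθ1 : Real.log (3 / 2) / (u - l) < 1 := by
    rw [div_lt_one hul, hl, hu, ← Real.log_div (by positivity) (by positivity)]
    apply Real.log_lt_log (by norm_num)
    rw [lt_div_iff₀ (by positivity)]
    linarith
  by_cases htr : ‖t - a‖ < r
  · have h1 : ‖f t‖ ≤ m := hmb t (by rwa [mem_ball_iff_norm])
    exact h1.trans (HAD_triv hm hmM hθ1)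
  · rw [not_lt] at htr
    rw [mem_ball_iff_norm] at ht
    have hta : t - a ≠ 0 := by
      intro h
      rw [h, norm_zero] at htr
      linarith
    set z : ℂ := Complex.log (t - a) with hz
    have hze : a + Complex.exp z = t := by
      rw [hz, Complex.exp_log hta]; ring
    have hzre : z.re = Real.log ‖t - a‖ := Complex.log_re _
    have hpos : 0 < ‖t - a‖ := norm_pos_iff.2 hta
    have hz1 : l ≤ z.re := by
      rw [hzre, hl]
      exact Real.log_le_log (by positivity) (by linarith)
    have hz2 : z.re ≤ Real.log (R / 2) := by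
      rw [hzre]
      exact Real.log_le_log hpos ht.le
    have hz3 : Real.log (R / 2) ≤ u := Real.log_le_log (by positivity) (by linarith)
    have hexp : ∀ w : ℂ, w.re ≤ u → ‖Complex.exp w‖ < R := by
      intro w hw
      rw [Complex.norm_exp]
      calc Real.exp w.re ≤ Real.exp u := Real.exp_le_exp.2 hw
        _ = 3 * R / 4 := by rw [hu, Real.exp_log (by positivity)]
        _ < R := by linarith
    have hball : ∀ w : ℂ, w.re ≤ u → a + Complex.exp w ∈ Metric.ball a R := by
      intro w hw
      rw [mem_ball_iff_norm, add_sub_cancel_left]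
      exact hexp w hw
    have hcl : closure (HadamardThreeLines.verticalStrip l u) ⊆
        HadamardThreeLines.verticalClosedStrip l u := by
      refine closure_minimal ?_ (isClosed_Icc.preimage Complex.continuous_re)
      intro w hw
      exact Ioo_subset_Icc_self hw
    have hd : DiffContOnCl ℂ (fun w : ℂ => f (a + Complex.exp w))
        (HadamardThreeLines.verticalStrip l u) := by
      apply DifferentiableOn.diffContOnCl
      refine DifferentiableOn.comp (t := Metric.ball a R) hf ?_ ?_
      · exact ((differentiable_const a).add Complex.differentiable_exp).differentiableOn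
      · intro w hw
        exact hball w (hcl hw).2
    have key := HadamardThreeLines.norm_le_interp_of_mem_verticalClosedStrip'
      (f := fun w : ℂ => f (a + Complex.exp w)) (z := z) (a := m) (b := M) hlu
      ⟨hz1, hz2.trans hz3⟩ hd ?_ ?_ ?_
    · simp only [hze] at key
      refine key.trans (HAD_pow hm hmM ?_)
      have e : 1 - (z.re - l) / (u - l) = (u - z.re) / (u - l) := by
        field_simp
        ring
      rw [e]
      apply div_le_div_of_nonneg_right _ hul.le
      have e2 : Real.log (3 / 2) = u - Real.log (R / 2) := by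
        rw [hu, ← Real.log_div (by positivity) (by positivity)]
        congr 1
        field_simp
        norm_num
      rw [e2]
      linarith
    · refine ⟨M, ?_⟩
      rintro _ ⟨w, hw, rfl⟩
      exact hM _ (hball w hw.2)
    · intro w hw
      have hw' : w.re = l := hw
      apply hmb
      rw [mem_ball_iff_norm, add_sub_cancel_left, Complex.norm_exp, hw', hl,
        Real.exp_log (by positivity)]
      linarith
    · intro w hw
      have hw' : w.re = u := hw
      exact hM _ (hball w hw'.le)

end H738CZ
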