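import Pool.Agent.H738R3.CZ.Defs

/-!
The sectorial solution (HV).
-/

set_option autoImplicit false

open Complex Set Filter Topology

namespace H738CZ

theorem HV_open (q R : ℝ) : IsOpen (Vq q R) := by
  unfold Vq
  exact isOpen_lt (continuous_const.sub (continuous_const.mul Complex.continuous_im.abs))
    Complex.continuous_re

theorem HV_part (x : ℝ) (hx : 1 ≤ x) (n : ℕ) :
    ∑ k ∈ Finset.range n, ((x + k) ^ 2)⁻¹ ≤ 2 / x - 2 / (x + n) := by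
  induction n with
  | zero => simp
  | succ n ih =>
    rw [Finset.sum_range_succ]
    have hn : (0:ℝ) ≤ n := Nat.cast_nonneg n
    have h1 : 0 < x + n := by linarith
    have h2 : 0 < x + (n + 1 : ℕ) := by push_cast; linarith
    have h3 : ((x + n) ^ 2)⁻¹ ≤ 2 / (x + n) - 2 / (x + (n + 1 : ℕ)) := by
      rw [div_sub_div _ _ h1.ne' h2.ne', inv_eq_one_div, div_le_div_iff₀ (by positivity)
        (by positivity)]
      push_cast
      nlinarith [mul_pos h1 h1]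
    linarith

theorem HV_sum (x : ℝ) (hx : 1 ≤ x) : Summable (fun k : ℕ => ((x + k) ^ 2)⁻¹) ∧
    ∑' k : ℕ, ((x + k) ^ 2)⁻¹ ≤ 2 / x := by
  have h0 : ∀ k : ℕ, 0 ≤ ((x + (k:ℝ)) ^ 2)⁻¹ := fun k => by positivity
  have h1 : ∀ n : ℕ, ∑ k ∈ Finset.range n, ((x + (k:ℝ)) ^ 2)⁻¹ ≤ 2 / x := by
    intro n
    have hn : (0:ℝ) ≤ n := Nat.cast_nonneg n
    have h2 : 0 ≤ 2 / (x + n) := by positivity
    have := HV_part x hx n
    linarith
  exact ⟨summable_of_sum_range_le h0 h1, Real.tsum_le_of_sum_range_le h0 h1⟩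

theorem HV_diff (α : ℕ → ℂ) (w : ℂ) (hw : ‖w‖ ≤ 1) (N : ℕ) (hN : 2 ≤ N) :
    ‖SN α N w - SN α 2 w‖ ≤ (∑ j ∈ Finset.range N, ‖α j‖) * ‖w‖ ^ 4 := by
  induction N, hN using Nat.le_induction with
  | base =>
    rw [sub_self, norm_zero]
    positivity
  | succ N hN ih =>
    have e : SN α (N + 1) w - SN α 2 w = (SN α N w - SN α 2 w) + α N * w ^ (2 * N) := by
      unfold SN
      rw [Finset.sum_range_succ]
      ring
    rw [e, Finset.sum_range_succ, add_mul]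
    refine (norm_add_le _ _).trans (add_le_add ih ?_)
    rw [norm_mul, norm_pow]
    exact mul_le_mul_of_nonneg_left (pow_le_pow_of_le_one (norm_nonneg _) hw (by omega))
      (norm_nonneg _)

theorem HV_main (hPET : StPET) (hPRD : StPRD) (f e : ℂ → ℂ) (A R0 : ℝ) (α : ℕ → ℂ)
    (r1 C1 s : ℝ) (hPF : PF f e A R0) (hr1 : 0 < r1) (hC1 : 1 ≤ C1) (hs : 0 ≤ s)
    (hd : ∀ N : ℕ, DifferentiableOn ℂ (fun Z => SN α N Z⁻¹ - e Z * SN α N (f Z)⁻¹)
      {Z | R0 < ‖Z‖})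
    (hb : ∀ N : ℕ, 1 ≤ N → ∀ Z : ℂ, ‖Z⁻¹‖ ≤ r1 → ‖SN α N Z⁻¹ - e Z * SN α N (f Z)⁻¹‖ ≤
      C1 ^ N * ((2 * N).factorial : ℝ) ^ s * ‖Z⁻¹‖ ^ (2 * N + 1))
    (q : ℝ) (hq : 1 ≤ q) : ∃ (R C2 : ℝ) (H : ℂ → ℂ), 1 ≤ R ∧ Exp α q R C2 s H := by
  obtain ⟨R, c0, hR, hP⟩ := hPET f e A R0 hPF q (max 1 ((1 + q) / r1)) hq
  obtain ⟨C, hC, hprod⟩ := hPRD f e A R0 hPF q R c0 hq hP
  have hR1 : 1 ≤ R := (le_max_left _ _).trans hR
  have hR2 : (1 + q) / r1 ≤ R := (le_max_right _ _).trans hR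
  set c : ℝ := min c0 1 with hc
  have hcp : 0 < c := lt_min hP.c0 one_pos
  have hc1 : c ≤ 1 := min_le_right _ _
  -- elementary facts in the petal
  have hbig : ∀ Z ∈ Vq q R, 1 ≤ ‖Z‖ := fun Z hZ => (hPF.R1).trans (hP.big Z hZ).le
  have hinv : ∀ Z ∈ Vq q R, ‖Z⁻¹‖ ≤ r1 := by
    intro Z hZ
    have h1 : R - q * |Z.im| < Z.re := hZ
    have h2 : Z.re ≤ ‖Z‖ := (le_abs_self _).trans (Complex.abs_re_le_norm Z)
    have h3 : |Z.im| ≤ ‖Z‖ := Complex.abs_im_le_norm Z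
    have h4 : R < (1 + q) * ‖Z‖ := by nlinarith
    rw [div_le_iff₀ hr1] at hR2
    have hZ1 := hbig Z hZ
    rw [norm_inv, inv_le_comm₀ (by linarith) hr1, inv_eq_one_div, div_le_iff₀ hr1]
    have h5 : (1 + q) * 1 ≤ (1 + q) * (‖Z‖ * r1) := by nlinarith
    exact le_of_mul_le_mul_left h5 (by linarith)
  have hit : ∀ (k : ℕ), ∀ Z ∈ Vq q R, f^[k] Z ∈ Vq q R := fun k Z hZ =>
    (hP.maps.iterate k) hZ
  have horb : ∀ (k : ℕ) (Z : ℂ), Z ∈ Vq q R → c * (‖Z‖ + k) ≤ ‖f^[k] Z‖ := by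
    intro k Z hZ
    refine le_trans ?_ (hP.orb k Z hZ)
    exact mul_le_mul_of_nonneg_right (min_le_left _ _) (by positivity)
  -- the terms
  set P : ℕ → ℂ → ℂ := fun k Z => ∏ i ∈ Finset.range k, e (f^[i] Z) with hPd
  set d : ℕ → ℂ → ℂ := fun N Z => SN α N Z⁻¹ - e Z * SN α N (f Z)⁻¹ with hdd
  set u : ℕ → ℕ → ℂ → ℂ := fun N k Z => P k Z * d N (f^[k] Z) with hu
  set K : ℕ → ℝ := fun n => C * (C1 ^ (n + 2) * ((2 * (n + 2)).factorial : ℝ) ^ s) *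
    (c⁻¹) ^ (2 * n + 3) with hK
  have hKp : ∀ n, 0 ≤ K n := fun n => by positivity
  have hub : ∀ (n k : ℕ) (Z : ℂ), Z ∈ Vq q R →
      ‖u (n + 2) k Z‖ ≤ K n * (‖Z‖⁻¹) ^ (2 * n + 3) * ((‖Z‖ + k) ^ 2)⁻¹ := by
    intro n k Z hZ
    have hx := hbig Z hZ
    have hxp : 0 < ‖Z‖ := by linarith
    have hZk := hit k Z hZ
    have hy := hbig _ hZk
    have hyp : 0 < ‖f^[k] Z‖ := by linarith
    have ho := horb k Z hZ
    have hk0 : (0:ℝ) ≤ k := Nat.cast_nonneg k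
    have h1 : ‖P k Z‖ ≤ C * (‖f^[k] Z‖ ^ 2 / ‖Z‖ ^ 2) := hprod k Z hZ
    have h2 := hb (n + 2) (by omega) (f^[k] Z) (hinv _ hZk)
    rw [norm_inv] at h2
    set x := ‖Z‖ with hxd
    set y := ‖f^[k] Z‖ with hyd
    set B : ℝ := C1 ^ (n + 2) * ((2 * (n + 2)).factorial : ℝ) ^ s with hB
    have hBp : 0 ≤ B := by positivity
    have hyx : y⁻¹ ≤ c⁻¹ * (x + k)⁻¹ := by
      rw [← mul_inv]
      exact inv_anti₀ (by positivity) ho
    have h3 : (y⁻¹) ^ (2 * n + 3) ≤ (c⁻¹) ^ (2 * n + 3) * ((x⁻¹) ^ (2 * n + 1) *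
        ((x + k) ^ 2)⁻¹) := by
      calc (y⁻¹) ^ (2 * n + 3) ≤ (c⁻¹ * (x + k)⁻¹) ^ (2 * n + 3) :=
            pow_le_pow_left₀ (by positivity) hyx _
        _ = (c⁻¹) ^ (2 * n + 3) * (((x + k)⁻¹) ^ (2 * n + 1) * ((x + k) ^ 2)⁻¹) := by
            rw [mul_pow, show 2 * n + 3 = (2 * n + 1) + 2 by ring, pow_add (x + k : ℝ)⁻¹,
              inv_pow (x + k : ℝ) 2]
        _ ≤ _ := by
            refine mul_le_mul_of_nonneg_left ?_ (by positivity)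
            refine mul_le_mul_of_nonneg_right ?_ (by positivity)
            refine pow_le_pow_left₀ (by positivity) ?_ _
            exact inv_anti₀ hxp (by linarith)
    calc ‖u (n + 2) k Z‖ = ‖P k Z‖ * ‖d (n + 2) (f^[k] Z)‖ := by
          simp only [hu, norm_mul]
      _ ≤ (C * (y ^ 2 / x ^ 2)) * (B * (y⁻¹) ^ (2 * (n + 2) + 1)) :=
          mul_le_mul h1 h2 (norm_nonneg _) (by positivity)
      _ = C * B * ((x⁻¹) ^ 2 * (y⁻¹) ^ (2 * n + 3)) := by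
          rw [show 2 * (n + 2) + 1 = (2 * n + 3) + 2 by ring, pow_add]
          field_simp
      _ ≤ C * B * ((x⁻¹) ^ 2 * ((c⁻¹) ^ (2 * n + 3) * ((x⁻¹) ^ (2 * n + 1) *
          ((x + k) ^ 2)⁻¹))) := by
          refine mul_le_mul_of_nonneg_left ?_ (by positivity)
          exact mul_le_mul_of_nonneg_left h3 (by positivity)
      _ = K n * (x⁻¹) ^ (2 * n + 3) * ((x + k) ^ 2)⁻¹ := by
          rw [hK]
          simp only
          rw [show 2 * n + 3 = (2 * n + 1) + 2 by ring, pow_add (x⁻¹)]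
          ring
  -- summability and bounds of the sums
  have hsumm : ∀ (n : ℕ) (Z : ℂ), Z ∈ Vq q R → Summable (fun k => u (n + 2) k Z) := by
    intro n Z hZ
    refine Summable.of_norm_bounded (g := fun k : ℕ => K n * (‖Z‖⁻¹) ^ (2 * n + 3) *
      ((‖Z‖ + k) ^ 2)⁻¹) ?_ (fun k => hub n k Z hZ)
    exact (HV_sum ‖Z‖ (hbig Z hZ)).1.mul_left _
  have hRb : ∀ (n : ℕ) (Z : ℂ), Z ∈ Vq q R →
      ‖∑' k, u (n + 2) k Z‖ ≤ 2 * K n * (‖Z‖⁻¹) ^ (2 * (n + 2)) := by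
    intro n Z hZ
    have hx := hbig Z hZ
    obtain ⟨hs1, hs2⟩ := HV_sum ‖Z‖ hx
    have h1 := tsum_of_norm_bounded ((hs1.mul_left (K n * (‖Z‖⁻¹) ^ (2 * n + 3))).hasSum)
      (fun k => hub n k Z hZ)
    refine h1.trans ?_
    rw [tsum_mul_left]
    calc K n * (‖Z‖⁻¹) ^ (2 * n + 3) * ∑' k : ℕ, ((‖Z‖ + k) ^ 2)⁻¹
        ≤ K n * (‖Z‖⁻¹) ^ (2 * n + 3) * (2 / ‖Z‖) :=
          mul_le_mul_of_nonneg_left hs2 (mul_nonneg (hKp n) (by positivity))
      _ = 2 * K n * (‖Z‖⁻¹) ^ (2 * (n + 2)) := by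
          rw [show 2 * (n + 2) = (2 * n + 3) + 1 by ring, pow_succ (‖Z‖⁻¹) (2 * n + 3)]
          rw [div_eq_mul_inv]
          ring
  -- telescoping
  have htel : ∀ (N m : ℕ) (Z : ℂ), ∑ k ∈ Finset.range m, u N k Z =
      SN α N Z⁻¹ - P m Z * SN α N (f^[m] Z)⁻¹ := by
    intro N m Z
    induction m with
    | zero => simp [hPd]
    | succ m ih =>
      rw [Finset.sum_range_succ, ih]
      simp only [hu, hPd, hdd]
      rw [Finset.prod_range_succ, Function.iterate_succ_apply' f m Z]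
      ring
  have hlim : ∀ (n : ℕ) (Z : ℂ), Z ∈ Vq q R →
      Tendsto (fun m => P m Z * SN α (n + 2) (f^[m] Z)⁻¹) atTop
        (𝓝 (SN α (n + 2) Z⁻¹ - ∑' k, u (n + 2) k Z)) := by
    intro n Z hZ
    have h1 := (hsumm n Z hZ).hasSum.tendsto_sum_nat
    have h2 := (tendsto_const_nhds (x := SN α (n + 2) Z⁻¹)).sub h1
    refine h2.congr (fun m => ?_)
    rw [htel]
    ring
  have hzero : ∀ (n : ℕ) (Z : ℂ), Z ∈ Vq q R →
      Tendsto (fun m => P m Z * SN α (n + 2) (f^[m] Z)⁻¹ - P m Z * SN α 2 (f^[m] Z)⁻¹) atTop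
        (𝓝 0) := by
    intro n Z hZ
    have hx := hbig Z hZ
    have hxp : 0 < ‖Z‖ := by linarith
    set S : ℝ := ∑ j ∈ Finset.range (n + 2), ‖α j‖ with hS
    have hSp : 0 ≤ S := Finset.sum_nonneg (fun _ _ => norm_nonneg _)
    have hs1 := ((HV_sum ‖Z‖ hx).1.mul_left (C * S * (c⁻¹) ^ 2)).tendsto_atTop_zero
    refine squeeze_zero_norm (fun m => ?_) hs1
    have hZm := hit m Z hZ
    have hy := hbig _ hZm
    have hyp : 0 < ‖f^[m] Z‖ := by linarith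
    have h1 : ‖P m Z‖ ≤ C * (‖f^[m] Z‖ ^ 2 / ‖Z‖ ^ 2) := hprod m Z hZ
    have h2 := HV_diff α ((f^[m] Z)⁻¹) (by
      rw [norm_inv]; exact inv_le_one_of_one_le₀ hy) (n + 2) (by omega)
    rw [norm_inv] at h2
    have ho := horb m Z hZ
    have hm0 : (0:ℝ) ≤ m := Nat.cast_nonneg m
    rw [← mul_sub, norm_mul]
    set x := ‖Z‖ with hxd
    set y := ‖f^[m] Z‖ with hyd
    have hyx : y⁻¹ ≤ c⁻¹ * (x + m)⁻¹ := by
      rw [← mul_inv]
      exact inv_anti₀ (by positivity) ho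
    calc ‖P m Z‖ * ‖SN α (n + 2) (f^[m] Z)⁻¹ - SN α 2 (f^[m] Z)⁻¹‖
        ≤ (C * (y ^ 2 / x ^ 2)) * (S * (y⁻¹) ^ 4) :=
          mul_le_mul h1 h2 (norm_nonneg _) (by positivity)
      _ = C * S * ((x⁻¹) ^ 2 * (y⁻¹) ^ 2) := by
          field_simp
      _ ≤ C * S * (1 * (c⁻¹ * (x + m)⁻¹) ^ 2) := by
          refine mul_le_mul_of_nonneg_left ?_ (by positivity)
          refine mul_le_mul ?_ (pow_le_pow_left₀ (by positivity) hyx _) (by positivity)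
            zero_le_one
          exact pow_le_one₀ (by positivity) (inv_le_one_of_one_le₀ hx)
      _ = C * S * (c⁻¹) ^ 2 * ((x + m) ^ 2)⁻¹ := by
          rw [mul_pow, inv_pow (x + m : ℝ) 2]
          ring
  -- independence of the number of terms
  have heq : ∀ (n : ℕ) (Z : ℂ), Z ∈ Vq q R → SN α (n + 2) Z⁻¹ - ∑' k, u (n + 2) k Z =
      SN α 2 Z⁻¹ - ∑' k, u 2 k Z := by
    intro n Z hZ
    have h1 := (hlim n Z hZ).sub (hlim 0 Z hZ)
    have h2 := tendsto_nhds_unique h1 (hzero n Z hZ)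
    rw [sub_eq_zero] at h2
    exact h2
  -- differentiability
  have hsub : Vq q R ⊆ {Z : ℂ | R0 < ‖Z‖} := fun Z hZ => hP.big Z hZ
  have hfd : DifferentiableOn ℂ f (Vq q R) := hPF.df.mono hsub
  have hed : DifferentiableOn ℂ e (Vq q R) := hPF.de.mono hsub
  have hitd : ∀ k : ℕ, DifferentiableOn ℂ (f^[k]) (Vq q R) := by
    intro k
    induction k with
    | zero => simpa using differentiableOn_id
    | succ k ih =>
      rw [Function.iterate_succ']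
      exact hfd.comp ih (fun Z hZ => hit k Z hZ)
  have hPdiff : ∀ k : ℕ, DifferentiableOn ℂ (P k) (Vq q R) := by
    intro k
    induction k with
    | zero =>
      have : P 0 = fun _ => (1:ℂ) := by
        funext Z
        simp [hPd]
      rw [this]
      exact differentiableOn_const _
    | succ k ih =>
      have : P (k + 1) = fun Z => P k Z * e (f^[k] Z) := by
        funext Z
        simp only [hPd]
        rw [Finset.prod_range_succ]
      rw [this]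
      exact ih.mul (hed.comp (hitd k) (fun Z hZ => hit k Z hZ))
  have hudiff : ∀ k : ℕ, DifferentiableOn ℂ (u 2 k) (Vq q R) := by
    intro k
    have : u 2 k = fun Z => P k Z * d 2 (f^[k] Z) := rfl
    rw [this]
    exact (hPdiff k).mul (((hd 2).mono hsub).comp (hitd k) (fun Z hZ => hit k Z hZ))
  have hSNd : DifferentiableOn ℂ (fun Z => SN α 2 Z⁻¹) (Vq q R) := by
    intro Z hZ
    have hZ0 : Z ≠ 0 := by
      intro h
      have := hbig Z hZ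
      rw [h, norm_zero] at this
      linarith
    apply DifferentiableAt.differentiableWithinAt
    unfold SN
    simp only [Finset.sum_range_succ, Finset.sum_range_zero]
    fun_prop (disch := exact hZ0)
  have hRdiff : DifferentiableOn ℂ (fun Z => ∑' k, u 2 k Z) (Vq q R) := by
    refine differentiableOn_tsum_of_summable_norm
      (u := fun k : ℕ => K 0 * (((1:ℝ) + k) ^ 2)⁻¹) ((HV_sum 1 le_rfl).1.mul_left _) hudiff
      (HV_open q R) ?_
    intro k Z hZ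
    have hx := hbig Z hZ
    have hxp : 0 < ‖Z‖ := by linarith
    refine (hub 0 k Z hZ).trans ?_
    have hk0 : (0:ℝ) ≤ k := Nat.cast_nonneg k
    have h1 : (‖Z‖⁻¹) ^ (2 * 0 + 3) ≤ 1 := pow_le_one₀ (by positivity) (inv_le_one_of_one_le₀ hx)
    have h2 : ((‖Z‖ + k) ^ 2)⁻¹ ≤ (((1:ℝ) + k) ^ 2)⁻¹ := by
      refine inv_anti₀ (by positivity) (pow_le_pow_left₀ (by positivity) (by linarith) 2)
    calc K 0 * (‖Z‖⁻¹) ^ (2 * 0 + 3) * ((‖Z‖ + k) ^ 2)⁻¹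
        ≤ K 0 * 1 * (((1:ℝ) + k) ^ 2)⁻¹ := by
          refine mul_le_mul ?_ h2 (by positivity) ?_
          · exact mul_le_mul_of_nonneg_left h1 (hKp 0)
          · rw [mul_one]; exact hKp 0
      _ = K 0 * (((1:ℝ) + k) ^ 2)⁻¹ := by rw [mul_one]
  -- conclusion
  have hci : 1 ≤ c⁻¹ := by
    rw [one_le_inv₀ hcp]; exact hc1
  refine ⟨R, 2 * C * C1 * (c⁻¹) ^ 2, fun Z => SN α 2 Z⁻¹ - ∑' k, u 2 k Z, hR1, ?_, ?_, ?_⟩
  · have h1 : 1 ≤ 2 * C := by linarith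
    have h2 : 1 ≤ (c⁻¹) ^ 2 := one_le_pow₀ hci
    have h3 : 1 ≤ 2 * C * C1 := by nlinarith
    nlinarith
  · exact hSNd.sub hRdiff
  · intro N hN Z hZ
    obtain ⟨n, rfl⟩ : ∃ n, N = n + 2 := ⟨N - 2, by omega⟩
    show ‖SN α 2 Z⁻¹ - ∑' k, u 2 k Z - SN α (n + 2) Z⁻¹‖ ≤ _
    rw [← heq n Z hZ]
    have e1 : SN α (n + 2) Z⁻¹ - ∑' k, u (n + 2) k Z - SN α (n + 2) Z⁻¹ =
        - ∑' k, u (n + 2) k Z := by ring
    rw [e1, norm_neg]
    refine (hRb n Z hZ).trans ?_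
    refine mul_le_mul_of_nonneg_right ?_ (by positivity)
    have hF : 0 ≤ ((2 * (n + 2)).factorial : ℝ) ^ s := by positivity
    have h4 : 2 * C ≤ (2 * C) ^ (n + 2) := le_self_pow₀ (by linarith) (by omega)
    have h5 : (c⁻¹) ^ (2 * n + 3) ≤ ((c⁻¹) ^ 2) ^ (n + 2) := by
      rw [← pow_mul]
      exact pow_le_pow_right₀ hci (by omega)
    calc 2 * K n = (2 * C) * (c⁻¹) ^ (2 * n + 3) * (C1 ^ (n + 2) *
          ((2 * (n + 2)).factorial : ℝ) ^ s) := by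
          simp only [hK]; ring
      _ ≤ (2 * C) ^ (n + 2) * ((c⁻¹) ^ 2) ^ (n + 2) * (C1 ^ (n + 2) *
          ((2 * (n + 2)).factorial : ℝ) ^ s) := by
          refine mul_le_mul_of_nonneg_right ?_ (by positivity)
          exact mul_le_mul h4 h5 (by positivity) (by positivity)
      _ = (2 * C * C1 * (c⁻¹) ^ 2) ^ (n + 2) * ((2 * (n + 2)).factorial : ℝ) ^ s := by
          rw [mul_pow (2 * C * C1), mul_pow (2 * C)]
          ring

/-- HV: the sectorial solution. -/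
theorem tHV (hPET : StPET) (hPRD : StPRD) : StHV := by
  intro T E A R0 α r1 C1 s hPF hr1 hC1 hs hd hb q hq
  refine HV_main hPET hPRD (fun Z => (T Z⁻¹)⁻¹) (fun Z => E Z⁻¹) A R0 α r1 C1 s hPF hr1 hC1 hs
    ?_ ?_ q hq
  · intro N
    simpa only [inv_inv] using hd N
  · intro N hN Z hZ
    simpa only [inv_inv] using hb N hN Z⁻¹ hZ

end H738CZ
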