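import Pool.Agent.H738R3.CZ.Defs

/-! INI: start (from an analytic integral to a sub-Gevrey formal integral). -/

open Complex Set Filter Topology

namespace H738CZ

theorem INI_cube (ρ : ℂ → ℂ) (a : ℂ) (η : ℝ) (hη : 0 < η)
    (hρ : DifferentiableOn ℂ ρ (Metric.ball a η)) (h0 : ρ a ≠ 0) :
    ∃ η1 : ℝ, 0 < η1 ∧ η1 ≤ η ∧ ∃ r0 : ℂ → ℂ, Base (fun _ => 1) ρ r0 (Metric.ball a η1) := by
  have hcont : ContinuousAt (fun t => ρ t / ρ a) a := by
    have h1 : ContinuousAt ρ a :=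
      (hρ.differentiableAt (Metric.ball_mem_nhds a hη)).continuousAt
    exact h1.div_const _
  have h2 : ∀ᶠ t in 𝓝 a, ρ t / ρ a ∈ Complex.slitPlane := by
    apply hcont
    apply Complex.isOpen_slitPlane.mem_nhds
    show ρ a / ρ a ∈ Complex.slitPlane
    rw [div_self h0]
    exact Complex.one_mem_slitPlane
  obtain ⟨η2, hη2, h3⟩ := Metric.eventually_nhds_iff_ball.1 h2
  refine ⟨min η η2, lt_min hη hη2, min_le_left _ _,
    fun t => (ρ a) ^ ((3:ℂ)⁻¹) * (ρ t / ρ a) ^ ((3:ℂ)⁻¹), ?_⟩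
  have hsl : ∀ t ∈ Metric.ball a (min η η2), ρ t / ρ a ∈ Complex.slitPlane :=
    fun t ht => h3 t (Metric.ball_subset_ball (min_le_right _ _) ht)
  have hsub : Metric.ball a (min η η2) ⊆ Metric.ball a η := Metric.ball_subset_ball (min_le_left _ _)
  refine ⟨Metric.isOpen_ball, differentiableOn_const _, fun _ _ => one_ne_zero, ?_, ?_, ?_⟩
  · apply DifferentiableOn.const_mul
    apply DifferentiableOn.cpow_const
    · exact (hρ.mono hsub).div_const _
    · intro t ht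
      exact hsl t ht
  · intro t ht
    have h4 : ρ t / ρ a ≠ 0 := Complex.slitPlane_ne_zero (hsl t ht)
    refine mul_ne_zero ?_ ?_
    · rw [Ne, Complex.cpow_eq_zero_iff]
      exact fun h => h0 h.1
    · rw [Ne, Complex.cpow_eq_zero_iff]
      exact fun h => h4 h.1
  · intro t ht
    have e : ∀ z : ℂ, (z ^ ((3:ℂ)⁻¹)) ^ 3 = z := by
      intro z
      have := Complex.cpow_nat_inv_pow z (n := 3) (by norm_num)
      simpa using this
    show ρ t = ((ρ a) ^ ((3:ℂ)⁻¹) * (ρ t / ρ a) ^ ((3:ℂ)⁻¹)) ^ 3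
    rw [mul_pow, e, e]
    field_simp

theorem tINI (hLAW : StLAW) (hROO : StROO) : StINI := by
  intro kf kc hKF hKer ρ a b η M r hBD hρ h0 hEV hne
  obtain ⟨_, hlaw⟩ := hLAW kf kc hKF hKer ρ a b η M r hBD hρ hEV
  obtain ⟨η1, hη1, hle, r0, hbase⟩ := INI_cube ρ (a : ℂ) η hBD.η0 hρ h0
  have hsub : Metric.ball (a : ℂ) η1 ⊆ Metric.ball (a : ℂ) η := Metric.ball_subset_ball hle
  have hBD1 : BD b (a : ℂ) η1 M r :=
    ⟨hη1, hBD.r0, fun j => (hBD.df j).mono hsub, fun j t ht => hBD.bd j t (hsub ht)⟩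
  obtain ⟨j, hj, t, ht, hbt⟩ := hne
  have hne1 : ∃ j, 1 ≤ j ∧ ∃ t ∈ Metric.ball (a : ℂ) η1, b j t ≠ 0 := by
    by_contra hc
    push Not at hc
    apply hbt
    have han : AnalyticOnNhd ℂ (b j) (Metric.ball (a : ℂ) η) :=
      (hBD.df j).analyticOnNhd Metric.isOpen_ball
    have hz : (b j) =ᶠ[𝓝 (a : ℂ)] 0 := by
      filter_upwards [Metric.ball_mem_nhds (a : ℂ) hη1] with s hs
      exact hc j hj s hs
    exact han.eqOn_zero_of_preconnected_of_eventuallyEq_zero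
      (convex_ball (a : ℂ) η).isPreconnected (Metric.mem_ball_self hBD.η0) hz ht
  obtain ⟨η', hη', g, hFI, hSG⟩ := hROO kc hKer ρ r0 (a : ℂ) b η1 M r hBD1 hbase
    (fun J hJ t ht => hlaw J hJ t (hsub ht)) hne1
  exact ⟨η', hη', r0, g, hFI, hSG⟩

end H738CZ
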