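import Pool.Agent.H738R3.CZ.Defs

/-! Task INT (helper218): passing to the coordinate tau. -/

open Complex Set Filter Topology

namespace H738CZ

theorem INT_const {S : Set ℂ} (hS : IsPreconnected S) {f : ℂ → ℂ} (hc : ContinuousOn f S)
    (h3 : ∀ t ∈ S, f t ^ 3 = 1) {x y : ℂ} (hx : x ∈ S) (hy : y ∈ S) : f x = f y := by
  refine hS.constant_of_mapsTo (T := (↑(Polynomial.nthRootsFinset 3 (1 : ℂ)) : Set ℂ))
    (Finset.finite_toSet _).isDiscrete hc ?_ hx hy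
  intro t ht
  rw [Finset.mem_coe, Polynomial.mem_nthRootsFinset (by norm_num)]
  exact h3 t ht

theorem tINT (hCHG : StCHG) (hMON : StMON) : StINT := by
  intro kc m u R ρ t1 hm hU ht1 ht10 hρ hG
  obtain ⟨η, hη, r0, g, hFI, C, s, hC, hs0, hs1, hGB⟩ := hG
  obtain ⟨τ1, hτ1⟩ : ∃ τ1 : ℂ, τ1 ^ 3 = t1 := IsAlgClosed.exists_pow_nat_eq t1 (by norm_num)
  have hτ10 : τ1 ≠ 0 := by
    rintro rfl
    exact ht10 (by rw [← hτ1]; norm_num)
  have hτ1R : ‖τ1‖ < R := by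
    have h1 : ‖τ1‖ ^ 3 < R ^ 3 := by
      rw [← norm_pow, hτ1]
      simpa using ht1
    exact lt_of_pow_lt_pow_left₀ 3 hU.pos.le h1
  have hcont : Continuous (fun τ : ℂ => τ ^ 3) := continuous_pow 3
  have hopen : IsOpen ((fun τ : ℂ => τ ^ 3) ⁻¹' (Metric.ball t1 η ∩ Metric.ball 0 (R ^ 3)) ∩ V3 R) :=
    ((Metric.isOpen_ball.inter Metric.isOpen_ball).preimage hcont).inter
      (Metric.isOpen_ball.sdiff isClosed_singleton)
  have hmem : τ1 ∈ ((fun τ : ℂ => τ ^ 3) ⁻¹' (Metric.ball t1 η ∩ Metric.ball 0 (R ^ 3)) ∩ V3 R) := by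
    refine ⟨⟨?_, ?_⟩, ?_, ?_⟩
    · simp only [hτ1]
      exact Metric.mem_ball_self hη
    · simp only [hτ1]
      exact ht1
    · simpa using hτ1R
    · simpa using hτ10
  obtain ⟨η', hη', hsub⟩ := Metric.isOpen_iff.1 hopen τ1 hmem
  have hmaps : MapsTo (fun τ : ℂ => τ ^ 3) (Metric.ball τ1 η') (Metric.ball t1 η) :=
    fun t ht => (hsub ht).1.1
  have hmaps2 : MapsTo (fun τ : ℂ => τ ^ 3) (Metric.ball τ1 η') (Metric.ball 0 (R ^ 3)) :=
    fun t ht => (hsub ht).1.2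
  have hne : ∀ t ∈ Metric.ball τ1 η', t ≠ 0 := fun t ht => by
    have := (hsub ht).2.2
    simpa using this
  have h1 := hCHG kc (fun _ => 1) ρ r0 g (Metric.ball t1 η) d3 (fun τ => τ ^ 3)
    (Metric.ball τ1 η') hFI Metric.isOpen_ball (differentiable_pow 3).differentiableOn hmaps
    (fun t _ => by
      unfold d3
      rw [one_mul]
      simp)
    (fun t ht => by
      unfold d3
      exact mul_ne_zero (by norm_num) (pow_ne_zero _ (hne t ht)))
  set f : ℂ → ℂ := fun τ => r0 (τ ^ 3) / (τ ^ m * u (τ ^ 3)) with hf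
  have hden : ∀ t ∈ Metric.ball τ1 η', t ^ m * u (t ^ 3) ≠ 0 := fun t ht =>
    mul_ne_zero (pow_ne_zero _ (hne t ht)) (hU.nz _ (hmaps2 ht))
  have hfc : ContinuousOn f (Metric.ball τ1 η') := by
    refine ContinuousOn.div ?_ ?_ hden
    · exact hFI.base.rd.continuousOn.comp hcont.continuousOn hmaps
    · exact (continuous_pow m).continuousOn.mul
        (hU.df.continuousOn.comp hcont.continuousOn hmaps2)
  have hf3 : ∀ t ∈ Metric.ball τ1 η', f t ^ 3 = 1 := by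
    intro t ht
    have h2 : ρ (t ^ 3) = r0 (t ^ 3) ^ 3 := hFI.base.cube _ (hmaps ht)
    have h3 : ρ (t ^ 3) = (t ^ 3) ^ m * u (t ^ 3) ^ 3 := hρ _ (hmaps2 ht)
    rw [hf]
    simp only
    rw [div_pow, ← h2, h3, mul_pow, ← pow_mul, ← pow_mul, mul_comm 3 m]
    refine div_self ?_
    have := pow_ne_zero 3 (hden t ht)
    rwa [mul_pow, ← pow_mul] at this
  have hω := hf3 τ1 (Metric.mem_ball_self hη')
  have hr : ∀ t ∈ Metric.ball τ1 η', r0 (t ^ 3) = t ^ m * (f τ1 * u (t ^ 3)) := by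
    intro t ht
    rw [← INT_const (convex_ball _ _).isPreconnected hfc hf3 ht (Metric.mem_ball_self hη')]
    have := hden t ht
    rw [hf]
    simp only
    have e : t ^ m * (r0 (t ^ 3) / (t ^ m * u (t ^ 3)) * u (t ^ 3)) =
        r0 (t ^ 3) * ((t ^ m * u (t ^ 3)) / (t ^ m * u (t ^ 3))) := by ring
    rw [e, div_self this, mul_one]
  refine ⟨f τ1, τ1, η', fun j => g j ∘ (fun τ => τ ^ 3), hω, hη', fun t ht => (hsub ht).2, ?_,
    C, s, hC, hs0, hs1, ?_⟩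
  · refine hMON kc d3 (ρ ∘ fun τ => τ ^ 3) (r0 ∘ fun τ => τ ^ 3) d3 _ _
      (fun j => g j ∘ fun τ => τ ^ 3) _ (Metric.ball τ1 η') (Metric.ball τ1 η') h1
      Metric.isOpen_ball subset_rfl (fun _ _ => rfl) ?_ ?_ (fun _ _ _ _ => rfl)
    · intro t ht
      show (t ^ m * (f τ1 * u (t ^ 3))) ^ 3 = ρ (t ^ 3)
      rw [← hr t ht]
      exact (hFI.base.cube _ (hmaps ht)).symm
    · intro t ht
      show t ^ m * (f τ1 * u (t ^ 3)) = r0 (t ^ 3)
      exact (hr t ht).symm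
  · intro j hj t ht
    exact hGB j hj _ (hmaps ht)

end H738CZ
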