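import Pool.Agent.H738R3.CZ.Defs

/-! LAW: the reflection law for the coefficients. -/

set_option autoImplicit false

open Complex Set Filter Topology Asymptotics

namespace H738CZ

theorem LAW_iter (l : ℕ) (f : ℂ → ℂ) : (DD (fun _ => 1))^[l] f = iteratedDeriv l f := by
  have h : DD (fun _ => (1 : ℂ)) = deriv := by
    funext f t
    simp [DD]
  rw [iteratedDeriv_eq_iterate, h]

theorem LAW_coeff_Es (f : ℂ → ℂ) (t : ℂ) (n : ℕ) :
    PowerSeries.coeff n (Es (fun _ => 1) f t) = iteratedDeriv n f t / (n.factorial : ℂ) := by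
  rw [Es, PowerSeries.coeff_mk, LAW_iter]

/-- asymptotic expansion at `0` -/
def LAW_As (f : ℂ → ℂ) (S : PowerSeries ℂ) : Prop :=
  ∀ N, (fun δ => f δ - (PowerSeries.trunc N S).eval δ) =O[𝓝 0] fun δ => δ ^ N

theorem LAW_poly_O1 (p : Polynomial ℂ) : (fun δ => p.eval δ) =O[𝓝 0] fun _ : ℂ => (1 : ℂ) := by
  have h : Tendsto (fun δ => p.eval δ) (𝓝 0) (𝓝 (p.eval 0)) := p.continuous.continuousAt
  exact h.isBigO_one ℂ

theorem LAW_poly_dvd (p : Polynomial ℂ) (N : ℕ) (h : ∀ d < N, p.coeff d = 0) :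
    (fun δ => p.eval δ) =O[𝓝 0] fun δ : ℂ => δ ^ N := by
  obtain ⟨q, hq⟩ := Polynomial.X_pow_dvd_iff.2 h
  have h1 : (fun δ => p.eval δ) = fun δ => δ ^ N * q.eval δ := by
    funext δ
    rw [hq]
    simp
  rw [h1]
  have h2 := (isBigO_refl (fun δ : ℂ => δ ^ N) (𝓝 0)).mul (LAW_poly_O1 q)
  refine h2.trans (IsBigO.of_bound 1 (Eventually.of_forall fun δ => ?_))
  simp

theorem LAW_trunc_eval (N : ℕ) (S : PowerSeries ℂ) (δ : ℂ) :
    (PowerSeries.trunc N S).eval δ = ∑ i ∈ Finset.range N, PowerSeries.coeff i S * δ ^ i := by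
  rw [Polynomial.eval, PowerSeries.eval₂_trunc_eq_sum_range]
  rfl

theorem LAW_As.one_O {f : ℂ → ℂ} {S : PowerSeries ℂ} (hf : LAW_As f S) :
    f =O[𝓝 0] fun _ : ℂ => (1 : ℂ) := by
  have h := hf 0
  have h1 : (fun δ => f δ - (PowerSeries.trunc 0 S).eval δ) = f := by
    funext δ
    simp [LAW_trunc_eval]
  rw [h1] at h
  refine h.trans (IsBigO.of_bound 1 (Eventually.of_forall fun δ => ?_))
  simp

theorem LAW_As.mul {f g : ℂ → ℂ} {S T : PowerSeries ℂ} (hf : LAW_As f S) (hg : LAW_As g T) :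
    LAW_As (fun δ => f δ * g δ) (S * T) := by
  intro N
  have e : (fun δ => f δ * g δ - (PowerSeries.trunc N (S * T)).eval δ) = fun δ =>
      (f δ - (PowerSeries.trunc N S).eval δ) * g δ +
      (PowerSeries.trunc N S).eval δ * (g δ - (PowerSeries.trunc N T).eval δ) +
      (PowerSeries.trunc N S * PowerSeries.trunc N T - PowerSeries.trunc N (S * T)).eval δ := by
    funext δ
    rw [Polynomial.eval_sub, Polynomial.eval_mul]
    ring
  rw [e]
  have h1 : (fun δ => (f δ - (PowerSeries.trunc N S).eval δ) * g δ) =O[𝓝 0]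
      fun δ : ℂ => δ ^ N := by
    refine ((hf N).mul hg.one_O).trans (IsBigO.of_bound 1 (Eventually.of_forall fun δ => ?_))
    simp
  have h2 : (fun δ => (PowerSeries.trunc N S).eval δ * (g δ - (PowerSeries.trunc N T).eval δ))
      =O[𝓝 0] fun δ : ℂ => δ ^ N := by
    refine ((LAW_poly_O1 _).mul (hg N)).trans
      (IsBigO.of_bound 1 (Eventually.of_forall fun δ => ?_))
    simp
  have h3 : (fun δ => (PowerSeries.trunc N S * PowerSeries.trunc N T -
      PowerSeries.trunc N (S * T)).eval δ) =O[𝓝 0] fun δ : ℂ => δ ^ N := by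
    apply LAW_poly_dvd
    intro d hd
    rw [Polynomial.coeff_sub, PowerSeries.coeff_trunc, if_pos hd,
      PowerSeries.coeff_mul_eq_coeff_trunc_mul_trunc S T hd, ← Polynomial.coe_mul,
      Polynomial.coeff_coe, sub_self]
  exact (h1.add h2).add h3

theorem LAW_As.add {f g : ℂ → ℂ} {S T : PowerSeries ℂ} (hf : LAW_As f S) (hg : LAW_As g T) :
    LAW_As (fun δ => f δ + g δ) (S + T) := by
  intro N
  have e : (fun δ => f δ + g δ - (PowerSeries.trunc N (S + T)).eval δ) = fun δ =>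
      (f δ - (PowerSeries.trunc N S).eval δ) + (g δ - (PowerSeries.trunc N T).eval δ) := by
    funext δ
    rw [map_add, Polynomial.eval_add]
    ring
  rw [e]
  exact (hf N).add (hg N)

theorem LAW_As_one : LAW_As (fun _ => 1) 1 := by
  intro N
  rcases N with _ | N
  · refine IsBigO.of_bound 1 (Eventually.of_forall fun δ => ?_)
    simp [LAW_trunc_eval]
  · have e : (fun δ : ℂ => (1 : ℂ) - (PowerSeries.trunc (N + 1) (1 : PowerSeries ℂ)).eval δ)
        = fun _ => 0 := by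
      funext δ
      rw [LAW_trunc_eval, Finset.sum_eq_single 0]
      · simp
      · intro b _ hb
        rw [PowerSeries.coeff_one, if_neg hb, zero_mul]
      · simp
    rw [e]
    exact isBigO_zero _ _

theorem LAW_As.pow {f : ℂ → ℂ} {S : PowerSeries ℂ} (hf : LAW_As f S) (n : ℕ) :
    LAW_As (fun δ => f δ ^ n) (S ^ n) := by
  induction n with
  | zero => simpa using LAW_As_one
  | succ n ih =>
    simp only [pow_succ]
    exact ih.mul hf

theorem LAW_As_sum {f : ℕ → ℂ → ℂ} {S : ℕ → PowerSeries ℂ} (h : ∀ j, LAW_As (f j) (S j)) (n : ℕ) :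
    LAW_As (fun δ => ∑ j ∈ Finset.range n, f j δ) (∑ j ∈ Finset.range n, S j) := by
  induction n with
  | zero =>
    intro N
    have e : (fun δ : ℂ => (∑ j ∈ Finset.range 0, f j δ) -
        (PowerSeries.trunc N (∑ j ∈ Finset.range 0, S j)).eval δ) = fun _ => 0 := by
      funext δ
      simp
    rw [e]
    exact isBigO_zero _ _
  | succ n ih =>
    simp only [Finset.sum_range_succ]
    exact ih.add (h n)

/-- convergent power series are asymptotic expansions -/
theorem LAW_As_of_hasSum {f : ℂ → ℂ} {S : PowerSeries ℂ} {ε : ℝ} (hε : 0 < ε)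
    (h : ∀ δ : ℂ, ‖δ‖ < ε → HasSum (fun n => PowerSeries.coeff n S * δ ^ n) (f δ)) :
    LAW_As f S := by
  intro N
  -- bound for the coefficients
  have h0 : ‖((ε / 2 : ℝ) : ℂ)‖ < ε := by
    rw [Complex.norm_real, Real.norm_eq_abs, abs_of_pos (by positivity)]
    linarith
  have hs := (h _ h0).summable.tendsto_atTop_zero
  obtain ⟨C, hC⟩ := hs.norm.bddAbove_range
  have hC' : ∀ n, ‖PowerSeries.coeff n S‖ * (ε / 2) ^ n ≤ C := by
    intro n
    have h1 := hC ⟨n, rfl⟩
    simp only [norm_mul, norm_pow, Complex.norm_real, Real.norm_eq_abs] at h1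
    rw [abs_of_pos (by positivity)] at h1
    exact h1
  have hC0 : 0 ≤ C := (by positivity : (0 : ℝ) ≤ ‖PowerSeries.coeff 0 S‖ * (ε / 2) ^ 0).trans (hC' 0)
  refine IsBigO.of_bound (2 * C * (2 / ε) ^ N) ?_
  have hball : ∀ᶠ δ : ℂ in 𝓝 0, ‖δ‖ < ε / 4 := by
    have := Metric.ball_mem_nhds (0 : ℂ) (by positivity : 0 < ε / 4)
    filter_upwards [this] with δ hδ
    simpa using hδ
  filter_upwards [hball] with δ hδ
  have hδε : ‖δ‖ < ε := by linarith
  have hsum := h δ hδε
  have e1 : f δ - (PowerSeries.trunc N S).eval δ =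
      ∑' n, PowerSeries.coeff (n + N) S * δ ^ (n + N) := by
    rw [LAW_trunc_eval, ← hsum.tsum_eq, ← hsum.summable.sum_add_tsum_nat_add N]
    ring
  rw [e1]
  set x := 2 / ε * ‖δ‖ with hx
  have hx0 : 0 ≤ x := by positivity
  have hx1 : x ≤ 1 / 2 := by
    rw [hx, div_mul_eq_mul_div, div_le_iff₀ hε]
    linarith
  have hg : HasSum (fun n => C * x ^ N * x ^ n) (C * x ^ N * (1 - x)⁻¹) :=
    (hasSum_geometric_of_lt_one hx0 (by linarith)).mul_left _
  have h2 : ‖∑' n, PowerSeries.coeff (n + N) S * δ ^ (n + N)‖ ≤ C * x ^ N * (1 - x)⁻¹ := by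
    apply tsum_of_norm_bounded hg
    intro n
    rw [norm_mul, norm_pow]
    have h3 : ‖δ‖ ^ (n + N) = (ε / 2) ^ (n + N) * (x ^ N * x ^ n) := by
      rw [hx, ← pow_add, add_comm N n, ← mul_pow]
      congr 1
      field_simp
    rw [h3]
    calc ‖PowerSeries.coeff (n + N) S‖ * ((ε / 2) ^ (n + N) * (x ^ N * x ^ n))
        = ‖PowerSeries.coeff (n + N) S‖ * (ε / 2) ^ (n + N) * (x ^ N * x ^ n) := by ring
      _ ≤ C * (x ^ N * x ^ n) := mul_le_mul_of_nonneg_right (hC' _) (by positivity)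
      _ = C * x ^ N * x ^ n := by ring
  refine h2.trans ?_
  have h4 : (1 - x)⁻¹ ≤ 2 := by
    rw [inv_le_comm₀ (by linarith) (by norm_num)]
    linarith
  calc C * x ^ N * (1 - x)⁻¹ ≤ C * x ^ N * 2 := mul_le_mul_of_nonneg_left h4 (by positivity)
    _ = 2 * C * (2 / ε) ^ N * ‖δ ^ N‖ := by
      rw [hx, norm_pow, mul_pow]
      ring

/-- Taylor series -/
theorem LAW_taylor {f : ℂ → ℂ} {a : ℂ} {η : ℝ} (hf : DifferentiableOn ℂ f (Metric.ball a η))
    {ψ : ℂ} (hψ : ψ ∈ Metric.ball a η) : LAW_As (fun δ => f (ψ + δ)) (Es (fun _ => 1) f ψ) := by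
  obtain ⟨ε, hε, hsub⟩ := Metric.isOpen_iff.1 Metric.isOpen_ball ψ hψ
  refine LAW_As_of_hasSum hε ?_
  intro δ hδ
  have h1 : ψ + δ ∈ Metric.ball ψ ε := by
    rw [Metric.mem_ball, dist_eq_norm]
    simpa using hδ
  have h2 := Complex.hasSum_taylorSeries_on_ball (hf.mono hsub) h1
  have e : (fun n => PowerSeries.coeff n (Es (fun _ => 1) f ψ) * δ ^ n) =
      fun n : ℕ => ((n.factorial : ℂ)⁻¹) • ((ψ + δ) - ψ) ^ n • iteratedDeriv n f ψ := by
    funext n
    rw [LAW_coeff_Es, add_sub_cancel_left, smul_eq_mul, smul_eq_mul]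
    ring
  rw [e]
  exact h2

theorem LAW_zero (q : Polynomial ℂ) (N : ℕ)
    (h : (fun δ : ℝ => q.eval (δ : ℂ)) =O[𝓝[>] 0] fun δ : ℝ => (δ : ℂ) ^ N) :
    Polynomial.X ^ N ∣ q := by
  have key : ∀ k, k ≤ N → Polynomial.X ^ k ∣ q := by
    intro k
    induction k with
    | zero => intro _; simp
    | succ k ih =>
      intro hk
      obtain ⟨s, hs⟩ := ih (by omega)
      have hs0 : s.eval 0 = 0 := by
        have t1 : Tendsto (fun δ : ℝ => s.eval (δ : ℂ)) (𝓝[>] 0) (𝓝 (s.eval 0)) := by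
          have hc : Continuous (fun δ : ℝ => s.eval (δ : ℂ)) :=
            s.continuous.comp Complex.continuous_ofReal
          have := hc.tendsto 0
          rw [Complex.ofReal_zero] at this
          exact this.mono_left nhdsWithin_le_nhds
        have t2 : Tendsto (fun δ : ℝ => s.eval (δ : ℂ)) (𝓝[>] 0) (𝓝 0) := by
          obtain ⟨C, hC⟩ := h.bound
          rw [tendsto_zero_iff_norm_tendsto_zero]
          have t3 : Tendsto (fun δ : ℝ => C * |δ| ^ (N - k)) (𝓝[>] 0) (𝓝 0) := by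
            have hc : Continuous (fun δ : ℝ => C * |δ| ^ (N - k)) := by fun_prop
            have := hc.tendsto 0
            rw [abs_zero, zero_pow (by omega), mul_zero] at this
            exact this.mono_left nhdsWithin_le_nhds
          refine squeeze_zero' (Eventually.of_forall fun _ => norm_nonneg _) ?_ t3
          filter_upwards [hC, self_mem_nhdsWithin] with δ hδ hpos
          have hpos' : (0 : ℝ) < δ := hpos
          rw [hs, Polynomial.eval_mul, Polynomial.eval_pow, Polynomial.eval_X, norm_mul, norm_pow,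
            norm_pow, Complex.norm_real, Real.norm_eq_abs] at hδ
          have hk' : 0 < |δ| ^ k := pow_pos (abs_pos.2 hpos'.ne') k
          have e : |δ| ^ N = |δ| ^ k * |δ| ^ (N - k) := by
            rw [← pow_add]
            congr 1
            omega
          rw [e] at hδ
          have : |δ| ^ k * ‖s.eval (δ : ℂ)‖ ≤ |δ| ^ k * (C * |δ| ^ (N - k)) := by
            calc |δ| ^ k * ‖s.eval (δ : ℂ)‖ ≤ C * (|δ| ^ k * |δ| ^ (N - k)) := hδ
              _ = |δ| ^ k * (C * |δ| ^ (N - k)) := by ring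
          exact le_of_mul_le_mul_left this hk'
        exact tendsto_nhds_unique t1 t2
      have hX : Polynomial.X ∣ s := by
        rw [Polynomial.X_dvd_iff, Polynomial.coeff_zero_eq_eval_zero, hs0]
      obtain ⟨w, hw⟩ := hX
      exact ⟨w, by rw [hs, hw, pow_succ]; ring⟩
  exact key N le_rfl

/-- identity theorem -/
theorem LAW_ident {g : ℂ → ℂ} {a η : ℝ} (hη : 0 < η)
    (hg : DifferentiableOn ℂ g (Metric.ball (a : ℂ) η))
    (h : ∀ ψ : ℝ, |ψ - a| < η → g ψ = 0) : ∀ t ∈ Metric.ball (a : ℂ) η, g t = 0 := by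
  have hA := hg.analyticOnNhd Metric.isOpen_ball
  have hfr : ∃ᶠ z in 𝓝[≠] (a : ℂ), g z = 0 := by
    have h1 : ∀ᶠ x : ℝ in 𝓝[≠] a, g (x : ℂ) = 0 := by
      have : ∀ᶠ x : ℝ in 𝓝 a, |x - a| < η := by
        have := Metric.ball_mem_nhds a hη
        filter_upwards [this] with x hx
        rwa [Metric.mem_ball, Real.dist_eq] at hx
      filter_upwards [this.filter_mono nhdsWithin_le_nhds] with x hx
      exact h x hx
    have h2 : Tendsto (fun x : ℝ => (x : ℂ)) (𝓝[≠] a) (𝓝[≠] (a : ℂ)) := by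
      apply tendsto_nhdsWithin_of_tendsto_nhds_of_eventually_within
      · exact (Complex.continuous_ofReal.tendsto a).mono_left nhdsWithin_le_nhds
      · filter_upwards [self_mem_nhdsWithin] with x hx
        intro hc
        exact hx (Complex.ofReal_injective hc)
    exact h2.frequently h1.frequently
  exact hA.eqOn_zero_of_preconnected_of_frequently_eq_zero
    (convex_ball _ _).isPreconnected (Metric.mem_ball_self hη) hfr

theorem LAW_diff_iter {f : ℂ → ℂ} {V : Set ℂ} (hV : IsOpen V) (hf : DifferentiableOn ℂ f V)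
    (n : ℕ) : DifferentiableOn ℂ (iteratedDeriv n f) V := by
  induction n with
  | zero => simpa using hf
  | succ n ih =>
    rw [iteratedDeriv_succ]
    exact ih.deriv hV

/-- coefficientwise differentiable -/
def LAW_D (S : ℂ → PowerSeries ℂ) (V : Set ℂ) : Prop :=
  ∀ n, DifferentiableOn ℂ (fun t => PowerSeries.coeff n (S t)) V

theorem LAW_D.mul {S T : ℂ → PowerSeries ℂ} {V : Set ℂ} (hS : LAW_D S V) (hT : LAW_D T V) :
    LAW_D (fun t => S t * T t) V := by
  intro n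
  simp only [PowerSeries.coeff_mul]
  exact DifferentiableOn.fun_sum fun p _ => (hS p.1).mul (hT p.2)

theorem LAW_D.pow {S : ℂ → PowerSeries ℂ} {V : Set ℂ} (hS : LAW_D S V) (j : ℕ) :
    LAW_D (fun t => S t ^ j) V := by
  induction j with
  | zero =>
    intro n
    simp only [pow_zero]
    exact differentiableOn_const _
  | succ j ih =>
    simp only [pow_succ]
    exact ih.mul hS

theorem LAW_D.sum {S : ℕ → ℂ → PowerSeries ℂ} {V : Set ℂ} (hS : ∀ j, LAW_D (S j) V)
    (s : Finset ℕ) : LAW_D (fun t => ∑ j ∈ s, S j t) V := by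
  intro n
  simp only [map_sum]
  exact DifferentiableOn.fun_sum fun j _ => hS j n

theorem LAW_D_Es {f : ℂ → ℂ} {V : Set ℂ} (hV : IsOpen V) (hf : DifferentiableOn ℂ f V) :
    LAW_D (fun t => Es (fun _ => 1) f t) V := by
  intro n
  simp only [LAW_coeff_Es]
  exact (LAW_diff_iter hV hf n).div_const _

theorem LAW_D_Ys {kc : ℕ → ℂ} {ρ : ℂ → ℂ} {V : Set ℂ} (hV : IsOpen V)
    (hf : DifferentiableOn ℂ ρ V) : LAW_D (fun t => Ys kc (fun _ => 1) ρ t) V := by
  intro n
  simp only [Ys, PowerSeries.coeff_mk, LAW_iter]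
  refine DifferentiableOn.div_const ?_ _
  exact DifferentiableOn.fun_sum fun l _ => (LAW_diff_iter hV hf l).const_mul _

theorem LAW_real (hYTA : StYTA) {kf : ℂ → ℂ} {kc : ℕ → ℂ} (hKF : KF kf kc) (hKer : Ker kc)
    {ρ : ℂ → ℂ} {a : ℝ} {b : ℕ → ℂ → ℂ} {η M r : ℝ} (hBD : BD b a η M r)
    (hρ : DifferentiableOn ℂ ρ (Metric.ball (a : ℂ) η)) {ψ : ℝ} (hψ : |ψ - a| < η)
    (hEV : EV kf ρ b ψ) (J : ℕ) :
    PowerSeries.coeff (2 * J + 1) (∑ j ∈ Finset.range (J + 1),
      Es (fun _ => 1) (b j) ψ * (Ys kc (fun _ => 1) ρ ψ) ^ j) = 0 := by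
  have hr := hBD.r0
  have hψ' : (ψ : ℂ) ∈ Metric.ball (a : ℂ) η := by
    rw [Metric.mem_ball, dist_eq_norm, ← Complex.ofReal_sub, Complex.norm_real]
    exact hψ
  have hM : 0 ≤ M := by
    have := (norm_nonneg _).trans (hBD.bd 0 ψ hψ')
    simpa using this
  obtain ⟨ε0, hε0, hY⟩ := hYTA kf kc hKF hKer ρ a η hρ ψ hψ'
  have hYas : LAW_As (fun δ => Yf kf ρ ψ δ) (Ys kc (fun _ => 1) ρ ψ) :=
    LAW_As_of_hasSum hε0 hY
  have hk0 : kc 0 = 0 := by simpa using hKer.even 0
  have hY2 : (fun δ => Yf kf ρ ψ δ) =O[𝓝 0] fun δ : ℂ => δ ^ 2 := by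
    have h := hYas 2
    have e : (fun δ => Yf kf ρ ψ δ - (PowerSeries.trunc 2 (Ys kc (fun _ => 1) ρ ψ)).eval δ) =
        fun δ => Yf kf ρ ψ δ := by
      funext δ
      rw [LAW_trunc_eval, Finset.sum_range_succ, Finset.sum_range_one]
      simp [Ys, hk0]
    rwa [e] at h
  set S := ∑ j ∈ Finset.range (J + 1), Es (fun _ => 1) (b j) ψ * (Ys kc (fun _ => 1) ρ ψ) ^ j
    with hS
  have hPas : LAW_As (fun δ => ∑ j ∈ Finset.range (J + 1), b j (ψ + δ) * Yf kf ρ ψ δ ^ j) S :=
    LAW_As_sum (fun j => (LAW_taylor (hBD.df j) hψ').mul (hYas.pow j)) (J + 1)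
  set F : ℂ → ℂ := fun δ => ∑' j, b j (ψ + δ) * Yf kf ρ ψ δ ^ j with hF
  -- the tail
  have htail : (fun δ => F δ - ∑ j ∈ Finset.range (J + 1), b j (ψ + δ) * Yf kf ρ ψ δ ^ j)
      =O[𝓝 0] fun δ : ℂ => δ ^ (2 * J + 2) := by
    obtain ⟨C, hC⟩ := hY2.bound
    have hCp : ∀ᶠ δ : ℂ in 𝓝 0, ‖Yf kf ρ ψ δ‖ ≤ r / 2 := by
      have h1 : Tendsto (fun δ : ℂ => C * ‖δ ^ 2‖) (𝓝 0) (𝓝 0) := by
        have hc : Continuous (fun δ : ℂ => C * ‖δ ^ 2‖) := by fun_prop
        have := hc.tendsto 0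
        simpa using this
      have h2 := h1.eventually (gt_mem_nhds (show (0 : ℝ) < r / 2 by positivity))
      filter_upwards [hC, h2] with δ h3 h4
      exact h3.trans h4.le
    have hin : ∀ᶠ δ : ℂ in 𝓝 0, (ψ : ℂ) + δ ∈ Metric.ball (a : ℂ) η := by
      have hc : Continuous (fun δ : ℂ => (ψ : ℂ) + δ) := by fun_prop
      have h1 := hc.tendsto 0
      rw [add_zero] at h1
      exact h1.eventually (Metric.isOpen_ball.mem_nhds hψ')
    refine IsBigO.of_bound (2 * M * (C / r) ^ (J + 1)) ?_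
    filter_upwards [hC, hCp, hin] with δ h1 h2 h3
    set x := ‖Yf kf ρ ψ δ‖ / r with hx
    have hx0 : 0 ≤ x := by positivity
    have hx1 : x ≤ 1 / 2 := by
      rw [hx, div_le_iff₀ hr]
      linarith
    have hb : ∀ j, ‖b j (ψ + δ) * Yf kf ρ ψ δ ^ j‖ ≤ M * x ^ j := by
      intro j
      rw [norm_mul, norm_pow]
      have e : M * x ^ j = M * (r⁻¹) ^ j * ‖Yf kf ρ ψ δ‖ ^ j := by
        rw [hx, div_eq_mul_inv, mul_pow]
        ring
      rw [e]
      exact mul_le_mul_of_nonneg_right (hBD.bd j _ h3) (by positivity)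
    have hsum : Summable (fun j => b j (ψ + δ) * Yf kf ρ ψ δ ^ j) :=
      Summable.of_norm_bounded
        ((summable_geometric_of_lt_one hx0 (by linarith)).mul_left M) hb
    have e1 : F δ - ∑ j ∈ Finset.range (J + 1), b j (ψ + δ) * Yf kf ρ ψ δ ^ j =
        ∑' j, b (j + (J + 1)) (ψ + δ) * Yf kf ρ ψ δ ^ (j + (J + 1)) := by
      rw [hF]
      simp only
      rw [← hsum.sum_add_tsum_nat_add (J + 1)]
      ring
    rw [e1]
    have hg : HasSum (fun n => M * x ^ (J + 1) * x ^ n) (M * x ^ (J + 1) * (1 - x)⁻¹) :=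
      (hasSum_geometric_of_lt_one hx0 (by linarith)).mul_left _
    have h4 : ‖∑' j, b (j + (J + 1)) (ψ + δ) * Yf kf ρ ψ δ ^ (j + (J + 1))‖ ≤
        M * x ^ (J + 1) * (1 - x)⁻¹ := by
      apply tsum_of_norm_bounded hg
      intro j
      refine (hb _).trans (le_of_eq ?_)
      rw [pow_add]
      ring
    refine h4.trans ?_
    have h5 : (1 - x)⁻¹ ≤ 2 := by
      rw [inv_le_comm₀ (by linarith) (by norm_num)]
      linarith
    have h6 : x ^ (J + 1) ≤ (C / r * ‖δ‖ ^ 2) ^ (J + 1) := by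
      apply pow_le_pow_left₀ hx0
      rw [hx, div_mul_eq_mul_div]
      rw [norm_pow] at h1
      exact div_le_div_of_nonneg_right h1 hr.le
    calc M * x ^ (J + 1) * (1 - x)⁻¹ ≤ M * x ^ (J + 1) * 2 :=
          mul_le_mul_of_nonneg_left h5 (by positivity)
      _ ≤ M * (C / r * ‖δ‖ ^ 2) ^ (J + 1) * 2 := by
          apply mul_le_mul_of_nonneg_right _ (by norm_num)
          exact mul_le_mul_of_nonneg_left h6 hM
      _ = 2 * M * (C / r) ^ (J + 1) * ‖δ ^ (2 * J + 2)‖ := by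
          rw [norm_pow, mul_pow, ← pow_mul, show 2 * (J + 1) = 2 * J + 2 by ring]
          ring
  have hFp : (fun δ => F δ - (PowerSeries.trunc (2 * J + 2) S).eval δ) =O[𝓝 0]
      fun δ : ℂ => δ ^ (2 * J + 2) := by
    have := htail.add (hPas (2 * J + 2))
    refine this.congr_left ?_
    intro δ
    ring
  have hFm : (fun δ => F (-δ) - (PowerSeries.trunc (2 * J + 2) S).eval (-δ)) =O[𝓝 0]
      fun δ : ℂ => δ ^ (2 * J + 2) := by
    have hneg : Tendsto (fun δ : ℂ => -δ) (𝓝 0) (𝓝 0) := by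
      have := (continuous_neg (G := ℂ)).tendsto 0
      rwa [neg_zero] at this
    have := hFp.comp_tendsto hneg
    refine this.congr_right ?_
    intro δ
    simp only [Function.comp]
    exact Even.neg_pow ⟨J + 1, by ring⟩ δ
  set q : Polynomial ℂ := ∑ n ∈ Finset.range (2 * J + 2),
    Polynomial.C (PowerSeries.coeff n S * (1 - (-1) ^ n)) * Polynomial.X ^ n with hq
  have hqe : ∀ δ : ℂ, q.eval δ = (PowerSeries.trunc (2 * J + 2) S).eval δ -
      (PowerSeries.trunc (2 * J + 2) S).eval (-δ) := by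
    intro δ
    rw [LAW_trunc_eval, LAW_trunc_eval, ← Finset.sum_sub_distrib, hq, Polynomial.eval_finsetSum]
    refine Finset.sum_congr rfl fun n _ => ?_
    rw [Polynomial.eval_mul, Polynomial.eval_C, Polynomial.eval_pow, Polynomial.eval_X, neg_pow δ]
    ring
  have hqO : (fun δ : ℝ => q.eval (δ : ℂ)) =O[𝓝[>] 0] fun δ : ℝ => (δ : ℂ) ^ (2 * J + 2) := by
    have hdiff := hFm.sub hFp
    have hre : Tendsto (fun δ : ℝ => (δ : ℂ)) (𝓝[>] 0) (𝓝 0) := by
      have := (Complex.continuous_ofReal.tendsto 0)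
      rw [Complex.ofReal_zero] at this
      exact this.mono_left nhdsWithin_le_nhds
    have h1 := hdiff.comp_tendsto hre
    refine h1.congr' ?_ (Eventually.of_forall fun _ => rfl)
    obtain ⟨ε, hε, hev⟩ := hEV
    have h2 : ∀ᶠ δ : ℝ in 𝓝[>] 0, δ ∈ Ioo 0 ε := Ioo_mem_nhdsGT hε
    filter_upwards [h2] with δ hδ
    have h3 := hev δ hδ.1 hδ.2
    have h4 : F (δ : ℂ) = F (-(δ : ℂ)) := by
      rw [hF]
      simp only
      rw [h3]
      rfl
    simp only [Function.comp]
    rw [hqe, h4]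
    ring
  have hdvd := LAW_zero q _ hqO
  have hc := (Polynomial.X_pow_dvd_iff.1 hdvd) (2 * J + 1) (by omega)
  rw [hq, Polynomial.finsetSum_coeff, Finset.sum_eq_single (2 * J + 1)] at hc
  · rw [Polynomial.coeff_C_mul, Polynomial.coeff_X_pow_self, mul_one,
      Odd.neg_one_pow ⟨J, rfl⟩] at hc
    have : PowerSeries.coeff (2 * J + 1) S * 2 = 0 := by
      rw [← hc]
      ring
    exact (mul_eq_zero.1 this).resolve_right two_ne_zero
  · intro n _ hn
    rw [Polynomial.coeff_C_mul, Polynomial.coeff_X_pow, if_neg (Ne.symm hn), mul_zero]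
  · intro h
    exact absurd (Finset.mem_range.2 (by omega)) h

theorem tLAW (hYTA : StYTA) : StLAW := by
  intro kf kc hKF hKer ρ a b η M r hBD hρ hEV
  have hη := hBD.η0
  have hreal := fun (ψ : ℝ) (hψ : |ψ - a| < η) =>
    LAW_real hYTA hKF hKer hBD hρ hψ (hEV ψ hψ)
  -- the derivative of `b 0` vanishes
  have hd0 : ∀ t ∈ Metric.ball (a : ℂ) η, deriv (b 0) t = 0 := by
    apply LAW_ident hη ((hBD.df 0).deriv Metric.isOpen_ball)
    intro ψ hψ
    have h := hreal ψ hψ 0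
    rw [Finset.sum_range_one, pow_zero, mul_one, LAW_coeff_Es] at h
    simpa using h
  have hb0 : ∀ t ∈ Metric.ball (a : ℂ) η, b 0 t = b 0 a := by
    intro t ht
    exact Metric.isOpen_ball.is_const_of_deriv_eq_zero (convex_ball _ _).isPreconnected
      (hBD.df 0) (fun x hx => hd0 x hx) ht (Metric.mem_ball_self hη)
  refine ⟨hb0, ?_⟩
  have hit : ∀ n, ∀ t ∈ Metric.ball (a : ℂ) η, iteratedDeriv (n + 1) (b 0) t = 0 := by
    intro n t ht
    rw [iteratedDeriv_succ']
    have h1 : deriv (b 0) =ᶠ[𝓝 t] fun _ => 0 := by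
      filter_upwards [Metric.isOpen_ball.mem_nhds ht] with x hx
      exact hd0 x hx
    rw [h1.iteratedDeriv_eq]
    simp
  intro J hJ
  apply LAW_ident hη
  · have hD : LAW_D (fun t => ∑ j ∈ Finset.Icc 1 J,
        Es (fun _ => 1) (b j) t * (Ys kc (fun _ => 1) ρ t) ^ j) (Metric.ball (a : ℂ) η) :=
      LAW_D.sum (fun j => (LAW_D_Es Metric.isOpen_ball (hBD.df j)).mul
        ((LAW_D_Ys Metric.isOpen_ball hρ).pow j)) _
    exact hD (2 * J + 1)
  · intro ψ hψ
    have h := hreal ψ hψ J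
    have hψ' : (ψ : ℂ) ∈ Metric.ball (a : ℂ) η := by
      rw [Metric.mem_ball, dist_eq_norm, ← Complex.ofReal_sub, Complex.norm_real]
      exact hψ
    have e : Finset.Ico 1 (J + 1) = Finset.Icc 1 J := by
      ext x
      rw [Finset.mem_Ico, Finset.mem_Icc]
      omega
    rw [Finset.range_eq_Ico, Finset.sum_eq_sum_Ico_succ_bot (by omega), pow_zero, mul_one,
      zero_add, e, map_add, LAW_coeff_Es, hit (2 * J) _ hψ', zero_div, zero_add] at h
    exact h

end H738CZ
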