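import Pool.Agent.H738R3.CZ.Defs

/-!
# LIM: the leading coefficients satisfy the model law
-/

open Complex Set Filter Topology

namespace H738CZ

theorem LIM_V3_open (R : ℝ) : IsOpen (V3 R) :=
  Metric.isOpen_ball.sdiff isClosed_singleton

theorem LIM_V3_nhds {R : ℝ} (hR : 0 < R) : V3 R ∈ 𝓝[≠] (0 : ℂ) := by
  rw [mem_nhdsWithin]
  exact ⟨Metric.ball 0 R, Metric.isOpen_ball, Metric.mem_ball_self hR, fun x hx => ⟨hx.1, hx.2⟩⟩

/-- iterated coordinate derivative of `F τ * τ^(-w)` -/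
theorem LIM_iter (R : ℝ) (f F : ℂ → ℂ) (w : ℤ) (hF : DifferentiableOn ℂ F (Metric.ball 0 R))
    (h : ∀ τ ∈ V3 R, f τ = F τ * τ ^ (-w)) (l : ℕ) :
    ∃ F' : ℂ → ℂ, DifferentiableOn ℂ F' (Metric.ball 0 R) ∧
      (∀ τ ∈ V3 R, ((DD d3)^[l] f) τ = F' τ * τ ^ (-(w + 3 * (l : ℤ)))) ∧
      F' 0 = (∏ i ∈ Finset.range l, (-(w : ℂ) / 3 - i)) * F 0 := by
  induction l with
  | zero => exact ⟨F, hF, fun τ hτ => by simpa using h τ hτ, by simp⟩
  | succ l ih =>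
    obtain ⟨F', hF', h', h0⟩ := ih
    refine ⟨fun τ => (τ * deriv F' τ - (w + 3 * (l : ℂ)) * F' τ) / 3, ?_, ?_, ?_⟩
    · exact ((differentiableOn_id.mul (hF'.deriv Metric.isOpen_ball)).sub
        ((differentiableOn_const _).mul hF')).div_const _
    · intro τ hτ
      have hτ0 : τ ≠ 0 := hτ.2
      rw [Function.iterate_succ_apply']
      have hd : deriv ((DD d3)^[l] f) τ
          = deriv (fun τ => F' τ * τ ^ (-(w + 3 * (l : ℤ)))) τ := by
        apply Filter.EventuallyEq.deriv_eq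
        filter_upwards [(LIM_V3_open R).mem_nhds hτ] with x hx using h' x hx
      have h1 : HasDerivAt F' (deriv F' τ) τ :=
        (hF'.differentiableAt (Metric.isOpen_ball.mem_nhds hτ.1)).hasDerivAt
      have h2 := hasDerivAt_zpow (-(w + 3 * (l : ℤ))) τ (Or.inl hτ0)
      have h3 : deriv (fun τ => F' τ * τ ^ (-(w + 3 * (l : ℤ)))) τ = _ := (h1.mul h2).deriv
      show deriv ((DD d3)^[l] f) τ / (3 * τ ^ 2) = _
      rw [hd, h3]
      have e1 : τ ^ (-(w + 3 * (l : ℤ))) = τ ^ (-(w + 3 * ((l + 1 : ℕ) : ℤ))) * τ ^ 3 := by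
        rw [← zpow_natCast τ 3, ← zpow_add₀ hτ0]
        congr 1
        push_cast
        ring
      have e2 : τ ^ (-(w + 3 * (l : ℤ)) - 1) = τ ^ (-(w + 3 * ((l + 1 : ℕ) : ℤ))) * τ ^ 2 := by
        rw [← zpow_natCast τ 2, ← zpow_add₀ hτ0]
        congr 1
        push_cast
        ring
      rw [e1, e2]
      generalize τ ^ (-(w + 3 * ((l + 1 : ℕ) : ℤ))) = z
      push_cast
      field_simp
      ring
    · show (0 * deriv F' 0 - (w + 3 * (l : ℂ)) * F' 0) / 3 = _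
      rw [h0, Finset.prod_range_succ]
      ring

/-- weighted limits of the iterated derivatives -/
theorem LIM_lim (R : ℝ) (hR : 0 < R) (f F : ℂ → ℂ) (w : ℤ)
    (hF : DifferentiableOn ℂ F (Metric.ball 0 R))
    (h : ∀ τ ∈ V3 R, f τ = F τ * τ ^ (-w)) (l : ℕ) :
    Tendsto (fun τ => ((DD d3)^[l] f) τ * τ ^ (w + 3 * (l : ℤ))) (𝓝[≠] 0)
      (𝓝 ((∏ i ∈ Finset.range l, (-(w : ℂ) / 3 - i)) * F 0)) := by
  obtain ⟨F', hF', h', h0⟩ := LIM_iter R f F w hF h l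
  rw [← h0]
  have hc : Tendsto F' (𝓝[≠] 0) (𝓝 (F' 0)) :=
    ((hF'.differentiableAt (Metric.isOpen_ball.mem_nhds
      (Metric.mem_ball_self hR))).continuousAt.tendsto).mono_left nhdsWithin_le_nhds
  refine hc.congr' ?_
  filter_upwards [LIM_V3_nhds hR] with τ hτ
  have hτ0 : τ ≠ 0 := hτ.2
  rw [h' τ hτ, mul_assoc, ← zpow_add₀ hτ0]
  simp

/-- coefficientwise weighted limits -/
def LIM_PW (A : ℂ → PowerSeries ℂ) (w : ℤ) (a : PowerSeries ℂ) : Prop :=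
  ∀ n : ℕ, Tendsto (fun τ : ℂ => PowerSeries.coeff n (A τ) * τ ^ (w + 3 * (n : ℤ))) (𝓝[≠] 0)
    (𝓝 (PowerSeries.coeff n a))

theorem LIM_mul {A B : ℂ → PowerSeries ℂ} {w v : ℤ} {a b : PowerSeries ℂ}
    (hA : LIM_PW A w a) (hB : LIM_PW B v b) :
    LIM_PW (fun τ => A τ * B τ) (w + v) (a * b) := by
  intro n
  rw [PowerSeries.coeff_mul]
  have h : Tendsto (fun τ : ℂ => ∑ p ∈ Finset.HasAntidiagonal.antidiagonal n,
      (PowerSeries.coeff p.1 (A τ) * τ ^ (w + 3 * (p.1 : ℤ)))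
        * (PowerSeries.coeff p.2 (B τ) * τ ^ (v + 3 * (p.2 : ℤ)))) (𝓝[≠] 0)
      (𝓝 (∑ p ∈ Finset.HasAntidiagonal.antidiagonal n, PowerSeries.coeff p.1 a * PowerSeries.coeff p.2 b)) :=
    tendsto_finsetSum _ fun p _ => (hA p.1).mul (hB p.2)
  refine h.congr' ?_
  filter_upwards [self_mem_nhdsWithin] with τ hτ
  have hτ0 : τ ≠ 0 := hτ
  rw [PowerSeries.coeff_mul, Finset.sum_mul]
  refine Finset.sum_congr rfl fun p hp => ?_
  have hp' : p.1 + p.2 = n := Finset.HasAntidiagonal.mem_antidiagonal.1 hp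
  have e : τ ^ (w + v + 3 * (n : ℤ)) = τ ^ (w + 3 * (p.1 : ℤ)) * τ ^ (v + 3 * (p.2 : ℤ)) := by
    rw [← zpow_add₀ hτ0]
    congr 1
    rw [← hp']
    push_cast
    ring
  rw [e]
  ring

theorem LIM_one : LIM_PW (fun _ => 1) 0 1 := by
  intro n
  rcases Nat.eq_zero_or_pos n with rfl | hn
  · simp
  · have h : PowerSeries.coeff n (1 : PowerSeries ℂ) = 0 := by
      rw [PowerSeries.coeff_one, if_neg (by omega)]
    simp [h]

theorem LIM_pow {A : ℂ → PowerSeries ℂ} {w : ℤ} {a : PowerSeries ℂ} (hA : LIM_PW A w a)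
    (k : ℕ) : LIM_PW (fun τ => A τ ^ k) (k * w) (a ^ k) := by
  induction k with
  | zero => simpa using LIM_one
  | succ k ih =>
    have h := LIM_mul ih hA
    have e : ((k : ℤ) * w + w) = ((k + 1 : ℕ) : ℤ) * w := by push_cast; ring
    rw [e] at h
    simpa only [pow_succ] using h

theorem LIM_cube {R : ℝ} {τ : ℂ} (h : τ ∈ Metric.ball (0 : ℂ) R) :
    τ ^ 3 ∈ Metric.ball (0 : ℂ) (R ^ 3) := by
  rw [mem_ball_zero_iff] at h ⊢
  rw [norm_pow]
  exact pow_lt_pow_left₀ h (norm_nonneg _) (by norm_num)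

theorem LIM_du {u : ℂ → ℂ} {R : ℝ} (hu : UN u R) :
    DifferentiableOn ℂ (fun τ => u (τ ^ 3)) (Metric.ball 0 R) :=
  hu.df.comp (differentiableOn_pow 3) fun _ hτ => LIM_cube hτ

/-- the Taylor shift part -/
theorem LIM_Es {m : ℕ} {u : ℂ → ℂ} {R : ℝ} (hu : UN u R) (g : ℕ → ℂ → ℂ) (G : ℂ → ℂ) (j : ℕ)
    (hj : 1 ≤ j) (hP : Pol m R g j G) :
    LIM_PW (fun τ => Es d3 (fun t => g j t * ((r3 m u t)⁻¹) ^ j) τ)
      ((3 * m + 6) * j - (2 * m + 6))
      (PowerSeries.C (G 0 * ((u 0)⁻¹) ^ j)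
        * binS ((2 * (m : ℂ) + 6 - (3 * m + 6) * j) / 3)) := by
  intro l
  have hF : DifferentiableOn ℂ (fun τ => G τ * ((u (τ ^ 3))⁻¹) ^ j) (Metric.ball 0 R) :=
    hP.1.mul (((LIM_du hu).inv fun τ hτ => hu.nz _ (LIM_cube hτ)).pow j)
  have h := LIM_lim R hu.pos (fun t => g j t * ((r3 m u t)⁻¹) ^ j) _
    ((3 * m + 6) * j - (2 * m + 6)) hF ?_ l
  · have h2 := h.div_const (l.factorial : ℂ)
    have e : PowerSeries.coeff l (PowerSeries.C (G 0 * ((u 0)⁻¹) ^ j)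
        * binS ((2 * (m : ℂ) + 6 - (3 * m + 6) * j) / 3))
        = (∏ i ∈ Finset.range l, (-((((3 * m + 6) * j - (2 * m + 6) : ℤ)) : ℂ) / 3 - i))
            * ((fun τ => G τ * ((u (τ ^ 3))⁻¹) ^ j) 0) / (l.factorial : ℂ) := by
      rw [PowerSeries.coeff_C_mul, binS, PowerSeries.coeff_mk]
      have e1 : (2 * (m : ℂ) + 6 - (3 * m + 6) * j) / 3
          = -((((3 * m + 6) * j - (2 * m + 6) : ℤ)) : ℂ) / 3 := by
        push_cast
        ring
      rw [e1]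
      simp only [ne_eq, OfNat.ofNat_ne_zero, not_false_eq_true, zero_pow]
      ring
    rw [e]
    refine h2.congr fun τ => ?_
    simp only [Es, PowerSeries.coeff_mk]
    ring
  · intro τ hτ
    have hτ0 : τ ≠ 0 := hτ.2
    have hun : u (τ ^ 3) ≠ 0 := hu.nz _ (LIM_cube hτ.1)
    have hg := hP.2 τ hτ
    show g j τ * ((r3 m u τ)⁻¹) ^ j = G τ * ((u (τ ^ 3))⁻¹) ^ j * _
    rw [← hg, r3]
    have e : τ ^ (-((3 * (m : ℤ) + 6) * j - (2 * m + 6)))
        = (τ ^ ((2 * m + 6) * (j - 1)))⁻¹ * ((τ ^ m)⁻¹) ^ j := by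
      rw [inv_pow, ← pow_mul, ← zpow_natCast τ, ← zpow_natCast τ, ← zpow_neg, ← zpow_neg,
        ← zpow_add₀ hτ0]
      congr 1
      push_cast [Nat.cast_sub hj]
      ring
    rw [e, mul_inv, mul_pow]
    have hp : τ ^ ((2 * m + 6) * (j - 1)) ≠ 0 := pow_ne_zero _ hτ0
    field_simp

/-- the arc part -/
theorem LIM_Ys {kc : ℕ → ℂ} (hk : Ker kc) {m : ℕ} {u : ℂ → ℂ} {R : ℝ} (hu : UN u R) :
    LIM_PW (fun τ => Ys kc d3 (ρ3 m u) τ) (-(3 * m + 6)) (Y0 m (u 0)) := by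
  have k0 : kc 0 = 0 := by simpa using hk.even 0
  have hF : DifferentiableOn ℂ (fun τ => u (τ ^ 3) ^ 3) (Metric.ball 0 R) := (LIM_du hu).pow 3
  have hl := LIM_lim R hu.pos (ρ3 m u) _ (-(3 * (m : ℤ))) hF (by
    intro τ hτ
    rw [ρ3, mul_pow, ← pow_mul, neg_neg, mul_comm, show (3 * (m : ℤ)) = ((m * 3 : ℕ) : ℤ) by
      push_cast; ring, zpow_natCast])
  intro n
  rw [Y0, PowerSeries.coeff_mk]
  rcases n with _ | _ | n
  · simp [Ys]
  · simp [Ys, k0]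
  · rw [if_neg (by omega)]
    have hs : Tendsto (fun τ : ℂ => ∑ l ∈ Finset.range (n + 2),
        kc (n + 2 - 1 - l) * (((DD d3)^[l] (ρ3 m u)) τ * τ ^ (-(3 * (m : ℤ)) + 3 * (l : ℤ))
          * τ ^ (3 * (n : ℤ) - 3 * (l : ℤ)))) (𝓝[≠] 0)
        (𝓝 (∑ l ∈ Finset.range (n + 2), if l = n then
          u 0 ^ 3 * ∏ i ∈ Finset.range n, ((m : ℂ) - i) else 0)) := by
      refine tendsto_finsetSum _ fun l hln => ?_
      rw [Finset.mem_range] at hln
      rcases lt_trichotomy l n with h | h | h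
      · rw [if_neg (by omega)]
        have h1 : Tendsto (fun τ : ℂ => τ ^ (3 * (n : ℤ) - 3 * (l : ℤ))) (𝓝[≠] 0) (𝓝 0) := by
          have e : (3 * (n : ℤ) - 3 * (l : ℤ)) = ((3 * (n - l) : ℕ) : ℤ) := by
            push_cast [Nat.cast_sub h.le]
            ring
          rw [e]
          simp only [zpow_natCast]
          have hc : Tendsto (fun τ : ℂ => τ ^ (3 * (n - l))) (𝓝 0) (𝓝 (0 ^ (3 * (n - l)))) :=
            (continuous_pow _).tendsto 0
          rw [zero_pow (by omega)] at hc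
          exact hc.mono_left nhdsWithin_le_nhds
        have h2 := ((hl l).mul h1).const_mul (kc (n + 2 - 1 - l))
        rw [mul_zero, mul_zero] at h2
        exact h2
      · subst h
        rw [if_pos rfl]
        have e : l + 2 - 1 - l = 1 := by omega
        rw [e, hk.one]
        have h2 := hl l
        have e2 : (∏ i ∈ Finset.range l, (-((-(3 * (m : ℤ)) : ℤ) : ℂ) / 3 - i))
            * ((fun τ => u (τ ^ 3) ^ 3) 0) = u 0 ^ 3 * ∏ i ∈ Finset.range l, ((m : ℂ) - i) := by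
          have e3 : -((-(3 * (m : ℤ)) : ℤ) : ℂ) / 3 = m := by
            push_cast
            ring
          rw [e3]
          simp only [ne_eq, OfNat.ofNat_ne_zero, not_false_eq_true, zero_pow]
          ring
        rw [e2] at h2
        refine h2.congr fun τ => ?_
        simp
      · rw [if_neg (by omega)]
        have e : n + 2 - 1 - l = 0 := by omega
        rw [e, k0]
        simp
    rw [Finset.sum_ite_eq' (Finset.range (n + 2)) n, if_pos (by simp)] at hs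
    have hs2 := hs.div_const (((n + 2).factorial : ℕ) : ℂ)
    have e4 : n + 1 + 1 - 2 = n := by omega
    rw [e4]
    refine hs2.congr' ?_
    filter_upwards [self_mem_nhdsWithin] with τ hτ
    have hτ0 : τ ≠ 0 := hτ
    rw [Ys, PowerSeries.coeff_mk, div_mul_eq_mul_div, Finset.sum_mul]
    congr 1
    refine Finset.sum_congr rfl fun l _ => ?_
    have e : τ ^ (-(3 * (m : ℤ) + 6) + 3 * ((n + 1 + 1 : ℕ) : ℤ))
        = τ ^ (-(3 * (m : ℤ)) + 3 * (l : ℤ)) * τ ^ (3 * (n : ℤ) - 3 * (l : ℤ)) := by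
      rw [← zpow_add₀ hτ0]
      congr 1
      push_cast
      ring
    rw [e]
    ring

theorem tLIM : StLIM := by
  intro kc hk m u R hm hu g G hFI hP J hJ
  have hz : Tendsto (fun τ : ℂ => Cf kc d3 (ρ3 m u) (r3 m u) g J (2 * J + 1) τ
      * τ ^ (-(2 * (m : ℤ) + 6) + 3 * ((2 * J + 1 : ℕ) : ℤ))) (𝓝[≠] 0) (𝓝 0) := by
    refine tendsto_const_nhds.congr' ?_
    filter_upwards [LIM_V3_nhds hu.pos] with τ hτ
    rw [hFI.law J hJ τ hτ, zero_mul]
  have hl : Tendsto (fun τ : ℂ => Cf kc d3 (ρ3 m u) (r3 m u) g J (2 * J + 1) τ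
      * τ ^ (-(2 * (m : ℤ) + 6) + 3 * ((2 * J + 1 : ℕ) : ℤ))) (𝓝[≠] 0)
      (𝓝 (PowerSeries.coeff (2 * J + 1) (∑ j ∈ Finset.Icc 1 J,
        PowerSeries.C (G j 0 * ((u 0)⁻¹) ^ j)
          * binS ((2 * (m : ℂ) + 6 - (3 * m + 6) * j) / 3) * (Y0 m (u 0)) ^ j))) := by
    rw [map_sum]
    have hs := tendsto_finsetSum (Finset.Icc 1 J) fun j (hj : j ∈ Finset.Icc 1 J) =>
      LIM_mul (LIM_Es hu g (G j) j (Finset.mem_Icc.1 hj).1 (hP j (Finset.mem_Icc.1 hj).1))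
        (LIM_pow (LIM_Ys hk hu (m := m)) j) (2 * J + 1)
    refine hs.congr fun τ => ?_
    rw [Cf, map_sum, Finset.sum_mul]
    refine Finset.sum_congr rfl fun j _ => ?_
    have e : ((3 * (m : ℤ) + 6) * j - (2 * m + 6) + (j : ℤ) * (-(3 * m + 6))
        + 3 * ((2 * J + 1 : ℕ) : ℤ)) = -(2 * (m : ℤ) + 6) + 3 * ((2 * J + 1 : ℕ) : ℤ) := by
      ring
    rw [e, Tm]
  exact tendsto_nhds_unique hl hz

end H738CZ
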