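import Pool.Agent.H738R3.CZ.Defs

open Complex Set Filter Topology

namespace H738CZ

/-- the cofactor `Bm = (x-1)² C` -/
noncomputable def LOC_C (m : ℕ) (x : ℂ) : ℂ := ∑ j ∈ Finset.range (m + 1), ((j : ℂ) + 1) * x ^ j

theorem LOC_fac (m : ℕ) (x : ℂ) : Bm m x = (x - 1) ^ 2 * LOC_C m x := by
  induction m with
  | zero => simp [Bm, LOC_C]; ring
  | succ m ih =>
    have h1 : LOC_C (m + 1) x = LOC_C m x + (((m + 1 : ℕ) : ℂ) + 1) * x ^ (m + 1) := by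
      rw [LOC_C, Finset.sum_range_succ]; rfl
    rw [h1, mul_add, ← ih]
    unfold Bm
    push_cast
    ring

noncomputable def LOC_R (m : ℕ) : ℝ := ∑ j ∈ Finset.range (m + 1), ((j : ℝ) + 1)

noncomputable def LOC_D (m : ℕ) : ℝ := ∑ j ∈ Finset.range (m + 1), ((j : ℝ) + 1) * j

theorem LOC_Rpos (m : ℕ) : 0 < LOC_R m := by
  unfold LOC_R
  apply Finset.sum_pos
  · intro j _; positivity
  · exact ⟨0, by simp⟩

theorem LOC_Dnn (m : ℕ) : 0 ≤ LOC_D m := by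
  unfold LOC_D
  exact Finset.sum_nonneg (fun j _ => by positivity)

theorem LOC_C1 (m : ℕ) : LOC_C m 1 = (LOC_R m : ℂ) := by
  unfold LOC_C LOC_R
  push_cast
  simp

theorem LOC_Cderiv (m : ℕ) : HasDerivAt (LOC_C m) (LOC_D m : ℂ) 1 := by
  have h : HasDerivAt (fun x : ℂ => ∑ j ∈ Finset.range (m + 1), ((j : ℂ) + 1) * x ^ j)
      (∑ j ∈ Finset.range (m + 1), ((j : ℂ) + 1) * (j * (1 : ℂ) ^ (j - 1))) 1 := by
    apply HasDerivAt.fun_sum
    intro j _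
    exact (hasDerivAt_pow j 1).const_mul _
  have h2 : (∑ j ∈ Finset.range (m + 1), ((j : ℂ) + 1) * (j * (1 : ℂ) ^ (j - 1))) =
      (LOC_D m : ℂ) := by
    unfold LOC_D
    push_cast
    simp
  rw [h2] at h
  exact h

theorem LOC_Can (m : ℕ) (x : ℂ) : AnalyticAt ℂ (LOC_C m) x := by
  have : Differentiable ℂ (LOC_C m) := by
    unfold LOC_C; fun_prop
  exact this.analyticAt x

noncomputable def LOC_g (m : ℕ) (x : ℂ) : ℂ := (LOC_C m x) ^ (1 / 2 : ℂ)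

theorem LOC_slit (m : ℕ) : LOC_C m 1 ∈ slitPlane := by
  rw [LOC_C1]
  exact Complex.ofReal_mem_slitPlane.mpr (LOC_Rpos m)

theorem LOC_gan (m : ℕ) : AnalyticAt ℂ (LOC_g m) 1 := by
  unfold LOC_g
  exact (LOC_Can m 1).cpow analyticAt_const (LOC_slit m)

theorem LOC_g1 (m : ℕ) : LOC_g m 1 = ((LOC_R m ^ (1 / 2 : ℝ) : ℝ) : ℂ) := by
  unfold LOC_g
  rw [LOC_C1, Complex.ofReal_cpow (LOC_Rpos m).le]
  norm_num

theorem LOC_gd (m : ℕ) : HasDerivAt (LOC_g m)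
    ((1 / 2 * LOC_R m ^ (-(1 / 2) : ℝ) * LOC_D m : ℝ) : ℂ) 1 := by
  have h := (LOC_Cderiv m).cpow_const (c := (1 / 2 : ℂ)) (LOC_slit m)
  have h2 : (1 / 2 : ℂ) * (LOC_C m 1) ^ ((1 / 2 : ℂ) - 1) * (LOC_D m : ℂ) =
      ((1 / 2 * LOC_R m ^ (-(1 / 2) : ℝ) * LOC_D m : ℝ) : ℂ) := by
    rw [LOC_C1]
    push_cast
    rw [Complex.ofReal_cpow (LOC_Rpos m).le]
    norm_num
  rw [h2] at h
  exact h

theorem LOC_g_sq (m : ℕ) : ∀ᶠ x in 𝓝 (1 : ℂ), LOC_g m x ^ 2 = LOC_C m x := by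
  have h : ∀ᶠ x in 𝓝 (1 : ℂ), LOC_C m x ≠ 0 := by
    apply (LOC_Can m 1).continuousAt.eventually_ne
    rw [LOC_C1]
    exact_mod_cast (LOC_Rpos m).ne'
  filter_upwards [h] with x hx
  unfold LOC_g
  rw [← Complex.cpow_nat_mul]
  norm_num

noncomputable def LOC_W (m : ℕ) (x : ℂ) : ℂ := (x - 1) * LOC_g m x

theorem LOC_Wan (m : ℕ) : AnalyticAt ℂ (LOC_W m) 1 := by
  unfold LOC_W
  exact (analyticAt_id.sub analyticAt_const).mul (LOC_gan m)

theorem LOC_W1 (m : ℕ) : LOC_W m 1 = 0 := by simp [LOC_W]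

theorem LOC_Wd (m : ℕ) : HasDerivAt (LOC_W m) ((LOC_R m ^ (1 / 2 : ℝ) : ℝ) : ℂ) 1 := by
  have h := ((hasDerivAt_id (1 : ℂ)).sub_const 1).mul (LOC_gd m)
  simp only [id, sub_self, zero_mul, add_zero, one_mul] at h
  rw [LOC_g1] at h
  exact h

theorem LOC_W_sq (m : ℕ) : ∀ᶠ x in 𝓝 (1 : ℂ), Bm m x = LOC_W m x ^ 2 := by
  filter_upwards [LOC_g_sq m] with x hx
  rw [LOC_fac, LOC_W, mul_pow, hx]

/-- the sign of `Re W` inside the unit disc -/
theorem LOC_sign (m : ℕ) : ∀ᶠ x in 𝓝 (1 : ℂ), ‖x‖ < 1 → (LOC_W m x).re < 0 := by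
  set σ : ℝ := LOC_R m ^ (1 / 2 : ℝ) with hσ
  have hσ0 : 0 < σ := Real.rpow_pos_of_pos (LOC_Rpos m) _
  set κ : ℝ := 1 / 2 * LOC_R m ^ (-(1 / 2) : ℝ) * LOC_D m with hκ
  have hκ0 : 0 ≤ κ := by
    have := LOC_Dnn m
    have := LOC_Rpos m
    positivity
  -- second divided difference
  set h : ℂ → ℂ := dslope (LOC_g m) 1 with hh
  have hhan : AnalyticAt ℂ h 1 := by
    obtain ⟨p, hp⟩ := LOC_gan m
    exact (hp.has_fpower_series_dslope_fslope).analyticAt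
  have hh1 : h 1 = (κ : ℂ) := by
    rw [hh, dslope_same]
    exact (LOC_gd m).deriv
  set k : ℂ → ℂ := dslope h 1 with hk
  have hkan : AnalyticAt ℂ k 1 := by
    obtain ⟨p, hp⟩ := hhan
    exact (hp.has_fpower_series_dslope_fslope).analyticAt
  have hkb : ∀ᶠ x in 𝓝 (1 : ℂ), ‖k x‖ < ‖k 1‖ + 1 :=
    hkan.continuousAt.norm.eventually_lt continuousAt_const (by simp)
  set K : ℝ := ‖k 1‖ + 1 with hK
  have hK0 : 0 < K := by positivity
  have hnear : ∀ᶠ x in 𝓝 (1 : ℂ), ‖x - 1‖ < min (σ / (2 * κ + 1)) (σ / (4 * K)) := by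
    have : Tendsto (fun x : ℂ => ‖x - 1‖) (𝓝 1) (𝓝 0) := by
      have h1 : ContinuousAt (fun x : ℂ => ‖x - 1‖) 1 := by fun_prop
      have := h1.tendsto
      simpa using this
    exact this.eventually_lt_const (by positivity)
  filter_upwards [hkb, hnear] with x hx1 hx2 hx3
  have e1 : LOC_g m x = σ + (x - 1) * h x := by
    have := sub_smul_dslope (LOC_g m) 1 x
    rw [smul_eq_mul, LOC_g1] at this
    rw [hh]
    linear_combination this.symm
  have e2 : h x = κ + (x - 1) * k x := by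
    have := sub_smul_dslope h 1 x
    rw [smul_eq_mul, hh1] at this
    rw [hk]
    linear_combination this.symm
  set s : ℂ := 1 - x with hs
  have e3 : LOC_W m x = -((σ : ℂ) * s - κ * s ^ 2 + k x * s ^ 3) := by
    unfold LOC_W
    rw [e1, e2, hs]
    ring
  have hxs : x = 1 - s := by rw [hs]; ring
  have hsn : ‖s‖ < min (σ / (2 * κ + 1)) (σ / (4 * K)) := by
    rw [hs, norm_sub_rev]; exact hx2
  have hs1 : ‖s‖ < σ / (2 * κ + 1) := lt_of_lt_of_le hsn (min_le_left _ _)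
  have hs2 : ‖s‖ < σ / (4 * K) := lt_of_lt_of_le hsn (min_le_right _ _)
  have hnn : 0 ≤ ‖s‖ := norm_nonneg s
  have hsq : ‖s‖ ^ 2 = s.re ^ 2 + s.im ^ 2 := by
    rw [Complex.sq_norm, Complex.normSq_apply]; ring
  have hre : ‖s‖ ^ 2 / 2 < s.re := by
    have h5 : ‖x‖ ^ 2 < 1 := by
      have : 0 ≤ ‖x‖ := norm_nonneg x
      nlinarith
    have h6 : ‖x‖ ^ 2 = (1 - s.re) ^ 2 + s.im ^ 2 := by
      rw [Complex.sq_norm, Complex.normSq_apply, hxs]
      simp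
      ring
    nlinarith
  have hk3 : |(k x * s ^ 3).re| ≤ K * ‖s‖ ^ 3 := by
    refine (Complex.abs_re_le_norm _).trans ?_
    rw [norm_mul, norm_pow]
    exact mul_le_mul_of_nonneg_right hx1.le (by positivity)
  have e4 : (LOC_W m x).re = -(σ * s.re - κ * (s.re ^ 2 - s.im ^ 2) + (k x * s ^ 3).re) := by
    rw [e3]
    have e5 : ((κ : ℂ) * s ^ 2).re = κ * (s.re ^ 2 - s.im ^ 2) := by
      rw [Complex.re_ofReal_mul, pow_two, Complex.mul_re]; ring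
    rw [Complex.neg_re, Complex.add_re, Complex.sub_re, e5, Complex.re_ofReal_mul]
  rw [e4]
  have hre_le : s.re ≤ ‖s‖ := (le_abs_self _).trans (Complex.abs_re_le_norm s)
  have hre0 : 0 < s.re := by
    have : 0 ≤ ‖s‖ ^ 2 / 2 := by positivity
    linarith
  have h7 : κ * s.re ^ 2 ≤ σ / 2 * s.re := by
    have h8 : ‖s‖ * (2 * κ + 1) < σ := by rwa [lt_div_iff₀ (by positivity)] at hs1
    have h9 : κ * s.re ≤ σ / 2 := by nlinarith
    nlinarith
  have h8 : K * ‖s‖ ^ 3 ≤ σ / 4 * ‖s‖ ^ 2 := by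
    have h9 : ‖s‖ * (4 * K) < σ := by rwa [lt_div_iff₀ (by positivity)] at hs2
    have h10 : K * ‖s‖ ≤ σ / 4 := by linarith
    nlinarith [sq_nonneg ‖s‖]
  have h9 := (abs_le.mp hk3).1
  have h10 : 0 ≤ κ * s.im ^ 2 := by positivity
  nlinarith

theorem tLOC : StLOC := by
  intro m _
  set σ : ℝ := LOC_R m ^ (1 / 2 : ℝ) with hσ
  have hσ0 : 0 < σ := Real.rpow_pos_of_pos (LOC_Rpos m) _
  have hσc : (σ : ℂ) ≠ 0 := by exact_mod_cast hσ0.ne'
  have hder : deriv (LOC_W m) 1 = (σ : ℂ) := (LOC_Wd m).deriv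
  have hd : deriv (LOC_W m) 1 ≠ 0 := by rw [hder]; exact hσc
  set X : ℂ → ℂ := (LOC_Wan m).hasStrictDerivAt.localInverse _ _ _ hd with hX
  have hXan : AnalyticAt ℂ X 0 := by
    have := (LOC_Wan m).analyticAt_localInverse hd
    rw [LOC_W1] at this
    exact this
  have hX0 : X 0 = 1 := by
    have : X (LOC_W m 1) = 1 := HasStrictFDerivAt.localInverse_apply_image ..
    rwa [LOC_W1] at this
  have hXW : ∀ᶠ x in 𝓝 (1 : ℂ), X (LOC_W m x) = x :=
    HasStrictDerivAt.eventually_left_inverse (LOC_Wan m).hasStrictDerivAt hd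
  have hWX : ∀ᶠ w in 𝓝 (0 : ℂ), LOC_W m (X w) = w := by
    have := HasStrictDerivAt.eventually_right_inverse (LOC_Wan m).hasStrictDerivAt hd
    rw [LOC_W1] at this
    exact this
  have hX1 : deriv X 0 = ((σ⁻¹ : ℝ) : ℂ) := by
    have := HasStrictDerivAt.to_localInverse (LOC_Wan m).hasStrictDerivAt hd
    rw [LOC_W1] at this
    have h2 : deriv X 0 = (deriv (LOC_W m) 1)⁻¹ := this.hasDerivAt.deriv
    rw [h2, hder, Complex.ofReal_inv]
  have hXt : Tendsto X (𝓝 0) (𝓝 1) := by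
    have := hXan.continuousAt.tendsto
    rwa [hX0] at this
  have hBX : ∀ᶠ w in 𝓝 (0 : ℂ), Bm m (X w) = w ^ 2 := by
    filter_upwards [hXt.eventually (LOC_W_sq m), hWX] with w h1 h2
    rw [h1, h2]
  have hnz : ∀ᶠ w in 𝓝 (0 : ℂ), 2 * X w - 1 ≠ 0 := by
    have : ContinuousAt (fun w => 2 * X w - 1) 0 :=
      (hXan.continuousAt.const_mul 2 |>.sub continuousAt_const : _)
    apply this.eventually_ne
    rw [hX0]; norm_num
  have hge : ∀ᶠ w in 𝓝 (0 : ℂ), 0 ≤ w.re → 1 ≤ ‖X w‖ := by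
    filter_upwards [hXt.eventually (LOC_sign m), hWX] with w h1 h2 h3
    by_contra h4
    push Not at h4
    have := h1 h4
    rw [h2] at this
    linarith
  have hdx : ∀ᶠ w in 𝓝 (0 : ℂ), DifferentiableAt ℂ X w :=
    hXan.eventually_analyticAt.mono (fun w hw => hw.differentiableAt)
  obtain ⟨r, hr, hball⟩ := Metric.eventually_nhds_iff_ball.mp
    (hBX.and (hnz.and (hge.and hdx)))
  refine ⟨r, σ⁻¹, X, LOC_W m, ?_⟩
  exact
    { r0 := hr
      c0 := inv_pos.mpr hσ0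
      dX := fun w hw => (hball w hw).2.2.2.differentiableWithinAt
      X0 := hX0
      X1 := hX1
      BX := fun w hw => (hball w hw).1
      nz := fun w hw => (hball w hw).2.1
      ge := fun w hw => (hball w hw).2.2.1
      aW := LOC_Wan m
      W0 := LOC_W1 m
      XW := hXW
      WX := hWX }

end H738CZ
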