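import Pool.Agent.H738R3.CZ.Defs

open Complex Set Filter Topology

namespace H738CZ

theorem NAG_iter (f : ℂ → ℂ) (l : ℕ) : (DD (fun _ => 1))^[l] f = iteratedDeriv l f := by
  have h : DD (fun _ => (1:ℂ)) = deriv := by
    funext f t
    simp [DD]
  rw [h, iteratedDeriv_eq_iterate]

theorem NAG_pow (om : PowerSeries ℂ) (V : ℝ) (hV : 0 ≤ V)
    (h : ∀ n, ‖PowerSeries.coeff n om‖ ≤ V ^ n) (i p : ℕ) :
    ‖PowerSeries.coeff p (om ^ i)‖ ≤ (V * i) ^ p := by
  induction i generalizing p with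
  | zero =>
    rw [pow_zero, PowerSeries.coeff_one]
    split_ifs with hp
    · subst hp; simp
    · simp
  | succ i ih =>
    rw [pow_succ, PowerSeries.coeff_mul]
    calc ‖∑ x ∈ Finset.HasAntidiagonal.antidiagonal p, PowerSeries.coeff x.1 (om ^ i) * PowerSeries.coeff x.2 om‖
        ≤ ∑ x ∈ Finset.HasAntidiagonal.antidiagonal p, (p.choose x.1) • ((V * i) ^ x.1 * V ^ x.2) := by
          refine (norm_sum_le _ _).trans (Finset.sum_le_sum ?_)
          intro x hx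
          rw [Finset.HasAntidiagonal.mem_antidiagonal] at hx
          rw [norm_mul]
          have h1 := mul_le_mul (ih x.1) (h x.2) (norm_nonneg _) (by positivity)
          have h2 : 1 ≤ p.choose x.1 := Nat.choose_pos (by omega)
          have h3 : (1:ℝ) ≤ (p.choose x.1 : ℝ) := by exact_mod_cast h2
          rw [nsmul_eq_mul]
          refine h1.trans ?_
          exact le_mul_of_one_le_left (by positivity) h3
      _ = (V * i + V) ^ p := by rw [(Commute.all (V * (i:ℝ)) V).add_pow']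
      _ = (V * ((i + 1 : ℕ) : ℝ)) ^ p := by
          congr 1
          push_cast
          ring

theorem NAG_coeff (W : PowerSeries ℂ) (V : ℝ) (hV : 1 ≤ V) (h0 : PowerSeries.coeff 0 W = 0)
    (h1 : PowerSeries.coeff 1 W = 0) (hW : ∀ n, ‖PowerSeries.coeff (n + 2) W‖ ≤ V ^ n)
    (E : PowerSeries ℂ) (M D : ℝ) (hM : 0 ≤ M) (i : ℕ) (hD : (i:ℝ) ≤ D)
    (hE : ∀ l, ‖PowerSeries.coeff l E‖ ≤ M * D ^ l) (p : ℕ) :
    ‖PowerSeries.coeff (p + 2 * i) (E * W ^ i)‖ ≤ (p + 1) * (M * (V * D) ^ p) := by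
  have hD0 : 0 ≤ D := (Nat.cast_nonneg i).trans hD
  obtain ⟨om, hom⟩ : ∃ om : PowerSeries ℂ, ∀ n, PowerSeries.coeff n om = PowerSeries.coeff (n + 2) W :=
    ⟨PowerSeries.mk fun n => PowerSeries.coeff (n + 2) W, fun n => by rw [PowerSeries.coeff_mk]⟩
  have hW2 : W = PowerSeries.X ^ 2 * om := by
    ext n
    rw [PowerSeries.coeff_X_pow_mul']
    split_ifs with hn
    · rw [hom]
      congr 2
      omega
    · have : n = 0 ∨ n = 1 := by omega
      rcases this with rfl | rfl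
      · exact h0
      · exact h1
  have e : E * W ^ i = PowerSeries.X ^ (2 * i) * (E * om ^ i) := by
    rw [hW2, mul_pow, ← pow_mul]
    ring
  rw [e, PowerSeries.coeff_X_pow_mul, PowerSeries.coeff_mul]
  calc ‖∑ x ∈ Finset.HasAntidiagonal.antidiagonal p, PowerSeries.coeff x.1 E * PowerSeries.coeff x.2 (om ^ i)‖
      ≤ ∑ x ∈ Finset.HasAntidiagonal.antidiagonal p, M * (V * D) ^ p := by
        refine (norm_sum_le _ _).trans (Finset.sum_le_sum ?_)
        intro x hx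
        rw [Finset.HasAntidiagonal.mem_antidiagonal] at hx
        rw [norm_mul]
        have h2 := NAG_pow om V (by linarith) (fun n => by rw [hom]; exact hW n) i x.2
        have h3 : (V * i) ^ x.2 ≤ (V * D) ^ x.2 :=
          pow_le_pow_left₀ (by positivity) (mul_le_mul_of_nonneg_left hD (by linarith)) _
        have h4 : D ^ x.1 ≤ (V * D) ^ x.1 :=
          pow_le_pow_left₀ hD0 (le_mul_of_one_le_left hD0 hV) _
        calc ‖PowerSeries.coeff x.1 E‖ * ‖PowerSeries.coeff x.2 (om ^ i)‖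
            ≤ (M * D ^ x.1) * (V * D) ^ x.2 :=
              mul_le_mul (hE _) (h2.trans h3) (norm_nonneg _) (by positivity)
          _ ≤ (M * (V * D) ^ x.1) * (V * D) ^ x.2 := by
              apply mul_le_mul_of_nonneg_right _ (by positivity)
              exact mul_le_mul_of_nonneg_left h4 hM
          _ = M * (V * D) ^ p := by rw [mul_assoc, ← pow_add, hx]
    _ = (p + 1) * (M * (V * D) ^ p) := by
        rw [Finset.sum_const, Finset.Nat.card_antidiagonal, nsmul_eq_mul]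
        push_cast
        ring

theorem NAG_e (i : ℕ) (hi : 1 ≤ i) : ((((2 * i : ℕ) : ℝ) / ((2 * i + 1 : ℕ) : ℝ))⁻¹) ^ (2 * i) ≤ 3 := by
  have h1 : (((2 * i : ℕ) : ℝ) / ((2 * i + 1 : ℕ) : ℝ))⁻¹ = 1 / ((2 * i : ℕ) : ℝ) + 1 := by
    have : ((2 * i : ℕ) : ℝ) ≠ 0 := by positivity
    rw [inv_div]
    push_cast
    push_cast at this
    field_simp
    ring
  rw [h1]
  calc (1 / ((2 * i : ℕ) : ℝ) + 1) ^ (2 * i) ≤ (Real.exp (1 / ((2 * i : ℕ) : ℝ))) ^ (2 * i) :=
        pow_le_pow_left₀ (by positivity) (Real.add_one_le_exp _) _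
    _ = Real.exp 1 := by
        rw [← Real.exp_nat_mul]
        congr 1
        have : ((2 * i : ℕ) : ℝ) ≠ 0 := by positivity
        field_simp
    _ ≤ 3 := by linarith [Real.exp_one_lt_d9]

theorem NAG_geo (J : ℕ) (hJ : 1 ≤ J) : ∑ i ∈ Finset.Ico 1 J, (1/7 : ℝ) ^ (J - i) ≤ 1 / 6 := by
  induction J, hJ using Nat.le_induction with
  | base => simp
  | succ J hJ ih =>
    rw [Finset.sum_Ico_succ_top hJ]
    have : ∑ i ∈ Finset.Ico 1 J, (1/7 : ℝ) ^ (J + 1 - i) =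
        (1/7) * ∑ i ∈ Finset.Ico 1 J, (1/7 : ℝ) ^ (J - i) := by
      rw [Finset.mul_sum]
      apply Finset.sum_congr rfl
      intro i hi
      rw [Finset.mem_Ico] at hi
      rw [← pow_succ']
      congr 1
      omega
    rw [this]
    have h2 : J + 1 - J = 1 := by omega
    rw [h2, pow_one]
    linarith

theorem NAG_four (p : ℕ) (hp : 1 ≤ p) : (2 * (p:ℝ) + 2) ≤ 4 ^ p := by
  induction p, hp using Nat.le_induction with
  | base => norm_num
  | succ p hp ih =>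
    push_cast
    rw [pow_succ]
    have : (1:ℝ) ≤ p := by exact_mod_cast hp
    linarith

/-- one term of the recursion -/
theorem NAG_term (V c L δ : ℝ) (hV : 1 ≤ V) (hc : 1 ≤ c) (hL : 0 < L) (hL7 : 7 * (4 * c * V ^ 3) ≤ L)
    (hδ : 0 < δ) (J i : ℕ) (hi : 1 ≤ i) (hiJ : i < J) :
    c ^ (J - i) * ((((2 * (J - i) + 1 : ℕ) : ℝ) + 1) * ((3 * (L ^ i * ((2 * i).factorial : ℝ) * (δ⁻¹) ^ (2 * i))) *
      (V * (((2 * i + 1 : ℕ) : ℝ) * δ⁻¹)) ^ (2 * (J - i) + 1))) ≤
    3 * (((2 * J).factorial : ℝ) * (2 * J) * L ^ J * (δ⁻¹) ^ (2 * J + 1)) * (1/7 : ℝ) ^ (J - i) := by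
  obtain ⟨p, hp⟩ : ∃ p, p = J - i := ⟨_, rfl⟩
  have hp1 : 1 ≤ p := by omega
  have hJ : J = i + p := by omega
  rw [← hp]
  have hfac : ((2 * i).factorial : ℝ) * ((2 * i + 1 : ℕ) : ℝ) ^ (2 * p) ≤ ((2 * J).factorial : ℝ) := by
    have := Nat.factorial_mul_pow_le_factorial (m := 2 * i) (n := 2 * p)
    have e : 2 * i + 2 * p = 2 * J := by omega
    rw [e] at this
    exact_mod_cast this
  have h21 : ((2 * i + 1 : ℕ) : ℝ) ≤ 2 * J := by
    have : 2 * i + 1 ≤ 2 * J := by omega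
    exact_mod_cast this
  have h4 : (((2 * p + 1 : ℕ) : ℝ) + 1) ≤ 4 ^ p := by
    have := NAG_four p hp1
    push_cast
    linarith
  have hV3 : V ^ (2 * p + 1) ≤ (V ^ 3) ^ p := by
    rw [← pow_mul]
    exact pow_le_pow_right₀ hV (by omega)
  have hcv : c ^ p * 4 ^ p * (V ^ 3) ^ p ≤ (L * (1/7)) ^ p := by
    rw [← mul_pow, ← mul_pow]
    apply pow_le_pow_left₀ (by positivity)
    nlinarith
  have hδ' : 0 < δ⁻¹ := inv_pos.2 hδ
  have e1 : c ^ p * ((((2 * p + 1 : ℕ) : ℝ) + 1) * ((3 * (L ^ i * ((2 * i).factorial : ℝ) * (δ⁻¹) ^ (2 * i))) *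
      (V * (((2 * i + 1 : ℕ) : ℝ) * δ⁻¹)) ^ (2 * p + 1))) =
      3 * ((c ^ p * (((2 * p + 1 : ℕ) : ℝ) + 1) * V ^ (2 * p + 1)) *
        ((((2 * i).factorial : ℝ) * ((2 * i + 1 : ℕ) : ℝ) ^ (2 * p)) * ((2 * i + 1 : ℕ) : ℝ)) *
        (L ^ i * (δ⁻¹) ^ (2 * J + 1))) := by
    have e2 : 2 * J + 1 = 2 * i + (2 * p + 1) := by omega
    rw [e2, pow_add (δ⁻¹) (2 * i) (2 * p + 1), mul_pow, mul_pow, pow_succ ((2 * i + 1 : ℕ) : ℝ) (2 * p)]
    ring
  rw [e1]
  have s1 : (c ^ p * (((2 * p + 1 : ℕ) : ℝ) + 1) * V ^ (2 * p + 1)) ≤ (L * (1/7)) ^ p := by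
    refine le_trans ?_ hcv
    apply mul_le_mul _ hV3 (by positivity) (by positivity)
    exact mul_le_mul_of_nonneg_left h4 (by positivity)
  have s2 : ((((2 * i).factorial : ℝ) * ((2 * i + 1 : ℕ) : ℝ) ^ (2 * p)) * ((2 * i + 1 : ℕ) : ℝ)) ≤
      ((2 * J).factorial : ℝ) * (2 * J) :=
    mul_le_mul hfac h21 (by positivity) (by positivity)
  calc 3 * ((c ^ p * (((2 * p + 1 : ℕ) : ℝ) + 1) * V ^ (2 * p + 1)) *
        ((((2 * i).factorial : ℝ) * ((2 * i + 1 : ℕ) : ℝ) ^ (2 * p)) * ((2 * i + 1 : ℕ) : ℝ)) *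
        (L ^ i * (δ⁻¹) ^ (2 * J + 1)))
      ≤ 3 * ((L * (1/7)) ^ p * (((2 * J).factorial : ℝ) * (2 * J)) * (L ^ i * (δ⁻¹) ^ (2 * J + 1))) := by
        apply mul_le_mul_of_nonneg_left _ (by norm_num)
        apply mul_le_mul_of_nonneg_right _ (by positivity)
        exact mul_le_mul s1 s2 (by positivity) (by positivity)
    _ = 3 * (((2 * J).factorial : ℝ) * (2 * J) * L ^ J * (δ⁻¹) ^ (2 * J + 1)) * (1/7 : ℝ) ^ p := by
        have e3 : L ^ J = L ^ i * L ^ p := by rw [hJ, pow_add]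
        rw [e3, mul_pow]
        ring

/-- Cauchy estimates -/
theorem NAG_cauchy (f : ℂ → ℂ) (a t : ℂ) (R R1 L δ : ℝ) (hRR : R1 ≤ R) (i : ℕ) (hi : 1 ≤ i)
    (hL : 0 ≤ L) (hf : DifferentiableOn ℂ f (Metric.ball a R)) (hδ : δ = R1 - dist t a) (hδ0 : 0 < δ)
    (ih : ∀ z ∈ Metric.ball a R1,
      ‖f z‖ ≤ L ^ i * ((2 * i).factorial : ℝ) * ((R1 - dist z a)⁻¹) ^ (2 * i)) (l : ℕ) :
    ‖PowerSeries.coeff l (Es (fun _ => 1) f t)‖ ≤
      (3 * (L ^ i * ((2 * i).factorial : ℝ) * (δ⁻¹) ^ (2 * i))) *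
        (((2 * i + 1 : ℕ) : ℝ) * δ⁻¹) ^ l := by
  have hi0 : (0:ℝ) < ((2 * i : ℕ) : ℝ) := by positivity
  obtain ⟨rr, hrr⟩ : ∃ rr : ℝ, rr = δ / ((2 * i + 1 : ℕ) : ℝ) := ⟨_, rfl⟩
  obtain ⟨q, hq⟩ : ∃ q : ℝ, q = ((2 * i : ℕ) : ℝ) / ((2 * i + 1 : ℕ) : ℝ) := ⟨_, rfl⟩
  have hrr0 : 0 < rr := by rw [hrr]; positivity
  have hq0 : 0 < q := by rw [hq]; positivity
  have hsub : δ - rr = δ * q := by
    rw [hrr, hq]
    push_cast
    field_simp
    ring
  have hball : ∀ z, dist z t ≤ rr → z ∈ Metric.ball a R1 ∧ δ * q ≤ R1 - dist z a := by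
    intro z hz
    have h1 := dist_triangle z t a
    have h2 : 0 < δ * q := by positivity
    refine ⟨?_, by linarith⟩
    rw [Metric.mem_ball]
    linarith
  have hC : ∀ z ∈ Metric.sphere t rr, ‖f z‖ ≤
      3 * (L ^ i * ((2 * i).factorial : ℝ) * (δ⁻¹) ^ (2 * i)) := by
    intro z hz
    obtain ⟨h1, h2⟩ := hball z (le_of_eq (Metric.mem_sphere.1 hz))
    refine (ih z h1).trans ?_
    have h3 : (R1 - dist z a)⁻¹ ≤ δ⁻¹ * q⁻¹ := by
      rw [← mul_inv]
      exact inv_anti₀ (by positivity) h2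
    have h4 : ((R1 - dist z a)⁻¹) ^ (2 * i) ≤ (δ⁻¹ * q⁻¹) ^ (2 * i) := by
      apply pow_le_pow_left₀ _ h3
      apply inv_nonneg.2
      have : 0 < δ * q := by positivity
      linarith
    calc L ^ i * ((2 * i).factorial : ℝ) * ((R1 - dist z a)⁻¹) ^ (2 * i)
        ≤ L ^ i * ((2 * i).factorial : ℝ) * (δ⁻¹ * q⁻¹) ^ (2 * i) :=
          mul_le_mul_of_nonneg_left h4 (by positivity)
      _ = (L ^ i * ((2 * i).factorial : ℝ) * (δ⁻¹) ^ (2 * i)) * (q⁻¹) ^ (2 * i) := by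
          rw [mul_pow]; ring
      _ ≤ (L ^ i * ((2 * i).factorial : ℝ) * (δ⁻¹) ^ (2 * i)) * 3 := by
          apply mul_le_mul_of_nonneg_left _ (by positivity)
          rw [hq]
          exact NAG_e i hi
      _ = _ := by ring
  have hd : DiffContOnCl ℂ f (Metric.ball t rr) := by
    apply hf.diffContOnCl_ball
    intro z hz
    exact Metric.ball_subset_ball hRR (hball z (Metric.mem_closedBall.1 hz)).1
  have hca := Complex.norm_iteratedDeriv_le_of_forall_mem_sphere_norm_le l hrr0 hd hC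
  unfold Es
  rw [PowerSeries.coeff_mk, NAG_iter, norm_div, Complex.norm_natCast]
  have hl : (0:ℝ) < (l.factorial : ℝ) := by exact_mod_cast l.factorial_pos
  rw [div_le_iff₀ hl]
  refine hca.trans (le_of_eq ?_)
  have hri : (rr ^ l)⁻¹ = (((2 * i + 1 : ℕ) : ℝ) * δ⁻¹) ^ l := by
    rw [← inv_pow, hrr, inv_div, div_eq_mul_inv]
  rw [div_eq_mul_inv, hri]
  ring

theorem tNAG (hOM : StOM) (hDGJ : StDGJ) : StNAG := by
  intro kc hk ρ r0 g a R hR hR1 hFI hΛ
  obtain ⟨Λ0, hΛ0⟩ := hΛ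
  obtain ⟨V, c, hV, hc, hVc⟩ := hOM kc hk ρ r0 a R hR hFI.base
  have hcV : 0 ≤ 7 * (4 * c * V ^ 3) := by positivity
  obtain ⟨L, hL7, hL2, hL1⟩ : ∃ L : ℝ, 7 * (4 * c * V ^ 3) ≤ L ∧ 2 * |Λ0| ≤ L ∧ 1 ≤ L :=
    ⟨7 * (4 * c * V ^ 3) + 2 * |Λ0| + 1, by linarith [abs_nonneg Λ0], by linarith,
      by linarith [abs_nonneg Λ0]⟩
  have hL0 : 0 < L := by linarith
  obtain ⟨R1, hR1e⟩ : ∃ R1 : ℝ, R1 = 5 * R / 8 := ⟨_, rfl⟩
  have hRR : R1 ≤ R := by rw [hR1e]; linarith
  have hR11 : R1 ≤ 1 := by linarith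
  have hR10 : 0 < R1 := by rw [hR1e]; linarith
  have key : ∀ J, 1 ≤ J → ∀ t ∈ Metric.ball a R1,
      ‖g J t‖ ≤ L ^ J * ((2 * J).factorial : ℝ) * ((R1 - dist t a)⁻¹) ^ (2 * J) := by
    intro J
    induction J using Nat.strong_induction_on with
    | _ J ih =>
    intro hJ
    have hder : ∀ t ∈ Metric.ball a R1, ‖deriv (g J) t‖ ≤
        (1 / 2) * (((2 * J).factorial : ℝ) * (2 * J) * L ^ J * ((R1 - dist t a)⁻¹) ^ (2 * J + 1)) := by
      intro t ht
      obtain ⟨δ, hδ⟩ : ∃ δ, δ = R1 - dist t a := ⟨_, rfl⟩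
      have hδ0 : 0 < δ := by
        rw [hδ]
        have := Metric.mem_ball.1 ht
        linarith
      have hδ1 : δ ≤ 1 := by
        rw [hδ]
        have := dist_nonneg (x := t) (y := a)
        linarith
      have hδi : 1 ≤ δ⁻¹ := (one_le_inv₀ hδ0).2 hδ1
      rw [← hδ, hDGJ kc hk ρ r0 g _ hFI J hJ t (Metric.ball_subset_ball hRR ht), norm_neg]
      obtain ⟨h2r, hw0, hw1, _, hwn⟩ := hVc t (by rw [← hR1e]; exact ht)
      have hterm : ∀ i ∈ Finset.Ico 1 J, ‖(2 / r0 t ^ 2) ^ (J - i) * PowerSeries.coeff (2 * J + 1)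
          (Es (fun _ => 1) (g i) t * (Wt kc ρ r0 t) ^ i)‖ ≤
          3 * (((2 * J).factorial : ℝ) * (2 * J) * L ^ J * (δ⁻¹) ^ (2 * J + 1)) *
            (1/7 : ℝ) ^ (J - i) := by
        intro i hi
        rw [Finset.mem_Ico] at hi
        have hE := NAG_cauchy (g i) a t R R1 L δ hRR i hi.1 hL0.le (hFI.gd i hi.1) hδ hδ0
          (ih i hi.2 hi.1)
        have hD : (i:ℝ) ≤ ((2 * i + 1 : ℕ) : ℝ) * δ⁻¹ := by
          have h1 : (i:ℝ) ≤ ((2 * i + 1 : ℕ) : ℝ) := by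
            have : i ≤ 2 * i + 1 := by omega
            exact_mod_cast this
          exact h1.trans (le_mul_of_one_le_right (by positivity) hδi)
        have hcoeff := NAG_coeff (Wt kc ρ r0 t) V hV hw0 hw1 hwn (Es (fun _ => 1) (g i) t)
          (3 * (L ^ i * ((2 * i).factorial : ℝ) * (δ⁻¹) ^ (2 * i))) (((2 * i + 1 : ℕ) : ℝ) * δ⁻¹)
          (by positivity) i hD hE (2 * (J - i) + 1)
        have e : 2 * (J - i) + 1 + 2 * i = 2 * J + 1 := by omega
        rw [e] at hcoeff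
        rw [norm_mul, norm_pow]
        refine le_trans ?_ (NAG_term V c L δ hV hc hL0 hL7 hδ0 J i hi.1 hi.2)
        exact mul_le_mul (pow_le_pow_left₀ (norm_nonneg _) h2r _) hcoeff (norm_nonneg _)
          (by positivity)
      refine (norm_sum_le _ _).trans ((Finset.sum_le_sum hterm).trans ?_)
      rw [← Finset.mul_sum]
      have h6 := NAG_geo J hJ
      have h7 : 0 ≤ ((2 * J).factorial : ℝ) * (2 * J) * L ^ J * (δ⁻¹) ^ (2 * J + 1) := by positivity
      nlinarith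
    -- integration
    intro t ht
    obtain ⟨D, hD⟩ : ∃ D : ℝ, D = dist t a := ⟨_, rfl⟩
    have hD0 : 0 ≤ D := by rw [hD]; exact dist_nonneg
    have hDR : D < R1 := by rw [hD]; exact Metric.mem_ball.1 ht
    have hdist : ∀ s : ℝ, 0 ≤ s → dist (a + (s:ℂ) * (t - a)) a = s * D := by
      intro s hs
      rw [dist_eq_norm, add_sub_cancel_left, norm_mul, Complex.norm_real, Real.norm_of_nonneg hs, hD,
        dist_eq_norm]
    have hpos : ∀ s : ℝ, 0 ≤ s → s ≤ 1 → 0 < R1 - s * D := by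
      intro s hs hs1
      nlinarith
    have hmem : ∀ s : ℝ, 0 ≤ s → s ≤ 1 → a + (s:ℂ) * (t - a) ∈ Metric.ball a R1 := by
      intro s hs hs1
      rw [Metric.mem_ball, hdist s hs]
      linarith [hpos s hs hs1]
    have hfd : ∀ s : ℝ, 0 ≤ s → s ≤ 1 → HasDerivAt (fun s : ℝ => g J (a + (s:ℂ) * (t - a)))
        ((t - a) * deriv (g J) (a + (s:ℂ) * (t - a))) s := by
      intro s hs hs1
      have h1 : HasDerivAt (g J) (deriv (g J) (a + (s:ℂ) * (t - a))) (a + (s:ℂ) * (t - a)) := by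
        have := (hFI.gd J hJ).differentiableAt (Metric.isOpen_ball.mem_nhds
          (Metric.ball_subset_ball hRR (hmem s hs hs1)))
        exact this.hasDerivAt
      have h2 : HasDerivAt (fun s : ℝ => a + (s:ℂ) * (t - a)) (t - a) s := by
        have h3 := ((Complex.ofRealCLM.hasDerivAt (x := s)).mul_const (t - a)).const_add a
        simpa using h3
      have h4 := HasDerivAt.scomp s h1 h2
      simpa [Function.comp_def, smul_eq_mul] using h4
    have hBd : ∀ s : ℝ, 0 ≤ s → s ≤ 1 → HasDerivAt (fun s : ℝ =>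
        (1/2) * (L ^ J * ((2 * J).factorial : ℝ)) +
          (1/2) * (((2 * J).factorial : ℝ) * L ^ J) * ((R1 - s * D)⁻¹) ^ (2 * J))
        ((1 / 2) * (((2 * J).factorial : ℝ) * (2 * J) * L ^ J * ((R1 - s * D)⁻¹) ^ (2 * J + 1)) * D) s := by
      intro s hs hs1
      have hne : R1 - s * D ≠ 0 := (hpos s hs hs1).ne'
      have h1 : HasDerivAt (fun s : ℝ => R1 - s * D) (-D) s := by
        have := ((hasDerivAt_id s).mul_const D).const_sub R1
        simpa using this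
      have h2 := ((h1.fun_inv hne).fun_pow (2 * J)).const_mul ((1/2) * (((2 * J).factorial : ℝ) * L ^ J))
      have h3 := h2.const_add ((1/2) * (L ^ J * ((2 * J).factorial : ℝ)))
      refine h3.congr_deriv ?_
      obtain ⟨J', rfl⟩ : ∃ J', J = J' + 1 := ⟨J - 1, by omega⟩
      have e : 2 * (J' + 1) - 1 = 2 * J' + 1 := by omega
      have e3 : D / (R1 - s * D) ^ 2 = D * ((R1 - s * D)⁻¹) ^ 2 := by
        rw [inv_pow, div_eq_mul_inv]
      rw [e, neg_neg, e3]
      push_cast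
      ring
    have hfin := image_norm_le_of_norm_deriv_right_le_deriv_boundary'
      (f := fun s : ℝ => g J (a + (s:ℂ) * (t - a)))
      (f' := fun s : ℝ => (t - a) * deriv (g J) (a + (s:ℂ) * (t - a))) (a := 0) (b := 1)
      (B := fun s : ℝ => (1/2) * (L ^ J * ((2 * J).factorial : ℝ)) +
          (1/2) * (((2 * J).factorial : ℝ) * L ^ J) * ((R1 - s * D)⁻¹) ^ (2 * J))
      (B' := fun s : ℝ => (1 / 2) * (((2 * J).factorial : ℝ) * (2 * J) * L ^ J *
          ((R1 - s * D)⁻¹) ^ (2 * J + 1)) * D)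
      (fun s hs => (hfd s hs.1 hs.2).continuousAt.continuousWithinAt)
      (fun s hs => (hfd s hs.1 hs.2.le).hasDerivWithinAt)
      (by
        have h1 := hΛ0 J hJ
        have h2 : Λ0 ^ J ≤ (1/2) * L ^ J := by
          calc Λ0 ^ J ≤ |Λ0| ^ J := by rw [← abs_pow]; exact le_abs_self _
            _ ≤ (L / 2) ^ J := pow_le_pow_left₀ (abs_nonneg _) (by linarith) _
            _ = (1/2 : ℝ) ^ J * L ^ J := by rw [← mul_pow]; congr 1; ring
            _ ≤ (1/2) * L ^ J := by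
                apply mul_le_mul_of_nonneg_right _ (by positivity)
                calc (1/2 : ℝ) ^ J ≤ (1/2 : ℝ) ^ 1 :=
                      pow_le_pow_of_le_one (by norm_num) (by norm_num) hJ
                  _ = 1/2 := pow_one _
        have h3 : 0 ≤ (1/2) * (((2 * J).factorial : ℝ) * L ^ J) * ((R1 - 0 * D)⁻¹) ^ (2 * J) := by
          have : 0 ≤ (R1 - 0 * D)⁻¹ := inv_nonneg.2 (hpos 0 le_rfl zero_le_one).le
          positivity
        have h4 : (0:ℝ) ≤ ((2 * J).factorial : ℝ) := by positivity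
        simp only [Complex.ofReal_zero, zero_mul, add_zero]
        simp only [zero_mul] at h3
        have h5 := mul_le_mul_of_nonneg_right h2 h4
        linarith)
      (fun s hs => (hBd s hs.1 hs.2).continuousAt.continuousWithinAt)
      (fun s hs => (hBd s hs.1 hs.2.le).hasDerivWithinAt)
      (fun s hs => by
        have h1 := hder _ (hmem s hs.1 hs.2.le)
        rw [hdist s hs.1] at h1
        rw [norm_mul, ← dist_eq_norm, ← hD, mul_comm]
        exact mul_le_mul_of_nonneg_right h1 hD0)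
      (show (1:ℝ) ∈ Icc (0:ℝ) 1 from ⟨zero_le_one, le_rfl⟩)
    have e1 : a + ((1:ℝ):ℂ) * (t - a) = t := by push_cast; ring
    simp only [e1, one_mul] at hfin
    refine hfin.trans ?_
    rw [← hD]
    have hδi : 1 ≤ ((R1 - D)⁻¹) ^ (2 * J) := by
      apply one_le_pow₀
      exact (one_le_inv₀ (by linarith)).2 (by linarith)
    have h5 : 0 ≤ L ^ J * ((2 * J).factorial : ℝ) := by positivity
    nlinarith
  refine ⟨64 * L / R ^ 2, ?_, ?_⟩
  · rw [one_le_div (by positivity)]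
    nlinarith
  · intro j hj t ht
    have ht2 : dist t a < R / 2 := Metric.mem_ball.1 ht
    have h1 := key j hj t (by rw [Metric.mem_ball, hR1e]; linarith)
    refine h1.trans ?_
    have h2 : (R1 - dist t a)⁻¹ ≤ (R / 8)⁻¹ := by
      apply inv_anti₀ (by positivity)
      rw [hR1e]
      linarith
    have h3 : ((R1 - dist t a)⁻¹) ^ (2 * j) ≤ ((R / 8)⁻¹) ^ (2 * j) := by
      apply pow_le_pow_left₀ _ h2
      apply inv_nonneg.2
      rw [hR1e]
      linarith
    calc L ^ j * ((2 * j).factorial : ℝ) * ((R1 - dist t a)⁻¹) ^ (2 * j)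
        ≤ L ^ j * ((2 * j).factorial : ℝ) * ((R / 8)⁻¹) ^ (2 * j) :=
          mul_le_mul_of_nonneg_left h3 (by positivity)
      _ = (64 * L / R ^ 2) ^ j * ((2 * j).factorial : ℝ) := by
          have e : ((R / 8)⁻¹) ^ (2 * j) = (64 / R ^ 2) ^ j := by
            rw [pow_mul]
            congr 1
            field_simp
            norm_num
          rw [e]
          have e2 : (64 * L / R ^ 2) ^ j = L ^ j * (64 / R ^ 2) ^ j := by
            rw [← mul_pow]
            congr 1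
            ring
          rw [e2]
          ring

end H738CZ
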