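import Pool.Agent.H738R3.CZ.Defs

/-! Task OM: bounds for the normalised series. -/

open Complex Set Filter Topology

namespace H738CZ

theorem OM_iter (f : ℂ → ℂ) (l : ℕ) : (DD (fun _ => 1))^[l] f = iteratedDeriv l f := by
  have h : (DD (fun _ => 1)) = (deriv : (ℂ → ℂ) → ℂ → ℂ) := by
    funext g t
    simp [DD]
  rw [h, iteratedDeriv_eq_iterate]

theorem OM_cauchy {f : ℂ → ℂ} {a : ℂ} {R C0 : ℝ} (hR : 0 < R)
    (hf : DifferentiableOn ℂ f (Metric.ball a R))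
    (hC : ∀ z ∈ Metric.closedBall a (3 * R / 4), ‖f z‖ ≤ C0) (hC0 : 0 ≤ C0) {t : ℂ}
    (ht : t ∈ Metric.ball a (5 * R / 8)) (l : ℕ) :
    ‖((DD (fun _ => 1))^[l] f) t‖ ≤ l.factorial * (C0 * (1 + 8 / R) ^ l) := by
  rw [OM_iter]
  have hsub : Metric.closedBall t (R / 8) ⊆ Metric.closedBall a (3 * R / 4) := by
    apply Metric.closedBall_subset_closedBall'
    rw [Metric.mem_ball] at ht
    linarith
  have hsub2 : Metric.closedBall a (3 * R / 4) ⊆ Metric.ball a R :=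
    Metric.closedBall_subset_ball (by linarith)
  have hd : DiffContOnCl ℂ f (Metric.ball t (R / 8)) := by
    apply DifferentiableOn.diffContOnCl
    refine hf.mono ?_
    exact (Metric.closure_ball_subset_closedBall.trans hsub).trans hsub2
  have h1 := Complex.norm_iteratedDeriv_le_of_forall_mem_sphere_norm_le l
    (show 0 < R / 8 by positivity) hd
    (fun z hz => hC z (hsub (Metric.sphere_subset_closedBall hz)))
  refine h1.trans ?_
  have h2 : (l.factorial : ℝ) * C0 / (R / 8) ^ l = l.factorial * (C0 * (8 / R) ^ l) := by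
    rw [div_pow, div_pow]
    field_simp
  rw [h2]
  have h3 : (8 / R) ^ l ≤ (1 + 8 / R) ^ l := by
    apply pow_le_pow_left₀ (by positivity)
    linarith
  gcongr

theorem OM_Es {f : ℂ → ℂ} {t : ℂ} {C0 B : ℝ}
    (h : ∀ l : ℕ, ‖((DD (fun _ => 1))^[l] f) t‖ ≤ l.factorial * (C0 * B ^ l)) (l : ℕ) :
    ‖PowerSeries.coeff l (Es (fun _ => 1) f t)‖ ≤ C0 * B ^ l := by
  rw [Es, PowerSeries.coeff_mk, norm_div]
  have h1 : ‖(l.factorial : ℂ)‖ = (l.factorial : ℝ) := by simp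
  rw [h1, div_le_iff₀ (by positivity)]
  calc ‖((DD (fun _ => 1))^[l] f) t‖ ≤ l.factorial * (C0 * B ^ l) := h l
    _ = C0 * B ^ l * l.factorial := by ring

theorem OM_Ys {kc : ℕ → ℂ} (hk : Ker kc) {ρ : ℂ → ℂ} {t : ℂ} {C0 B : ℝ} (hC0 : 0 ≤ C0)
    (hB : 1 ≤ B) (h : ∀ l : ℕ, ‖((DD (fun _ => 1))^[l] ρ) t‖ ≤ l.factorial * (C0 * B ^ l))
    (n : ℕ) :
    ‖PowerSeries.coeff n (Ys kc (fun _ => 1) ρ t)‖ ≤ C0 * (2 * B) ^ n := by
  rw [Ys, PowerSeries.coeff_mk, norm_div]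
  have h1 : ‖(n.factorial : ℂ)‖ = (n.factorial : ℝ) := by simp
  rw [h1, div_le_iff₀ (by positivity)]
  have h2 : ‖∑ l ∈ Finset.range n, kc (n - 1 - l) * ((DD (fun _ => 1))^[l] ρ) t‖ ≤
      ∑ l ∈ Finset.range n, n.factorial * (C0 * B ^ n) := by
    refine norm_sum_le_of_le _ fun l hl => ?_
    rw [Finset.mem_range] at hl
    rw [norm_mul]
    have h3 := hk.bd (n - 1 - l)
    have h4 := h l
    have h5 : ((l.factorial : ℕ) : ℝ) ≤ n.factorial := by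
      exact_mod_cast Nat.factorial_le hl.le
    have h6 : B ^ l ≤ B ^ n := pow_le_pow_right₀ hB hl.le
    calc ‖kc (n - 1 - l)‖ * ‖((DD (fun _ => 1))^[l] ρ) t‖
        ≤ 1 * (l.factorial * (C0 * B ^ l)) := by gcongr
      _ ≤ 1 * (n.factorial * (C0 * B ^ n)) := by gcongr
      _ = n.factorial * (C0 * B ^ n) := one_mul _
  refine h2.trans ?_
  rw [Finset.sum_const, Finset.card_range, nsmul_eq_mul, mul_pow]
  have h7 : (n : ℝ) ≤ 2 ^ n := by
    exact_mod_cast (Nat.lt_two_pow_self (n := n)).le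
  calc (n : ℝ) * (n.factorial * (C0 * B ^ n)) ≤ 2 ^ n * (n.factorial * (C0 * B ^ n)) := by
        gcongr
    _ = C0 * (2 ^ n * B ^ n) * n.factorial := by ring

theorem OM_mul {P Q : PowerSeries ℂ} {C0 B : ℝ} (hB : 0 ≤ B) (hC0 : 0 ≤ C0)
    (hP : ∀ n, ‖PowerSeries.coeff n P‖ ≤ C0 * B ^ n)
    (hQ : ∀ n, ‖PowerSeries.coeff n Q‖ ≤ C0 * B ^ n) (n : ℕ) :
    ‖PowerSeries.coeff n (P * Q)‖ ≤ C0 ^ 2 * (2 * B) ^ n := by
  rw [PowerSeries.coeff_mul]
  have h2 : ‖∑ p ∈ Finset.HasAntidiagonal.antidiagonal n,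
      PowerSeries.coeff p.1 P * PowerSeries.coeff p.2 Q‖ ≤
      ∑ p ∈ Finset.HasAntidiagonal.antidiagonal n, C0 ^ 2 * B ^ n := by
    refine norm_sum_le_of_le _ fun p hp => ?_
    rw [Finset.HasAntidiagonal.mem_antidiagonal] at hp
    rw [norm_mul]
    calc ‖PowerSeries.coeff p.1 P‖ * ‖PowerSeries.coeff p.2 Q‖
        ≤ (C0 * B ^ p.1) * (C0 * B ^ p.2) := by
          gcongr
          · exact hP _
          · exact hQ _
      _ = C0 ^ 2 * B ^ (p.1 + p.2) := by rw [pow_add]; ring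
      _ = C0 ^ 2 * B ^ n := by rw [hp]
  refine h2.trans ?_
  rw [Finset.sum_const, Finset.Nat.card_antidiagonal, nsmul_eq_mul, mul_pow]
  have h7 : ((n + 1 : ℕ) : ℝ) ≤ 2 ^ n := by
    exact_mod_cast (Nat.lt_two_pow_self (n := n))
  calc ((n + 1 : ℕ) : ℝ) * (C0 ^ 2 * B ^ n) ≤ 2 ^ n * (C0 ^ 2 * B ^ n) := by gcongr
    _ = C0 ^ 2 * (2 ^ n * B ^ n) := by ring

theorem OM_low {kc : ℕ → ℂ} (hk : Ker kc) (ρ r0 : ℂ → ℂ) (t : ℂ) (h0 : r0 t ≠ 0)
    (hc : ρ t = r0 t ^ 3) :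
    PowerSeries.coeff 0 (Wt kc ρ r0 t) = 0 ∧ PowerSeries.coeff 1 (Wt kc ρ r0 t) = 0 ∧
      PowerSeries.coeff 2 (Wt kc ρ r0 t) = 1 := by
  have k0 : kc 0 = 0 := hk.even 0
  have y0 : PowerSeries.coeff 0 (Ys kc (fun _ => 1) ρ t) = 0 := by
    rw [Ys, PowerSeries.coeff_mk]
    simp
  have y1 : PowerSeries.coeff 1 (Ys kc (fun _ => 1) ρ t) = 0 := by
    rw [Ys, PowerSeries.coeff_mk]
    simp [k0]
  have y2 : PowerSeries.coeff 2 (Ys kc (fun _ => 1) ρ t) = ρ t / 2 := by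
    rw [Ys, PowerSeries.coeff_mk]
    simp [Finset.sum_range_succ, k0, hk.one]
  have e0 : PowerSeries.coeff 0 (Es (fun _ => 1) (fun u => (r0 u)⁻¹) t) = (r0 t)⁻¹ := by
    rw [Es, PowerSeries.coeff_mk]
    simp
  refine ⟨?_, ?_, ?_⟩
  · rw [Wt, PowerSeries.coeff_C_mul, PowerSeries.coeff_mul,
      Finset.Nat.sum_antidiagonal_eq_sum_range_succ_mk]
    simp only [Finset.sum_range_succ, Finset.sum_range_zero, Nat.sub_self, y0]
    ring
  · rw [Wt, PowerSeries.coeff_C_mul, PowerSeries.coeff_mul,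
      Finset.Nat.sum_antidiagonal_eq_sum_range_succ_mk]
    simp only [Finset.sum_range_succ, Finset.sum_range_zero, Nat.sub_self, Nat.sub_zero, y0, y1]
    ring
  · rw [Wt, PowerSeries.coeff_C_mul, PowerSeries.coeff_mul,
      Finset.Nat.sum_antidiagonal_eq_sum_range_succ_mk]
    simp only [Finset.sum_range_succ, Finset.sum_range_zero, Nat.sub_self, Nat.sub_zero, y0, y2,
      show 2 - 1 = 1 from rfl, y1, e0, hc]
    field_simp
    ring

theorem tOM : StOM := by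
  intro kc hk ρ r0 a R hR hb
  have hρd : DifferentiableOn ℂ ρ (Metric.ball a R) :=
    (hb.rd.pow 3).congr (fun t ht => by simpa using hb.cube t ht)
  have hid : DifferentiableOn ℂ (fun u => (r0 u)⁻¹) (Metric.ball a R) :=
    hb.rd.inv (fun t ht => hb.rn t ht)
  have hsub2 : Metric.closedBall a (3 * R / 4) ⊆ Metric.ball a R :=
    Metric.closedBall_subset_ball (by linarith)
  obtain ⟨C1, hC1⟩ := (isCompact_closedBall a (3 * R / 4)).exists_bound_of_continuousOn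
    (hρd.continuousOn.mono hsub2)
  obtain ⟨C2, hC2⟩ := (isCompact_closedBall a (3 * R / 4)).exists_bound_of_continuousOn
    (hid.continuousOn.mono hsub2)
  obtain ⟨C0, hC01, hρb, hib⟩ : ∃ C0 : ℝ, 1 ≤ C0 ∧
      (∀ z ∈ Metric.closedBall a (3 * R / 4), ‖ρ z‖ ≤ C0) ∧
      (∀ z ∈ Metric.closedBall a (3 * R / 4), ‖(r0 z)⁻¹‖ ≤ C0) :=
    ⟨max 1 (max C1 C2), le_max_left _ _,
      fun z hz => (hC1 z hz).trans ((le_max_left _ _).trans (le_max_right _ _)),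
      fun z hz => (hC2 z hz).trans ((le_max_right _ _).trans (le_max_right _ _))⟩
  have hC00 : 0 ≤ C0 := by linarith
  set B : ℝ := 1 + 8 / R with hBdef
  have hB1 : 1 ≤ B := by
    have : 0 < 8 / R := by positivity
    linarith
  have hB0 : 0 ≤ B := by linarith
  set c : ℝ := 2 * C0 ^ 2 with hcdef
  have hc1 : 1 ≤ c := by nlinarith
  set B3 : ℝ := 2 * (2 * B) with hB3def
  have hB31 : 1 ≤ B3 := by linarith
  set K : ℝ := c * (C0 ^ 2 * B3 ^ 2) with hKdef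
  have hK1 : 1 ≤ K := by
    have h1 : 1 ≤ C0 ^ 2 := one_le_pow₀ hC01
    have h2 : 1 ≤ B3 ^ 2 := one_le_pow₀ hB31
    have h3 : 1 ≤ C0 ^ 2 * B3 ^ 2 := one_le_mul_of_one_le_of_one_le h1 h2
    exact one_le_mul_of_one_le_of_one_le hc1 h3
  refine ⟨K * B3, c, one_le_mul_of_one_le_of_one_le hK1 hB31, hc1, ?_⟩
  intro t ht
  have htR : t ∈ Metric.ball a R := Metric.ball_subset_ball (by linarith) ht
  have htc : t ∈ Metric.closedBall a (3 * R / 4) := by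
    rw [Metric.mem_closedBall]
    rw [Metric.mem_ball] at ht
    linarith
  have hcb : ‖2 / r0 t ^ 2‖ ≤ c := by
    have h1 : 2 / r0 t ^ 2 = 2 * ((r0 t)⁻¹) ^ 2 := by
      rw [inv_pow, div_eq_mul_inv]
    rw [h1, norm_mul, norm_pow]
    have h2 := hib t htc
    have h3 : ‖(2 : ℂ)‖ = 2 := by simp
    rw [h3, hcdef]
    have h4 : ‖(r0 t)⁻¹‖ ^ 2 ≤ C0 ^ 2 := pow_le_pow_left₀ (norm_nonneg _) h2 2
    linarith
  obtain ⟨l0, l1, l2⟩ := OM_low hk ρ r0 t (hb.rn t htR) (hb.cube t htR)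
  refine ⟨hcb, l0, l1, l2, ?_⟩
  intro n
  rcases Nat.eq_zero_or_pos n with rfl | hn
  · rw [zero_add, l2, pow_zero, norm_one]
  · have hE : ∀ l, ‖PowerSeries.coeff l (Es (fun _ => 1) (fun u => (r0 u)⁻¹) t)‖ ≤
        C0 * (2 * B) ^ l := by
      intro l
      have h1 := OM_Es (fun l => OM_cauchy hR hid hib hC00 ht l) l
      refine h1.trans ?_
      have h2 : B ^ l ≤ (2 * B) ^ l := pow_le_pow_left₀ hB0 (by linarith) l
      gcongr
    have hY : ∀ l, ‖PowerSeries.coeff l (Ys kc (fun _ => 1) ρ t)‖ ≤ C0 * (2 * B) ^ l := fun l =>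
      OM_Ys hk hC00 hB1 (fun l => OM_cauchy hR hρd hρb hC00 ht l) l
    have hM := OM_mul (show 0 ≤ 2 * B by linarith) hC00 hE hY (n + 2)
    rw [Wt, PowerSeries.coeff_C_mul, norm_mul]
    have h5 : K ≤ K ^ n := le_self_pow₀ hK1 (by omega)
    have hB30 : 0 ≤ B3 := by linarith
    calc ‖2 / r0 t ^ 2‖ * ‖PowerSeries.coeff (n + 2) (Es (fun _ => 1) (fun u => (r0 u)⁻¹) t *
          Ys kc (fun _ => 1) ρ t)‖ ≤ c * (C0 ^ 2 * B3 ^ (n + 2)) := by
          gcongr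
      _ = K * B3 ^ n := by rw [hKdef, pow_add]; ring
      _ ≤ K ^ n * B3 ^ n := by gcongr
      _ = (K * B3) ^ n := (mul_pow K B3 n).symm

end H738CZ
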