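import Pool.Agent.H738R3.CZ.Defs

/-!
# 5P: continuation of the relation along trajectories
-/

open Complex Set Filter Topology

namespace H738CZ

/-- a cube root of `z ^ (2 * m + 6)` -/
noncomputable def P5_K (m : ℕ) (z : ℂ) : ℂ := cexp ((2 * (m : ℂ) + 6) / 3 * log z)

theorem P5_K_cube (m : ℕ) {z : ℂ} (hz : z ≠ 0) : P5_K m z ^ 3 = z ^ (2 * m + 6) := by
  unfold P5_K
  rw [← Complex.exp_nat_mul]
  have h : ((3 : ℕ) : ℂ) * ((2 * (m : ℂ) + 6) / 3 * log z) = ((2 * m + 6 : ℕ) : ℂ) * log z := by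
    push_cast
    ring
  rw [h, Complex.exp_nat_mul, Complex.exp_log hz]

theorem P5_K_an (m : ℕ) {z : ℂ} (hz : z ∈ slitPlane) : AnalyticAt ℂ (P5_K m) z := by
  unfold P5_K
  exact (analyticAt_const.mul (analyticAt_clog hz)).cexp

theorem P5_Bm_an (m : ℕ) (x : ℂ) : AnalyticAt ℂ (Bm m) x := by
  unfold Bm
  fun_prop

theorem P5_Mo_an {x : ℂ} (hx : 2 * x - 1 ≠ 0) : AnalyticAt ℂ Mo x := by
  unfold Mo
  exact AnalyticAt.div analyticAt_id (by fun_prop) hx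

theorem P5_BMo_an (m : ℕ) {x : ℂ} (hx : 2 * x - 1 ≠ 0) :
    AnalyticAt ℂ (fun y => Bm m (Mo y)) x :=
  (P5_Bm_an m (Mo x)).comp (P5_Mo_an hx)

/-- a local cube root -/
theorem P5_root (m : ℕ) {x0 : ℂ} (hx : 2 * x0 - 1 ≠ 0) : ∃ c : ℂ → ℂ,
    ∀ᶠ x in 𝓝 x0, AnalyticAt ℂ c x ∧ 2 * x - 1 ≠ 0 ∧ c x ^ 3 = (2 * x - 1) ^ (2 * m + 6) := by
  refine ⟨fun x => P5_K m (2 * x0 - 1) * P5_K m ((2 * x - 1) / (2 * x0 - 1)), ?_⟩
  have hcont : ContinuousAt (fun x : ℂ => (2 * x - 1) / (2 * x0 - 1)) x0 := by fun_prop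
  have h1 : (2 * x0 - 1) / (2 * x0 - 1) ∈ slitPlane := by
    rw [div_self hx]
    exact one_mem_slitPlane
  have h2 : ∀ᶠ x in 𝓝 x0, (2 * x - 1) / (2 * x0 - 1) ∈ slitPlane :=
    hcont.eventually (isOpen_slitPlane.mem_nhds h1)
  filter_upwards [h2] with x hx2
  have h3 : (2 * x - 1) / (2 * x0 - 1) ≠ 0 := slitPlane_ne_zero hx2
  have h4 : 2 * x - 1 ≠ 0 := fun h => h3 (by rw [h, zero_div])
  refine ⟨?_, h4, ?_⟩
  · refine analyticAt_const.mul ?_
    exact (P5_K_an m hx2).comp (f := fun x : ℂ => (2 * x - 1) / (2 * x0 - 1)) (by fun_prop)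
  · rw [mul_pow, P5_K_cube m hx, P5_K_cube m h3, ← mul_pow, mul_div_cancel₀ _ hx]

/-- two local cube roots differ by a cube root of unity -/
theorem P5_ratio {c c' : ℂ → ℂ} {y : ℂ} (hc : ContinuousAt c y) (hc' : ContinuousAt c' y)
    (h0 : c' y ≠ 0) (h : ∀ᶠ x in 𝓝 y, c x ^ 3 = c' x ^ 3) :
    ∃ ω : ℂ, ω ^ 3 = 1 ∧ ∀ᶠ x in 𝓝 y, c x = ω * c' x := by
  set H : ℂ → ℂ := fun x => c x / c' x with hH
  have hHc : ContinuousAt H y := hc.div hc' h0
  have hne : ∀ᶠ x in 𝓝 y, c' x ≠ 0 := hc'.eventually_ne h0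
  have hcube : ∀ᶠ x in 𝓝 y, H x ^ 3 = 1 := by
    filter_upwards [h, hne] with x hx hx'
    rw [hH]
    simp only
    rw [div_pow, hx, div_self (pow_ne_zero 3 hx')]
  have h1 : H y ^ 3 = 1 := hcube.self_of_nhds
  have hHy : H y ≠ 0 := by
    intro h2
    rw [h2] at h1
    norm_num at h1
  have h2 : ContinuousAt (fun x => H x ^ 2 + H x * H y + H y ^ 2) y := by fun_prop
  have h3 : ∀ᶠ x in 𝓝 y, H x ^ 2 + H x * H y + H y ^ 2 ≠ 0 := by
    refine h2.eventually_ne ?_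
    have : H y ^ 2 + H y * H y + H y ^ 2 = 3 * H y ^ 2 := by ring
    rw [this]
    exact mul_ne_zero (by norm_num) (pow_ne_zero 2 hHy)
  refine ⟨H y, h1, ?_⟩
  filter_upwards [hcube, h3, hne] with x hx1 hx2 hx3
  have h4 : (H x - H y) * (H x ^ 2 + H x * H y + H y ^ 2) = 0 := by
    have : (H x - H y) * (H x ^ 2 + H x * H y + H y ^ 2) = H x ^ 3 - H y ^ 3 := by ring
    rw [this, hx1, h1, sub_self]
  rcases mul_eq_zero.mp h4 with h5 | h5
  · have h6 : H x = H y := sub_eq_zero.mp h5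
    rw [← h6, hH]
    simp only
    rw [div_mul_cancel₀ _ hx3]
  · exact absurd h5 hx2

/-- the local step -/
theorem P5_local (m : ℕ) (F : ℂ → ℂ) (R : ℝ) (hF : DifferentiableOn ℂ F (Metric.ball 0 R))
    (x0 : ℂ) (hd : deriv (Bm m) x0 ≠ 0) (h2 : 2 * x0 - 1 ≠ 0) (hR : ‖Bm m (Mo x0)‖ < R) :
    ∃ U ∈ 𝓝 x0, ∀ y ∈ U, ‖Bm m y‖ < R → RelAt m F R y → ∀ y' ∈ U, RelAt m F R y' := by
  obtain ⟨c, hc⟩ := P5_root m h2
  have hc2 : ∀ᶠ x in 𝓝 x0, ‖Bm m (Mo x)‖ < R :=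
    (P5_BMo_an m h2).continuousAt.norm.eventually_lt continuousAt_const hR
  obtain ⟨N, hN, hNo, hxN⟩ := eventually_nhds_iff.mp (hc.and hc2)
  have hsd : HasStrictDerivAt (Bm m) (deriv (Bm m) x0) x0 := (P5_Bm_an m x0).hasStrictDerivAt
  have hsf := hsd.hasStrictFDerivAt_equiv hd
  set e : OpenPartialHomeomorph ℂ ℂ := hsf.toOpenPartialHomeomorph (Bm m) with he
  have hex : ∀ x, e x = Bm m x := fun x => rfl
  have hxs : x0 ∈ e.source := hsf.mem_toOpenPartialHomeomorph_source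
  have hqt : Bm m x0 ∈ e.target := by
    rw [← hex]
    exact e.map_source hxs
  have hsymm : e.symm (Bm m x0) = x0 := by
    rw [← hex]
    exact e.left_inv hxs
  have h3 : ∀ᶠ q in 𝓝 (Bm m x0), q ∈ e.target ∧ e.symm q ∈ N := by
    have h4 : ContinuousAt e.symm (Bm m x0) := e.continuousAt_symm hqt
    have h5 : ∀ᶠ q in 𝓝 (Bm m x0), q ∈ e.target := e.open_target.mem_nhds hqt
    have h6 : ∀ᶠ q in 𝓝 (Bm m x0), e.symm q ∈ N := by
      refine h4.eventually ?_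
      rw [hsymm]
      exact hNo.mem_nhds hxN
    exact h5.and h6
  obtain ⟨δ, hδ, hball⟩ := Metric.eventually_nhds_iff_ball.mp h3
  have hBc : Continuous (Bm m) := by
    rw [continuous_iff_continuousAt]
    exact fun x => (P5_Bm_an m x).continuousAt
  set U : Set ℂ := e.source ∩ (Bm m) ⁻¹' (Metric.ball (Bm m x0) δ) with hU
  have hUo : IsOpen U := e.open_source.inter (Metric.isOpen_ball.preimage hBc)
  have hxU : x0 ∈ U := ⟨hxs, Metric.mem_ball_self hδ⟩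
  have hUN : ∀ y ∈ U, y ∈ N := by
    intro y hy
    have h4 := (hball _ hy.2).2
    rw [← hex, e.left_inv hy.1] at h4
    exact h4
  set W : Set ℂ := U ∩ (Bm m) ⁻¹' (Metric.ball 0 R) with hW
  have hWo : IsOpen W := hUo.inter (Metric.isOpen_ball.preimage hBc)
  have hWim : W = e.symm '' (Metric.ball (Bm m x0) δ ∩ Metric.ball 0 R) := by
    ext y
    constructor
    · rintro ⟨⟨h4, h5⟩, h6⟩
      refine ⟨Bm m y, ⟨h5, h6⟩, ?_⟩
      rw [← hex, e.left_inv h4]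
    · rintro ⟨q, ⟨h4, h5⟩, rfl⟩
      have h6 := (hball q h4).1
      have h7 : Bm m (e.symm q) = q := by
        rw [← hex, e.right_inv h6]
      refine ⟨⟨e.map_target h6, ?_⟩, ?_⟩
      · rw [mem_preimage, h7]
        exact h4
      · rw [mem_preimage, h7]
        exact h5
  have hWp : IsPreconnected W := by
    rw [hWim]
    refine IsPreconnected.image ?_ _ ?_
    · exact ((convex_ball _ _).inter (convex_ball _ _)).isPreconnected
    · exact e.continuousOn_symm.mono fun q hq => (hball q hq.1).1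
  refine ⟨U, hUo.mem_nhds hxU, fun y hy hyR hrel y' hy' => ?_⟩
  obtain ⟨c1, hc1, hc1', hc1''⟩ := hrel
  have hyN := hN y (hUN y hy)
  obtain ⟨⟨hya, hy2, hyc⟩, hyM⟩ := hyN
  have hcy : c y ≠ 0 := by
    intro h4
    rw [h4] at hyc
    have : (2 * y - 1) ^ (2 * m + 6) ≠ 0 := pow_ne_zero _ hy2
    apply this
    rw [← hyc]
    norm_num
  have hUy : ∀ᶠ x in 𝓝 y, x ∈ U := hUo.mem_nhds hy
  obtain ⟨ω, hω, hω'⟩ := P5_ratio hc1.continuousAt hya.continuousAt hcy (by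
    filter_upwards [hc1', hUy] with x hx1 hx2
    rw [hx1, (hN x (hUN x hx2)).1.2.2])
  have hyW : y ∈ W := ⟨hy, by
    rw [mem_preimage, mem_ball_zero_iff]
    exact hyR⟩
  have hWy : ∀ᶠ x in 𝓝 y, x ∈ W := hWo.mem_nhds hyW
  have hFan : ∀ q, ‖q‖ < R → AnalyticAt ℂ F q := fun q hq =>
    hF.analyticAt (Metric.isOpen_ball.mem_nhds (by rw [mem_ball_zero_iff]; exact hq))
  have hf : AnalyticOnNhd ℂ (fun x => F (Bm m x)) W := by
    intro x hx
    have h4 : ‖Bm m x‖ < R := mem_ball_zero_iff.mp hx.2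
    exact (hFan _ h4).comp (P5_Bm_an m x)
  have hg : AnalyticOnNhd ℂ (fun x => ω * c x * F (Bm m (Mo x))) W := by
    intro x hx
    have h4 := hN x (hUN x hx.1)
    refine (analyticAt_const.mul h4.1.1).mul ?_
    exact (hFan _ h4.2).comp (f := fun y => Bm m (Mo y)) (P5_BMo_an m h4.1.2.1)
  have hfg : (fun x => F (Bm m x)) =ᶠ[𝓝 y] (fun x => ω * c x * F (Bm m (Mo x))) := by
    filter_upwards [hc1'', hω', hWy] with x hx1 hx2 hx3
    rw [hx1 (mem_ball_zero_iff.mp hx3.2), hx2]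
  have heq := hf.eqOn_of_preconnected_of_eventuallyEq hg hWp hyW hfg
  have hUy' : ∀ᶠ x in 𝓝 y', x ∈ U := hUo.mem_nhds hy'
  refine ⟨fun x => ω * c x, analyticAt_const.mul (hN y' (hUN y' hy')).1.1, ?_, ?_⟩
  · filter_upwards [hUy'] with x hx
    rw [mul_pow, hω, one_mul, (hN x (hUN x hx)).1.2.2]
  · filter_upwards [hUy'] with x hx hxR
    exact heq ⟨hx, mem_ball_zero_iff.mpr hxR⟩

theorem P5_start (m : ℕ) (F : ℂ → ℂ) (R : ℝ) (h : Rel1 m F) : ∃ ε > 0, ∀ x : ℂ, ‖x - 1‖ < ε →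
    RelAt m F R x := by
  have h1 : ContinuousAt (fun x : ℂ => 2 * x - 1) 1 := by fun_prop
  have h2 : ∀ᶠ x : ℂ in 𝓝 1, 2 * x - 1 ∈ slitPlane :=
    h1.eventually (isOpen_slitPlane.mem_nhds (by norm_num [one_mem_slitPlane]))
  obtain ⟨ε, hε, hb⟩ := Metric.eventually_nhds_iff_ball.mp (h.and h2)
  refine ⟨ε, hε, fun x hx => ?_⟩
  have hxb : x ∈ Metric.ball (1 : ℂ) ε := by rwa [Metric.mem_ball, dist_eq_norm]
  have hx2 : ∀ᶠ y in 𝓝 x, y ∈ Metric.ball (1 : ℂ) ε := Metric.isOpen_ball.mem_nhds hxb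
  refine ⟨Mc m, ?_, ?_, ?_⟩
  · exact (P5_K_an m (hb x hxb).2).comp (f := fun x : ℂ => 2 * x - 1) (by fun_prop)
  · filter_upwards [hx2] with y hy
    exact P5_K_cube m (slitPlane_ne_zero (hb y hy).2)
  · filter_upwards [hx2] with y hy _
    exact (hb y hy).1

/-- 5P -/
theorem t5P (h5V : St5V) (h5F : St5F) (h5S : St5S) (h5T : St5T) : St5P := by
  intro m F R hm hR hF hrel q1 hq1 hqR
  obtain ⟨ε, hε, hstart⟩ := P5_start m F R hrel
  obtain ⟨r, hr, hS⟩ := h5S m ε hm hε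
  obtain ⟨n, hn⟩ := exists_nat_gt (‖q1‖ / r)
  set S : ℝ := (n : ℝ) with hSdef
  have hS0 : 0 ≤ S := Nat.cast_nonneg n
  set q0 : ℂ := Real.exp (-S) * q1 with hq0
  have hq0n : ‖q0‖ = Real.exp (-S) * ‖q1‖ := by
    rw [hq0, norm_mul, Complex.norm_real, Real.norm_of_nonneg (Real.exp_pos _).le]
  have hq1n : 0 < ‖q1‖ := norm_pos_iff.mpr hq1
  have hq0pos : 0 < ‖q0‖ := by
    rw [hq0n]
    positivity
  have hq0r : ‖q0‖ < r := by
    have h1 : S < Real.exp S := by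
      have := Real.add_one_le_exp S
      linarith
    have h2 : ‖q1‖ / r < Real.exp S := hn.trans h1
    rw [div_lt_iff₀ hr] at h2
    rw [hq0n, Real.exp_neg, inv_mul_lt_iff₀ (Real.exp_pos S)]
    exact h2
  obtain ⟨x0, hx0, hx0ε, hBx0, hMx0⟩ := hS q0 hq0pos hq0r
  obtain ⟨x, hx⟩ := h5F m x0 hx0
  have hT := h5T m x0 x hx (by rw [hBx0]; exact norm_pos_iff.mp hq0pos) (by rw [hBx0]; exact hMx0)
  have hval : ∀ s, 0 ≤ s → Bm m (x s) = Real.exp (s - S) * q1 := by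
    intro s hs
    rw [hx.val s hs, hBx0, hq0, ← mul_assoc, ← Complex.ofReal_mul, ← Real.exp_add,
      sub_eq_add_neg]
  have hnorm : ∀ s, 0 ≤ s → ‖Bm m (x s)‖ = Real.exp (s - S) * ‖q1‖ := by
    intro s hs
    rw [hval s hs, norm_mul, Complex.norm_real, Real.norm_of_nonneg (Real.exp_pos _).le]
  have hle : ∀ s, 0 ≤ s → s ≤ S → ‖Bm m (x s)‖ ≤ R := by
    intro s hs hsS
    rw [hnorm s hs]
    have h1 : Real.exp (s - S) ≤ 1 := Real.exp_le_one_iff.mpr (by linarith)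
    nlinarith
  have hlt : ∀ s, 0 ≤ s → s < S → ‖Bm m (x s)‖ < R := by
    intro s hs hsS
    rw [hnorm s hs]
    have h1 : Real.exp (s - S) < 1 := Real.exp_lt_one_iff.mpr (by linarith)
    nlinarith
  have hcont : ∀ s, 0 ≤ s → ContinuousWithinAt x (Ici 0) s := fun s hs =>
    (hx.der s hs).continuousWithinAt
  -- the local step along the trajectory
  have hloc : ∀ s, 0 ≤ s → s ≤ S → ∃ δ > 0, ∀ s1, 0 ≤ s1 → s1 < S → |s1 - s| < δ →
      RelAt m F R (x s1) → ∀ s2, 0 ≤ s2 → |s2 - s| < δ → RelAt m F R (x s2) := by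
    intro s hs hsS
    have hge := hx.ge s hs
    have hxs0 : x s ≠ 0 := by
      intro h
      rw [h, norm_zero] at hge
      linarith
    have hBne : Bm m (x s) ≠ 0 := by
      rw [hval s hs]
      exact mul_ne_zero (by exact_mod_cast (Real.exp_pos _).ne') hq1
    have hxs1 : x s ≠ 1 := by
      intro h
      apply hBne
      rw [h]
      unfold Bm
      simp only [one_pow]
      ring
    have hd : deriv (Bm m) (x s) ≠ 0 := by
      rw [((h5V m (x s)).1).deriv]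
      refine mul_ne_zero (mul_ne_zero (mul_ne_zero ?_ ?_) (pow_ne_zero _ hxs0))
        (sub_ne_zero.mpr hxs1)
      · exact_mod_cast Nat.succ_ne_zero m
      · exact_mod_cast Nat.succ_ne_zero (m + 1)
    have h2x : 2 * x s - 1 ≠ 0 := by
      intro h
      have := ((h5V m (x s)).2.2.2 hge).1
      rw [h, norm_zero] at this
      linarith
    obtain ⟨U, hU, hUp⟩ := P5_local m F R hF (x s) hd h2x ((hT s hs).trans_le (hle s hs hsS))
    have h3 : ∀ᶠ s' in 𝓝[Ici 0] s, x s' ∈ U := (hcont s hs).eventually hU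
    rw [eventually_nhdsWithin_iff] at h3
    obtain ⟨δ, hδ, hb⟩ := Metric.eventually_nhds_iff.mp h3
    refine ⟨δ, hδ, fun s1 hs1 hs1S hs1δ hrel1 s2 hs2 hs2δ => ?_⟩
    refine hUp (x s1) (hb (by rwa [Real.dist_eq]) hs1) (hlt s1 hs1 hs1S) hrel1 (x s2)
      (hb (by rwa [Real.dist_eq]) hs2)
  set A : Set ℝ := {s | RelAt m F R (x s)} with hA
  have hA0 : (0 : ℝ) ∈ A := by
    show RelAt m F R (x 0)
    rw [hx.ini]
    exact hstart x0 hx0ε
  have hclosed : IsClosed (A ∩ Icc 0 S) := by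
    rw [← isSeqClosed_iff_isClosed]
    intro u s hu hus
    have hsI : s ∈ Icc 0 S := isClosed_Icc.mem_of_tendsto hus (Eventually.of_forall fun k => (hu k).2)
    refine ⟨?_, hsI⟩
    obtain ⟨δ, hδ, hl⟩ := hloc s hsI.1 hsI.2
    obtain ⟨k, hk⟩ := (hus.eventually (Metric.ball_mem_nhds s hδ)).exists
    rw [Real.dist_eq] at hk
    rcases lt_or_ge (u k) S with h4 | h4
    · exact hl (u k) (hu k).2.1 h4 hk (hu k).1 s hsI.1 (by simpa using hδ)
    · have h5 : u k = S := le_antisymm (hu k).2.2 h4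
      rcases lt_or_ge s S with h6 | h6
      · -- choose another index
        obtain ⟨k', hk', hk''⟩ := ((hus.eventually (Metric.ball_mem_nhds s hδ)).and
          (hus.eventually (Iio_mem_nhds h6))).exists
        rw [Real.dist_eq] at hk'
        exact hl (u k') (hu k').2.1 hk'' hk' (hu k').1 s hsI.1 (by simpa using hδ)
      · have h7 : s = S := le_antisymm hsI.2 h6
        rw [h7, ← h5]
        exact (hu k).1
  have hsub : Icc 0 S ⊆ A := by
    refine hclosed.Icc_subset_of_forall_mem_nhdsWithin hA0 ?_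
    rintro s ⟨hsA, hs0, hsS⟩
    obtain ⟨δ, hδ, hl⟩ := hloc s hs0 hsS.le
    rw [mem_nhdsGT_iff_exists_Ioo_subset]
    refine ⟨s + δ, by simpa using hδ, fun s2 hs2 => ?_⟩
    refine hl s hs0 hsS (by simpa using hδ) hsA s2 (hs0.trans hs2.1.le) ?_
    rw [abs_lt]
    constructor
    · linarith [hs2.1]
    · linarith [hs2.2]
  refine ⟨x S, hx.ge S hS0, ?_, ?_, hsub ⟨hS0, le_refl S⟩⟩
  · rw [hval S hS0, sub_self, Real.exp_zero, Complex.ofReal_one, one_mul]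
  · have h1 := hT S hS0
    rw [hnorm S hS0, sub_self, Real.exp_zero, one_mul] at h1
    exact h1

end H738CZ
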