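import Pool.Agent.H738R3.CZ.Defs

open Complex Set Filter Topology

namespace H738CZ

theorem PA1_even (α : ℕ → ℂ) (N : ℕ) (w : ℂ) : SN α N (-w) = SN α N w := by
  unfold SN
  refine Finset.sum_congr rfl fun j _ => ?_
  rw [pow_mul, pow_mul, neg_sq]

theorem PA1_small {T E : ℂ → ℂ} (hT : AnalyticAt ℂ T 0) (hE : AnalyticAt ℂ E 0) :
    ∃ ρ : ℝ, ∀ Z : ℂ, ρ < ‖Z‖ → AnalyticAt ℂ T Z⁻¹ ∧ AnalyticAt ℂ E Z⁻¹ := by
  have h := hT.eventually_analyticAt.and hE.eventually_analyticAt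
  obtain ⟨ε, hε, hb⟩ := Metric.eventually_nhds_iff.1 h
  refine ⟨ε⁻¹, fun Z hZ => hb ?_⟩
  rw [dist_zero_right, norm_inv]
  exact inv_lt_of_inv_lt₀ hε hZ

theorem PA1_mono {f e : ℂ → ℂ} {A R0 R1 : ℝ} (h : PF f e A R0) (hR : R0 ≤ R1) : PF f e A R1 where
  A0 := h.A0
  R1 := h.R1.trans hR
  df := h.df.mono fun _ hZ => lt_of_le_of_lt hR hZ
  de := h.de.mono fun _ hZ => lt_of_le_of_lt hR hZ
  ef := fun Z hZ => h.ef Z (lt_of_le_of_lt hR hZ)
  ee := fun Z hZ => h.ee Z (lt_of_le_of_lt hR hZ)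

theorem PA1_SN_diff (α : ℕ → ℂ) (N : ℕ) : Differentiable ℂ (SN α N) := by
  unfold SN
  fun_prop

theorem PA1_reg {q R : ℝ} (hq : 1 ≤ q) (hR : 1 ≤ R) {Z : ℂ} (h : R + |Z.re| < q * Z.im) :
    Z ∈ Vq q R ∧ -Z ∈ Vq q R := by
  have h0 := abs_nonneg Z.re
  have him : 0 < Z.im := by
    by_contra hc
    push Not at hc
    nlinarith
  have h1 := neg_abs_le Z.re
  have h2 := le_abs_self Z.re
  constructor
  · show R - q * |Z.im| < Z.re
    rw [abs_of_pos him]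
    linarith
  · show R - q * |(-Z).im| < (-Z).re
    rw [Complex.neg_im, Complex.neg_re, abs_neg, abs_of_pos him]
    linarith

theorem tPA1 (hZPF : StZPF) (hBN : StBN) (hHV : StHV) (hWAT : StWAT) (hGLU : StGLU) : StPA1 := by
  intro T E α h
  have eT : (fun w : ℂ => T w - (w - w ^ 2)) =O[𝓝 0] (fun w => w ^ 3) := by
    simpa using h.eT
  have eE : (fun w : ℂ => E w - (1 + 2 * w)) =O[𝓝 0] (fun w => w ^ 2) := by
    simpa using h.eE
  obtain ⟨A, R0, hPF⟩ := hZPF T E h.aT h.aE eT eE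
  obtain ⟨ρ, hρ⟩ := PA1_small h.aT h.aE
  have hPF' := PA1_mono hPF (le_max_left R0 ρ)
  obtain ⟨r1, C1, s, hr1, hC1, hs0, hs1, hdef⟩ := hBN T E α h
  obtain ⟨q, hq, hW⟩ := hWAT s hs0 hs1
  have hdiff : ∀ N : ℕ, DifferentiableOn ℂ
      (fun Z => SN α N Z⁻¹ - E Z⁻¹ * SN α N (T Z⁻¹)) {Z | max R0 ρ < ‖Z‖} := by
    intro N Z hZ
    have hZ' : max R0 ρ < ‖Z‖ := hZ
    have hZρ : ρ < ‖Z‖ := lt_of_le_of_lt (le_max_right _ _) hZ'
    have hZ1 : 1 < ‖Z‖ := lt_of_le_of_lt (hPF.R1.trans (le_max_left _ _)) hZ'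
    have hZ0 : Z ≠ 0 := by
      rintro rfl
      rw [norm_zero] at hZ1
      linarith
    obtain ⟨hTa, hEa⟩ := hρ Z hZρ
    have hinv : DifferentiableAt ℂ (fun Z : ℂ => Z⁻¹) Z := differentiableAt_inv hZ0
    have hTd : DifferentiableAt ℂ (fun Z : ℂ => T Z⁻¹) Z :=
      DifferentiableAt.comp (g := T) (f := fun Z : ℂ => Z⁻¹) Z hTa.differentiableAt hinv
    have hEd : DifferentiableAt ℂ (fun Z : ℂ => E Z⁻¹) Z :=
      DifferentiableAt.comp (g := E) (f := fun Z : ℂ => Z⁻¹) Z hEa.differentiableAt hinv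
    have h1 : DifferentiableAt ℂ (fun Z : ℂ => SN α N Z⁻¹) Z :=
      DifferentiableAt.comp (g := SN α N) (f := fun Z : ℂ => Z⁻¹) Z
        (PA1_SN_diff α N).differentiableAt hinv
    have h2 : DifferentiableAt ℂ (fun Z : ℂ => SN α N (T Z⁻¹)) Z :=
      DifferentiableAt.comp (g := SN α N) (f := fun Z : ℂ => T Z⁻¹) Z
        (PA1_SN_diff α N).differentiableAt hTd
    exact (h1.sub (hEd.mul h2)).differentiableWithinAt
  obtain ⟨R, C2, H, hR1, hExp⟩ := hHV T E A (max R0 ρ) α r1 C1 s hPF' hr1 hC1 hs0 hdiff hdef q hq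
  have hD : ∀ Z : ℂ, R + |Z.re| < q * Z.im → H Z - H (-Z) = 0 := by
    refine hW R (2 * C2) (fun Z => H Z - H (-Z)) (by linarith) (by linarith [hExp.C0]) ?_ ?_
    · refine DifferentiableOn.sub ?_ ?_
      · exact hExp.dH.mono fun Z hZ => (PA1_reg hq hR1 hZ).1
      · exact hExp.dH.comp (differentiable_id.neg.differentiableOn)
          fun Z hZ => (PA1_reg hq hR1 hZ).2
    · intro N hN Z hZ
      obtain ⟨hZ1, hZ2⟩ := PA1_reg hq hR1 hZ
      have b1 := hExp.as N hN Z hZ1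
      have b2 := hExp.as N hN (-Z) hZ2
      rw [inv_neg, PA1_even, norm_neg] at b2
      have hfac : (0:ℝ) ≤ ((2 * N).factorial : ℝ) ^ s := Real.rpow_nonneg (by positivity) s
      have hZn : (0:ℝ) ≤ (‖Z‖⁻¹) ^ (2 * N) := by positivity
      have hC0 := hExp.C0
      have hCN : (0:ℝ) ≤ C2 ^ N := by positivity
      have h2N : (2:ℝ) ≤ 2 ^ N := by
        calc (2:ℝ) = 2 ^ 1 := by norm_num
          _ ≤ 2 ^ N := pow_le_pow_right₀ (by norm_num) (by omega)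
      have e1 : H Z - H (-Z) = (H Z - SN α N Z⁻¹) - (H (-Z) - SN α N Z⁻¹) := by ring
      calc ‖H Z - H (-Z)‖ = ‖(H Z - SN α N Z⁻¹) - (H (-Z) - SN α N Z⁻¹)‖ := by rw [e1]
        _ ≤ ‖H Z - SN α N Z⁻¹‖ + ‖H (-Z) - SN α N Z⁻¹‖ := norm_sub_le _ _
        _ ≤ 2 * (C2 ^ N * ((2 * N).factorial : ℝ) ^ s * (‖Z‖⁻¹) ^ (2 * N)) := by linarith
        _ ≤ 2 ^ N * (C2 ^ N * ((2 * N).factorial : ℝ) ^ s * (‖Z‖⁻¹) ^ (2 * N)) :=
            mul_le_mul_of_nonneg_right h2N (by positivity)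
        _ = (2 * C2) ^ N * ((2 * N).factorial : ℝ) ^ s * (‖Z‖⁻¹) ^ (2 * N) := by
            rw [mul_pow]; ring
  have hsym : ∀ Z : ℂ, Z ∈ Vq q R → -Z ∈ Vq q R → H Z = H (-Z) := by
    intro Z h1 h2
    have h1' : R - q * |Z.im| < Z.re := h1
    have h2' : R - q * |(-Z).im| < (-Z).re := h2
    rw [Complex.neg_im, Complex.neg_re, abs_neg] at h2'
    have h3 : R + |Z.re| < q * |Z.im| := by
      rcases abs_cases Z.re with ⟨hh, _⟩ | ⟨hh, _⟩ <;> rw [hh] <;> linarith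
    rcases le_total 0 Z.im with him | him
    · rw [abs_of_nonneg him] at h3
      exact sub_eq_zero.1 (hD Z h3)
    · rw [abs_of_nonpos him] at h3
      have h4 := hD (-Z) (by rw [Complex.neg_re, Complex.neg_im, abs_neg]; exact h3)
      rw [neg_neg] at h4
      exact (sub_eq_zero.1 h4).symm
  obtain ⟨C, hC⟩ := hGLU α q R C2 s H hq hR1 hs0 hExp hsym
  refine ⟨C, fun j => ?_⟩
  rcases Nat.eq_zero_or_pos j with rfl | hj
  · rw [h.z]; simp
  · exact hC j hj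

end H738CZ
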