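import Pool.Agent.H738R3.CZ.Defs

open Complex Set Filter Topology

namespace H738CZ

theorem PAR_tend (a : ℝ) : Tendsto (fun w : ℂ => w * (a : ℂ)⁻¹) (𝓝 0) (𝓝 0) := by
  have h : Continuous (fun w : ℂ => w * (a : ℂ)⁻¹) := by fun_prop
  have h2 := h.tendsto 0
  simpa using h2

theorem PAR_comp (a : ℝ) (g : ℂ → ℂ) (n : ℕ) (h : g =O[𝓝 0] fun w : ℂ => w ^ n) :
    (fun w : ℂ => g (w * (a : ℂ)⁻¹)) =O[𝓝 0] fun w : ℂ => w ^ n := by
  have h1 := h.comp_tendsto (PAR_tend a)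
  refine h1.trans ?_
  have h2 : ((fun w : ℂ => w ^ n) ∘ fun w : ℂ => w * (a : ℂ)⁻¹) =
      fun w : ℂ => ((a : ℂ)⁻¹) ^ n * w ^ n := by
    funext w
    simp only [Function.comp_apply, mul_pow]
    ring
  rw [h2]
  exact (Asymptotics.isBigO_refl _ _).const_mul_left _

theorem PAR_SN (a : ℝ) (α : ℕ → ℂ) (N : ℕ) (w : ℂ) :
    SN (fun j => α j * ((a : ℂ)⁻¹) ^ (2 * j)) N w = SN α N (w * (a : ℂ)⁻¹) := by
  unfold SN
  refine Finset.sum_congr rfl fun j _ => ?_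
  rw [mul_pow]
  ring

theorem PAR_par (a : ℝ) (T E : ℂ → ℂ) (α : ℕ → ℂ) (h : Par a T E α) :
    Par 1 (fun w => a * T (w * (a : ℂ)⁻¹)) (fun w => E (w * (a : ℂ)⁻¹))
      (fun j => α j * ((a : ℂ)⁻¹) ^ (2 * j)) := by
  have ha : (a : ℂ) ≠ 0 := by exact_mod_cast h.a0.ne'
  have hlin : AnalyticAt ℂ (fun w : ℂ => w * (a : ℂ)⁻¹) 0 := by fun_prop
  have h0 : (0 : ℂ) * (a : ℂ)⁻¹ = 0 := zero_mul _
  refine ⟨one_pos, ?_, ?_, ?_, ?_, ?_, ?_, ?_⟩
  · have h1 : AnalyticAt ℂ (fun w : ℂ => T (w * (a : ℂ)⁻¹)) 0 := by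
      have h2 : AnalyticAt ℂ T ((0 : ℂ) * (a : ℂ)⁻¹) := by rw [h0]; exact h.aT
      exact AnalyticAt.fun_comp h2 hlin
    exact analyticAt_const.mul h1
  · have h2 : AnalyticAt ℂ E ((0 : ℂ) * (a : ℂ)⁻¹) := by rw [h0]; exact h.aE
    exact AnalyticAt.fun_comp h2 hlin
  · have h1 := (PAR_comp a _ 3 h.eT).const_mul_left (a : ℂ)
    refine h1.congr_left fun w => ?_
    push_cast
    field_simp
  · have h1 := PAR_comp a _ 2 h.eE
    refine h1.congr_left fun w => ?_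
    push_cast
    field_simp
  · simp [h.z]
  · obtain ⟨C, s, hC, hs0, hs1, hb⟩ := h.sg
    refine ⟨max 1 (C * (a⁻¹) ^ 2), s, le_max_left _ _, hs0, hs1, fun j => ?_⟩
    rw [norm_mul, norm_pow, norm_inv, Complex.norm_real, Real.norm_of_nonneg h.a0.le]
    have h3 : 0 ≤ ((2 * j).factorial : ℝ) ^ s := by positivity
    have h4 : 0 ≤ (a⁻¹) ^ (2 * j) := by have := h.a0; positivity
    calc ‖α j‖ * (a⁻¹) ^ (2 * j)
        ≤ (C ^ j * ((2 * j).factorial : ℝ) ^ s) * (a⁻¹) ^ (2 * j) :=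
          mul_le_mul_of_nonneg_right (hb j) h4
      _ = (C * (a⁻¹) ^ 2) ^ j * ((2 * j).factorial : ℝ) ^ s := by
          rw [mul_pow, ← pow_mul]; ring
      _ ≤ (max 1 (C * (a⁻¹) ^ 2)) ^ j * ((2 * j).factorial : ℝ) ^ s := by
          apply mul_le_mul_of_nonneg_right _ h3
          apply pow_le_pow_left₀ _ (le_max_right _ _)
          have := h.a0
          positivity
  · intro N
    have h1 := PAR_comp a _ (2 * N + 1) (h.rel N)
    refine h1.congr_left fun w => ?_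
    rw [PAR_SN, PAR_SN]
    have h2 : (a : ℂ) * T (w * (a : ℂ)⁻¹) * (a : ℂ)⁻¹ = T (w * (a : ℂ)⁻¹) := by
      field_simp
    rw [h2]

theorem tPAR (hPA1 : StPA1) : StPAR := by
  intro a T E α h
  obtain ⟨C, hC⟩ := hPA1 _ _ _ (PAR_par a T E α h)
  have ha := h.a0
  refine ⟨C * a ^ 2, fun j => ?_⟩
  have h1 := hC j
  rw [norm_mul, norm_pow, norm_inv, Complex.norm_real, Real.norm_of_nonneg ha.le] at h1
  have h2 : ‖α j‖ = (‖α j‖ * (a⁻¹) ^ (2 * j)) * a ^ (2 * j) := by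
    rw [mul_assoc, ← mul_pow, inv_mul_cancel₀ ha.ne', one_pow, mul_one]
  rw [h2, mul_pow, ← pow_mul]
  exact mul_le_mul_of_nonneg_right h1 (by positivity)

end H738CZ
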