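import Pool.Agent.H738R3.CZ.Defs

/-!
# Invariant petals
-/

open Complex Set Filter Topology

namespace H738CZ

/-- PET: invariant petals. -/
theorem tPET : StPET := by
  intro f e A R0 hPF q R' hq
  have hA := hPF.A0
  have hR1 := hPF.R1
  set R : ℝ := max R' (max ((1 + q) * R0) ((1 + q) * (4 * (q + 2) * A))) with hR
  have hRR' : R' ≤ R := le_max_left _ _
  have hRa : (1 + q) * R0 ≤ R := (le_max_left _ _).trans (le_max_right _ _)
  have hRb : (1 + q) * (4 * (q + 2) * A) ≤ R := (le_max_right _ _).trans (le_max_right _ _)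
  have hR0 : 0 < R := by
    have : 0 < (1 + q) * R0 := by positivity
    linarith
  -- the modulus in the petal
  have hmod : ∀ Z ∈ Vq q R, R < (1 + q) * ‖Z‖ := by
    intro Z hZ
    have h1 : R - q * |Z.im| < Z.re := hZ
    have h2 := Complex.abs_re_le_norm Z
    have h3 := Complex.abs_im_le_norm Z
    have h4 := le_abs_self Z.re
    nlinarith
  have hbig : ∀ Z ∈ Vq q R, R0 < ‖Z‖ := by
    intro Z hZ
    have h1 := hmod Z hZ
    have h2 : (1 + q) * R0 < (1 + q) * ‖Z‖ := lt_of_le_of_lt hRa h1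
    exact lt_of_mul_lt_mul_left h2 (by linarith)
  have heta : ∀ Z ∈ Vq q R, ‖f Z - Z - 1‖ * (4 * (q + 2)) ≤ 1 := by
    intro Z hZ
    have h1 := hmod Z hZ
    have h2 : (1 + q) * (4 * (q + 2) * A) < (1 + q) * ‖Z‖ := lt_of_le_of_lt hRb h1
    have h3 : 4 * (q + 2) * A < ‖Z‖ := lt_of_mul_lt_mul_left h2 (by linarith)
    have h4 := hPF.ef Z (hbig Z hZ)
    have h5 : 0 < ‖Z‖ := by
      have := hbig Z hZ
      linarith
    have h6 : ‖f Z - Z - 1‖ * (4 * (q + 2)) ≤ A / ‖Z‖ * (4 * (q + 2)) :=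
      mul_le_mul_of_nonneg_right h4 (by linarith)
    have h7 : A / ‖Z‖ * (4 * (q + 2)) = (4 * (q + 2) * A) / ‖Z‖ := by ring
    have h8 : (4 * (q + 2) * A) / ‖Z‖ ≤ 1 := by
      rw [div_le_one h5]
      exact h3.le
    linarith
  -- the growth of the two functionals
  have hstep : ∀ Z ∈ Vq q R, ∀ t : ℝ, 0 ≤ t → t ≤ q + 1 →
      Z.re + t * |Z.im| + 3 / 4 ≤ (f Z).re + t * |(f Z).im| := by
    intro Z hZ t ht ht1
    have h1 := heta Z hZ
    have h2 := Complex.abs_re_le_norm (f Z - Z - 1)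
    have h3 := Complex.abs_im_le_norm (f Z - Z - 1)
    simp only [Complex.sub_re, Complex.sub_im, Complex.one_re, Complex.one_im, sub_zero] at h2 h3
    have h4 : |Z.im| - |(f Z).im - Z.im| ≤ |(f Z).im| := by
      have := abs_sub_abs_le_abs_sub Z.im (f Z).im
      rw [abs_sub_comm] at this
      linarith
    have h5 := neg_abs_le ((f Z).re - Z.re - 1)
    set n := ‖f Z - Z - 1‖ with hn
    have hn0 : 0 ≤ n := norm_nonneg _
    have h6 : t * |Z.im| - t * n ≤ t * |(f Z).im| := by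
      have : |Z.im| - n ≤ |(f Z).im| := by linarith
      nlinarith
    have h7 : t * n ≤ (q + 1) * n := mul_le_mul_of_nonneg_right ht1 hn0
    nlinarith
  have hmaps : MapsTo f (Vq q R) (Vq q R) := by
    intro Z hZ
    have h1 := hstep Z hZ q (by linarith) (by linarith)
    have h2 : R - q * |Z.im| < Z.re := hZ
    show R - q * |(f Z).im| < (f Z).re
    linarith
  have hiter : ∀ (k : ℕ) (Z : ℂ), Z ∈ Vq q R → f^[k] Z ∈ Vq q R ∧
      Z.re + (q + 1) * |Z.im| + k / 2 ≤ (f^[k] Z).re + (q + 1) * |(f^[k] Z).im| := by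
    intro k Z hZ
    induction k with
    | zero => exact ⟨hZ, by simp⟩
    | succ k ih =>
      rw [Function.iterate_succ_apply']
      refine ⟨hmaps ih.1, ?_⟩
      have h1 := hstep _ ih.1 (q + 1) (by linarith) le_rfl
      have h2 := ih.2
      push_cast
      linarith
  refine ⟨R, 1 / ((q + 2) * (q + 2)), hRR', hR0, by positivity, hbig, hmaps, ?_⟩
  intro k Z hZ
  have h1 := (hiter k Z hZ).2
  have h2 := Complex.abs_re_le_norm (f^[k] Z)
  have h3 := Complex.abs_im_le_norm (f^[k] Z)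
  have h4 := le_abs_self (f^[k] Z).re
  have h5 : (f^[k] Z).re + (q + 1) * |(f^[k] Z).im| ≤ (q + 2) * ‖f^[k] Z‖ := by nlinarith
  have h6 : ‖Z‖ ≤ (1 + q) * (Z.re + (q + 1) * |Z.im|) := by
    have hn := Complex.norm_le_abs_re_add_abs_im Z
    have h7 : R - q * |Z.im| < Z.re := hZ
    have h8 := abs_nonneg Z.im
    rcases le_or_gt 0 Z.re with h | h
    · rw [abs_of_nonneg h] at hn
      nlinarith
    · rw [abs_of_neg h] at hn
      have h9 : |Z.im| ≤ Z.re + (q + 1) * |Z.im| := by nlinarith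
      have h10 : ‖Z‖ ≤ (1 + q) * |Z.im| := by nlinarith
      exact h10.trans (mul_le_mul_of_nonneg_left h9 (by linarith))
  have hk : (0 : ℝ) ≤ k := Nat.cast_nonneg k
  have h11 : ‖Z‖ + k ≤ (q + 2) * (Z.re + (q + 1) * |Z.im| + k / 2) := by
    have h12 : 0 ≤ Z.re + (q + 1) * |Z.im| := by
      have h13 : 0 ≤ (1 + q) * (Z.re + (q + 1) * |Z.im|) := (norm_nonneg Z).trans h6
      exact nonneg_of_mul_nonneg_right h13 (by linarith)
    nlinarith
  have h14 : ‖Z‖ + k ≤ (q + 2) * ((q + 2) * ‖f^[k] Z‖) := by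
    refine h11.trans (mul_le_mul_of_nonneg_left ?_ (by linarith))
    linarith
  rw [one_div, inv_mul_le_iff₀ (by positivity)]
  linarith

end H738CZ
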