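import Pool.Agent.H738R3.CZ.Defs

open Complex Set Filter Topology

namespace H738CZ

theorem PRD_mem {f : ℂ → ℂ} {R0 q R c : ℝ} (hP : Pet f R0 q R c) {Z : ℂ} (hZ : Z ∈ Vq q R)
    (k : ℕ) : f^[k] Z ∈ Vq q R := by
  induction k with
  | zero => exact hZ
  | succ k ih =>
    rw [Function.iterate_succ_apply']
    exact hP.maps ih

theorem PRD_step {f e : ℂ → ℂ} {A R0 : ℝ} (h : PF f e A R0) {q R c : ℝ}
    (hP : Pet f R0 q R c) {Z : ℂ} (hZ : Z ∈ Vq q R) :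
    ‖e Z‖ ≤ ‖f Z‖ ^ 2 / ‖Z‖ ^ 2 * (1 + (1 + 5 * A + A ^ 2) / c ^ 2 / ‖Z‖ ^ 2) := by
  have hbig := hP.big Z hZ
  have hR1 := h.R1
  have hA := h.A0
  have hZ1 : 1 < ‖Z‖ := lt_of_le_of_lt hR1 hbig
  have hZ0 : Z ≠ 0 := by
    intro h0
    rw [h0, norm_zero] at hZ1
    linarith
  have hn0 : 0 < ‖Z‖ := by linarith
  have h1 := h.ef Z hbig
  have h2 := h.ee Z hbig
  set η := f Z - Z - 1 with hη
  set ε := e Z - 1 - 2 / Z with hε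
  have hf : f Z = Z + 1 + η := by rw [hη]; ring
  have he : e Z * Z ^ 2 = f Z ^ 2 - (1 + 2 * (Z + 1) * η + η ^ 2) + ε * Z ^ 2 := by
    rw [hf, hε]
    field_simp
    ring
  have hηn : ‖η‖ ≤ A / ‖Z‖ := h1
  have hη1 : ‖η‖ ≤ A := hηn.trans (div_le_self hA hZ1.le)
  have hηZ : ‖Z‖ * ‖η‖ ≤ A := by
    have := mul_le_mul_of_nonneg_left hηn hn0.le
    rwa [mul_div_cancel₀ _ hn0.ne'] at this
  have hεZ : ‖ε * Z ^ 2‖ ≤ A := by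
    rw [norm_mul, norm_pow]
    have := mul_le_mul_of_nonneg_right h2 (by positivity : 0 ≤ ‖Z‖ ^ 2)
    rwa [div_mul_cancel₀ _ (by positivity)] at this
  have hδ : ‖1 + 2 * (Z + 1) * η + η ^ 2‖ ≤ 1 + 4 * A + A ^ 2 := by
    have e1 : ‖2 * (Z + 1) * η‖ ≤ 4 * A := by
      rw [norm_mul, norm_mul]
      have e2 : ‖Z + 1‖ ≤ ‖Z‖ + 1 := by
        have := norm_add_le Z 1
        rwa [norm_one] at this
      have e3 : ‖(2:ℂ)‖ = 2 := by norm_num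
      rw [e3]
      have : ‖Z + 1‖ * ‖η‖ ≤ (‖Z‖ + 1) * ‖η‖ := mul_le_mul_of_nonneg_right e2 (norm_nonneg _)
      nlinarith
    have e4 : ‖η ^ 2‖ ≤ A ^ 2 := by
      rw [norm_pow]
      exact pow_le_pow_left₀ (norm_nonneg _) hη1 2
    calc ‖1 + 2 * (Z + 1) * η + η ^ 2‖ ≤ ‖1 + 2 * (Z + 1) * η‖ + ‖η ^ 2‖ := norm_add_le _ _
      _ ≤ ‖(1:ℂ)‖ + ‖2 * (Z + 1) * η‖ + ‖η ^ 2‖ := by gcongr; exact norm_add_le _ _
      _ ≤ 1 + 4 * A + A ^ 2 := by rw [norm_one]; linarith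
  have hfz := hP.orb 1 Z hZ
  simp only [Function.iterate_one, Nat.cast_one] at hfz
  have hc := hP.c0
  have hfz2 : c * ‖Z‖ ≤ ‖f Z‖ := by nlinarith
  have hfz3 : c ^ 2 * ‖Z‖ ^ 2 ≤ ‖f Z‖ ^ 2 := by
    have := pow_le_pow_left₀ (by positivity) hfz2 2
    rwa [mul_pow] at this
  have hmain : ‖e Z‖ * ‖Z‖ ^ 2 ≤ ‖f Z‖ ^ 2 + (1 + 5 * A + A ^ 2) := by
    rw [← norm_pow, ← norm_mul, he]
    calc ‖f Z ^ 2 - (1 + 2 * (Z + 1) * η + η ^ 2) + ε * Z ^ 2‖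
        ≤ ‖f Z ^ 2 - (1 + 2 * (Z + 1) * η + η ^ 2)‖ + ‖ε * Z ^ 2‖ := norm_add_le _ _
      _ ≤ ‖f Z ^ 2‖ + ‖1 + 2 * (Z + 1) * η + η ^ 2‖ + ‖ε * Z ^ 2‖ := by
          gcongr; exact norm_sub_le _ _
      _ ≤ ‖f Z‖ ^ 2 + (1 + 5 * A + A ^ 2) := by
          rw [norm_pow]; linarith
  have hB : 0 ≤ 1 + 5 * A + A ^ 2 := by positivity
  have hB2 : 1 + 5 * A + A ^ 2 ≤ ‖f Z‖ ^ 2 * ((1 + 5 * A + A ^ 2) / c ^ 2 / ‖Z‖ ^ 2) := by
    rw [div_div, mul_div_assoc', le_div_iff₀ (by positivity)]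
    rw [mul_comm (‖f Z‖ ^ 2)]
    exact mul_le_mul_of_nonneg_left hfz3 hB
  rw [div_mul_eq_mul_div, le_div_iff₀ (by positivity)]
  calc ‖e Z‖ * ‖Z‖ ^ 2 ≤ ‖f Z‖ ^ 2 + (1 + 5 * A + A ^ 2) := hmain
    _ ≤ ‖f Z‖ ^ 2 + ‖f Z‖ ^ 2 * ((1 + 5 * A + A ^ 2) / c ^ 2 / ‖Z‖ ^ 2) := by linarith
    _ = ‖f Z‖ ^ 2 * (1 + (1 + 5 * A + A ^ 2) / c ^ 2 / ‖Z‖ ^ 2) := by ring

theorem tPRD : StPRD := by
  intro f e A R0 h q R c hq hP
  have hA := h.A0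
  have hc := hP.c0
  set K : ℝ := (1 + 5 * A + A ^ 2) / c ^ 2 / c ^ 2 with hK
  have hK0 : 0 ≤ K := by positivity
  have hsum : Summable fun i : ℕ => 1 / ((i : ℝ) + 1) ^ 2 := by
    have := (summable_nat_add_iff 1).2 (Real.summable_one_div_nat_pow.2 (show 1 < 2 by norm_num))
    simpa using this
  set S : ℝ := ∑' i : ℕ, 1 / ((i : ℝ) + 1) ^ 2 with hS
  have hS0 : 0 ≤ S := tsum_nonneg fun i => by positivity
  refine ⟨Real.exp (K * S), Real.one_le_exp (by positivity), ?_⟩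
  intro k Z hZ
  have hR1 := h.R1
  have hpos : ∀ i, 0 < ‖f^[i] Z‖ := fun i => by
    have := hP.big _ (PRD_mem hP hZ i)
    linarith
  have hZ1 : 1 < ‖Z‖ := lt_of_le_of_lt hR1 (hP.big Z hZ)
  have hstep : ∀ i, ‖e (f^[i] Z)‖ ≤ ‖f^[i + 1] Z‖ ^ 2 / ‖f^[i] Z‖ ^ 2 *
      (1 + K * (1 / ((i : ℝ) + 1) ^ 2)) := by
    intro i
    have h1 := PRD_step h hP (PRD_mem hP hZ i)
    rw [← Function.iterate_succ_apply' f i Z] at h1
    refine h1.trans ?_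
    apply mul_le_mul_of_nonneg_left _ (by positivity)
    have h2 : c * ((i : ℝ) + 1) ≤ ‖f^[i] Z‖ := by
      have := hP.orb i Z hZ
      nlinarith
    have h3 : c ^ 2 * ((i : ℝ) + 1) ^ 2 ≤ ‖f^[i] Z‖ ^ 2 := by
      have := pow_le_pow_left₀ (by positivity) h2 2
      rwa [mul_pow] at this
    have h4 : (1 + 5 * A + A ^ 2) / c ^ 2 / ‖f^[i] Z‖ ^ 2 ≤
        (1 + 5 * A + A ^ 2) / c ^ 2 / (c ^ 2 * ((i : ℝ) + 1) ^ 2) :=
      div_le_div_of_nonneg_left (by positivity) (by positivity) h3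
    have h5 : (1 + 5 * A + A ^ 2) / c ^ 2 / (c ^ 2 * ((i : ℝ) + 1) ^ 2) =
        K * (1 / ((i : ℝ) + 1) ^ 2) := by
      rw [hK]
      field_simp
    linarith
  have hprod : ∀ k : ℕ, ‖∏ i ∈ Finset.range k, e (f^[i] Z)‖ ≤ ‖f^[k] Z‖ ^ 2 / ‖Z‖ ^ 2 *
      ∏ i ∈ Finset.range k, (1 + K * (1 / ((i : ℝ) + 1) ^ 2)) := by
    intro k
    induction k with
    | zero =>
      simp only [Finset.range_zero, Finset.prod_empty, norm_one, Function.iterate_zero, id_eq,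
        mul_one]
      rw [div_self (by positivity)]
    | succ k ih =>
      rw [Finset.prod_range_succ, Finset.prod_range_succ, norm_mul]
      calc ‖∏ i ∈ Finset.range k, e (f^[i] Z)‖ * ‖e (f^[k] Z)‖
          ≤ (‖f^[k] Z‖ ^ 2 / ‖Z‖ ^ 2 *
              ∏ i ∈ Finset.range k, (1 + K * (1 / ((i : ℝ) + 1) ^ 2))) *
            (‖f^[k + 1] Z‖ ^ 2 / ‖f^[k] Z‖ ^ 2 * (1 + K * (1 / ((k : ℝ) + 1) ^ 2))) :=
            mul_le_mul ih (hstep k) (norm_nonneg _) (by positivity)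
        _ = ‖f^[k + 1] Z‖ ^ 2 / ‖Z‖ ^ 2 *
            ((∏ i ∈ Finset.range k, (1 + K * (1 / ((i : ℝ) + 1) ^ 2))) *
              (1 + K * (1 / ((k : ℝ) + 1) ^ 2))) := by
            have := hpos k
            field_simp
  have hexp : ∏ i ∈ Finset.range k, (1 + K * (1 / ((i : ℝ) + 1) ^ 2)) ≤ Real.exp (K * S) := by
    calc ∏ i ∈ Finset.range k, (1 + K * (1 / ((i : ℝ) + 1) ^ 2))
        ≤ ∏ i ∈ Finset.range k, Real.exp (K * (1 / ((i : ℝ) + 1) ^ 2)) := by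
          refine Finset.prod_le_prod (fun i _ => by positivity) fun i _ => ?_
          have := Real.add_one_le_exp (K * (1 / ((i : ℝ) + 1) ^ 2))
          linarith
      _ = Real.exp (K * ∑ i ∈ Finset.range k, 1 / ((i : ℝ) + 1) ^ 2) := by
          rw [← Real.exp_sum, Finset.mul_sum]
      _ ≤ Real.exp (K * S) := by
          apply Real.exp_le_exp.2
          apply mul_le_mul_of_nonneg_left _ hK0
          exact hsum.sum_le_tsum _ (fun i _ => by positivity)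
  calc ‖∏ i ∈ Finset.range k, e (f^[i] Z)‖
      ≤ ‖f^[k] Z‖ ^ 2 / ‖Z‖ ^ 2 *
        ∏ i ∈ Finset.range k, (1 + K * (1 / ((i : ℝ) + 1) ^ 2)) := hprod k
    _ ≤ ‖f^[k] Z‖ ^ 2 / ‖Z‖ ^ 2 * Real.exp (K * S) :=
        mul_le_mul_of_nonneg_left hexp (by positivity)
    _ = Real.exp (K * S) * (‖f^[k] Z‖ ^ 2 / ‖Z‖ ^ 2) := mul_comm _ _

end H738CZ
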