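import Pool.Agent.H738R3.CZ.Defs

/-! Task PRS (helper379): propagation along a segment. -/

open Complex Set Filter Topology

namespace H738CZ

theorem PRS_SG_mono {g : ℕ → ℂ → ℂ} {V V' : Set ℂ} (h : SG g V) (hV : V' ⊆ V) : SG g V' := by
  obtain ⟨C, s, h1, h2, h3, h4⟩ := h
  exact ⟨C, s, h1, h2, h3, fun j hj t ht => h4 j hj t (hV ht)⟩

theorem PRS_SG_congr {g g' : ℕ → ℂ → ℂ} {V : Set ℂ} (h : SG g V)
    (he : ∀ j, 1 ≤ j → EqOn (g' j) (g j) V) : SG g' V := by
  obtain ⟨C, s, h1, h2, h3, h4⟩ := h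
  refine ⟨C, s, h1, h2, h3, fun j hj t ht => ?_⟩
  rw [he j hj ht]
  exact h4 j hj t ht

theorem PRS_FI_mono (hMON : StMON) {kc : ℕ → ℂ} {d ρ r0 : ℂ → ℂ} {g : ℕ → ℂ → ℂ} {V V' : Set ℂ}
    (h : FI kc d ρ r0 g V) (ho : IsOpen V') (hV : V' ⊆ V) : FI kc d ρ r0 g V' :=
  hMON kc d ρ r0 d ρ r0 g g V V' h ho hV (fun _ _ => rfl) (fun _ _ => rfl) (fun _ _ => rfl)
    (fun _ _ _ _ => rfl)

theorem PRS_step (hSOLV : StSOLV) (hSTB : StSTB) (hMON : StMON) {kc : ℕ → ℂ} (hk : Ker kc)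
    {ρ : ℂ → ℂ} {x y : ℂ} {R : ℝ} (hR : 0 < R) (hR1 : R ≤ 1)
    (hd : DifferentiableOn ℂ ρ (Metric.ball x R)) (hn : ∀ t ∈ Metric.ball x R, ρ t ≠ 0)
    (hx : Good kc ρ x) (hy : dist y x < R / 8) : Good kc ρ y := by
  obtain ⟨η, hη, r0, g, h1, h2⟩ := hx
  have hη1 : 0 < min η R := lt_min hη hR
  have h3 := PRS_FI_mono hMON h1 (Metric.isOpen_ball (x := x) (ε := min η R))
    (Metric.ball_subset_ball (min_le_left _ _))
  have h4 : SG g (Metric.ball x (min η R)) :=
    PRS_SG_mono h2 (Metric.ball_subset_ball (min_le_left _ _))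
  obtain ⟨r0', g', h5, h6, h7⟩ := hSOLV kc hk ρ r0 g x (min η R) R hη1 (min_le_right _ _) h3 hd hn
  have h8 : SG g' (Metric.ball x (min η R)) := PRS_SG_congr h4 h7
  have h9 := hSTB kc hk ρ r0' g' x (min η R) R hη1 (min_le_right _ _) hR1 h5 h8
  have hsub : Metric.ball y (R / 8) ⊆ Metric.ball x (R / 4) := by
    intro t ht
    rw [Metric.mem_ball] at ht ⊢
    have := dist_triangle t y x
    linarith
  refine ⟨R / 8, by positivity, r0', g', ?_, PRS_SG_mono h9 hsub⟩
  exact PRS_FI_mono hMON h5 Metric.isOpen_ball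
    (hsub.trans (Metric.ball_subset_ball (by linarith)))

theorem tPRS (hSOLV : StSOLV) (hSTB : StSTB) (hMON : StMON) : StPRS := by
  intro kc hk ρ U a b hU hd hn hs ha
  have hK : IsCompact (segment ℝ a b) := by
    rw [segment_eq_image_lineMap]
    exact isCompact_Icc.image (AffineMap.lineMap_continuous)
  obtain ⟨δ, hδ, hδU⟩ := hK.exists_thickening_subset_open hU hs
  have hR : 0 < min δ 1 := lt_min hδ one_pos
  have hball : ∀ x ∈ segment ℝ a b, Metric.ball x (min δ 1) ⊆ U := by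
    intro x hx t ht
    apply hδU
    rw [Metric.mem_thickening_iff]
    exact ⟨x, hx, lt_of_lt_of_le (Metric.mem_ball.1 ht) (min_le_left _ _)⟩
  obtain ⟨n, hnn⟩ := exists_nat_gt (dist a b / (min δ 1 / 8))
  have hn0 : (0 : ℝ) < n := lt_of_le_of_lt (by positivity) hnn
  have hdn : dist a b / n < min δ 1 / 8 := by
    rw [div_lt_iff₀ (by positivity)] at hnn
    rw [div_lt_iff₀ hn0]
    linarith
  have key : ∀ k : ℕ, k ≤ n → Good kc ρ (AffineMap.lineMap a b ((k : ℝ) / n)) := by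
    intro k
    induction k with
    | zero =>
      intro _
      simpa using ha
    | succ k ih =>
      intro hk1
      have hx : AffineMap.lineMap a b ((k : ℝ) / n) ∈ segment ℝ a b := by
        rw [segment_eq_image_lineMap]
        refine ⟨(k : ℝ) / n, ⟨by positivity, ?_⟩, rfl⟩
        rw [div_le_one hn0]
        exact_mod_cast (by omega : k ≤ n)
      refine PRS_step hSOLV hSTB hMON hk hR (min_le_right _ _) (hd.mono (hball _ hx))
        (fun t ht => hn t (hball _ hx ht)) (ih (by omega)) ?_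
      rw [dist_lineMap_lineMap]
      have h1 : dist (((k + 1 : ℕ) : ℝ) / n) ((k : ℝ) / n) = 1 / n := by
        rw [Real.dist_eq, ← sub_div]
        push_cast
        rw [add_sub_cancel_left, abs_of_pos (by positivity)]
      rw [h1, one_div, ← div_eq_inv_mul]
      exact hdn
  have h2 := key n le_rfl
  rw [div_self hn0.ne', AffineMap.lineMap_apply_one] at h2
  exact h2

end H738CZ
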