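import Pool.Agent.H738R3.CZ.Defs

open Complex Set Filter Topology

namespace H738CZ

/-- the local cube root -/
noncomputable def PRV_th (τ0 z : ℂ) : ℂ := τ0 * (z / τ0 ^ 3) ^ (((3 : ℕ) : ℂ)⁻¹)

noncomputable def PRV_rr (R : ℝ) (τ0 : ℂ) : ℝ := min (‖τ0‖ ^ 3 / 2) (min (R ^ 3 - ‖τ0‖ ^ 3) 1)

noncomputable def PRV_de (R : ℝ) (τ0 : ℂ) : ℝ :=
  min (‖τ0‖ / 4) (PRV_rr R τ0 / (16 * (‖τ0‖ ^ 2 + 1)))

theorem PRV_mem {R : ℝ} {τ0 : ℂ} : τ0 ∈ V3 R ↔ ‖τ0‖ < R ∧ τ0 ≠ 0 := by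
  unfold V3
  rw [Set.mem_sdiff, mem_ball_zero_iff, Set.mem_singleton_iff]

theorem PRV_rr_pos {R : ℝ} {τ0 : ℂ} (h : τ0 ∈ V3 R) : 0 < PRV_rr R τ0 := by
  rw [PRV_mem] at h
  have h1 : 0 < ‖τ0‖ := norm_pos_iff.2 h.2
  have h2 : ‖τ0‖ ^ 3 < R ^ 3 := pow_lt_pow_left₀ h.1 h1.le (by norm_num)
  unfold PRV_rr
  refine lt_min (by positivity) (lt_min (by linarith) one_pos)

theorem PRV_de_pos {R : ℝ} {τ0 : ℂ} (h : τ0 ∈ V3 R) : 0 < PRV_de R τ0 := by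
  have h0 := PRV_rr_pos h
  rw [PRV_mem] at h
  have h1 : 0 < ‖τ0‖ := norm_pos_iff.2 h.2
  unfold PRV_de
  exact lt_min (by positivity) (by positivity)

theorem PRV_slit {R : ℝ} {τ0 z : ℂ} (h : τ0 ∈ V3 R)
    (hz : z ∈ Metric.ball (τ0 ^ 3) (PRV_rr R τ0)) : z / τ0 ^ 3 ∈ slitPlane := by
  rw [PRV_mem] at h
  have h1 : 0 < ‖τ0‖ := norm_pos_iff.2 h.2
  have h2 : ‖z - τ0 ^ 3‖ < ‖τ0‖ ^ 3 / 2 :=
    lt_of_lt_of_le (by rwa [mem_ball_iff_norm] at hz) (min_le_left _ _)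
  have h3 : ‖z / τ0 ^ 3 - 1‖ < 1 := by
    have e : z / τ0 ^ 3 - 1 = (z - τ0 ^ 3) / τ0 ^ 3 := by
      rw [sub_div, div_self (pow_ne_zero 3 h.2)]
    rw [e, norm_div, norm_pow, div_lt_one (by positivity)]
    linarith [pow_pos h1 3]
  have h4 : z / τ0 ^ 3 = 1 + (z / τ0 ^ 3 - 1) := by ring
  rw [h4]
  exact mem_slitPlane_of_norm_lt_one h3

theorem PRV_cube {R : ℝ} {τ0 z : ℂ} (h : τ0 ∈ V3 R) : PRV_th τ0 z ^ 3 = z := by
  rw [PRV_mem] at h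
  unfold PRV_th
  rw [mul_pow, cpow_nat_inv_pow _ (by norm_num), mul_div_cancel₀]
  exact pow_ne_zero 3 h.2

theorem PRV_diff {R : ℝ} {τ0 : ℂ} (h : τ0 ∈ V3 R) :
    DifferentiableOn ℂ (PRV_th τ0) (Metric.ball (τ0 ^ 3) (PRV_rr R τ0)) := by
  intro z hz
  have h1 := PRV_slit h hz
  unfold PRV_th
  refine DifferentiableAt.differentiableWithinAt ?_
  refine DifferentiableAt.const_mul ?_ _
  exact (differentiableAt_id.div_const _).cpow (differentiableAt_const _) h1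

theorem PRV_maps {R : ℝ} {τ0 : ℂ} (h : τ0 ∈ V3 R) :
    MapsTo (PRV_th τ0) (Metric.ball (τ0 ^ 3) (PRV_rr R τ0)) (V3 R) := by
  intro z hz
  have h1 := PRV_cube (z := z) h
  have h' := h
  rw [PRV_mem] at h'
  have hn : 0 < ‖τ0‖ := norm_pos_iff.2 h'.2
  have h2 : ‖z - τ0 ^ 3‖ < PRV_rr R τ0 := by rwa [mem_ball_iff_norm] at hz
  have h3 : ‖z - τ0 ^ 3‖ < ‖τ0‖ ^ 3 / 2 := lt_of_lt_of_le h2 (min_le_left _ _)
  have h4 : ‖z - τ0 ^ 3‖ < R ^ 3 - ‖τ0‖ ^ 3 :=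
    lt_of_lt_of_le h2 ((min_le_right _ _).trans (min_le_left _ _))
  have h5 : ‖z‖ < R ^ 3 := by
    have := norm_add_le (z - τ0 ^ 3) (τ0 ^ 3)
    rw [sub_add_cancel, norm_pow] at this
    linarith
  have h6 : z ≠ 0 := by
    rintro rfl
    rw [zero_sub, norm_neg, norm_pow] at h3
    linarith [pow_pos hn 3]
  rw [PRV_mem]
  constructor
  · have h7 : ‖PRV_th τ0 z‖ ^ 3 < R ^ 3 := by rw [← norm_pow, h1]; exact h5
    exact lt_of_pow_lt_pow_left₀ 3 (hn.le.trans h'.1.le) h7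
  · intro h7
    rw [h7] at h1
    exact h6 (by rw [← h1]; norm_num)

theorem PRV_deriv {R : ℝ} {τ0 z : ℂ} (h : τ0 ∈ V3 R)
    (hz : z ∈ Metric.ball (τ0 ^ 3) (PRV_rr R τ0)) :
    d3 (PRV_th τ0 z) * deriv (PRV_th τ0) z = 1 := by
  have h1 : DifferentiableAt ℂ (PRV_th τ0) z :=
    (PRV_diff h).differentiableAt (Metric.isOpen_ball.mem_nhds hz)
  have h2 : HasDerivAt (fun w => PRV_th τ0 w ^ 3)
      (((3 : ℕ) : ℂ) * PRV_th τ0 z ^ (3 - 1) * deriv (PRV_th τ0) z) z := h1.hasDerivAt.pow 3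
  have h3 : (fun w => PRV_th τ0 w ^ 3) = fun w => w := by
    funext w
    exact PRV_cube h
  rw [h3] at h2
  have h4 := h2.unique (hasDerivAt_id' z)
  rw [← h4]
  unfold d3
  norm_num

theorem PRV_at {R : ℝ} {τ0 : ℂ} (h : τ0 ∈ V3 R) : PRV_th τ0 (τ0 ^ 3) = τ0 := by
  rw [PRV_mem] at h
  unfold PRV_th
  rw [div_self (pow_ne_zero 3 h.2), one_cpow, mul_one]

theorem PRV_inv {R : ℝ} {τ0 τ : ℂ} (h : τ0 ∈ V3 R) (hτ : τ ∈ Metric.ball τ0 (PRV_de R τ0)) :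
    τ ^ 3 ∈ Metric.ball (τ0 ^ 3) (PRV_rr R τ0 / 4) ∧ PRV_th τ0 (τ ^ 3) = τ := by
  have hr := PRV_rr_pos h
  rw [PRV_mem] at h
  have hn : 0 < ‖τ0‖ := norm_pos_iff.2 h.2
  have h0 : ‖τ - τ0‖ < PRV_de R τ0 := by rwa [mem_ball_iff_norm] at hτ
  have h1 : ‖τ - τ0‖ < ‖τ0‖ / 4 := lt_of_lt_of_le h0 (min_le_left _ _)
  have h2 : ‖τ - τ0‖ < PRV_rr R τ0 / (16 * (‖τ0‖ ^ 2 + 1)) := lt_of_lt_of_le h0 (min_le_right _ _)
  have h3 : ‖τ‖ ≤ 5 / 4 * ‖τ0‖ := by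
    have := norm_add_le (τ - τ0) τ0
    rw [sub_add_cancel] at this
    linarith
  constructor
  · rw [mem_ball_iff_norm]
    have e : τ ^ 3 - τ0 ^ 3 = (τ - τ0) * (τ ^ 2 + τ * τ0 + τ0 ^ 2) := by ring
    have h4 : ‖τ ^ 2 + τ * τ0 + τ0 ^ 2‖ ≤ 4 * ‖τ0‖ ^ 2 := by
      have a1 := norm_add_le (τ ^ 2 + τ * τ0) (τ0 ^ 2)
      have a2 := norm_add_le (τ ^ 2) (τ * τ0)
      rw [norm_pow] at a1 a2
      rw [norm_mul] at a2
      have a3 : ‖τ‖ ^ 2 ≤ (5 / 4 * ‖τ0‖) ^ 2 := pow_le_pow_left₀ (norm_nonneg _) h3 2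
      have a4 : ‖τ‖ * ‖τ0‖ ≤ (5 / 4 * ‖τ0‖) * ‖τ0‖ := mul_le_mul_of_nonneg_right h3 hn.le
      nlinarith
    rw [e, norm_mul]
    rw [lt_div_iff₀ (by positivity)] at h2
    calc ‖τ - τ0‖ * ‖τ ^ 2 + τ * τ0 + τ0 ^ 2‖ ≤ ‖τ - τ0‖ * (4 * ‖τ0‖ ^ 2) :=
          mul_le_mul_of_nonneg_left h4 (norm_nonneg _)
      _ ≤ ‖τ - τ0‖ * (16 * (‖τ0‖ ^ 2 + 1)) / 4 := by
          have := norm_nonneg (τ - τ0)
          nlinarith
      _ < PRV_rr R τ0 / 4 := by linarith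
  · have hw : ‖τ / τ0 - 1‖ ≤ 1 / 2 := by
      have e : τ / τ0 - 1 = (τ - τ0) / τ0 := by
        have := h.2
        field_simp
      rw [e, norm_div, div_le_iff₀ hn]
      linarith
    have hw' : ‖τ / τ0 - 1‖ ≤ 1 / 4 := by
      have e : τ / τ0 - 1 = (τ - τ0) / τ0 := by
        have := h.2
        field_simp
      rw [e, norm_div, div_le_iff₀ hn]
      linarith
    have h5 := norm_log_one_add_half_le_self hw
    rw [add_sub_cancel] at h5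
    have h6 : |(τ / τ0).arg| ≤ 3 / 8 := by
      have h7 := abs_im_le_norm (log (τ / τ0))
      rw [log_im] at h7
      linarith
    rw [abs_le] at h6
    have hpi := Real.pi_gt_three
    have h8 : ((τ / τ0) ^ 3) ^ (((3 : ℕ) : ℂ)⁻¹) = τ / τ0 := by
      refine pow_cpow_nat_inv (by norm_num) ?_ ?_
      · push_cast
        linarith [h6.1]
      · push_cast
        linarith [h6.2]
    unfold PRV_th
    rw [← div_pow, h8]
    have := h.2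
    field_simp

theorem PRV_sub {R : ℝ} {τ0 : ℂ} (h : τ0 ∈ V3 R) : Metric.ball τ0 (PRV_de R τ0) ⊆ V3 R := by
  intro τ hτ
  obtain ⟨h1, h2⟩ := PRV_inv h hτ
  have h3 := PRV_maps h (Metric.ball_subset_ball (by linarith [PRV_rr_pos h]) h1)
  rwa [h2] at h3

theorem PRV_cont (R : ℝ) : Continuous (PRV_de R) := by
  unfold PRV_de PRV_rr
  have h1 : Continuous fun τ : ℂ => ‖τ‖ := continuous_norm
  refine (h1.div_const _).min ?_
  refine Continuous.div ?_ (by fun_prop) ?_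
  · exact ((h1.pow 3).div_const _).min ((continuous_const.sub (h1.pow 3)).min continuous_const)
  · intro x
    positivity

theorem PRV_loc (hCHG : StCHG) (hSTB : StSTB) {kc : ℕ → ℂ} (hk : Ker kc) {m : ℕ} {u : ℂ → ℂ}
    {R : ℝ} {g : ℕ → ℂ → ℂ} (hF : FI kc d3 (ρ3 m u) (r3 m u) g (V3 R)) {τ0 : ℂ}
    (h : τ0 ∈ V3 R) {η : ℝ} (hη : 0 < η) (hS : SG g (Metric.ball τ0 η)) :
    SG g (Metric.ball τ0 (PRV_de R τ0)) := by
  have hr := PRV_rr_pos h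
  have hF2 := hCHG kc d3 (ρ3 m u) (r3 m u) g (V3 R) (fun _ => 1) (PRV_th τ0)
    (Metric.ball (τ0 ^ 3) (PRV_rr R τ0)) hF Metric.isOpen_ball (PRV_diff h) (PRV_maps h)
    (fun t ht => PRV_deriv h ht) (fun _ _ => one_ne_zero)
  have hc : ContinuousAt (PRV_th τ0) (τ0 ^ 3) :=
    ((PRV_diff h).differentiableAt (Metric.isOpen_ball.mem_nhds
      (Metric.mem_ball_self hr))).continuousAt
  rw [Metric.continuousAt_iff] at hc
  obtain ⟨e1, he1, h1⟩ := hc η hη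
  rw [PRV_at h] at h1
  have hS2 : SG (fun j => g j ∘ PRV_th τ0) (Metric.ball (τ0 ^ 3) (min e1 (PRV_rr R τ0))) := by
    obtain ⟨C, s, hC, hs0, hs1, hb⟩ := hS
    refine ⟨C, s, hC, hs0, hs1, ?_⟩
    intro j hj t ht
    refine hb j hj (PRV_th τ0 t) ?_
    rw [Metric.mem_ball] at ht ⊢
    exact h1 (lt_of_lt_of_le ht (min_le_left _ _))
  have hS3 := hSTB kc hk _ _ _ (τ0 ^ 3) (min e1 (PRV_rr R τ0)) (PRV_rr R τ0)
    (lt_min he1 hr) (min_le_right _ _) ((min_le_right _ _).trans (min_le_right _ _)) hF2 hS2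
  obtain ⟨C, s, hC, hs0, hs1, hb⟩ := hS3
  refine ⟨C, s, hC, hs0, hs1, ?_⟩
  intro j hj t ht
  obtain ⟨h2, h3⟩ := PRV_inv h ht
  have h4 := hb j hj (t ^ 3) h2
  have h5 : (fun j => g j ∘ PRV_th τ0) j (t ^ 3) = g j t := by
    show g j (PRV_th τ0 (t ^ 3)) = g j t
    rw [h3]
  rw [h5] at h4
  exact h4

theorem tPRV (hCHG : StCHG) (hSTB : StSTB) (hV3C : StV3C) (hMON : StMON) : StPRV := by
  have _ := hMON
  intro kc hk m u R hm hu g hF τ1 η hη hsub hS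
  set S : Set ℂ := {τ | ∃ η' > 0, Metric.ball τ η' ⊆ V3 R ∧ SG g (Metric.ball τ η')} with hSd
  have hSG : ∀ {V W : Set ℂ}, W ⊆ V → SG g V → SG g W := by
    rintro V W hWV ⟨C, s, hC, hs0, hs1, hb⟩
    exact ⟨C, s, hC, hs0, hs1, fun j hj t ht => hb j hj t (hWV ht)⟩
  have hin : ∀ (τ0 : ℂ) (r : ℝ), Metric.ball τ0 r ⊆ V3 R → SG g (Metric.ball τ0 r) →
      Metric.ball τ0 r ⊆ S := by
    intro τ0 r h1 h2 τ hτ
    have h3 : Metric.ball τ (r - dist τ τ0) ⊆ Metric.ball τ0 r := by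
      refine Metric.ball_subset_ball' ?_
      linarith
    exact ⟨r - dist τ τ0, by rw [Metric.mem_ball] at hτ; linarith, h3.trans h1, hSG h3 h2⟩
  have hop : IsOpen S := by
    rw [Metric.isOpen_iff]
    rintro τ ⟨η', h1, h2, h3⟩
    exact ⟨η', h1, hin τ η' h2 h3⟩
  have hτ1 : τ1 ∈ S := ⟨η, hη, hsub, hS⟩
  have hτ1' : τ1 ∈ V3 R := hsub (Metric.mem_ball_self hη)
  have hcl : closure S ∩ V3 R ⊆ S := by
    rintro τ ⟨h1, h2⟩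
    have h3 : IsOpen {x : ℂ | dist τ x < PRV_de R x} :=
      isOpen_lt (continuous_const.dist continuous_id) (PRV_cont R)
    have h4 : τ ∈ {x : ℂ | dist τ x < PRV_de R x} := by
      show dist τ τ < PRV_de R τ
      rw [dist_self]
      exact PRV_de_pos h2
    obtain ⟨x, hx1, hx2⟩ := mem_closure_iff.1 h1 _ h3 h4
    obtain ⟨η', h5, h6, h7⟩ := hx2
    have hxV : x ∈ V3 R := h6 (Metric.mem_ball_self h5)
    exact hin x (PRV_de R x) (PRV_sub hxV) (PRV_loc hCHG hSTB hk hF hxV h5 h7) hx1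
  exact fun τ hτ => (hV3C R).subset_of_closure_inter_subset hop ⟨τ1, hτ1', hτ1⟩ hcl hτ

end H738CZ
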