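import Pool.Agent.H738R3.CZ.Defs

open Complex Set Filter Topology

namespace H738CZ

theorem S5_Bm_one (m : ℕ) : Bm m 1 = 0 := by
  unfold Bm
  simp only [one_pow, mul_one]
  ring

theorem S5_Bm_tendsto (m : ℕ) : Tendsto (Bm m) (𝓝 1) (𝓝 0) := by
  have h : Continuous (Bm m) := by
    unfold Bm
    fun_prop
  have h2 := h.tendsto 1
  rwa [S5_Bm_one] at h2

theorem S5_Mo_tendsto : Tendsto Mo (𝓝 1) (𝓝 1) := by
  have h : ContinuousAt Mo 1 := by
    unfold Mo
    refine ContinuousAt.div continuousAt_id (by fun_prop) ?_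
    norm_num
  have h2 := h.tendsto
  have h3 : Mo 1 = 1 := by
    unfold Mo
    norm_num
  rwa [h3] at h2

theorem tS5 (h5R : St5R) (h5E : St5E) (h5G : St5G) : StS5 := by
  intro m α C hm hrel hα
  obtain ⟨R, F, hR, hF, hF0, hdF, hRel⟩ := h5R m α C hm hrel hα
  obtain ⟨F', hF', hEq⟩ := h5E m F R hm hR hF hRel
  have hball : Metric.ball (0 : ℂ) R ∈ 𝓝 (0:ℂ) := Metric.ball_mem_nhds _ hR
  have hB := S5_Bm_tendsto m
  have hRel' : Rel1 m F' := by
    unfold Rel1 at hRel ⊢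
    filter_upwards [hRel, hB.eventually hball, (hB.comp S5_Mo_tendsto).eventually hball]
      with x h1 h2 h3
    have e2 : F' (Bm m x) = F (Bm m x) := hEq h2
    have e3 : F' (Bm m (Mo x)) = F (Bm m (Mo x)) := hEq h3
    rw [e2, e3, h1]
  have hc := h5G m F' hm hF' hRel'
  have hfun : F' = fun _ => F' 0 := funext hc
  have hd : deriv F' 0 = deriv F 0 := (hEq.eventuallyEq_of_mem hball).deriv_eq
  rw [← hdF, ← hd, hfun]
  simp

end H738CZ
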