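import Pool.Agent.H738R3.CZ.Defs

open Complex Set Filter Topology

namespace H738CZ

theorem SOLV_DD_diff {V : Set ℂ} (hV : IsOpen V) {f : ℂ → ℂ} (hf : DifferentiableOn ℂ f V)
    (l : ℕ) : DifferentiableOn ℂ ((DD (fun _ => 1))^[l] f) V := by
  induction l with
  | zero => exact hf
  | succ l ih =>
    rw [Function.iterate_succ_apply']
    have h : DD (fun _ => 1) ((DD fun _ => 1)^[l] f) = deriv ((DD fun _ => 1)^[l] f) := by
      funext t
      simp [DD]
    rw [h]
    exact ih.deriv hV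

/-- all coefficients are differentiable -/
def SOLV_PD (F : ℂ → PowerSeries ℂ) (V : Set ℂ) : Prop :=
  ∀ n, DifferentiableOn ℂ (fun t => PowerSeries.coeff n (F t)) V

theorem SOLV_PD.mul {F G : ℂ → PowerSeries ℂ} {V : Set ℂ} (hF : SOLV_PD F V) (hG : SOLV_PD G V) :
    SOLV_PD (fun t => F t * G t) V := by
  intro n
  simp only [PowerSeries.coeff_mul]
  exact DifferentiableOn.fun_sum fun p _ => (hF p.1).mul (hG p.2)

theorem SOLV_PD.pow {F : ℂ → PowerSeries ℂ} {V : Set ℂ} (hF : SOLV_PD F V) (k : ℕ) :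
    SOLV_PD (fun t => F t ^ k) V := by
  induction k with
  | zero =>
    intro n
    simp only [pow_zero]
    exact differentiableOn_const _
  | succ k ih =>
    simp only [pow_succ]
    exact ih.mul hF

theorem SOLV_Es_PD {V : Set ℂ} (hV : IsOpen V) {f : ℂ → ℂ} (hf : DifferentiableOn ℂ f V) :
    SOLV_PD (Es (fun _ => 1) f) V := by
  intro n
  simp only [Es, PowerSeries.coeff_mk]
  exact (SOLV_DD_diff hV hf n).div_const _

theorem SOLV_Ys_PD {V : Set ℂ} (hV : IsOpen V) (kc : ℕ → ℂ) {ρ : ℂ → ℂ}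
    (hρ : DifferentiableOn ℂ ρ V) : SOLV_PD (Ys kc (fun _ => 1) ρ) V := by
  intro n
  simp only [Ys, PowerSeries.coeff_mk]
  exact (DifferentiableOn.fun_sum fun l _ =>
    (SOLV_DD_diff hV hρ l).const_mul _).div_const _

theorem SOLV_Lo_diff {V : Set ℂ} (hV : IsOpen V) (kc : ℕ → ℂ) {ρ r : ℂ → ℂ}
    (hρ : DifferentiableOn ℂ ρ V) (hr : DifferentiableOn ℂ r V) (hrn : ∀ t ∈ V, r t ≠ 0)
    {g : ℕ → ℂ → ℂ} {J : ℕ} (hg : ∀ j, 1 ≤ j → j < J → DifferentiableOn ℂ (g j) V) :
    DifferentiableOn ℂ (Lo kc (fun _ => 1) ρ r g J) V := by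
  unfold Lo
  simp only [map_sum]
  refine DifferentiableOn.fun_sum fun j hj => ?_
  rw [Finset.mem_Ico] at hj
  unfold Tm
  exact ((SOLV_Es_PD hV ((hg j hj.1 hj.2).mul ((hr.inv hrn).pow j))).mul
    ((SOLV_Ys_PD hV kc hρ).pow j)) _

theorem SOLV_DD_congr {V : Set ℂ} (hV : IsOpen V) (d : ℂ → ℂ) {f f' : ℂ → ℂ} (h : EqOn f f' V)
    (l : ℕ) : EqOn ((DD d)^[l] f) ((DD d)^[l] f') V := by
  induction l with
  | zero => exact h
  | succ l ih =>
    intro t ht
    rw [Function.iterate_succ_apply', Function.iterate_succ_apply']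
    show deriv _ t / d t = deriv _ t / d t
    congr 1
    exact Filter.EventuallyEq.deriv_eq (ih.eventuallyEq_of_mem (hV.mem_nhds ht))

theorem SOLV_Es_congr {V : Set ℂ} (hV : IsOpen V) (d : ℂ → ℂ) {f f' : ℂ → ℂ} (h : EqOn f f' V)
    {t : ℂ} (ht : t ∈ V) : Es d f t = Es d f' t := by
  ext n
  simp only [Es, PowerSeries.coeff_mk]
  rw [SOLV_DD_congr hV d h n ht]

theorem SOLV_Lo_congr {V : Set ℂ} (hV : IsOpen V) (kc : ℕ → ℂ) (d ρ : ℂ → ℂ) {r r' : ℂ → ℂ}
    (hr : EqOn r r' V) {g g' : ℕ → ℂ → ℂ} {J : ℕ} (hg : ∀ j, 1 ≤ j → j < J → EqOn (g j) (g' j) V)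
    {t : ℂ} (ht : t ∈ V) : Lo kc d ρ r g J t = Lo kc d ρ r' g' J t := by
  unfold Lo
  congr 1
  refine Finset.sum_congr rfl fun j hj => ?_
  rw [Finset.mem_Ico] at hj
  unfold Tm
  congr 1
  refine SOLV_Es_congr hV d (fun u hu => ?_) ht
  show g j u * ((r u)⁻¹) ^ j = g' j u * ((r' u)⁻¹) ^ j
  rw [hg j hj.1 hj.2 hu, hr hu]

open Classical in
/-- a primitive on the ball, vanishing at the centre -/
noncomputable def SOLV_prim (a : ℂ) (R : ℝ) (φ : ℂ → ℂ) : ℂ → ℂ :=
  if h : ∃ F : ℂ → ℂ, F a = 0 ∧ ∀ z ∈ Metric.ball a R, HasDerivAt F (φ z) z then h.choose else 0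

theorem SOLV_prim_spec {a : ℂ} {R : ℝ} {φ : ℂ → ℂ} (h : DifferentiableOn ℂ φ (Metric.ball a R)) :
    SOLV_prim a R φ a = 0 ∧
      ∀ z ∈ Metric.ball a R, HasDerivAt (SOLV_prim a R φ) (φ z) z := by
  have h1 : ∃ F : ℂ → ℂ, F a = 0 ∧ ∀ z ∈ Metric.ball a R, HasDerivAt F (φ z) z :=
    (h.isExactOn_ball).with_val_at a 0
  unfold SOLV_prim
  rw [dif_pos h1]
  exact h1.choose_spec

/-- the coefficients on the large ball -/
noncomputable def SOLV_S (kc : ℕ → ℂ) (ρ r : ℂ → ℂ) (a : ℂ) (R : ℝ) (g : ℕ → ℂ → ℂ) :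
    ℕ → ℂ → ℂ
  | J => fun t => if J = 1 then 2 else g J a + SOLV_prim a R
      (fun z => -((2 / r z ^ 2) ^ J * Lo kc (fun _ => 1) ρ r
        (fun i => if _h : i < J then SOLV_S kc ρ r a R g i else 0) J z)) t
termination_by J => J

theorem SOLV_S_one (kc : ℕ → ℂ) (ρ r : ℂ → ℂ) (a : ℂ) (R : ℝ) (g : ℕ → ℂ → ℂ) :
    SOLV_S kc ρ r a R g 1 = fun _ => 2 := by
  rw [SOLV_S]
  funext t
  simp

theorem SOLV_S_eq (kc : ℕ → ℂ) (ρ r : ℂ → ℂ) (a : ℂ) (R : ℝ) (g : ℕ → ℂ → ℂ) {J : ℕ}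
    (hJ : J ≠ 1) : SOLV_S kc ρ r a R g J = fun t => g J a + SOLV_prim a R
      (fun z => -((2 / r z ^ 2) ^ J * Lo kc (fun _ => 1) ρ r (SOLV_S kc ρ r a R g) J z)) t := by
  rw [SOLV_S]
  funext t
  rw [if_neg hJ]
  congr 2
  funext z
  congr 2
  unfold Lo
  congr 1
  refine Finset.sum_congr rfl fun j hj => ?_
  rw [Finset.mem_Ico] at hj
  unfold Tm
  simp only [dif_pos hj.2]

theorem tSOLV (hREC : StREC) : StSOLV := by
  intro kc hkc ρ r0 g a η R hη hηR hFI hρ hρn
  have hR : 0 < R := hη.trans_le hηR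
  have ha : a ∈ Metric.ball a R := Metric.mem_ball_self hR
  have haη : a ∈ Metric.ball a η := Metric.mem_ball_self hη
  have hsub : Metric.ball a η ⊆ Metric.ball a R := Metric.ball_subset_ball hηR
  have hopR : IsOpen (Metric.ball a R) := Metric.isOpen_ball
  have hopη : IsOpen (Metric.ball a η) := Metric.isOpen_ball
  have hprR : IsPreconnected (Metric.ball a R) := (convex_ball a R).isPreconnected
  have hprη : IsPreconnected (Metric.ball a η) := (convex_ball a η).isPreconnected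
  -- the cube root
  obtain ⟨h, ha0, hder⟩ : ∃ h : ℂ → ℂ, h a = 0 ∧
      ∀ z ∈ Metric.ball a R, HasDerivAt h (deriv ρ z / ρ z) z :=
    (((hρ.deriv hopR).div hρ hρn).isExactOn_ball).with_val_at a 0
  have hconst : ∀ t ∈ Metric.ball a R, ρ t * cexp (-h t) = ρ a := by
    intro t ht
    have hd : DifferentiableOn ℂ (fun t => ρ t * cexp (-h t)) (Metric.ball a R) := by
      intro z hz
      exact ((hρ z hz).mul ((hder z hz).differentiableAt.differentiableWithinAt.neg.cexp))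
    have h0 : EqOn (deriv fun t => ρ t * cexp (-h t)) 0 (Metric.ball a R) := by
      intro z hz
      have h1 : HasDerivAt ρ (deriv ρ z) z :=
        ((hρ z hz).differentiableAt (hopR.mem_nhds hz)).hasDerivAt
      have h2 := h1.mul ((hder z hz).neg.cexp)
      have h3 := h2.deriv
      show deriv (fun t => ρ t * cexp (-h t)) z = 0
      have h4 : deriv (fun t => ρ t * cexp (-h t)) z =
          deriv ρ z * cexp (-h z) + ρ z * (cexp (-h z) * -(deriv ρ z / ρ z)) := h3
      rw [h4]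
      have h5 := hρn z hz
      field_simp
      ring
    have h6 := hopR.is_const_of_deriv_eq_zero hprR hd h0 ht ha
    simp only [ha0, neg_zero, Complex.exp_zero, mul_one] at h6
    exact h6
  set r1 : ℂ → ℂ := fun t => r0 a * cexp (h t / 3) with hr1
  have hr0a : r0 a ≠ 0 := hFI.base.rn a haη
  have hcube : ∀ t ∈ Metric.ball a R, ρ t = r1 t ^ 3 := by
    intro t ht
    have h1 := hconst t ht
    have h2 : ρ a = r0 a ^ 3 := hFI.base.cube a haη
    have h3 : cexp (h t / 3) ^ 3 = cexp (h t) := by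
      rw [← Complex.exp_nat_mul]
      congr 1
      push_cast
      ring
    show ρ t = (r0 a * cexp (h t / 3)) ^ 3
    rw [mul_pow, h3, ← h2, ← h1, Complex.exp_neg, mul_assoc, inv_mul_cancel₀ (Complex.exp_ne_zero _),
      mul_one]
  have hr1d : DifferentiableOn ℂ r1 (Metric.ball a R) := by
    intro z hz
    exact (((hder z hz).differentiableAt.div_const 3).cexp.const_mul _).differentiableWithinAt
  have hr1n : ∀ t, r1 t ≠ 0 := fun t => mul_ne_zero hr0a (Complex.exp_ne_zero _)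
  have hbase : Base (fun _ => 1) ρ r1 (Metric.ball a R) :=
    ⟨hopR, differentiableOn_const _, fun _ _ => one_ne_zero, hr1d, fun t _ => hr1n t, hcube⟩
  -- agreement of the cube roots
  have hreq : EqOn r1 r0 (Metric.ball a η) := by
    have hr0d := hFI.base.rd
    have hr0n := hFI.base.rn
    have hqd : DifferentiableOn ℂ (fun t => r1 t / r0 t) (Metric.ball a η) :=
      (hr1d.mono hsub).div hr0d hr0n
    have hq3 : ∀ t ∈ Metric.ball a η, (r1 t / r0 t) ^ 3 = 1 := by
      intro t ht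
      rw [div_pow, ← hcube t (hsub ht), hFI.base.cube t ht]
      exact div_self (pow_ne_zero 3 (hr0n t ht))
    have hq0 : EqOn (deriv fun t => r1 t / r0 t) 0 (Metric.ball a η) := by
      intro z hz
      have h1 : HasDerivAt (fun t => r1 t / r0 t) (deriv (fun t => r1 t / r0 t) z) z :=
        ((hqd z hz).differentiableAt (hopη.mem_nhds hz)).hasDerivAt
      have h2 := h1.pow 3
      have h3 : (fun t => (r1 t / r0 t) ^ 3) =ᶠ[𝓝 z] fun _ => 1 := by
        filter_upwards [hopη.mem_nhds hz] with t ht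
        exact hq3 t ht
      have h4 : HasDerivAt (fun t => (r1 t / r0 t) ^ 3) 0 z :=
        (hasDerivAt_const z (1 : ℂ)).congr_of_eventuallyEq h3
      have h5 := h2.unique h4
      have h6 : (r1 z / r0 z) ≠ 0 := div_ne_zero (hr1n z) (hr0n z hz)
      show deriv (fun t => r1 t / r0 t) z = 0
      have h7 : (3 : ℂ) * (r1 z / r0 z) ^ 2 ≠ 0 := mul_ne_zero (by norm_num) (pow_ne_zero 2 h6)
      have h8 : (3 : ℂ) * (r1 z / r0 z) ^ 2 * deriv (fun t => r1 t / r0 t) z = 0 := by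
        simpa using h5
      exact (mul_eq_zero.1 h8).resolve_left h7
    intro t ht
    have h1 := hopη.is_const_of_deriv_eq_zero hprη hqd hq0 ht haη
    have h2 : r1 a / r0 a = 1 := by
      have : r1 a = r0 a := by simp [hr1, ha0]
      rw [this, div_self hr0a]
    have h3 : r1 t / r0 t = 1 := h1.trans h2
    rwa [div_eq_one_iff_eq (hr0n t ht)] at h3
  -- the coefficients
  set S := SOLV_S kc ρ r1 a R g with hS
  have hφd : ∀ J : ℕ, (∀ j, 1 ≤ j → j < J → DifferentiableOn ℂ (S j) (Metric.ball a R)) →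
      DifferentiableOn ℂ (fun z => -((2 / r1 z ^ 2) ^ J * Lo kc (fun _ => 1) ρ r1 S J z))
        (Metric.ball a R) := by
    intro J hJ
    refine DifferentiableOn.neg (DifferentiableOn.mul ?_ ?_)
    · exact ((differentiableOn_const (c := (2 : ℂ))).div (hr1d.pow 2)
        (fun z _ => pow_ne_zero 2 (hr1n z))).pow J
    · exact SOLV_Lo_diff hopR kc hρ hr1d (fun t _ => hr1n t) hJ
  have hSd : ∀ J : ℕ, 1 ≤ J → DifferentiableOn ℂ (S J) (Metric.ball a R) ∧
      (J ≠ 1 → S J a = g J a ∧ ∀ z ∈ Metric.ball a R, HasDerivAt (S J)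
        (-((2 / r1 z ^ 2) ^ J * Lo kc (fun _ => 1) ρ r1 S J z)) z) := by
    intro J
    induction J using Nat.strong_induction_on with
    | _ J ih =>
      intro hJ
      by_cases h1 : J = 1
      · subst h1
        refine ⟨?_, fun h => absurd rfl h⟩
        rw [hS, SOLV_S_one]
        exact differentiableOn_const _
      · have hsp := SOLV_prim_spec (hφd J fun j hj hjJ => (ih j hjJ hj).1)
        have h2 : S J = fun t => g J a + SOLV_prim a R
          (fun z => -((2 / r1 z ^ 2) ^ J * Lo kc (fun _ => 1) ρ r1 S J z)) t :=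
          SOLV_S_eq kc ρ r1 a R g h1
        have h3 : ∀ z ∈ Metric.ball a R, HasDerivAt (S J)
            (-((2 / r1 z ^ 2) ^ J * Lo kc (fun _ => 1) ρ r1 S J z)) z := by
          intro z hz
          rw [h2]
          exact (hsp.2 z hz).const_add _
        refine ⟨fun z hz => (h3 z hz).differentiableAt.differentiableWithinAt, fun _ => ⟨?_, h3⟩⟩
        rw [h2]
        show g J a + _ = g J a
        rw [hsp.1, add_zero]
  have hinv : ∀ (r : ℂ) (J : ℕ), r ≠ 0 → (r ^ 2 / 2) ^ J * (2 / r ^ 2) ^ J = 1 := by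
    intro r J hr
    rw [← mul_pow]
    have : r ^ 2 / 2 * (2 / r ^ 2) = 1 := by field_simp
    rw [this, one_pow]
  have hDD : ∀ (f : ℂ → ℂ) (t : ℂ), DD (fun _ => 1) f t = deriv f t := by
    intro f t
    simp [DD]
  refine ⟨r1, S, ⟨hbase, fun j hj => (hSd j hj).1, fun t _ => ?_, ?_⟩, hreq, ?_⟩
  · rw [hS, SOLV_S_one]
  · intro J hJ t ht
    rw [hREC kc hkc (fun _ => 1) ρ r1 (Metric.ball a R) hbase S J hJ (hSd J hJ).1 t ht, hDD]
    by_cases h1 : J = 1
    · subst h1
      have h2 : deriv (S 1) t = 0 := by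
        rw [hS, SOLV_S_one]
        exact deriv_const t 2
      rw [h2]
      simp [Lo]
    · rw [(((hSd J hJ).2 h1).2 t ht).deriv]
      have h2 := hinv (r1 t) J (hr1n t)
      linear_combination (-Lo kc (fun _ => 1) ρ r1 S J t) * h2
  · intro J
    induction J using Nat.strong_induction_on with
    | _ J ih =>
      intro hJ
      by_cases h1 : J = 1
      · subst h1
        intro t ht
        rw [hFI.one t ht, hS, SOLV_S_one]
      · refine hopη.eqOn_of_deriv_eq hprη ((hSd J hJ).1.mono hsub) (hFI.gd J hJ) ?_ haη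
          ((hSd J hJ).2 h1).1
        intro t ht
        have h2 := (((hSd J hJ).2 h1).2 t (hsub ht)).deriv
        have h3 := hFI.law J hJ t ht
        rw [hREC kc hkc (fun _ => 1) ρ r0 (Metric.ball a η) hFI.base g J hJ (hFI.gd J hJ) t ht,
          hDD] at h3
        have h4 : Lo kc (fun _ => 1) ρ r1 S J t = Lo kc (fun _ => 1) ρ r0 g J t :=
          SOLV_Lo_congr hopη kc _ ρ hreq (fun j hj hjJ => ih j hjJ hj) ht
        have h5 := hinv (r0 t) J (hFI.base.rn t ht)
        have h6 : deriv (g J) t = -((2 / r0 t ^ 2) ^ J * Lo kc (fun _ => 1) ρ r0 g J t) := by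
          linear_combination (2 / r0 t ^ 2) ^ J * h3 - deriv (g J) t * h5
        rw [h2, h6, h4, hreq ht]

end H738CZ
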