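import Pool.Agent.H738R3.CZ.Defs

/-! STB: sub-Gevrey bounds propagate from a small disc to a larger one. -/

open Complex Set Filter Topology

namespace H738CZ

theorem tSTB (hNAG : StNAG) (hHAD : StHAD) : StSTB := by
  intro kc hk ρ r0 g a η R hη hηR hR1 hFI hSG
  obtain ⟨C, s, hC, hs0, hs1, hGB⟩ := hSG
  have hR : 0 < R := lt_of_lt_of_le hη hηR
  have hfac : ∀ j : ℕ, (1 : ℝ) ≤ ((2 * j).factorial : ℝ) := fun j => by
    exact_mod_cast Nat.one_le_iff_ne_zero.mpr (Nat.factorial_ne_zero _)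
  have hfs : ∀ j : ℕ, ((2 * j).factorial : ℝ) ^ s ≤ ((2 * j).factorial : ℝ) := fun j => by
    calc ((2 * j).factorial : ℝ) ^ s ≤ ((2 * j).factorial : ℝ) ^ (1 : ℝ) :=
          Real.rpow_le_rpow_of_exponent_le (hfac j) hs1.le
      _ = _ := Real.rpow_one _
  have hC0 : (0 : ℝ) < C := lt_of_lt_of_le one_pos hC
  obtain ⟨Λ, hΛ1, hΛ⟩ := hNAG kc hk ρ r0 g a R hR hR1 hFI ⟨C, fun j hj => by
    have h1 := hGB j hj a (Metric.mem_ball_self hη)
    exact h1.trans (mul_le_mul_of_nonneg_left (hfs j) (pow_nonneg hC0.le _))⟩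
  obtain ⟨θ, hθ0, hθ1, hθ⟩ := hHAD (min η (R / 4)) (R / 2) (lt_min hη (by positivity))
    (lt_of_le_of_lt (min_le_right _ _) (by linarith))
  have hL1 : (1 : ℝ) ≤ max Λ C := le_trans hΛ1 (le_max_left _ _)
  have hL0 : (0 : ℝ) < max Λ C := lt_of_lt_of_le one_pos hL1
  refine ⟨max Λ C, 1 - θ + s * θ, hL1, ?_, ?_, ?_⟩
  · have := mul_nonneg hs0 hθ0.le
    linarith
  · nlinarith
  intro j hj t ht
  have hF : (0 : ℝ) < ((2 * j).factorial : ℝ) := lt_of_lt_of_le one_pos (hfac j)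
  have hdiff : DifferentiableOn ℂ (g j) (Metric.ball a (R / 2)) :=
    (hFI.gd j hj).mono (Metric.ball_subset_ball (by linarith))
  have hm0 : 0 < C ^ j * ((2 * j).factorial : ℝ) ^ s :=
    mul_pos (pow_pos hC0 _) (Real.rpow_pos_of_pos hF _)
  have hCL : C ^ j ≤ (max Λ C) ^ j := pow_le_pow_left₀ hC0.le (le_max_right _ _) _
  have hmM : C ^ j * ((2 * j).factorial : ℝ) ^ s ≤ (max Λ C) ^ j * ((2 * j).factorial : ℝ) :=
    mul_le_mul hCL (hfs j) (Real.rpow_nonneg hF.le _) (pow_nonneg hL0.le _)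
  have h1 := hθ a (g j) ((max Λ C) ^ j * ((2 * j).factorial : ℝ))
    (C ^ j * ((2 * j).factorial : ℝ) ^ s) hdiff hm0 hmM
    (fun t ht => (hΛ j hj t ht).trans (mul_le_mul_of_nonneg_right
      (pow_le_pow_left₀ (by linarith) (le_max_left _ _) _) hF.le))
    (fun t ht => hGB j hj t (Metric.ball_subset_ball (min_le_left _ _) ht)) t
    (by rwa [show R / 2 / 2 = R / 4 by ring])
  refine h1.trans ?_
  rw [Real.mul_rpow (pow_nonneg hL0.le _) hF.le,
    Real.mul_rpow (pow_nonneg hC0.le _) (Real.rpow_nonneg hF.le _), ← Real.rpow_mul hF.le]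
  have e1 : ((C ^ j : ℝ)) ^ θ ≤ ((max Λ C) ^ j : ℝ) ^ θ :=
    Real.rpow_le_rpow (pow_nonneg hC0.le _) hCL hθ0.le
  have hLj : (0 : ℝ) < (max Λ C) ^ j := pow_pos hL0 _
  calc ((max Λ C) ^ j : ℝ) ^ (1 - θ) * ((2 * j).factorial : ℝ) ^ (1 - θ)
        * ((C ^ j : ℝ) ^ θ * ((2 * j).factorial : ℝ) ^ (s * θ))
      ≤ ((max Λ C) ^ j : ℝ) ^ (1 - θ) * ((2 * j).factorial : ℝ) ^ (1 - θ)
        * (((max Λ C) ^ j : ℝ) ^ θ * ((2 * j).factorial : ℝ) ^ (s * θ)) := by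
          refine mul_le_mul_of_nonneg_left (mul_le_mul_of_nonneg_right e1
            (Real.rpow_nonneg hF.le _)) ?_
          exact mul_nonneg (Real.rpow_nonneg hLj.le _) (Real.rpow_nonneg hF.le _)
    _ = (((max Λ C) ^ j : ℝ) ^ (1 - θ) * ((max Λ C) ^ j : ℝ) ^ θ)
        * (((2 * j).factorial : ℝ) ^ (1 - θ) * ((2 * j).factorial : ℝ) ^ (s * θ)) := by ring
    _ = (max Λ C) ^ j * ((2 * j).factorial : ℝ) ^ (1 - θ + s * θ) := by
          rw [← Real.rpow_add hLj, ← Real.rpow_add hF]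
          simp

end H738CZ
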