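import Pool.Agent.H738R3.CZ.Defs

/-!
Task 5T: contraction along trajectories.
-/

open Complex Set Filter Topology

namespace H738CZ

theorem t5T (h5V : St5V) : St5T := by
  intro m x0 x hT hne hlt s hs
  set φ : ℝ → ℂ := fun s => Bm m (Mo (x s)) with hφ
  have hder : ∀ t, 0 ≤ t →
      HasDerivWithinAt φ (((2 * x t - 1)⁻¹) ^ (m + 3) * Bm m (x t)) (Ici 0) t := by
    intro t ht
    have h1 := h5V m (x t)
    have hge := hT.ge t ht
    have hx0 : x t ≠ 0 := by
      intro h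
      rw [h, norm_zero] at hge
      linarith
    have h2 := (h1.2.2.2 hge).2.2
    have h3 := hT.der t ht
    have h4 := h2.comp_hasDerivWithinAt t h3
    have h5 := h1.2.1 hx0
    have h6 : ((m : ℂ) + 1) * (m + 2) * x t ^ m * (x t - 1) * ((2 * x t - 1)⁻¹) ^ (m + 3) * vf m (x t)
        = ((2 * x t - 1)⁻¹) ^ (m + 3) * Bm m (x t) := by
      rw [← h5]
      ring
    rw [h6] at h4
    exact h4
  have hcont : ContinuousOn φ (Icc 0 s) := by
    intro t ht
    exact ((hder t ht.1).continuousWithinAt).mono Icc_subset_Ici_self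
  have hnorm : ∀ t, 0 ≤ t → ‖Bm m (x t)‖ = Real.exp t * ‖Bm m x0‖ := by
    intro t ht
    rw [hT.val t ht, norm_mul, Complex.norm_real, Real.norm_eq_abs, abs_of_pos (Real.exp_pos t)]
  have key := image_norm_le_of_norm_deriv_right_le_deriv_boundary (f := φ)
    (f' := fun t => ((2 * x t - 1)⁻¹) ^ (m + 3) * Bm m (x t)) (a := 0) (b := s) hcont
    (fun t ht => (hder t ht.1).mono (Ici_subset_Ici.2 ht.1))
    (B := fun t => ‖φ 0‖ + (Real.exp t - 1) * ‖Bm m x0‖)
    (B' := fun t => Real.exp t * ‖Bm m x0‖) (by simp)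
    (fun t => by
      have := ((((Real.hasDerivAt_exp t).sub_const 1).mul_const ‖Bm m x0‖).const_add ‖φ 0‖)
      exact this)
    (fun t ht => by
      have h1 := ((h5V m (x t)).2.2.2 (hT.ge t ht.1)).1
      rw [norm_mul, norm_pow, norm_inv, hnorm t ht.1]
      have h2 : ‖2 * x t - 1‖⁻¹ ≤ 1 := inv_le_one_of_one_le₀ h1
      have h3 : ‖2 * x t - 1‖⁻¹ ^ (m + 3) ≤ 1 := pow_le_one₀ (by positivity) h2
      exact mul_le_of_le_one_left (by positivity) h3)
    (right_mem_Icc.2 hs)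
  have h0 : φ 0 = Bm m (Mo x0) := by
    rw [hφ]
    simp only
    rw [hT.ini]
  rw [h0] at key
  rw [hnorm s hs]
  have h6 : ‖φ s‖ = ‖Bm m (Mo (x s))‖ := rfl
  rw [← h6]
  linarith

end H738CZ
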