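import Pool.Agent.H738R3.CZ.Defs

/-!
# Task 5V: identities and inequalities for the model function `Bm`
-/

open Complex Set Filter Topology

namespace H738CZ

theorem V5_geom (x : ℂ) (hx : x ≠ 0) (n : ℕ) :
    (x - 1) * x ^ n * ∑ j ∈ Finset.Icc 1 n, (x⁻¹) ^ j = x ^ n - 1 := by
  induction n with
  | zero => simp
  | succ n ih =>
    rw [Finset.sum_Icc_succ_top (by omega)]
    have h1 : x ^ (n + 1) * (x⁻¹) ^ (n + 1) = 1 := by
      rw [← mul_pow, mul_inv_cancel₀ hx, one_pow]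
    have h2 : (x - 1) * x ^ (n + 1) * (∑ j ∈ Finset.Icc 1 n, (x⁻¹) ^ j + (x⁻¹) ^ (n + 1))
        = x * ((x - 1) * x ^ n * ∑ j ∈ Finset.Icc 1 n, (x⁻¹) ^ j)
          + (x - 1) * (x ^ (n + 1) * (x⁻¹) ^ (n + 1)) := by ring
    rw [h2, ih, h1]
    ring

theorem V5_deriv (m : ℕ) (x : ℂ) :
    HasDerivAt (Bm m) ((m + 1) * (m + 2) * x ^ m * (x - 1)) x := by
  have h1 : HasDerivAt (fun y : ℂ => y ^ (m + 1)) (((m + 1 : ℕ) : ℂ) * x ^ m) x := by
    simpa using hasDerivAt_pow (m + 1) x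
  have h2 : HasDerivAt (fun y : ℂ => y ^ (m + 2)) (((m + 2 : ℕ) : ℂ) * x ^ (m + 1)) x := by
    simpa using hasDerivAt_pow (m + 2) x
  have h3 := ((h1.const_mul ((m : ℂ) + 2)).const_sub 1).add (h2.const_mul ((m : ℂ) + 1))
  have h4 : HasDerivAt (Bm m) (-(((m : ℂ) + 2) * (((m + 1 : ℕ) : ℂ) * x ^ m))
      + ((m : ℂ) + 1) * (((m + 2 : ℕ) : ℂ) * x ^ (m + 1))) x := h3
  convert h4 using 1
  push_cast
  ring

theorem V5_norm (x : ℂ) (hx : 1 ≤ ‖x‖) : ‖2 * x - 1‖ ≥ 1 := by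
  have h1 : ‖(2 : ℂ) * x‖ = 2 * ‖x‖ := by rw [norm_mul]; simp
  have h2 : ‖(2 : ℂ) * x‖ - ‖(1 : ℂ)‖ ≤ ‖2 * x - 1‖ := norm_sub_norm_le _ _
  rw [h1, norm_one] at h2
  linarith

theorem V5_strict (x : ℂ) (hx : 1 ≤ ‖x‖) (hx1 : x ≠ 1) : 1 < ‖2 * x - 1‖ := by
  by_contra hcon
  push Not at hcon
  apply hx1
  have h1 : (1 : ℝ) ≤ x.re ^ 2 + x.im ^ 2 := by
    have h2 : ‖x‖ ^ 2 = x.re ^ 2 + x.im ^ 2 := by
      rw [Complex.sq_norm, Complex.normSq_apply]; ring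
    rw [← h2]
    nlinarith
  have h3 : (2 * x.re - 1) ^ 2 + (2 * x.im) ^ 2 ≤ 1 := by
    have h4 : ‖2 * x - 1‖ ^ 2 = (2 * x.re - 1) ^ 2 + (2 * x.im) ^ 2 := by
      rw [Complex.sq_norm, Complex.normSq_apply]
      simp
      ring
    rw [← h4]
    have := norm_nonneg (2 * x - 1)
    nlinarith
  have h5 : 1 ≤ x.re := by nlinarith
  have h6 : x.re = 1 := by nlinarith [sq_nonneg x.im]
  have h7 : x.im = 0 := by
    rw [h6] at h3
    nlinarith [sq_nonneg x.im]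
  apply Complex.ext
  · simpa using h6
  · simpa using h7

theorem t5V : St5V := by
  intro m x
  refine ⟨V5_deriv m x, ?_, ?_, ?_⟩
  · intro hx
    have hg := V5_geom x hx (m + 1)
    have hm1 : (m : ℂ) + 1 ≠ 0 := by exact_mod_cast Nat.succ_ne_zero m
    have hm2 : (m : ℂ) + 2 ≠ 0 := by exact_mod_cast (Nat.succ_ne_zero (m + 1))
    unfold vf Bm
    generalize (∑ j ∈ Finset.Icc 1 (m + 1), (x⁻¹) ^ j) = sg at hg ⊢
    field_simp
    linear_combination (-1 : ℂ) * hg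
  · intro hx
    have hx0 : x ≠ 0 := by
      intro h
      rw [h, norm_zero] at hx
      linarith
    have h1 : vf m x / x = (((m : ℂ) + 1) - ∑ j ∈ Finset.Icc 1 (m + 1), (x⁻¹) ^ j)
        * (((((m : ℝ) + 1) * ((m : ℝ) + 2))⁻¹ : ℝ) : ℂ) := by
      unfold vf
      push_cast
      field_simp
    rw [h1, Complex.re_mul_ofReal]
    apply mul_nonneg
    · rw [Complex.sub_re]
      have h2 : ‖∑ j ∈ Finset.Icc 1 (m + 1), (x⁻¹) ^ j‖ ≤ (m : ℝ) + 1 := by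
        calc ‖∑ j ∈ Finset.Icc 1 (m + 1), (x⁻¹) ^ j‖
            ≤ ∑ j ∈ Finset.Icc 1 (m + 1), ‖(x⁻¹) ^ j‖ := norm_sum_le _ _
          _ ≤ ∑ j ∈ Finset.Icc 1 (m + 1), (1 : ℝ) := by
              apply Finset.sum_le_sum
              intro j _
              rw [norm_pow, norm_inv]
              exact pow_le_one₀ (inv_nonneg.mpr (norm_nonneg _)) (inv_le_one_of_one_le₀ hx)
          _ = (m : ℝ) + 1 := by simp
      have h3 := (Complex.abs_re_le_norm (∑ j ∈ Finset.Icc 1 (m + 1), (x⁻¹) ^ j)).trans h2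
      have h4 := (abs_le.mp h3).2
      have h5 : ((m : ℂ) + 1).re = (m : ℝ) + 1 := by simp
      rw [h5]
      linarith
    · positivity
  · intro hx
    refine ⟨V5_norm x hx, V5_strict x hx, ?_⟩
    have hne : 2 * x - 1 ≠ 0 := by
      intro h
      have := V5_norm x hx
      rw [h, norm_zero] at this
      linarith
    have h1 : HasDerivAt Mo ((1 * (2 * x - 1) - x * (2 * 1)) / (2 * x - 1) ^ 2) x := by
      have h2 : HasDerivAt (fun y : ℂ => 2 * y - 1) (2 * 1) x :=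
        ((hasDerivAt_id x).const_mul (2 : ℂ)).sub_const 1
      exact (hasDerivAt_id x).div h2 hne
    have h3 := (V5_deriv m (Mo x)).comp x h1
    have h4 : HasDerivAt (fun y => Bm m (Mo y)) ((m + 1) * (m + 2) * (Mo x) ^ m * (Mo x - 1)
      * ((1 * (2 * x - 1) - x * (2 * 1)) / (2 * x - 1) ^ 2)) x := h3
    convert h4 using 1
    have e1 : Mo x - 1 = -(x - 1) * (2 * x - 1)⁻¹ := by
      have hd : (2 * x - 1) * (2 * x - 1)⁻¹ = 1 := mul_inv_cancel₀ hne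
      unfold Mo
      rw [div_eq_mul_inv]
      linear_combination hd
    have e2 : (1 * (2 * x - 1) - x * (2 * 1)) / (2 * x - 1) ^ 2 = -((2 * x - 1)⁻¹) ^ 2 := by
      have : (1 * (2 * x - 1) - x * (2 * 1)) = -1 := by ring
      rw [this, inv_pow, neg_div, one_div]
    have e3 : (Mo x) ^ m = x ^ m * ((2 * x - 1)⁻¹) ^ m := by
      unfold Mo
      rw [div_eq_mul_inv, mul_pow]
    rw [e1, e2, e3]
    ring

end H738CZ
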