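import Pool.Agent.H738R3.CZ.Defs

open Complex Set Filter Topology

namespace H738CZ

theorem WAT_cpow_mem {β : ℝ} (h0 : 0 < β) (h1 : β < 1) {z : ℂ} (hz : 0 ≤ z.re) :
    0 ≤ (z ^ (β : ℂ)).re ∧
      |(z ^ (β : ℂ)).im| ≤ Real.tan (β * (Real.pi / 2)) * (z ^ (β : ℂ)).re := by
  have hpi := Real.pi_pos
  have harg : |arg z| ≤ Real.pi / 2 := Complex.abs_arg_le_pi_div_two_iff.2 hz
  set a : ℝ := arg z * β with ha
  set b : ℝ := β * (Real.pi / 2) with hb
  have hab : |a| ≤ b := by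
    rw [ha, abs_mul, abs_of_pos h0, hb, mul_comm β]
    exact mul_le_mul_of_nonneg_right harg h0.le
  have hb0 : 0 < b := by positivity
  have hb1 : b < Real.pi / 2 := by
    rw [hb]; nlinarith
  have hcb : 0 < Real.cos b := Real.cos_pos_of_mem_Ioo ⟨by linarith, hb1⟩
  have hca : Real.cos b ≤ Real.cos a := by
    rw [← Real.cos_abs a]
    exact Real.cos_le_cos_of_nonneg_of_le_pi (abs_nonneg a) (by linarith) hab
  have hsa : |Real.sin a| ≤ Real.sin b := by
    rw [Real.abs_sin_eq_sin_abs_of_abs_le_pi (by linarith)]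
    exact Real.sin_le_sin_of_le_of_le_pi_div_two (by linarith [abs_nonneg a]) hb1.le hab
  have hsb : 0 < Real.sin b := Real.sin_pos_of_pos_of_lt_pi hb0 (by linarith)
  have hr : 0 ≤ ‖z‖ ^ β := Real.rpow_nonneg (norm_nonneg z) β
  rw [Complex.cpow_ofReal_re, Complex.cpow_ofReal_im, ← ha]
  refine ⟨mul_nonneg hr (hcb.le.trans hca), ?_⟩
  rw [abs_mul, abs_of_nonneg hr, Real.tan_eq_sin_div_cos]
  have h3 : Real.sin b ≤ Real.sin b / Real.cos b * Real.cos a := by
    rw [div_mul_eq_mul_div, le_div_iff₀ hcb]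
    exact mul_le_mul_of_nonneg_left hca hsb.le
  calc ‖z‖ ^ β * |Real.sin a| ≤ ‖z‖ ^ β * (Real.sin b / Real.cos b * Real.cos a) :=
        mul_le_mul_of_nonneg_left (hsa.trans h3) hr
    _ = Real.sin b / Real.cos b * (‖z‖ ^ β * Real.cos a) := by ring

theorem WAT_decay {s β C2 : ℝ} (hs0 : 0 ≤ s) (hsβ : s < β) (hC2 : 1 ≤ C2) (n : ℕ) :
    ∀ᶠ x : ℝ in atTop, ∃ N : ℕ, 2 ≤ N ∧
      C2 ^ N * ((2 * N).factorial : ℝ) ^ s * ((x ^ β)⁻¹) ^ (2 * N) ≤
        Real.exp (-((n + 1 : ℝ) * x)) := by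
  have hlim : Tendsto (fun x : ℝ => C2 * (2 * (n + 2 : ℝ)) ^ (2 * s) * x ^ (-(2 * β - 2 * s)))
      atTop (𝓝 (C2 * (2 * (n + 2 : ℝ)) ^ (2 * s) * 0)) :=
    (tendsto_rpow_neg_atTop (by linarith)).const_mul _
  rw [mul_zero] at hlim
  have hev := hlim.eventually_lt_const (Real.exp_pos (-1))
  filter_upwards [hev, eventually_ge_atTop (2:ℝ)] with x hx hx2
  have hx0 : 0 < x := by linarith
  set N : ℕ := ⌈(n + 1 : ℝ) * x⌉₊ with hN
  have hNge : (n + 1 : ℝ) * x ≤ N := Nat.le_ceil _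
  have hNle : (N : ℝ) ≤ (n + 2 : ℝ) * x := by
    have := Nat.ceil_lt_add_one (show 0 ≤ (n + 1 : ℝ) * x by positivity)
    rw [← hN] at this
    nlinarith
  have hN2 : 2 ≤ N := by
    have : (2:ℝ) ≤ N := by nlinarith [(Nat.cast_nonneg n : (0:ℝ) ≤ n)]
    exact_mod_cast this
  refine ⟨N, hN2, ?_⟩
  have hxβ : 0 < x ^ β := Real.rpow_pos_of_pos hx0 β
  have hfact : ((2 * N).factorial : ℝ) ^ s ≤ (((2 * (n + 2 : ℝ) * x) ^ (2 * s))) ^ N := by
    have h1 : ((2 * N).factorial : ℝ) ≤ ((2 * N : ℕ) : ℝ) ^ (2 * N) := by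
      exact_mod_cast Nat.factorial_le_pow (2 * N)
    have h2 : ((2 * N : ℕ) : ℝ) ≤ 2 * (n + 2 : ℝ) * x := by
      push_cast
      linarith
    have h3 : ((2 * N).factorial : ℝ) ≤ (2 * (n + 2 : ℝ) * x) ^ (2 * N) :=
      h1.trans (pow_le_pow_left₀ (by positivity) h2 _)
    have hpos : 0 ≤ 2 * (n + 2 : ℝ) * x := by positivity
    calc ((2 * N).factorial : ℝ) ^ s ≤ ((2 * (n + 2 : ℝ) * x) ^ (2 * N)) ^ s :=
          Real.rpow_le_rpow (by positivity) h3 hs0
      _ = (((2 * (n + 2 : ℝ) * x) ^ (2 * s))) ^ N := by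
          rw [← Real.rpow_natCast, ← Real.rpow_natCast, ← Real.rpow_mul hpos,
            ← Real.rpow_mul hpos]
          congr 1
          push_cast
          ring
  have hkey : C2 * ((2 * (n + 2 : ℝ) * x) ^ (2 * s)) * ((x ^ β)⁻¹) ^ 2 =
      C2 * (2 * (n + 2 : ℝ)) ^ (2 * s) * x ^ (-(2 * β - 2 * s)) := by
    rw [Real.mul_rpow (by positivity) hx0.le, ← Real.rpow_neg hx0.le, ← Real.rpow_natCast,
      ← Real.rpow_mul hx0.le]
    rw [show -(2 * β - 2 * s) = 2 * s + -β * ((2:ℕ):ℝ) by push_cast; ring, Real.rpow_add hx0]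
    ring
  calc C2 ^ N * ((2 * N).factorial : ℝ) ^ s * ((x ^ β)⁻¹) ^ (2 * N)
      ≤ C2 ^ N * (((2 * (n + 2 : ℝ) * x) ^ (2 * s))) ^ N * ((x ^ β)⁻¹) ^ (2 * N) := by
        gcongr
    _ = (C2 * ((2 * (n + 2 : ℝ) * x) ^ (2 * s)) * ((x ^ β)⁻¹) ^ 2) ^ N := by
        rw [mul_pow, mul_pow, ← pow_mul]
    _ ≤ (Real.exp (-1)) ^ N := by
        rw [hkey]
        exact pow_le_pow_left₀ (by positivity) hx.le _
    _ = Real.exp (-(N:ℝ)) := by
        rw [← Real.exp_nat_mul]
        congr 1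
        ring
    _ ≤ Real.exp (-((n + 1 : ℝ) * x)) := by
        apply Real.exp_le_exp.2
        linarith

theorem tWAT : StWAT := by
  intro s hs0 hs1
  set β : ℝ := (s + 1) / 2 with hβ
  have hβ0 : 0 < β := by rw [hβ]; linarith
  have hβ1 : β < 1 := by rw [hβ]; linarith
  have hsβ : s < β := by rw [hβ]; linarith
  refine ⟨max 1 (Real.tan (β * (Real.pi / 2))), le_max_left _ _, ?_⟩
  intro R C2 D hR hC2 hD hb
  set q : ℝ := max 1 (Real.tan (β * (Real.pi / 2))) with hq
  have hq1 : 1 ≤ q := le_max_left _ _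
  have hq0 : 0 < q := by linarith
  set U : Set ℂ := {Z | R + |Z.re| < q * Z.im} with hU
  have hUo : IsOpen U := by
    refine isOpen_lt ?_ ?_
    · exact continuous_const.add (continuous_abs.comp Complex.continuous_re)
    · exact continuous_const.mul Complex.continuous_im
  have hUc : Convex ℝ U := by
    intro Z hZ W hW a b ha hb' hab
    simp only [hU, mem_ofPred_eq] at hZ hW ⊢
    have e1 : (a • Z + b • W).re = a * Z.re + b * W.re := by simp
    have e2 : (a • Z + b • W).im = a * Z.im + b * W.im := by simp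
    rw [e1, e2]
    have h1 : |a * Z.re + b * W.re| ≤ a * |Z.re| + b * |W.re| := by
      refine (abs_add_le _ _).trans ?_
      rw [abs_mul, abs_mul, abs_of_nonneg ha, abs_of_nonneg hb']
    rcases ha.eq_or_lt with h | h
    · have hb1 : b = 1 := by linarith
      rw [← h, hb1] at h1 ⊢
      simp only [zero_mul, one_mul, zero_add] at h1 ⊢
      exact hW
    · have h2 : a * (R + |Z.re|) < a * (q * Z.im) := mul_lt_mul_of_pos_left hZ h
      have h3 : b * (R + |W.re|) ≤ b * (q * W.im) := mul_le_mul_of_nonneg_left hW.le hb'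
      have h4 : R = a * R + b * R := by rw [← add_mul, hab, one_mul]
      nlinarith
  set Φ : ℂ → ℂ := fun z => I * (((R / q + 1 : ℝ) : ℂ) + z ^ (β : ℂ)) with hΦ
  have hΦim : ∀ z, (Φ z).im = R / q + 1 + (z ^ (β : ℂ)).re := by
    intro z
    simp only [hΦ]
    rw [Complex.mul_im]
    simp only [Complex.I_re, Complex.I_im, zero_mul, one_mul, zero_add, Complex.add_re,
      Complex.ofReal_re]
  have hΦre : ∀ z, (Φ z).re = -(z ^ (β : ℂ)).im := by
    intro z
    simp only [hΦ]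
    rw [Complex.mul_re]
    simp only [Complex.I_re, Complex.I_im, zero_mul, one_mul, zero_sub, Complex.add_im,
      Complex.ofReal_im, zero_add]
  have hΦU : ∀ z : ℂ, 0 ≤ z.re → Φ z ∈ U := by
    intro z hz
    obtain ⟨h1, h2⟩ := WAT_cpow_mem hβ0 hβ1 hz
    simp only [hU, mem_ofPred_eq]
    rw [hΦim, hΦre, abs_neg]
    have h3 : Real.tan (β * (Real.pi / 2)) * (z ^ (β : ℂ)).re ≤ q * (z ^ (β : ℂ)).re :=
      mul_le_mul_of_nonneg_right (le_max_right _ _) h1
    have h4 : q * (R / q + 1 + (z ^ (β : ℂ)).re) = R + q + q * (z ^ (β : ℂ)).re := by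
      field_simp
    rw [h4]
    linarith
  have hRq : 0 < R / q := by positivity
  have hΦge : ∀ z : ℂ, 0 ≤ z.re → 1 ≤ ‖Φ z‖ ∧ (z ^ (β : ℂ)).re ≤ ‖Φ z‖ := by
    intro z hz
    obtain ⟨h1, h2⟩ := WAT_cpow_mem hβ0 hβ1 hz
    have h3 := Complex.abs_im_le_norm (Φ z)
    rw [hΦim, abs_of_pos (by linarith)] at h3
    exact ⟨by linarith, by linarith⟩
  have hbd : ∀ z : ℂ, 0 ≤ z.re → ‖D (Φ z)‖ ≤ C2 ^ 2 * ((2 * 2).factorial : ℝ) ^ s := by
    intro z hz
    have h1 := hb 2 le_rfl (Φ z) (hΦU z hz)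
    have h2 := (hΦge z hz).1
    refine h1.trans ?_
    have h3 : (‖Φ z‖⁻¹) ^ (2 * 2) ≤ 1 := pow_le_one₀ (by positivity) (inv_le_one_of_one_le₀ h2)
    have h4 : 0 ≤ C2 ^ 2 * ((2 * 2).factorial : ℝ) ^ s := by positivity
    exact mul_le_of_le_one_right h4 h3
  have hcontΦ : ∀ z : ℂ, 0 ≤ z.re → ContinuousAt Φ z := by
    intro z hz
    refine continuousAt_const.mul (continuousAt_const.add ?_)
    exact Complex.continuousAt_cpow_const_of_re_pos (Or.inl hz) (by simpa using hβ0)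
  have hdiff : DiffContOnCl ℂ (fun z => D (Φ z)) {z : ℂ | 0 < z.re} := by
    refine ⟨?_, ?_⟩
    · intro z hz
      have hz' : 0 < z.re := hz
      have h1 : DifferentiableAt ℂ D (Φ z) := hD.differentiableAt (hUo.mem_nhds (hΦU z hz'.le))
      have h2 : DifferentiableAt ℂ Φ z := by
        refine (differentiableAt_const _).mul ((differentiableAt_const _).add ?_)
        exact differentiableAt_id.cpow_const (Or.inl hz')
      exact (h1.comp z h2).differentiableWithinAt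
    · intro z hz
      have hz' : 0 ≤ z.re := by
        have h1 : closure {z : ℂ | 0 < z.re} ⊆ {z : ℂ | 0 ≤ z.re} :=
          closure_minimal (fun w (hw : 0 < w.re) => show (0:ℝ) ≤ w.re from hw.le)
            (isClosed_le continuous_const Complex.continuous_re)
        exact h1 hz
      have h1 : ContinuousAt D (Φ z) :=
        (hD.differentiableAt (hUo.mem_nhds (hΦU z hz'))).continuousAt
      exact (ContinuousAt.comp (f := Φ) h1 (hcontΦ z hz')).continuousWithinAt
  have hre : Asymptotics.SuperpolynomialDecay atTop Real.exp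
      (fun x : ℝ => ‖(fun z => D (Φ z)) (x : ℂ)‖) := by
    intro n
    have hlim : Tendsto (fun x : ℝ => Real.exp (-x)) atTop (𝓝 0) :=
      Real.tendsto_exp_neg_atTop_nhds_zero
    refine squeeze_zero' (Eventually.of_forall fun x => by positivity) ?_ hlim
    filter_upwards [WAT_decay hs0 hsβ hC2 n, eventually_gt_atTop (0:ℝ)] with x hx hx0
    obtain ⟨N, hN2, hN⟩ := hx
    have hz : (0:ℝ) ≤ (x:ℂ).re := by simpa using hx0.le
    have h1 := hb N hN2 (Φ x) (hΦU x hz)
    have h2 : x ^ β ≤ ‖Φ x‖ := by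
      have h3 := (hΦge x hz).2
      rw [← Complex.ofReal_cpow hx0.le, Complex.ofReal_re] at h3
      exact h3
    have hxβ : 0 < x ^ β := Real.rpow_pos_of_pos hx0 β
    have h4 : (‖Φ x‖⁻¹) ^ (2 * N) ≤ ((x ^ β)⁻¹) ^ (2 * N) :=
      pow_le_pow_left₀ (by positivity) (inv_anti₀ hxβ h2) _
    have h5 : ‖D (Φ x)‖ ≤ Real.exp (-((n + 1 : ℝ) * x)) := by
      refine h1.trans (le_trans ?_ hN)
      exact mul_le_mul_of_nonneg_left h4 (by positivity)
    calc Real.exp x ^ n * ‖D (Φ x)‖ ≤ Real.exp x ^ n * Real.exp (-((n + 1 : ℝ) * x)) :=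
          mul_le_mul_of_nonneg_left h5 (by positivity)
      _ = Real.exp (-x) := by
          rw [← Real.exp_nat_mul, ← Real.exp_add]
          congr 1
          ring
  have hzero : EqOn (fun z => D (Φ z)) 0 {z : ℂ | 0 ≤ z.re} := by
    refine PhragmenLindelof.eq_zero_on_right_half_plane_of_superexponential_decay hdiff
      ⟨0, by norm_num, 0, ?_⟩ hre ⟨C2 ^ 2 * ((2 * 2).factorial : ℝ) ^ s, ?_⟩
    · refine Asymptotics.IsBigO.of_bound (C2 ^ 2 * ((2 * 2).factorial : ℝ) ^ s) ?_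
      refine Filter.eventually_inf_principal.2 (Eventually.of_forall fun z hz => ?_)
      have hz' : 0 < z.re := hz
      simp only [zero_mul, Real.exp_zero, norm_one, mul_one]
      exact hbd z hz'.le
    · intro x
      exact hbd _ (by simp)
  -- identity theorem
  have hDan : AnalyticOnNhd ℂ D U := fun z hz => hD.analyticAt (hUo.mem_nhds hz)
  have hline : ∀ x : ℝ, 0 ≤ x → D (I * (((R / q + 1 + x : ℝ)) : ℂ)) = 0 := by
    intro x hx
    have h1 := hzero (show ((x ^ (β⁻¹) : ℝ) : ℂ) ∈ {z : ℂ | 0 ≤ z.re} by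
      simp only [mem_ofPred_eq, Complex.ofReal_re]
      exact Real.rpow_nonneg hx _)
    simp only [hΦ, Pi.zero_apply] at h1
    rw [← Complex.ofReal_cpow (Real.rpow_nonneg hx _), ← Real.rpow_mul hx,
      inv_mul_cancel₀ hβ0.ne', Real.rpow_one, ← Complex.ofReal_add] at h1
    exact h1
  have hz0 : I * (((R / q + 1 : ℝ)) : ℂ) ∈ U := by
    simp only [hU, mem_ofPred_eq]
    simp only [Complex.mul_re, Complex.mul_im, Complex.I_re, Complex.I_im, Complex.ofReal_re,
      Complex.ofReal_im, zero_mul, one_mul, zero_sub, zero_add, neg_zero, abs_zero, add_zero]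
    have h4 : q * (R / q + 1) = R + q := by field_simp
    rw [h4]
    linarith
  have hfreq : ∃ᶠ z in 𝓝[≠] (I * (((R / q + 1 : ℝ)) : ℂ)), D z = 0 := by
    have ht : Tendsto (fun x : ℝ => I * (((R / q + 1 + x : ℝ)) : ℂ)) (𝓝[>] 0)
        (𝓝[≠] (I * (((R / q + 1 : ℝ)) : ℂ))) := by
      refine tendsto_nhdsWithin_iff.2 ⟨?_, ?_⟩
      · have hc : Continuous fun x : ℝ => I * (((R / q + 1 + x : ℝ)) : ℂ) := by fun_prop
        have := hc.tendsto 0
        simp only [add_zero] at this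
        exact this.mono_left nhdsWithin_le_nhds
      · filter_upwards [self_mem_nhdsWithin] with x hx
        have hx' : 0 < x := hx
        intro h
        have h' : I * (((R / q + 1 + x : ℝ)) : ℂ) = I * (((R / q + 1 : ℝ)) : ℂ) := h
        have h2 := mul_left_cancel₀ Complex.I_ne_zero h'
        have h3 : R / q + 1 + x = R / q + 1 := by exact_mod_cast h2
        linarith
    refine ht.frequently (Eventually.frequently ?_)
    filter_upwards [self_mem_nhdsWithin] with x hx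
    exact hline x (le_of_lt hx)
  have hfin := hDan.eqOn_zero_of_preconnected_of_frequently_eq_zero hUc.isPreconnected hz0 hfreq
  intro Z hZ
  exact hfin hZ

end H738CZ
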