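import Pool.Agent.H738R3.CZ.Defs

open Complex Set Filter Topology

namespace H738CZ

theorem YTA_DD (ρ : ℂ → ℂ) (l : ℕ) : (DD (fun _ => (1:ℂ)))^[l] ρ = iteratedDeriv l ρ := by
  induction l with
  | zero => simp
  | succ l ih =>
    rw [Function.iterate_succ_apply', ih, iteratedDeriv_succ]
    funext t
    simp [DD]

theorem YTA_beta (l i : ℕ) :
    ∫ r in (0:ℝ)..1, (r:ℂ) ^ l * (1 - (r:ℂ)) ^ i =
      (l.factorial : ℂ) * (i.factorial : ℂ) / ((l + i + 1).factorial : ℂ) := by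
  have h := Gamma_mul_Gamma_eq_betaIntegral (s := (l:ℂ) + 1) (t := (i:ℂ) + 1)
    (by simp; positivity) (by simp; positivity)
  have e1 : betaIntegral ((l:ℂ) + 1) ((i:ℂ) + 1) = ∫ r in (0:ℝ)..1, (r:ℂ) ^ l * (1 - (r:ℂ)) ^ i := by
    unfold betaIntegral
    congr 1
    funext r
    rw [add_sub_cancel_right, add_sub_cancel_right, cpow_natCast, cpow_natCast]
  rw [e1, Complex.Gamma_nat_eq_factorial, Complex.Gamma_nat_eq_factorial] at h
  have e2 : (l:ℂ) + 1 + ((i:ℂ) + 1) = ((l + i + 1 : ℕ) : ℂ) + 1 := by push_cast; ring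
  rw [e2, Complex.Gamma_nat_eq_factorial] at h
  have h3 : ((l + i + 1).factorial : ℂ) ≠ 0 := by exact_mod_cast Nat.factorial_ne_zero _
  rw [eq_div_iff h3, mul_comm]
  exact h.symm

theorem tYTA : StYTA := by
  intro kf kc hkf hkc ρ a η hρ ψ hψ
  -- a small disc around ψ
  obtain ⟨e0, he0, hsub⟩ := Metric.isOpen_iff.mp Metric.isOpen_ball ψ hψ
  have hρ' : DifferentiableOn ℂ ρ (Metric.ball ψ e0) := hρ.mono hsub
  set A : ℕ → ℂ := fun l => iteratedDeriv l ρ ψ with hA
  have htay : ∀ x : ℂ, ‖x‖ < e0 → HasSum (fun l : ℕ => A l / (l.factorial : ℂ) * x ^ l) (ρ (ψ + x)) := by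
    intro x hx
    have hz : ψ + x ∈ Metric.ball ψ e0 := by
      rw [Metric.mem_ball, dist_eq_norm]; simpa using hx
    have := hasSum_taylorSeries_on_ball hρ' hz
    refine this.congr_fun ?_
    intro l
    simp only [smul_eq_mul, add_sub_cancel_left, hA]
    ring
  refine ⟨e0 / 2, by positivity, ?_⟩
  intro δ hδ
  set b : ℝ := ‖δ‖ with hb
  have hb0 : 0 ≤ b := norm_nonneg _
  -- summability of |A l| / l! * b ^ l
  have hsumA : Summable (fun l : ℕ => ‖A l / (l.factorial : ℂ)‖ * b ^ l) := by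
    have h1 := htay (((3 * e0 / 4 : ℝ)) : ℂ) (by
      rw [Complex.norm_real, Real.norm_eq_abs, abs_of_pos (by positivity)]; linarith)
    have h2 : Tendsto (fun l : ℕ => ‖A l / (l.factorial : ℂ) * ((3 * e0 / 4 : ℝ) : ℂ) ^ l‖) atTop (𝓝 0) := by
      have := h1.summable.tendsto_atTop_zero.norm
      simpa using this
    obtain ⟨B, hB⟩ := h2.bddAbove_range
    have hB' : ∀ l : ℕ, ‖A l / (l.factorial : ℂ)‖ * (3 * e0 / 4) ^ l ≤ B := by
      intro l
      have h3 := hB (mem_range_self l)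
      rw [norm_mul, norm_pow, Complex.norm_real, Real.norm_eq_abs, abs_of_pos (by positivity)] at h3
      exact h3
    have hg : Summable (fun l : ℕ => B * (b / (3 * e0 / 4)) ^ l) := by
      apply Summable.mul_left
      apply summable_geometric_of_lt_one (by positivity)
      rw [div_lt_one (by positivity)]
      linarith
    refine Summable.of_nonneg_of_le (fun l => by positivity) (fun l => ?_) hg
    have h4 : b ^ l = (3 * e0 / 4) ^ l * (b / (3 * e0 / 4)) ^ l := by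
      rw [← mul_pow, mul_div_cancel₀ _ (by positivity)]
    rw [h4, ← mul_assoc]
    exact mul_le_mul_of_nonneg_right (hB' l) (by positivity)
  have hsumK : Summable (fun i : ℕ => ‖kc i / (i.factorial : ℂ)‖ * b ^ i) := by
    refine Summable.of_nonneg_of_le (fun i => by positivity) (fun i => ?_)
      (Real.summable_pow_div_factorial b)
    rw [norm_div, Complex.norm_natCast]
    have h1 := hkc.bd i
    have h2 : (0:ℝ) < (i.factorial : ℝ) := by exact_mod_cast Nat.factorial_pos i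
    rw [div_mul_eq_mul_div]
    apply div_le_div_of_nonneg_right _ h2.le
    calc ‖kc i‖ * b ^ i ≤ 1 * b ^ i := mul_le_mul_of_nonneg_right h1 (by positivity)
      _ = b ^ i := one_mul _
  -- the double series
  set F : ℕ × ℕ → ℝ → ℂ := fun p r =>
    (A p.1 / (p.1.factorial : ℂ) * ((r:ℂ) * δ) ^ p.1) *
      (kc p.2 * ((1 - (r:ℂ)) * δ) ^ p.2 / (p.2.factorial : ℂ)) with hF
  set bd : ℕ × ℕ → ℝ := fun p => (‖A p.1 / (p.1.factorial : ℂ)‖ * b ^ p.1) *
      (‖kc p.2 / (p.2.factorial : ℂ)‖ * b ^ p.2) with hbd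
  have hbdS : Summable bd := hsumA.mul_of_nonneg hsumK (fun l => by positivity) (fun i => by positivity)
  have hbound : ∀ p (r : ℝ), r ∈ Icc (0:ℝ) 1 → ‖F p r‖ ≤ bd p := by
    intro p r hr
    simp only [hF, hbd]
    rw [norm_mul, norm_mul, norm_pow, norm_mul]
    have e1 : ‖kc p.2 * ((1 - (r:ℂ)) * δ) ^ p.2 / (p.2.factorial : ℂ)‖ =
        ‖kc p.2 / (p.2.factorial : ℂ)‖ * (‖(1 - (r:ℂ))‖ * ‖δ‖) ^ p.2 := by
      rw [norm_div, norm_mul, norm_pow, norm_mul, norm_div]; ring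
    rw [e1]
    have n1 : ‖(r:ℂ)‖ ≤ 1 := by
      rw [Complex.norm_real, Real.norm_eq_abs, abs_of_nonneg hr.1]; exact hr.2
    have n2 : ‖(1 - (r:ℂ))‖ ≤ 1 := by
      have : (1 - (r:ℂ)) = ((1 - r : ℝ) : ℂ) := by push_cast; ring
      rw [this, Complex.norm_real, Real.norm_eq_abs, abs_of_nonneg (by linarith [hr.2])]
      linarith [hr.1]
    have m1 : (‖(r:ℂ)‖ * ‖δ‖) ^ p.1 ≤ b ^ p.1 := by
      apply pow_le_pow_left₀ (by positivity)
      calc ‖(r:ℂ)‖ * ‖δ‖ ≤ 1 * ‖δ‖ := mul_le_mul_of_nonneg_right n1 (norm_nonneg _)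
        _ = b := one_mul _
    have m2 : (‖(1 - (r:ℂ))‖ * ‖δ‖) ^ p.2 ≤ b ^ p.2 := by
      apply pow_le_pow_left₀ (by positivity)
      calc ‖(1 - (r:ℂ))‖ * ‖δ‖ ≤ 1 * ‖δ‖ := mul_le_mul_of_nonneg_right n2 (norm_nonneg _)
        _ = b := one_mul _
    exact mul_le_mul (mul_le_mul_of_nonneg_left m1 (norm_nonneg _))
      (mul_le_mul_of_nonneg_left m2 (norm_nonneg _)) (by positivity) (by positivity)
  have hlim : ∀ r : ℝ, r ∈ Icc (0:ℝ) 1 →
      HasSum (fun p => F p r) (ρ (ψ + r * δ) * kf ((1 - r) * δ)) := by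
    intro r hr
    have hrδ : ‖(r:ℂ) * δ‖ < e0 := by
      rw [norm_mul, Complex.norm_real, Real.norm_eq_abs, abs_of_nonneg hr.1]
      have : r * ‖δ‖ ≤ 1 * ‖δ‖ := mul_le_mul_of_nonneg_right hr.2 (norm_nonneg _)
      linarith
    have h1 := htay _ hrδ
    have h2 := hkf ((1 - (r:ℂ)) * δ)
    have hs : Summable (fun p : ℕ × ℕ => F p r) :=
      Summable.of_norm_bounded hbdS (fun p => hbound p r hr)
    simp only [hF] at hs ⊢
    exact h1.mul h2 hs
  have hint : HasSum (fun p => ∫ r in (0:ℝ)..1, F p r)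
      (∫ r in (0:ℝ)..1, ρ (ψ + r * δ) * kf ((1 - r) * δ)) := by
    refine intervalIntegral.hasSum_integral_of_dominated_convergence (fun p _ => bd p) ?_ ?_ ?_ ?_ ?_
    · intro p
      apply Continuous.aestronglyMeasurable
      simp only [hF]
      fun_prop
    · intro p
      refine Eventually.of_forall fun r hr => ?_
      rw [uIoc_of_le zero_le_one] at hr
      exact hbound p r ⟨hr.1.le, hr.2⟩
    · exact Eventually.of_forall fun r _ => hbdS
    · exact intervalIntegrable_const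
    · refine Eventually.of_forall fun r hr => ?_
      rw [uIoc_of_le zero_le_one] at hr
      exact hlim r ⟨hr.1.le, hr.2⟩
  have hval : ∀ p : ℕ × ℕ, ∫ r in (0:ℝ)..1, F p r =
      A p.1 * kc p.2 * δ ^ (p.1 + p.2) / ((p.1 + p.2 + 1).factorial : ℂ) := by
    intro p
    have e : ∀ r : ℝ, F p r = (A p.1 / (p.1.factorial : ℂ) * δ ^ p.1 * (kc p.2 * δ ^ p.2 / (p.2.factorial : ℂ))) *
        ((r:ℂ) ^ p.1 * (1 - (r:ℂ)) ^ p.2) := by
      intro r
      simp only [hF]
      rw [mul_pow, mul_pow]; ring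
    simp_rw [e]
    rw [intervalIntegral.integral_const_mul, YTA_beta]
    have f1 : ((p.1).factorial : ℂ) ≠ 0 := by exact_mod_cast Nat.factorial_ne_zero _
    have f2 : ((p.2).factorial : ℂ) ≠ 0 := by exact_mod_cast Nat.factorial_ne_zero _
    have f3 : ((p.1 + p.2 + 1).factorial : ℂ) ≠ 0 := by exact_mod_cast Nat.factorial_ne_zero _
    field_simp
    ring
  simp_rw [hval] at hint
  -- regroup
  have hsig := (Finset.HasAntidiagonal.sigmaAntidiagonalEquivProd (A := ℕ)).hasSum_iff.mpr hint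
  have hsig2 := hsig.sigma (g := fun n => ∑ l ∈ Finset.range (n + 1),
      A l * kc (n - l) * δ ^ n / ((n + 1).factorial : ℂ)) (by
    intro n
    have h1 := hasSum_fintype (fun c : Finset.HasAntidiagonal.antidiagonal n =>
      A c.1.1 * kc c.1.2 * δ ^ (c.1.1 + c.1.2) / ((c.1.1 + c.1.2 + 1).factorial : ℂ))
    have h2 : ∑ c : Finset.HasAntidiagonal.antidiagonal n,
        A c.1.1 * kc c.1.2 * δ ^ (c.1.1 + c.1.2) / ((c.1.1 + c.1.2 + 1).factorial : ℂ) =
        ∑ l ∈ Finset.range (n + 1), A l * kc (n - l) * δ ^ n / ((n + 1).factorial : ℂ) := by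
      rw [Finset.sum_coe_sort (Finset.HasAntidiagonal.antidiagonal n) (fun c : ℕ × ℕ =>
        A c.1 * kc c.2 * δ ^ (c.1 + c.2) / ((c.1 + c.2 + 1).factorial : ℂ))]
      rw [Finset.Nat.sum_antidiagonal_eq_sum_range_succ_mk]
      refine Finset.sum_congr rfl fun l hl => ?_
      have hl' : l ≤ n := by
        have := Finset.mem_range.mp hl; omega
      simp only
      rw [Nat.add_sub_cancel' hl']
    rw [h2] at h1
    exact h1)
  have hmul := hsig2.mul_left δ
  have hfin : HasSum (fun n => PowerSeries.coeff (n + 1) (Ys kc (fun _ => 1) ρ ψ) * δ ^ (n + 1))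
      (Yf kf ρ ψ δ) := by
    unfold Yf
    refine hmul.congr_fun ?_
    intro n
    simp only [Ys, PowerSeries.coeff_mk, YTA_DD]
    rw [Nat.add_sub_cancel, Finset.mul_sum, Finset.sum_div, Finset.sum_mul]
    refine Finset.sum_congr rfl fun l _ => ?_
    simp only [hA]
    rw [pow_succ]
    ring
  have hlast := (hasSum_nat_add_iff (f := fun n => PowerSeries.coeff n (Ys kc (fun _ => 1) ρ ψ) * δ ^ n) 1).mp hfin
  simpa [Ys] using hlast

end H738CZ
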