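import Pool.Agent.H738R3.CZ.Defs

/-!
# ZPF: passing to infinity (helper602)
-/

open Complex Set Filter Topology

namespace H738CZ

theorem ZPF_bound {w t : ℂ} {K : ℝ} (hK : 1 ≤ K) (hw : 0 < ‖w‖) (hw1 : ‖w‖ ≤ 1 / 4)
    (hw2 : K * ‖w‖ ≤ 1 / 4) (ht : ‖t - (w - w ^ 2)‖ ≤ K * ‖w‖ ^ 3) :
    t ≠ 0 ∧ ‖t⁻¹ - w⁻¹ - 1‖ ≤ 2 * (1 + 2 * K) * ‖w‖ := by
  set s : ℂ := t - (w - w ^ 2) with hs
  have ht' : t = w - w ^ 2 + s := by rw [hs]; ring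
  have hw0 : w ≠ 0 := norm_pos_iff.1 hw
  have h1 : ‖w‖ / 2 ≤ ‖t‖ := by
    have h2 : ‖w‖ ≤ ‖t‖ + ‖w ^ 2‖ + ‖s‖ := by
      have h3 : w = t + w ^ 2 - s := by rw [ht']; ring
      calc ‖w‖ = ‖t + w ^ 2 - s‖ := by rw [← h3]
        _ ≤ ‖t + w ^ 2‖ + ‖s‖ := norm_sub_le _ _
        _ ≤ ‖t‖ + ‖w ^ 2‖ + ‖s‖ := by linarith [norm_add_le t (w ^ 2)]
    rw [norm_pow] at h2
    have h4 : K * ‖w‖ ^ 3 ≤ ‖w‖ / 4 := by
      have h5 : K * ‖w‖ ^ 3 = (K * ‖w‖) * ‖w‖ * ‖w‖ := by ring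
      rw [h5]
      have h6 : (K * ‖w‖) * ‖w‖ ≤ 1 / 4 * ‖w‖ := mul_le_mul_of_nonneg_right hw2 hw.le
      have h7 : (K * ‖w‖) * ‖w‖ ≤ 1 / 4 := by linarith
      have h8 := mul_le_mul_of_nonneg_right h7 hw.le
      linarith
    have h5 : ‖w‖ ^ 2 ≤ ‖w‖ / 4 := by
      rw [sq]
      have := mul_le_mul_of_nonneg_right hw1 hw.le
      linarith
    linarith
  have htp : 0 < ‖t‖ := by linarith
  have ht0 : t ≠ 0 := norm_pos_iff.1 htp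
  refine ⟨ht0, ?_⟩
  have e : t⁻¹ - w⁻¹ - 1 = (w ^ 3 - s * (1 + w)) / (w * t) := by
    have h9 : w - (1 + w) * t = w ^ 3 - s * (1 + w) := by rw [ht']; ring
    rw [← h9]
    field_simp
    ring
  rw [e, norm_div, norm_mul, div_le_iff₀ (mul_pos hw htp)]
  have h10 : ‖w ^ 3 - s * (1 + w)‖ ≤ (1 + 2 * K) * ‖w‖ ^ 3 := by
    have h11 : ‖1 + w‖ ≤ 2 := by
      refine (norm_add_le _ _).trans ?_
      rw [norm_one]
      linarith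
    calc ‖w ^ 3 - s * (1 + w)‖ ≤ ‖w ^ 3‖ + ‖s * (1 + w)‖ := norm_sub_le _ _
      _ = ‖w‖ ^ 3 + ‖s‖ * ‖1 + w‖ := by rw [norm_pow, norm_mul]
      _ ≤ ‖w‖ ^ 3 + (K * ‖w‖ ^ 3) * 2 := by
          have := mul_le_mul ht h11 (norm_nonneg _) (by positivity)
          linarith
      _ = (1 + 2 * K) * ‖w‖ ^ 3 := by ring
  refine h10.trans ?_
  have h12 : (1 + 2 * K) * ‖w‖ ^ 3 = 2 * (1 + 2 * K) * ‖w‖ * (‖w‖ * (‖w‖ / 2)) := by ring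
  rw [h12]
  exact mul_le_mul_of_nonneg_left (mul_le_mul_of_nonneg_left h1 hw.le) (by positivity)

theorem tZPF : StZPF := by
  intro T E hT hE hTO hEO
  obtain ⟨K1, hK1⟩ := hTO.bound
  obtain ⟨K2, hK2⟩ := hEO.bound
  obtain ⟨δ, hδ, hall⟩ := Metric.eventually_nhds_iff.1 ((hK1.and hK2).and
    (hT.eventually_analyticAt.and hE.eventually_analyticAt))
  set K : ℝ := max (max K1 K2) 1 with hK
  have hK0 : 1 ≤ K := le_max_right _ _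
  have hKK1 : K1 ≤ K := (le_max_left _ _).trans (le_max_left _ _)
  have hKK2 : K2 ≤ K := (le_max_right _ _).trans (le_max_left _ _)
  have hKp : 0 < K := by linarith
  set r : ℝ := min δ (1 / (4 * K)) with hr
  have hr0 : 0 < r := lt_min hδ (by positivity)
  have hZ : ∀ Z : ℂ, max 1 (1 / r) < ‖Z‖ → 0 < ‖Z‖ ∧ ‖Z⁻¹‖ < r := by
    intro Z h
    have h1 : 1 / r < ‖Z‖ := lt_of_le_of_lt (le_max_right _ _) h
    have h2 : 0 < ‖Z‖ := lt_of_lt_of_le one_pos ((le_max_left _ _).trans h.le)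
    refine ⟨h2, ?_⟩
    rw [norm_inv]
    rw [div_lt_iff₀ hr0] at h1
    rw [inv_eq_one_div, div_lt_iff₀ h2]
    linarith
  have hZδ : ∀ w : ℂ, ‖w‖ < r → dist w 0 < δ := by
    intro w hw
    rw [dist_zero_right]
    exact lt_of_lt_of_le hw (min_le_left _ _)
  have hfw : ∀ w : ℂ, 0 < ‖w‖ → ‖w‖ < r → T w ≠ 0 ∧ ‖(T w)⁻¹ - w⁻¹ - 1‖ ≤
      2 * (1 + 2 * K) * ‖w‖ := by
    intro w hw0 hw
    obtain ⟨⟨h1, -⟩, -⟩ := hall (hZδ w hw)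
    have h2 : ‖w‖ ≤ 1 / (4 * K) := hw.le.trans (min_le_right _ _)
    have h3 : K * ‖w‖ ≤ 1 / 4 := by
      rw [le_div_iff₀ (by positivity)] at h2
      linarith
    have h4 : ‖w‖ ≤ 1 / 4 := by nlinarith
    refine ZPF_bound hK0 hw0 h4 h3 (h1.trans ?_)
    rw [norm_pow]
    exact mul_le_mul_of_nonneg_right hKK1 (by positivity)
  have hopen : IsOpen {Z : ℂ | max 1 (1 / r) < ‖Z‖} := isOpen_lt continuous_const continuous_norm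
  refine ⟨2 * (1 + 2 * K), max 1 (1 / r), by positivity, le_max_left _ _, ?_, ?_, ?_, ?_⟩
  · intro Z hZ'
    obtain ⟨h1, h2⟩ := hZ Z hZ'
    have hne : Z ≠ 0 := norm_pos_iff.1 h1
    have hwp : 0 < ‖Z⁻¹‖ := by rw [norm_inv]; positivity
    obtain ⟨-, h3, -⟩ := hall (hZδ Z⁻¹ h2)
    have h4 : DifferentiableAt ℂ (fun Z : ℂ => T Z⁻¹) Z :=
      DifferentiableAt.comp Z h3.differentiableAt (differentiableAt_inv hne)
    exact (h4.inv (hfw Z⁻¹ hwp h2).1).differentiableWithinAt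
  · intro Z hZ'
    obtain ⟨h1, h2⟩ := hZ Z hZ'
    have hne : Z ≠ 0 := norm_pos_iff.1 h1
    obtain ⟨-, -, h3⟩ := hall (hZδ Z⁻¹ h2)
    exact (DifferentiableAt.comp Z h3.differentiableAt
      (differentiableAt_inv hne)).differentiableWithinAt
  · intro Z hZ'
    obtain ⟨h1, h2⟩ := hZ Z hZ'
    have hwp : 0 < ‖Z⁻¹‖ := by rw [norm_inv]; positivity
    have h3 := (hfw Z⁻¹ hwp h2).2
    rw [inv_inv, norm_inv, ← div_eq_mul_inv] at h3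
    exact h3
  · intro Z hZ'
    obtain ⟨h1, h2⟩ := hZ Z hZ'
    obtain ⟨⟨-, h3⟩, -⟩ := hall (hZδ Z⁻¹ h2)
    have h4 : E Z⁻¹ - 1 - 2 / Z = E Z⁻¹ - (1 + 2 * Z⁻¹) := by
      rw [div_eq_mul_inv]
      ring
    show ‖E Z⁻¹ - 1 - 2 / Z‖ ≤ _
    rw [h4]
    refine h3.trans ?_
    rw [norm_pow, norm_inv, inv_pow, ← div_eq_mul_inv]
    refine div_le_div_of_nonneg_right ?_ (by positivity)
    linarith

end H738CZ
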