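import Pool.Agent.H738R3.CZ.AVD
import Pool.Agent.H738R3.CZ.BN
import Pool.Agent.H738R3.CZ.CHG
import Pool.Agent.H738R3.CZ.CHN
import Pool.Agent.H738R3.CZ.CPX
import Pool.Agent.H738R3.CZ.CRC
import Pool.Agent.H738R3.CZ.DGJ
import Pool.Agent.H738R3.CZ.DSC
import Pool.Agent.H738R3.CZ.E5
import Pool.Agent.H738R3.CZ.END
import Pool.Agent.H738R3.CZ.EX1
import Pool.Agent.H738R3.CZ.EX2
import Pool.Agent.H738R3.CZ.EX3
import Pool.Agent.H738R3.CZ.EXA
import Pool.Agent.H738R3.CZ.EXT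
import Pool.Agent.H738R3.CZ.EXV
import Pool.Agent.H738R3.CZ.F5
import Pool.Agent.H738R3.CZ.FAC
import Pool.Agent.H738R3.CZ.G5
import Pool.Agent.H738R3.CZ.GLU
import Pool.Agent.H738R3.CZ.HAD
import Pool.Agent.H738R3.CZ.HV
import Pool.Agent.H738R3.CZ.INI
import Pool.Agent.H738R3.CZ.INN
import Pool.Agent.H738R3.CZ.INT
import Pool.Agent.H738R3.CZ.LAW
import Pool.Agent.H738R3.CZ.LIM
import Pool.Agent.H738R3.CZ.LOC
import Pool.Agent.H738R3.CZ.M4
import Pool.Agent.H738R3.CZ.MDL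
import Pool.Agent.H738R3.CZ.MON
import Pool.Agent.H738R3.CZ.NAG
import Pool.Agent.H738R3.CZ.OM
import Pool.Agent.H738R3.CZ.OUT
import Pool.Agent.H738R3.CZ.P5
import Pool.Agent.H738R3.CZ.PA1
import Pool.Agent.H738R3.CZ.PAR
import Pool.Agent.H738R3.CZ.PET
import Pool.Agent.H738R3.CZ.PRD
import Pool.Agent.H738R3.CZ.PRI
import Pool.Agent.H738R3.CZ.PRS
import Pool.Agent.H738R3.CZ.PRV
import Pool.Agent.H738R3.CZ.R5
import Pool.Agent.H738R3.CZ.REC
import Pool.Agent.H738R3.CZ.ROO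
import Pool.Agent.H738R3.CZ.S5
import Pool.Agent.H738R3.CZ.S5S
import Pool.Agent.H738R3.CZ.SOLV
import Pool.Agent.H738R3.CZ.STB
import Pool.Agent.H738R3.CZ.T5
import Pool.Agent.H738R3.CZ.TE
import Pool.Agent.H738R3.CZ.TRL
import Pool.Agent.H738R3.CZ.V3C
import Pool.Agent.H738R3.CZ.V5
import Pool.Agent.H738R3.CZ.WAT
import Pool.Agent.H738R3.CZ.WT
import Pool.Agent.H738R3.CZ.YTA
import Pool.Agent.H738R3.CZ.ZPF

/-! # Assembly -/

namespace H738CZ

theorem fin_chain  : StCHN ∧ StINI ∧ StLAW ∧ StCPX := by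
  have hREC := tREC
  have hMON := tMON
  have hCHG := tCHG
  have hEX1 := tEX1
  have hEX2 := tEX2
  have hEX3 := tEX3 hEX1
  have hEXA := tEXA hEX1 hEX2 hEX3
  have hEXV := tEXV hEXA
  have hSOLV := tSOLV hREC
  have hOM := tOM
  have hDGJ := tDGJ hREC
  have hNAG := tNAG hOM hDGJ
  have hHAD := tHAD
  have hSTB := tSTB hNAG hHAD
  have hPRS := tPRS hSOLV hSTB hMON
  have hAVD := tAVD
  have hDSC := tDSC hPRS hAVD
  have hTRL := tTRL hCHG hMON
  have hV3C := tV3C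
  have hFAC := tFAC
  have hINT := tINT hCHG hMON
  have hWT := tWT
  have hPRI := tPRI
  have hEXT := tEXT hREC hEXV hWT hPRI hMON hV3C
  have hPRV := tPRV hCHG hSTB hV3C hMON
  have hCRC := tCRC
  have hLIM := tLIM
  have hMDL := tMDL
  have hLOC := tLOC
  have hTE := tTE
  have hZPF := tZPF
  have hPET := tPET
  have hPRD := tPRD
  have hBN := tBN
  have hHV := tHV hPET hPRD
  have hWAT := tWAT
  have hGLU := tGLU
  have hPA1 := tPA1 hZPF hBN hHV hWAT hGLU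
  have hPAR := tPAR hPA1
  have hM4 := tM4 hLOC hTE hPAR
  have h5V := t5V
  have h5F := t5F h5V
  have h5S := t5S h5V hLOC
  have h5T := t5T h5V
  have h5P := t5P h5V h5F h5S h5T
  have h5E := t5E h5P h5V
  have h5G := t5G h5P h5V
  have h5R := t5R
  have hS5 := tS5 h5R h5E h5G
  have hEND := tEND hTRL hFAC hDSC hINT hEXT hPRV hCRC hLIM hMDL hM4 hS5 hMON
  have hCHN := tCHN hEND hDSC hTRL
  have hYTA := tYTA
  have hLAW := tLAW hYTA
  have hROO := tROO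
  have hINI := tINI hLAW hROO
  have hCPX := tCPX
  exact ⟨hCHN, hINI, hLAW, hCPX⟩

theorem fin_inn  : StINN := by
  obtain ⟨hCHN, hINI, hLAW, hCPX⟩ := fin_chain 
  exact tINN hLAW hINI hCPX hCHN

theorem fin_out  : StOUT := by
  obtain ⟨hCHN, hINI, hLAW, hCPX⟩ := fin_chain 
  exact tOUT hINI hCPX hCHN hLAW

end H738CZ
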