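import Pool.Agent.H738R3.CZ.Defs

/-! ROO: extracting a root (proof: helper439) -/

open Complex Set Filter Topology

namespace H738CZ

theorem ROO_DD (f : ℂ → ℂ) (l : ℕ) : (DD (fun _ => 1))^[l] f = iteratedDeriv l f := by
  rw [iteratedDeriv_eq_iterate]
  have h : (DD (fun _ => (1:ℂ))) = deriv := by
    funext g t
    simp [DD]
  rw [h]

theorem ROO_coeff (f : ℂ → ℂ) (t : ℂ) (l : ℕ) :
    PowerSeries.coeff l (Es (fun _ => 1) f t) = iteratedDeriv l f t / (l.factorial : ℂ) := by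
  rw [Es, PowerSeries.coeff_mk, ROO_DD]

theorem ROO_congr {f g : ℂ → ℂ} {t : ℂ} (h : f =ᶠ[𝓝 t] g) :
    Es (fun _ => 1) f t = Es (fun _ => 1) g t := by
  ext l
  rw [ROO_coeff, ROO_coeff, h.iteratedDeriv_eq]

theorem ROO_mul {f g : ℂ → ℂ} {t : ℂ} (hf : AnalyticAt ℂ f t) (hg : AnalyticAt ℂ g t) :
    Es (fun _ => 1) (fun u => f u * g u) t = Es (fun _ => 1) f t * Es (fun _ => 1) g t := by
  ext l
  rw [ROO_coeff, PowerSeries.coeff_mul]
  have h1 : (fun u => f u * g u) = f * g := rfl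
  rw [h1, iteratedDeriv_mul hf.contDiffAt hg.contDiffAt, Finset.sum_div,
    Finset.Nat.sum_antidiagonal_eq_sum_range_succ_mk]
  refine Finset.sum_congr rfl fun i hi => ?_
  have hi' : i ≤ l := Nat.lt_succ_iff.1 (Finset.mem_range.1 hi)
  rw [ROO_coeff, ROO_coeff]
  have h2 : ((l.choose i : ℕ) : ℂ) * (i.factorial : ℂ) * ((l - i).factorial : ℂ) = (l.factorial : ℂ) := by
    exact_mod_cast Nat.choose_mul_factorial_mul_factorial hi'
  have h3 : (l.factorial : ℂ) ≠ 0 := by exact_mod_cast l.factorial_ne_zero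
  have h4 : (i.factorial : ℂ) ≠ 0 := by exact_mod_cast i.factorial_ne_zero
  have h5 : ((l - i).factorial : ℂ) ≠ 0 := by exact_mod_cast (l - i).factorial_ne_zero
  rw [div_mul_div_comm, div_eq_div_iff h3 (mul_ne_zero h4 h5), ← h2]
  ring

theorem ROO_add {f g : ℂ → ℂ} {t : ℂ} (hf : AnalyticAt ℂ f t) (hg : AnalyticAt ℂ g t) :
    Es (fun _ => 1) (fun u => f u + g u) t = Es (fun _ => 1) f t + Es (fun _ => 1) g t := by
  ext l
  rw [ROO_coeff, map_add, ROO_coeff, ROO_coeff]
  have h1 : (fun u => f u + g u) = f + g := rfl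
  rw [h1, iteratedDeriv_add hf.contDiffAt hg.contDiffAt, add_div]

theorem ROO_cmul (c : ℂ) (f : ℂ → ℂ) (t : ℂ) :
    Es (fun _ => 1) (fun u => c * f u) t = PowerSeries.C c * Es (fun _ => 1) f t := by
  ext l
  rw [ROO_coeff, PowerSeries.coeff_C_mul, ROO_coeff, iteratedDeriv_const_mul_field, mul_div_assoc]

theorem ROO_zero (t : ℂ) : Es (fun _ => 1) (fun _ => (0:ℂ)) t = 0 := by
  have h := ROO_cmul 0 (fun _ => (0:ℂ)) t
  simpa using h

theorem ROO_one (t : ℂ) : Es (fun _ => 1) (fun _ => (1:ℂ)) t = 1 := by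
  ext l
  rw [ROO_coeff, iteratedDeriv_const, PowerSeries.coeff_one]
  by_cases h : l = 0
  · subst h; simp
  · simp [h]

theorem ROO_sum {ι : Type} (s : Finset ι) (f : ι → ℂ → ℂ) {t : ℂ}
    (hf : ∀ i ∈ s, AnalyticAt ℂ (f i) t) :
    Es (fun _ => 1) (fun u => ∑ i ∈ s, f i u) t = ∑ i ∈ s, Es (fun _ => 1) (f i) t := by
  classical
  induction s using Finset.induction_on with
  | empty => simpa using ROO_zero t
  | insert x s hx ih =>
    rw [Finset.sum_insert hx, ← ih (fun i hi => hf i (Finset.mem_insert_of_mem hi)),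
      ← ROO_add (hf x (Finset.mem_insert_self _ _))
        (Finset.analyticAt_fun_sum _ fun i hi => hf i (Finset.mem_insert_of_mem hi))]
    congr 1
    funext u
    rw [Finset.sum_insert hx]

theorem ROO_pow {f : ℂ → ℂ} {t : ℂ} (hf : AnalyticAt ℂ f t) (n : ℕ) :
    Es (fun _ => 1) (fun u => f u ^ n) t = (Es (fun _ => 1) f t) ^ n := by
  induction n with
  | zero => simpa using ROO_one t
  | succ n ih =>
    rw [pow_succ, ← ih, ← ROO_mul (f := fun u => f u ^ n) (hf.pow n) hf]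
    congr 1

/-! ### roots of power series -/

theorem ROO_root {R : Type} [CommRing R] [IsDomain R] [CharZero R] (m : ℕ) (hm : 0 < m)
    (A P : PowerSeries R) (hA : PowerSeries.coeff 0 A = 1) (hP : PowerSeries.coeff 0 P = 1)
    (hode : (m : PowerSeries R) * (A * PowerSeries.derivative R P)
      = PowerSeries.derivative R A * P) : P ^ m = A := by
  set Q := P ^ m with hQ
  have hQ1 : A * PowerSeries.derivative R Q = PowerSeries.derivative R A * Q := by
    obtain ⟨k, rfl⟩ : ∃ k, m = k + 1 := ⟨m - 1, by omega⟩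
    rw [hQ, PowerSeries.derivative_pow, Nat.add_sub_cancel, pow_succ]
    calc A * (((k + 1 : ℕ) : PowerSeries R) * P ^ k * PowerSeries.derivative R P)
        = P ^ k * (((k + 1 : ℕ) : PowerSeries R) * (A * PowerSeries.derivative R P)) := by ring
      _ = _ := by rw [hode]; ring
  have hQ0 : PowerSeries.coeff 0 Q = 1 := by
    rw [hQ, PowerSeries.coeff_zero_eq_constantCoeff, map_pow,
      ← PowerSeries.coeff_zero_eq_constantCoeff, hP, one_pow]
  set Δ := Q - A with hΔ
  have hΔ1 : A * PowerSeries.derivative R Δ = PowerSeries.derivative R A * Δ := by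
    rw [hΔ, map_sub, mul_sub, mul_sub, hQ1]
    ring
  have hz : ∀ n, PowerSeries.coeff n Δ = 0 := by
    intro n
    induction n using Nat.strong_induction_on with
    | _ n ih =>
      cases n with
      | zero => rw [hΔ, map_sub, hQ0, hA, sub_self]
      | succ n =>
        have h1 := congrArg (PowerSeries.coeff n) hΔ1
        rw [PowerSeries.coeff_mul, PowerSeries.coeff_mul,
          Finset.Nat.sum_antidiagonal_eq_sum_range_succ_mk,
          Finset.Nat.sum_antidiagonal_eq_sum_range_succ_mk, Finset.sum_range_succ'] at h1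
        have h2 : ∑ k ∈ Finset.range n, PowerSeries.coeff (k + 1) A *
            PowerSeries.coeff (n - (k + 1)) (PowerSeries.derivative R Δ) = 0 := by
          refine Finset.sum_eq_zero fun k hk => ?_
          have := Finset.mem_range.1 hk
          rw [PowerSeries.coeff_derivative, ih (n - (k + 1) + 1) (by omega), zero_mul, mul_zero]
        have h3 : ∑ k ∈ Finset.range n.succ, PowerSeries.coeff k (PowerSeries.derivative R A) *
            PowerSeries.coeff (n - k) Δ = 0 := by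
          refine Finset.sum_eq_zero fun k hk => ?_
          rw [ih (n - k) (by omega), mul_zero]
        rw [h2, h3, hA, Nat.sub_zero, PowerSeries.coeff_derivative, zero_add, one_mul] at h1
        have h4 : ((n : R) + 1) ≠ 0 := by exact_mod_cast n.succ_ne_zero
        exact (mul_eq_zero.1 h1).resolve_right h4
  have : Δ = 0 := by
    ext n
    rw [hz n, map_zero]
  exact sub_eq_zero.1 this

/-- the ODE from the recursion -/
theorem ROO_ode {R : Type} [CommRing R] (m : ℕ) (A P : PowerSeries R)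
    (hA : PowerSeries.coeff 0 A = 1)
    (hrec : ∀ n : ℕ, (m : R) * (n + 1) * PowerSeries.coeff (n + 1) P =
      ∑ k ∈ Finset.range (n + 1), (((k : R) + 1) - m * ((n - k : ℕ) : R)) *
        PowerSeries.coeff (k + 1) A * PowerSeries.coeff (n - k) P) :
    (m : PowerSeries R) * (A * PowerSeries.derivative R P) = PowerSeries.derivative R A * P := by
  ext n
  have e0 : (m : PowerSeries R) = PowerSeries.C (m : R) := by simp
  rw [e0, PowerSeries.coeff_C_mul, PowerSeries.coeff_mul, PowerSeries.coeff_mul,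
    Finset.Nat.sum_antidiagonal_eq_sum_range_succ_mk,
    Finset.Nat.sum_antidiagonal_eq_sum_range_succ_mk, Finset.sum_range_succ']
  simp only [PowerSeries.coeff_derivative, hA, Nat.sub_zero, one_mul]
  have h1 := hrec n
  have h2 : ∑ k ∈ Finset.range (n + 1), (((k : R) + 1) - m * ((n - k : ℕ) : R)) *
        PowerSeries.coeff (k + 1) A * PowerSeries.coeff (n - k) P
      = ∑ k ∈ Finset.range (n + 1), PowerSeries.coeff (k + 1) A * ((k : R) + 1) *
          PowerSeries.coeff (n - k) P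
        - m * ∑ k ∈ Finset.range (n + 1), PowerSeries.coeff (k + 1) A *
          (PowerSeries.coeff (n - k) P * ((n - k : ℕ) : R)) := by
    rw [Finset.mul_sum, ← Finset.sum_sub_distrib]
    refine Finset.sum_congr rfl fun k _ => ?_
    ring
  have h3 : ∑ k ∈ Finset.range (n + 1), PowerSeries.coeff (k + 1) A *
          (PowerSeries.coeff (n - k) P * ((n - k : ℕ) : R))
      = ∑ k ∈ Finset.range n, PowerSeries.coeff (k + 1) A *
          (PowerSeries.coeff (n - (k + 1) + 1) P * (((n - (k + 1) : ℕ) : R) + 1)) := by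
    rw [Finset.sum_range_succ, Nat.sub_self, Nat.cast_zero, mul_zero, mul_zero, add_zero]
    refine Finset.sum_congr rfl fun k hk => ?_
    have hk' := Finset.mem_range.1 hk
    have e1 : n - (k + 1) + 1 = n - k := by omega
    have e2 : ((n - k : ℕ) : R) = ((n - (k + 1) : ℕ) : R) + 1 := by
      rw [← e1]; push_cast; ring
    rw [e1, e2]
  rw [h2, h3] at h1
  rw [mul_add]
  simp only [Nat.succ_eq_add_one]
  linear_combination h1

/-! ### parity -/

theorem ROO_neg_coeff (H : PowerSeries ℂ) (n : ℕ) :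
    PowerSeries.coeff n (PowerSeries.evalNegHom H) = (-1) ^ n * PowerSeries.coeff n H :=
  PowerSeries.coeff_rescale _ _ _

theorem ROO_neg_C (c : ℂ) : PowerSeries.evalNegHom (PowerSeries.C c) = PowerSeries.C c := by
  ext n
  rw [ROO_neg_coeff, PowerSeries.coeff_C]
  split_ifs with h
  · rw [h]; simp
  · simp

theorem ROO_parity (m J : ℕ) (hm : 0 < m) (H : PowerSeries ℂ)
    (h0 : PowerSeries.constantCoeff H ≠ 0)
    (hd : (PowerSeries.X : PowerSeries ℂ) ^ (2 * J) ∣ H ^ m - (PowerSeries.evalNegHom H) ^ m)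
    (n : ℕ) (hn : 2 * n + 1 < 2 * J) : PowerSeries.coeff (2 * n + 1) H = 0 := by
  set K := PowerSeries.evalNegHom H with hK
  have hK0 : PowerSeries.constantCoeff K = PowerSeries.constantCoeff H := by
    have := ROO_neg_coeff H 0
    rw [PowerSeries.coeff_zero_eq_constantCoeff] at this
    simpa using this
  have h1 : (∑ i ∈ Finset.range m, H ^ i * K ^ (m - 1 - i)) * (H - K) = H ^ m - K ^ m :=
    geom_sum₂_mul H K m
  have hu : IsUnit (∑ i ∈ Finset.range m, H ^ i * K ^ (m - 1 - i)) := by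
    rw [PowerSeries.isUnit_iff_constantCoeff, map_sum]
    have h2 : ∀ i ∈ Finset.range m, PowerSeries.constantCoeff (H ^ i * K ^ (m - 1 - i))
        = (PowerSeries.constantCoeff H) ^ (m - 1) := by
      intro i hi
      have hi' := Finset.mem_range.1 hi
      rw [map_mul, map_pow, map_pow, hK0, ← pow_add]
      congr 1
      omega
    rw [Finset.sum_congr rfl h2, Finset.sum_const, Finset.card_range, nsmul_eq_mul]
    exact (mul_ne_zero (by exact_mod_cast hm.ne') (pow_ne_zero _ h0)).isUnit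
  have h3 : (PowerSeries.X : PowerSeries ℂ) ^ (2 * J) ∣ H - K := by
    rw [← h1] at hd
    exact (hu.dvd_mul_left).1 hd
  have h4 := PowerSeries.X_pow_dvd_iff.1 h3 (2 * n + 1) hn
  rw [map_sub, hK, ROO_neg_coeff, Odd.neg_one_pow ⟨n, rfl⟩] at h4
  have h5 : 2 * PowerSeries.coeff (2 * n + 1) H = 0 := by linear_combination h4
  exact (mul_eq_zero.1 h5).resolve_left two_ne_zero

theorem ROO_even (L : ℕ) (G : PowerSeries ℂ)
    (h : ∀ i, i ≤ L → PowerSeries.coeff (2 * i + 1) G = 0) :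
    (PowerSeries.X : PowerSeries ℂ) ^ (2 * (L + 1)) ∣ G - PowerSeries.evalNegHom G := by
  rw [PowerSeries.X_pow_dvd_iff]
  intro m hm
  rw [map_sub, ROO_neg_coeff]
  rcases Nat.even_or_odd' m with ⟨k, rfl | rfl⟩
  · rw [Even.neg_one_pow ⟨k, by ring⟩]; ring
  · rw [h k (by omega)]; ring

theorem ROO_formal (j0 : ℕ) (hj0 : 1 ≤ j0) (β : ℕ → PowerSeries ℂ)
    (Aa Pp : PowerSeries (PowerSeries ℂ)) (S Y : PowerSeries ℂ) (κ : ℂ)
    (hY : (PowerSeries.X : PowerSeries ℂ) ^ 2 ∣ Y) (hY2 : PowerSeries.coeff 2 Y ≠ 0)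
    (hβ0 : ∀ j, 1 ≤ j → j < j0 → β j = 0)
    (hlaw : ∀ J, 1 ≤ J → PowerSeries.coeff (2 * J + 1) (∑ j ∈ Finset.Icc 1 J, β j * Y ^ j) = 0)
    (hA : ∀ i, β j0 * PowerSeries.coeff i Aa = β (j0 + i)) (hP : Pp ^ j0 = Aa)
    (hS : S ^ j0 = PowerSeries.C κ * β j0) (hS0 : PowerSeries.constantCoeff S ≠ 0)
    (hP0 : PowerSeries.coeff 0 Pp = 1) (J : ℕ) (hJ : 1 ≤ J) :
    PowerSeries.coeff (2 * J + 1)
      (∑ j ∈ Finset.Icc 1 J, S * PowerSeries.coeff (j - 1) Pp * Y ^ j) = 0 := by
  obtain ⟨Y1, hY1⟩ := hY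
  -- divisibility of powers of Y
  have hYp : ∀ j, Y ^ j = PowerSeries.X ^ (2 * j) * Y1 ^ j := by
    intro j
    rw [hY1, mul_pow, ← pow_mul]
  have hYd : ∀ j k, k ≤ 2 * j → (PowerSeries.X : PowerSeries ℂ) ^ k ∣ Y ^ j := by
    intro j k hk
    rw [hYp]
    exact Dvd.dvd.mul_right (pow_dvd_pow _ hk) _
  -- the sums G_L
  set G : ℕ → PowerSeries ℂ := fun L => ∑ j ∈ Finset.Icc 1 L, β j * Y ^ j with hG
  have hGodd : ∀ L i, i ≤ L → PowerSeries.coeff (2 * i + 1) (G L) = 0 := by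
    intro L i hi
    have h1 : G L = G i + ∑ j ∈ Finset.Ioc i L, β j * Y ^ j := by
      simp only [hG]
      rw [← Finset.sum_union]
      · congr 1
        ext x
        simp only [Finset.mem_Icc, Finset.mem_union, Finset.mem_Ioc]
        omega
      · rw [Finset.disjoint_left]
        intro x hx hx'
        simp only [Finset.mem_Icc] at hx
        simp only [Finset.mem_Ioc] at hx'
        omega
    have h2 : (PowerSeries.X : PowerSeries ℂ) ^ (2 * i + 2) ∣
        ∑ j ∈ Finset.Ioc i L, β j * Y ^ j := by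
      refine Finset.dvd_sum fun j hj => Dvd.dvd.mul_left (hYd j _ ?_) _
      have := (Finset.mem_Ioc.1 hj).1
      omega
    rw [h1, map_add, PowerSeries.X_pow_dvd_iff.1 h2 (2 * i + 1) (by omega), add_zero]
    rcases Nat.eq_zero_or_pos i with h0 | h0
    · subst h0
      simp [hG]
    · exact hlaw i h0
  -- truncated root
  set Q : PowerSeries ℂ := Polynomial.eval Y (PowerSeries.trunc J Pp) with hQ
  have hQsum : Q = ∑ i ∈ Finset.range J, PowerSeries.coeff i Pp * Y ^ i := by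
    exact PowerSeries.eval₂_trunc_eq_sum_range Y (RingHom.id _) J Pp
  obtain ⟨K, hK⟩ : ∃ K : PowerSeries ℂ,
      Q ^ j0 = ∑ i ∈ Finset.range J, PowerSeries.coeff i Aa * Y ^ i + Y ^ J * K := by
    have h1 : (Polynomial.X : Polynomial (PowerSeries ℂ)) ^ J ∣
        (PowerSeries.trunc J Pp) ^ j0 - PowerSeries.trunc J Aa := by
      rw [Polynomial.X_pow_dvd_iff]
      intro d hd
      have h2 := PowerSeries.trunc_trunc_pow Pp J j0
      rw [hP] at h2
      have h3 := congrArg (fun q : Polynomial (PowerSeries ℂ) => q.coeff d) h2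
      simp only [PowerSeries.coeff_trunc, if_pos hd] at h3
      rw [Polynomial.coeff_sub, PowerSeries.coeff_trunc, if_pos hd, ← h3,
        ← Polynomial.coe_pow, Polynomial.coeff_coe, sub_self]
    obtain ⟨q, hq⟩ := h1
    refine ⟨Polynomial.eval Y q, ?_⟩
    have h4 := congrArg (Polynomial.eval Y) hq
    rw [Polynomial.eval_sub, Polynomial.eval_pow, Polynomial.eval_mul, Polynomial.eval_pow,
      Polynomial.eval_X, sub_eq_iff_eq_add] at h4
    have h5 : Polynomial.eval Y (PowerSeries.trunc J Aa) =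
        ∑ i ∈ Finset.range J, PowerSeries.coeff i Aa * Y ^ i := by
      exact PowerSeries.eval₂_trunc_eq_sum_range Y (RingHom.id _) J Aa
    rw [← hQ] at h4
    rw [h4, h5, add_comm]
  set F : PowerSeries ℂ := ∑ j ∈ Finset.Icc 1 J, S * PowerSeries.coeff (j - 1) Pp * Y ^ j with hF
  have hFQ : F = S * Y * Q := by
    rw [hF, hQsum, Finset.mul_sum, ← Finset.Ico_add_one_right_eq_Icc, Finset.sum_Ico_eq_sum_range,
      Nat.add_sub_cancel]
    refine Finset.sum_congr rfl fun i _ => ?_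
    rw [Nat.add_sub_cancel_left, pow_add, pow_one]
    ring
  have hFj : F ^ j0 = PowerSeries.C κ * G (j0 + J - 1) +
      PowerSeries.C κ * β j0 * K * Y ^ (j0 + J) := by
    have h1 : G (j0 + J - 1) = ∑ i ∈ Finset.range J, β (j0 + i) * Y ^ (j0 + i) := by
      simp only [hG]
      rw [← Finset.sum_subset (s₁ := Finset.Ico j0 (j0 + J)), Finset.sum_Ico_eq_sum_range,
        Nat.add_sub_cancel_left]
      · intro x hx
        rw [Finset.mem_Ico] at hx
        rw [Finset.mem_Icc]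
        omega
      · intro x hx hx'
        rw [Finset.mem_Icc] at hx
        rw [Finset.mem_Ico, not_and_or] at hx'
        rw [hβ0 x hx.1 (by omega), zero_mul]
    rw [hFQ, mul_pow, mul_pow, hS, hK, h1]
    have h2 : ∑ i ∈ Finset.range J, β (j0 + i) * Y ^ (j0 + i) =
        β j0 * Y ^ j0 * ∑ i ∈ Finset.range J, PowerSeries.coeff i Aa * Y ^ i := by
      rw [Finset.mul_sum]
      refine Finset.sum_congr rfl fun i _ => ?_
      rw [← hA, pow_add]
      ring
    rw [h2, pow_add]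
    ring
  have hd1 : (PowerSeries.X : PowerSeries ℂ) ^ (2 * (j0 + J)) ∣
      F ^ j0 - (PowerSeries.evalNegHom F) ^ j0 := by
    rw [← map_pow, hFj, map_add, map_mul, map_mul, ROO_neg_C]
    have h1 : (PowerSeries.X : PowerSeries ℂ) ^ (2 * (j0 + J)) ∣
        G (j0 + J - 1) - PowerSeries.evalNegHom (G (j0 + J - 1)) := by
      have := ROO_even (j0 + J - 1) (G (j0 + J - 1)) (fun i hi => hGodd _ i hi)
      have e : j0 + J - 1 + 1 = j0 + J := by omega
      rwa [e] at this
    have h2 : (PowerSeries.X : PowerSeries ℂ) ^ (2 * (j0 + J)) ∣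
        PowerSeries.C κ * β j0 * K * Y ^ (j0 + J) := Dvd.dvd.mul_left (hYd _ _ le_rfl) _
    have h3 : (PowerSeries.X : PowerSeries ℂ) ^ (2 * (j0 + J)) ∣
        PowerSeries.evalNegHom (PowerSeries.C κ * β j0 * K) *
          PowerSeries.evalNegHom (Y ^ (j0 + J)) := by
      apply Dvd.dvd.mul_left
      have e : (-PowerSeries.X : PowerSeries ℂ) ^ (2 * (j0 + J)) =
          PowerSeries.X ^ (2 * (j0 + J)) := by rw [pow_mul, neg_sq, ← pow_mul]
      rw [hYp, map_mul, map_pow, PowerSeries.evalNegHom_X, e]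
      exact dvd_mul_right _ _
    have h4 : PowerSeries.C κ * G (j0 + J - 1) + PowerSeries.C κ * β j0 * K * Y ^ (j0 + J) -
        (PowerSeries.C κ * PowerSeries.evalNegHom (G (j0 + J - 1)) +
          PowerSeries.evalNegHom (PowerSeries.C κ * β j0 * K) *
          PowerSeries.evalNegHom (Y ^ (j0 + J))) =
        PowerSeries.C κ * (G (j0 + J - 1) - PowerSeries.evalNegHom (G (j0 + J - 1))) +
        PowerSeries.C κ * β j0 * K * Y ^ (j0 + J) -
          PowerSeries.evalNegHom (PowerSeries.C κ * β j0 * K) *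
          PowerSeries.evalNegHom (Y ^ (j0 + J)) := by ring
    rw [h4]
    exact dvd_sub (dvd_add (Dvd.dvd.mul_left h1 _) h2) h3
  set H : PowerSeries ℂ := S * Y1 * Q with hH
  have hFH : F = PowerSeries.X ^ 2 * H := by
    rw [hFQ, hH, hY1]; ring
  have hd2 : (PowerSeries.X : PowerSeries ℂ) ^ (2 * J) ∣
      H ^ j0 - (PowerSeries.evalNegHom H) ^ j0 := by
    have e1 : ∀ A B : PowerSeries ℂ, (PowerSeries.X ^ 2 * A) ^ j0 - (PowerSeries.X ^ 2 * B) ^ j0 =
        PowerSeries.X ^ (2 * j0) * (A ^ j0 - B ^ j0) := by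
      intro A B
      rw [mul_pow, mul_pow, ← pow_mul]
      ring
    rw [hFH, map_mul, map_pow, PowerSeries.evalNegHom_X, neg_sq, e1, mul_add, pow_add] at hd1
    exact (mul_dvd_mul_iff_left (pow_ne_zero _ PowerSeries.X_ne_zero)).1 hd1
  have hH0 : PowerSeries.constantCoeff H ≠ 0 := by
    rw [hH, map_mul, map_mul]
    refine mul_ne_zero (mul_ne_zero hS0 ?_) ?_
    · have : PowerSeries.coeff 2 Y = PowerSeries.coeff 0 Y1 := by
        rw [hY1]
        exact PowerSeries.coeff_X_pow_mul Y1 2 0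
      rw [← PowerSeries.coeff_zero_eq_constantCoeff_apply, ← this]
      exact hY2
    · have : PowerSeries.constantCoeff Q = 1 := by
        obtain ⟨k, rfl⟩ : ∃ k, J = k + 1 := ⟨J - 1, by omega⟩
        have hc : PowerSeries.constantCoeff Y = 0 := by
          rw [hY1, map_mul, map_pow, PowerSeries.constantCoeff_X]
          simp
        rw [hQsum, map_sum, Finset.sum_range_succ', hP0]
        simp [hc]
      rw [this]
      exact one_ne_zero
  have hfin := ROO_parity j0 J (by omega) H hH0 hd2 (J - 1) (by omega)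
  rw [hFH]
  have e : 2 * J + 1 = (2 * (J - 1) + 1) + 2 := by omega
  rw [e, PowerSeries.coeff_X_pow_mul]
  exact hfin

/-! ### the root as a family of functions -/

/-- coefficients of the `m`-th root of `1 + A 1 y + A 2 y² + …` -/
noncomputable def ROO_p (m : ℕ) (A : ℕ → ℂ → ℂ) : ℕ → ℂ → ℂ
  | 0 => fun _ => 1
  | n + 1 => fun t => ((m : ℂ) * (n + 1))⁻¹ * ∑ k : Fin (n + 1),
      (((k : ℕ) : ℂ) + 1 - m * ((n - (k : ℕ) : ℕ) : ℂ)) * A ((k : ℕ) + 1) t *
        ROO_p m A (n - (k : ℕ)) t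
  termination_by n => n

theorem ROO_p_zero (m : ℕ) (A : ℕ → ℂ → ℂ) : ROO_p m A 0 = fun _ => 1 := by
  rw [ROO_p]

theorem ROO_p_succ (m : ℕ) (A : ℕ → ℂ → ℂ) (n : ℕ) (t : ℂ) :
    ROO_p m A (n + 1) t = ((m : ℂ) * (n + 1))⁻¹ * ∑ k ∈ Finset.range (n + 1),
      ((k : ℂ) + 1 - m * ((n - k : ℕ) : ℂ)) * A (k + 1) t * ROO_p m A (n - k) t := by
  rw [ROO_p, ← Fin.sum_univ_eq_sum_range
    (fun k => ((k : ℂ) + 1 - m * ((n - k : ℕ) : ℂ)) * A (k + 1) t * ROO_p m A (n - k) t)]

theorem ROO_p_analytic (m : ℕ) (A : ℕ → ℂ → ℂ) (t : ℂ) (hA : ∀ k, AnalyticAt ℂ (A k) t) (n : ℕ) :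
    AnalyticAt ℂ (ROO_p m A n) t := by
  induction n using Nat.strong_induction_on with
  | _ n ih =>
    cases n with
    | zero => rw [ROO_p_zero]; exact analyticAt_const
    | succ n =>
      have h1 : ROO_p m A (n + 1) = fun t => ((m : ℂ) * (n + 1))⁻¹ * ∑ k ∈ Finset.range (n + 1),
          ((k : ℂ) + 1 - m * ((n - k : ℕ) : ℂ)) * A (k + 1) t * ROO_p m A (n - k) t :=
        funext fun t => ROO_p_succ m A n t
      rw [h1]
      refine analyticAt_const.mul (Finset.analyticAt_fun_sum _ fun k hk => ?_)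
      exact (analyticAt_const.mul (hA _)).mul (ih _ (by omega))

theorem ROO_p_rec (m : ℕ) (hm : 0 < m) (A : ℕ → ℂ → ℂ) (n : ℕ) (t : ℂ) :
    (m : ℂ) * (n + 1) * ROO_p m A (n + 1) t = ∑ k ∈ Finset.range (n + 1),
      ((k : ℂ) + 1 - m * ((n - k : ℕ) : ℂ)) * A (k + 1) t * ROO_p m A (n - k) t := by
  have h1 : (m : ℂ) ≠ 0 := by exact_mod_cast hm.ne'
  have h2 : ((n : ℂ) + 1) ≠ 0 := by exact_mod_cast n.succ_ne_zero
  rw [ROO_p_succ, mul_inv_cancel_left₀ (mul_ne_zero h1 h2)]

theorem ROO_p_pow (m : ℕ) (hm : 0 < m) (A : ℕ → ℂ → ℂ) (t : ℂ) (hA : ∀ k, AnalyticAt ℂ (A k) t)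
    (hA0 : A 0 =ᶠ[𝓝 t] fun _ => 1) :
    (PowerSeries.mk fun n => Es (fun _ => 1) (ROO_p m A n) t) ^ m =
      PowerSeries.mk fun n => Es (fun _ => 1) (A n) t := by
  have hp := ROO_p_analytic m A t hA
  have h0 : PowerSeries.coeff 0 (PowerSeries.mk fun n => Es (fun _ => 1) (A n) t) = 1 := by
    rw [PowerSeries.coeff_mk, ROO_congr hA0, ROO_one]
  have : CharZero (PowerSeries ℂ) :=
    charZero_of_injective_algebraMap (algebraMap ℂ (PowerSeries ℂ)).injective
  refine ROO_root m hm _ _ h0 ?_ (ROO_ode m _ _ h0 ?_)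
  · rw [PowerSeries.coeff_mk, ROO_p_zero, ROO_one]
  · intro n
    simp only [PowerSeries.coeff_mk]
    have h1 : Es (fun _ => 1) (fun u => ((m : ℂ) * (n + 1)) * ROO_p m A (n + 1) u) t =
        Es (fun _ => 1) (fun u => ∑ k ∈ Finset.range (n + 1),
          ((k : ℂ) + 1 - m * ((n - k : ℕ) : ℂ)) * (A (k + 1) u * ROO_p m A (n - k) u)) t := by
      congr 1
      funext u
      rw [ROO_p_rec m hm]
      exact Finset.sum_congr rfl fun k _ => by ring
    rw [ROO_cmul, ROO_sum (Finset.range (n + 1)) (fun (k : ℕ) (u : ℂ) =>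
      ((k : ℂ) + 1 - m * ((n - k : ℕ) : ℂ)) * (A (k + 1) u * ROO_p m A (n - k) u))
      (fun k _ => analyticAt_const.mul ((hA _).mul (hp _)))] at h1
    have e1 : (m : PowerSeries ℂ) * ((n : PowerSeries ℂ) + 1) =
        PowerSeries.C ((m : ℂ) * (n + 1)) := by simp
    rw [e1, h1]
    refine Finset.sum_congr rfl fun k _ => ?_
    rw [ROO_cmul, ROO_mul (hA _) (hp _)]
    have e2 : (k : PowerSeries ℂ) + 1 - (m : PowerSeries ℂ) * ((n - k : ℕ) : PowerSeries ℂ) =
        PowerSeries.C ((k : ℂ) + 1 - m * ((n - k : ℕ) : ℂ)) := by simp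
    rw [e2, mul_assoc]

theorem ROO_geom (M s : ℝ) (n : ℕ) :
    ∑ k ∈ Finset.range (n + 1), M * s ^ (k + 1) * (s * (1 + M)) ^ (n - k) =
      (s * (1 + M)) ^ (n + 1) - s ^ (n + 1) := by
  induction n with
  | zero => simp; ring
  | succ n ih =>
    rw [Finset.sum_range_succ, Nat.sub_self, pow_zero, mul_one]
    have h1 : ∑ k ∈ Finset.range (n + 1), M * s ^ (k + 1) * (s * (1 + M)) ^ (n + 1 - k) =
        (s * (1 + M)) * ∑ k ∈ Finset.range (n + 1), M * s ^ (k + 1) * (s * (1 + M)) ^ (n - k) := by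
      rw [Finset.mul_sum]
      refine Finset.sum_congr rfl fun k hk => ?_
      have e : n + 1 - k = (n - k) + 1 := by
        have := Finset.mem_range.1 hk
        omega
      rw [e, pow_succ]
      ring
    rw [h1, ih]
    ring

theorem ROO_p_bound (m : ℕ) (hm : 0 < m) (A : ℕ → ℂ → ℂ) (t : ℂ) (M s : ℝ) (hM : 0 ≤ M)
    (hs : 0 ≤ s) (hA : ∀ k, ‖A (k + 1) t‖ ≤ M * s ^ (k + 1)) (n : ℕ) :
    ‖ROO_p m A n t‖ ≤ (s * (1 + M)) ^ n := by
  induction n using Nat.strong_induction_on with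
  | _ n ih =>
    cases n with
    | zero => rw [ROO_p_zero]; simp
    | succ n =>
      have hm' : (1 : ℝ) ≤ m := by exact_mod_cast hm
      rw [ROO_p_succ, norm_mul, norm_inv]
      have e0 : ‖(m : ℂ) * ((n : ℂ) + 1)‖ = m * ((n : ℝ) + 1) := by
        rw [norm_mul, Complex.norm_natCast]
        congr 1
        exact_mod_cast Complex.norm_natCast (n + 1)
      have hpos : 0 < (m : ℝ) * ((n : ℝ) + 1) := by positivity
      rw [e0, inv_mul_le_iff₀ hpos]
      have h1 : ‖∑ k ∈ Finset.range (n + 1),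
          ((k : ℂ) + 1 - m * ((n - k : ℕ) : ℂ)) * A (k + 1) t * ROO_p m A (n - k) t‖ ≤
          ∑ k ∈ Finset.range (n + 1), (m * ((n : ℝ) + 1)) *
            (M * s ^ (k + 1) * (s * (1 + M)) ^ (n - k)) := by
        refine norm_sum_le_of_le _ fun k hk => ?_
        have hk' : k ≤ n := Nat.lt_succ_iff.1 (Finset.mem_range.1 hk)
        have h2 : ‖(k : ℂ) + 1 - m * ((n - k : ℕ) : ℂ)‖ ≤ m * ((n : ℝ) + 1) := by
          have e1 : (k : ℂ) + 1 - m * ((n - k : ℕ) : ℂ) =
              (((k : ℝ) + 1 - m * ((n - k : ℕ) : ℝ) : ℝ) : ℂ) := by push_cast; ring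
          rw [e1, Complex.norm_real, Real.norm_eq_abs, abs_le]
          have h3 : ((n - k : ℕ) : ℝ) = n - k := by rw [Nat.cast_sub hk']
          have h4 : (k : ℝ) ≤ n := by exact_mod_cast hk'
          have h5 : (0 : ℝ) ≤ k := Nat.cast_nonneg k
          rw [h3]
          constructor <;> nlinarith
        rw [norm_mul, norm_mul, mul_assoc]
        refine mul_le_mul h2 ?_ (by positivity) hpos.le
        exact mul_le_mul (hA k) (ih _ (by omega)) (norm_nonneg _) (by positivity)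
      refine h1.trans ?_
      rw [← Finset.mul_sum, ROO_geom]
      refine mul_le_mul_of_nonneg_left ?_ hpos.le
      have : 0 ≤ s ^ (n + 1) := by positivity
      linarith

/-! ### the series `Ys` -/

theorem ROO_Y (kc : ℕ → ℂ) (hk : Ker kc) (ρ : ℂ → ℂ) (t : ℂ) :
    PowerSeries.coeff 0 (Ys kc (fun _ => 1) ρ t) = 0 ∧
    PowerSeries.coeff 1 (Ys kc (fun _ => 1) ρ t) = 0 ∧
    PowerSeries.coeff 2 (Ys kc (fun _ => 1) ρ t) = ρ t / 2 ∧
    PowerSeries.coeff 3 (Ys kc (fun _ => 1) ρ t) = deriv ρ t / 6 := by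
  have k0 : kc 0 = 0 := hk.even 0
  have k2 : kc 2 = 0 := hk.even 1
  have k1 : kc 1 = 1 := hk.one
  refine ⟨?_, ?_, ?_, ?_⟩
  · simp [Ys]
  · simp [Ys, k0]
  · rw [Ys, PowerSeries.coeff_mk]
    simp [Finset.sum_range_succ, k0, k1, Nat.factorial]
  · rw [Ys, PowerSeries.coeff_mk]
    simp [Finset.sum_range_succ, k0, k1, k2, Nat.factorial, DD]

theorem ROO_Ydvd (kc : ℕ → ℂ) (hk : Ker kc) (ρ : ℂ → ℂ) (t : ℂ) :
    (PowerSeries.X : PowerSeries ℂ) ^ 2 ∣ Ys kc (fun _ => 1) ρ t := by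
  rw [PowerSeries.X_pow_dvd_iff]
  intro m hm
  obtain ⟨h0, h1, _, _⟩ := ROO_Y kc hk ρ t
  interval_cases m
  · exact h0
  · exact h1

theorem ROO_lead (kc : ℕ → ℂ) (hk : Ker kc) (ρ b : ℂ → ℂ) (t : ℂ) (J : ℕ)
    (h : PowerSeries.coeff (2 * J + 1) (Es (fun _ => 1) b t * (Ys kc (fun _ => 1) ρ t) ^ J) = 0) :
    deriv b t * (ρ t / 2) ^ J + b t * (J * (deriv ρ t / 6) * (ρ t / 2) ^ (J - 1)) = 0 := by
  obtain ⟨Y1, hY1⟩ := ROO_Ydvd kc hk ρ t
  obtain ⟨_, _, h2, h3⟩ := ROO_Y kc hk ρ t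
  have c0 : PowerSeries.coeff 0 Y1 = ρ t / 2 := by
    rw [← h2, hY1]
    exact (PowerSeries.coeff_X_pow_mul Y1 2 0).symm
  have c1 : PowerSeries.coeff 1 Y1 = deriv ρ t / 6 := by
    rw [← h3, hY1]
    exact (PowerSeries.coeff_X_pow_mul Y1 2 1).symm
  have e1 : Es (fun _ => 1) b t * (Ys kc (fun _ => 1) ρ t) ^ J =
      PowerSeries.X ^ (2 * J) * (Es (fun _ => 1) b t * Y1 ^ J) := by
    rw [hY1, mul_pow, ← pow_mul]; ring
  rw [e1, add_comm, PowerSeries.coeff_X_pow_mul, PowerSeries.coeff_one_mul,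
    PowerSeries.coeff_one_pow] at h
  rw [PowerSeries.coeff_zero_eq_constantCoeff] at c0
  rw [map_pow, c0, c1, ← PowerSeries.coeff_zero_eq_constantCoeff_apply (Es _ _ _), ROO_coeff,
    ROO_coeff, iteratedDeriv_one, iteratedDeriv_zero] at h
  simp only [Nat.factorial, Nat.cast_one, div_one, mul_one, zero_add, Nat.succ_eq_add_one] at h
  linear_combination h

/-! ### assembly -/

theorem tROO : StROO := by
  intro kc hk ρ r0 a b η M r hB hBase hlaw hex
  set V := Metric.ball a η with hV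
  have hVo : IsOpen V := Metric.isOpen_ball
  have hVp : IsPreconnected V := (convex_ball a η).isPreconnected
  have haV : a ∈ V := Metric.mem_ball_self hB.η0
  have hban : ∀ j, ∀ t ∈ V, AnalyticAt ℂ (b j) t := fun j t ht =>
    (hB.df j).analyticAt (hVo.mem_nhds ht)
  have hran : ∀ t ∈ V, AnalyticAt ℂ r0 t := fun t ht => hBase.rd.analyticAt (hVo.mem_nhds ht)
  have hrin : ∀ t ∈ V, AnalyticAt ℂ (fun u => (r0 u)⁻¹) t := fun t ht =>
    (hran t ht).inv (hBase.rn t ht)
  -- the first nonzero coefficient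
  classical
  obtain ⟨hj1, t1, ht1, hbt1⟩ := Nat.find_spec hex
  have hmin : ∀ j, 1 ≤ j → j < Nat.find hex → ∀ t ∈ V, b j t = 0 := by
    intro j hj hlt t ht
    by_contra hne
    exact Nat.find_min hex hlt ⟨hj, t, ht, hne⟩
  set j0 := Nat.find hex with hj0
  have hEz : ∀ j, 1 ≤ j → j < j0 → ∀ t ∈ V, Es (fun _ => 1) (b j) t = 0 := by
    intro j hj hlt t ht
    rw [← ROO_zero t]
    apply ROO_congr
    filter_upwards [hVo.mem_nhds ht] with u hu using hmin j hj hlt u hu
  -- the leading coefficient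
  have hconst : ∀ t ∈ V, b j0 t * r0 t ^ j0 = b j0 a * r0 a ^ j0 := by
    intro t ht
    refine hVo.is_const_of_deriv_eq_zero hVp (f := fun u => b j0 u * r0 u ^ j0)
      ((hB.df j0).mul (hBase.rd.pow _)) (fun u hu => ?_) ht haV
    have h1 := hlaw j0 hj1 u hu
    rw [Finset.sum_eq_single j0] at h1
    · have h2 := ROO_lead kc hk ρ (b j0) u j0 h1
      have hr : DifferentiableAt ℂ r0 u := (hran u hu).differentiableAt
      have hb : DifferentiableAt ℂ (b j0) u := (hban j0 u hu).differentiableAt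
      have hρ : deriv ρ u = 3 * r0 u ^ 2 * deriv r0 u := by
        have e1 : ρ =ᶠ[𝓝 u] fun v => r0 v ^ 3 := by
          filter_upwards [hVo.mem_nhds hu] with v hv using hBase.cube v hv
        rw [e1.deriv_eq, deriv_fun_pow hr]
        norm_num
      have hrn := hBase.rn u hu
      rw [hρ, hBase.cube u hu] at h2
      obtain ⟨k, hk'⟩ : ∃ k, j0 = k + 1 := ⟨j0 - 1, by omega⟩
      have h3 : (r0 u ^ 3 / 2) ^ k * (r0 u ^ 2 / 2) *
          (deriv (b j0) u * r0 u + b j0 u * (j0 * deriv r0 u)) = 0 := by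
        rw [hk', Nat.add_sub_cancel, pow_succ] at h2
        rw [hk']
        linear_combination h2
      have h4 : deriv (b j0) u * r0 u + b j0 u * (j0 * deriv r0 u) = 0 := by
        refine (mul_eq_zero.1 h3).resolve_left ?_
        refine mul_ne_zero (pow_ne_zero _ ?_) ?_
        · exact div_ne_zero (pow_ne_zero _ hrn) two_ne_zero
        · exact div_ne_zero (pow_ne_zero _ hrn) two_ne_zero
      show deriv (fun u => b j0 u * r0 u ^ j0) u = 0
      rw [deriv_fun_mul hb (hr.fun_pow _), deriv_fun_pow hr]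
      rw [hk', Nat.add_sub_cancel]
      rw [hk'] at h4
      linear_combination (r0 u) ^ k * h4
    · intro j hj hne
      have hj' := Finset.mem_Icc.1 hj
      rw [hEz j hj'.1 (by omega) u hu, zero_mul]
    · intro h
      exact absurd (Finset.mem_Icc.2 ⟨hj1, le_rfl⟩) h
  set c0 := b j0 a * r0 a ^ j0 with hc0
  have hc0n : c0 ≠ 0 := by
    rw [← hconst t1 ht1]
    exact mul_ne_zero hbt1 (pow_ne_zero _ (hBase.rn t1 ht1))
  have hbn : ∀ t ∈ V, b j0 t ≠ 0 := by
    intro t ht h0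
    apply hc0n
    rw [← hconst t ht, h0, zero_mul]
  have hbinv : ∀ t ∈ V, (b j0 t)⁻¹ = r0 t ^ j0 / c0 := by
    intro t ht
    rw [← hconst t ht]
    have h1 := hbn t ht
    have h2 := hBase.rn t ht
    field_simp
  have hbr : ∀ t ∈ V, ((r0 t)⁻¹) ^ j0 = b j0 t / c0 := by
    intro t ht
    rw [← hconst t ht, inv_pow]
    have h1 := hbn t ht
    have h2 := hBase.rn t ht
    field_simp
  -- the quotient coefficients
  set A : ℕ → ℂ → ℂ := fun i u => b (j0 + i) u * (b j0 u)⁻¹ with hA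
  have hAan : ∀ t ∈ V, ∀ k, AnalyticAt ℂ (A k) t := fun t ht k =>
    (hban _ t ht).mul ((hban _ t ht).inv (hbn t ht))
  have hA0 : ∀ t ∈ V, A 0 =ᶠ[𝓝 t] fun _ => 1 := by
    intro t ht
    filter_upwards [hVo.mem_nhds ht] with u hu
    show b (j0 + 0) u * (b j0 u)⁻¹ = 1
    rw [add_zero, mul_inv_cancel₀ (hbn u hu)]
  set p := ROO_p j0 A with hp
  have hpan : ∀ t ∈ V, ∀ n, AnalyticAt ℂ (p n) t := fun t ht n =>
    ROO_p_analytic j0 A t (hAan t ht) n
  set g : ℕ → ℂ → ℂ := fun j u => 2 * r0 u ^ (j - 1) * p (j - 1) u with hg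
  have hgan : ∀ t ∈ V, ∀ j, AnalyticAt ℂ (g j) t := fun t ht j =>
    (analyticAt_const.mul ((hran t ht).pow _)).mul (hpan t ht _)
  have hsub : Metric.ball a (η / 2) ⊆ V := Metric.ball_subset_ball (by linarith [hB.η0])
  refine ⟨η / 2, half_pos hB.η0, g, ⟨⟨Metric.isOpen_ball, ?_, ?_, ?_, ?_, ?_⟩, ?_, ?_, ?_⟩, ?_⟩
  · exact hBase.dd.mono hsub
  · intro t ht; exact hBase.d0 t (hsub ht)
  · exact hBase.rd.mono hsub
  · intro t ht; exact hBase.rn t (hsub ht)
  · intro t ht; exact hBase.cube t (hsub ht)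
  · intro j _ t ht
    exact (hgan t (hsub ht) j).differentiableAt.differentiableWithinAt
  · intro t _
    simp [hg, hp, ROO_p_zero]
  · -- the law
    intro J hJ t ht
    have htV := hsub ht
    obtain ⟨_, _, hY2, _⟩ := ROO_Y kc hk ρ t
    have hf := ROO_formal j0 hj1 (fun j => Es (fun _ => 1) (b j) t)
      (PowerSeries.mk fun n => Es (fun _ => 1) (A n) t)
      (PowerSeries.mk fun n => Es (fun _ => 1) (p n) t)
      (Es (fun _ => 1) (fun u => 2 * (r0 u)⁻¹) t) (Ys kc (fun _ => 1) ρ t) (2 ^ j0 / c0)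
      (ROO_Ydvd kc hk ρ t) ?_ (fun j hj hlt => hEz j hj hlt t htV)
      (fun J hJ => hlaw J hJ t htV) ?_ (ROO_p_pow j0 (by omega) A t (hAan t htV) (hA0 t htV))
      ?_ ?_ ?_ J hJ
    · rw [Cf, ← hf]
      congr 1
      refine Finset.sum_congr rfl fun j hj => ?_
      have hj' := Finset.mem_Icc.1 hj
      rw [Tm, PowerSeries.coeff_mk, ← ROO_mul (f := fun u => 2 * (r0 u)⁻¹)
        (analyticAt_const.mul (hrin t htV)) (hpan t htV _)]
      congr 1
      apply ROO_congr
      filter_upwards [hVo.mem_nhds htV] with u hu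
      have hrn := hBase.rn u hu
      obtain ⟨k, rfl⟩ : ∃ k, j = k + 1 := ⟨j - 1, by omega⟩
      simp only [hg, Nat.add_sub_cancel, pow_succ]
      have e1 : r0 u ^ k * ((r0 u)⁻¹) ^ k = 1 := by
        rw [← mul_pow, mul_inv_cancel₀ hrn, one_pow]
      linear_combination (2 * p k u * (r0 u)⁻¹) * e1
    · rw [hY2, hBase.cube t htV]
      exact div_ne_zero (pow_ne_zero _ (hBase.rn t htV)) two_ne_zero
    · intro i
      rw [PowerSeries.coeff_mk, ← ROO_mul (hban _ t htV) (hAan t htV i)]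
      apply ROO_congr
      filter_upwards [hVo.mem_nhds htV] with u hu
      show b j0 u * (b (j0 + i) u * (b j0 u)⁻¹) = b (j0 + i) u
      have := hbn u hu
      field_simp
    · rw [← ROO_pow (f := fun u => 2 * (r0 u)⁻¹) (analyticAt_const.mul (hrin t htV)),
        ← ROO_cmul]
      apply ROO_congr
      filter_upwards [hVo.mem_nhds htV] with u hu
      rw [mul_pow, hbr u hu]
      ring
    · rw [← PowerSeries.coeff_zero_eq_constantCoeff_apply, ROO_coeff, iteratedDeriv_zero]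
      simp only [Nat.factorial, Nat.cast_one, div_one]
      exact mul_ne_zero two_ne_zero (inv_ne_zero (hBase.rn t htV))
    · rw [PowerSeries.coeff_mk, hp, ROO_p_zero, ROO_one]
  · -- the bound
    have hcl : Metric.closedBall a (η / 2) ⊆ V :=
      Metric.closedBall_subset_ball (by linarith [hB.η0])
    obtain ⟨R0, hR0⟩ := (isCompact_closedBall a (η / 2)).exists_bound_of_continuousOn
      (hBase.rd.continuousOn.mono hcl)
    set R := max R0 1 with hR
    have hR1 : 1 ≤ R := le_max_right _ _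
    have hRb : ∀ t ∈ Metric.ball a (η / 2), ‖r0 t‖ ≤ R := fun t ht =>
      (hR0 t (Metric.ball_subset_closedBall ht)).trans (le_max_left _ _)
    have hM : 0 ≤ M := by
      have := hB.bd 0 a haV
      simp only [pow_zero, mul_one] at this
      exact (norm_nonneg _).trans this
    have hr := hB.r0
    set M' := M * (r⁻¹) ^ j0 * (R ^ j0 / ‖c0‖) with hM'
    have hM'0 : 0 ≤ M' := by positivity
    set C := (r⁻¹) * (1 + M') with hC
    have hC0 : 0 ≤ C := by positivity
    refine ⟨2 * R * (1 + C), 0, ?_, le_rfl, zero_lt_one, ?_⟩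
    · nlinarith
    intro j hj t ht
    rw [Real.rpow_zero, mul_one]
    have htV := hsub ht
    have hAb : ∀ k, ‖A (k + 1) t‖ ≤ M' * (r⁻¹) ^ (k + 1) := by
      intro k
      show ‖b (j0 + (k + 1)) t * (b j0 t)⁻¹‖ ≤ _
      rw [norm_mul, hbinv t htV, norm_div, norm_pow]
      calc ‖b (j0 + (k + 1)) t‖ * (‖r0 t‖ ^ j0 / ‖c0‖)
          ≤ (M * (r⁻¹) ^ (j0 + (k + 1))) * (R ^ j0 / ‖c0‖) := by
            refine mul_le_mul (hB.bd _ t htV) ?_ (by positivity) (by positivity)
            exact div_le_div_of_nonneg_right (pow_le_pow_left₀ (norm_nonneg _) (hRb t ht) _)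
              (norm_nonneg _)
        _ = _ := by rw [hM', pow_add]; ring
    have hpb := ROO_p_bound j0 (by omega) A t M' (r⁻¹) hM'0 (by positivity) hAb (j - 1)
    obtain ⟨k, rfl⟩ : ∃ k, j = k + 1 := ⟨j - 1, by omega⟩
    show ‖2 * r0 t ^ (k + 1 - 1) * p (k + 1 - 1) t‖ ≤ _
    rw [Nat.add_sub_cancel] at hpb ⊢
    rw [norm_mul, norm_mul, norm_pow]
    have h2 : ‖(2 : ℂ)‖ = 2 := by norm_num
    rw [h2]
    calc 2 * ‖r0 t‖ ^ k * ‖p k t‖ ≤ 2 * R ^ k * C ^ k := by
          refine mul_le_mul ?_ hpb (norm_nonneg _) (by positivity)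
          exact mul_le_mul_of_nonneg_left (pow_le_pow_left₀ (norm_nonneg _) (hRb t ht) _)
            (by norm_num)
      _ ≤ 2 * R ^ k * (1 + C) ^ k := by
          refine mul_le_mul_of_nonneg_left (pow_le_pow_left₀ hC0 (by linarith) _) (by positivity)
      _ = 2 * (R * (1 + C)) ^ k := by rw [mul_pow]; ring
      _ ≤ (2 * R * (1 + C)) * (2 * R * (1 + C)) ^ k := by
          have h3 : (1 : ℝ) ≤ R * (1 + C) := by nlinarith
          have h4 : (R * (1 + C)) ^ k ≤ (2 * R * (1 + C)) ^ k :=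
            pow_le_pow_left₀ (by linarith) (by nlinarith) _
          have h5 : (0 : ℝ) ≤ (R * (1 + C)) ^ k := by positivity
          nlinarith
      _ = (2 * R * (1 + C)) ^ (k + 1) := by rw [pow_succ]; ring


end H738CZ
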